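import Mathlib

/-! Bundle of small proof modules (one section per former module). -/

section

/-!
# Common definitions for the hyperbolic bellows theorem
-/

set_option autoImplicit false

open MeasureTheory

namespace Pool.Agent.Work.MP_1c91cf_gt

/-- Gaussian integral over the positive orthant. -/
noncomputable def J {N : ℕ} (Q : Matrix (Fin N) (Fin N) ℝ) : ℝ :=
  ∫ l : Fin N → ℝ in {l | ∀ i, 0 < l i}, Real.exp (-(1 / 2) * ∑ i, ∑ j, Q i j * l i * l j)

/-- Gaussian integral over the positive orthant with weight `l a`. -/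
noncomputable def J1 {N : ℕ} (Q : Matrix (Fin N) (Fin N) ℝ) (a : Fin N) : ℝ :=
  ∫ l : Fin N → ℝ in {l | ∀ i, 0 < l i},
    l a * Real.exp (-(1 / 2) * ∑ i, ∑ j, Q i j * l i * l j)

/-- Gaussian integral over the positive orthant with weight `l a * l b`. -/
noncomputable def J2 {N : ℕ} (Q : Matrix (Fin N) (Fin N) ℝ) (a b : Fin N) : ℝ :=
  ∫ l : Fin N → ℝ in {l | ∀ i, 0 < l i},
    l a * l b * Real.exp (-(1 / 2) * ∑ i, ∑ j, Q i j * l i * l j)

/-- The hyperbolic volume measure of the Klein ball in `ℝ^(k+1)`. -/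
noncomputable def hypMeasure (k : ℕ) : Measure (Fin (k + 1) → ℝ) :=
  MeasureTheory.Measure.withDensity MeasureTheory.volume
    (fun x : Fin (k + 1) → ℝ => ENNReal.ofReal ((1 - ∑ j, (x j) ^ 2) ^ (-((k : ℝ) + 2) / 2)))

/-- The radial constant. -/
noncomputable def radialConst (k : ℕ) : ℝ :=
  ∫ r : ℝ in Set.Ioi 0, r ^ (k + 1) * Real.exp (-(1 / 2) * r ^ 2)

end Pool.Agent.Work.MP_1c91cf_gt

end

section

/-!
# Gaussian orthant integrals: smoothness and Stokes identities
-/

set_option autoImplicit false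

open MeasureTheory Set Filter
open scoped ContDiff Topology

namespace Pool.Agent.Work.MP_1c91cf_gt

/-! ### The orthant measure -/

/-- Lebesgue measure on the positive orthant, as a product measure. -/
noncomputable def orth (N : ℕ) : Measure (Fin N → ℝ) :=
  Measure.pi fun _ => volume.restrict (Ioi 0)

lemma measurableSet_orthant (N : ℕ) : MeasurableSet {l : Fin N → ℝ | ∀ i, 0 < l i} := by
  have : {l : Fin N → ℝ | ∀ i, 0 < l i} = ⋂ i, {l | 0 < l i} := by
    ext l
    simp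
  rw [this]
  exact MeasurableSet.iInter fun i => measurableSet_lt measurable_const (measurable_pi_apply i)

lemma restrict_orthant (N : ℕ) :
    (volume : Measure (Fin N → ℝ)).restrict {l | ∀ i, 0 < l i} = orth N := by
  have : {l : Fin N → ℝ | ∀ i, 0 < l i} = univ.pi fun _ => Ioi 0 := by
    ext l
    simp
  rw [this, orth, volume_pi, Measure.restrict_pi_pi]

instance (N : ℕ) : SigmaFinite (orth N) := by
  rw [orth]
  infer_instance

lemma ae_orth (N : ℕ) : ∀ᵐ l ∂(orth N), ∀ i, 0 < l i := by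
  rw [← restrict_orthant]
  exact ae_restrict_mem (measurableSet_orthant N)

/-! ### Good weights -/

/-- The quadratic form. -/
noncomputable def qf {N : ℕ} (Q : Fin N → Fin N → ℝ) (l : Fin N → ℝ) : ℝ :=
  ∑ i, ∑ j, Q i j * l i * l j

/-- Continuous functions of polynomial growth on the orthant. -/
def Good {N : ℕ} (p : (Fin N → ℝ) → ℝ) : Prop :=
  Continuous p ∧ ∃ (C : ℝ) (m : ℕ), 0 ≤ C ∧
    ∀ l : Fin N → ℝ, (∀ i, 0 ≤ l i) → |p l| ≤ C * (1 + ∑ i, l i) ^ m

lemma good_one {N : ℕ} : Good (fun _ : Fin N → ℝ => (1 : ℝ)) :=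
  ⟨continuous_const, 1, 0, zero_le_one, fun l _ => by simp⟩

lemma good_coord {N : ℕ} (i : Fin N) : Good (fun l : Fin N → ℝ => l i) := by
  refine ⟨continuous_apply i, 1, 1, zero_le_one, fun l hl => ?_⟩
  rw [abs_of_nonneg (hl i), one_mul, pow_one]
  have := Finset.single_le_sum (f := l) (fun j _ => hl j) (Finset.mem_univ i)
  linarith

lemma Good.mul {N : ℕ} {p r : (Fin N → ℝ) → ℝ} (hp : Good p) (hr : Good r) :
    Good (fun l => p l * r l) := by
  obtain ⟨hpc, C, m, hC, h1⟩ := hp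
  obtain ⟨hrc, D, n, hD, h2⟩ := hr
  refine ⟨hpc.mul hrc, C * D, m + n, mul_nonneg hC hD, fun l hl => ?_⟩
  rw [abs_mul, pow_add]
  have h3 := h1 l hl
  have h4 := h2 l hl
  have hs : 0 ≤ ∑ i, l i := Finset.sum_nonneg fun i _ => hl i
  calc |p l| * |r l| ≤ (C * (1 + ∑ i, l i) ^ m) * (D * (1 + ∑ i, l i) ^ n) := by
        gcongr
    _ = C * D * ((1 + ∑ i, l i) ^ m * (1 + ∑ i, l i) ^ n) := by ring

lemma Good.const_mul {N : ℕ} {p : (Fin N → ℝ) → ℝ} (c : ℝ) (hp : Good p) :
    Good (fun l => c * p l) := by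
  obtain ⟨hpc, C, m, hC, h1⟩ := hp
  refine ⟨continuous_const.mul hpc, |c| * C, m, by positivity, fun l hl => ?_⟩
  rw [abs_mul, mul_assoc]
  exact mul_le_mul_of_nonneg_left (h1 l hl) (abs_nonneg c)

lemma Good.add {N : ℕ} {p r : (Fin N → ℝ) → ℝ} (hp : Good p) (hr : Good r) :
    Good (fun l => p l + r l) := by
  obtain ⟨hpc, C, m, hC, h1⟩ := hp
  obtain ⟨hrc, D, n, hD, h2⟩ := hr
  refine ⟨hpc.add hrc, C + D, m + n, add_nonneg hC hD, fun l hl => ?_⟩
  have hs : 0 ≤ ∑ i, l i := Finset.sum_nonneg fun i _ => hl i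
  have h5 : (1 + ∑ i, l i) ^ m ≤ (1 + ∑ i, l i) ^ (m + n) :=
    pow_le_pow_right₀ (by linarith) (by omega)
  have h6 : (1 + ∑ i, l i) ^ n ≤ (1 + ∑ i, l i) ^ (m + n) :=
    pow_le_pow_right₀ (by linarith) (by omega)
  calc |p l + r l| ≤ |p l| + |r l| := abs_add_le _ _
    _ ≤ C * (1 + ∑ i, l i) ^ m + D * (1 + ∑ i, l i) ^ n := add_le_add (h1 l hl) (h2 l hl)
    _ ≤ C * (1 + ∑ i, l i) ^ (m + n) + D * (1 + ∑ i, l i) ^ (m + n) := by gcongr
    _ = (C + D) * (1 + ∑ i, l i) ^ (m + n) := by ring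

lemma good_zero {N : ℕ} : Good (fun _ : Fin N → ℝ => (0 : ℝ)) :=
  ⟨continuous_const, 0, 0, le_rfl, fun l _ => by simp⟩

lemma Good.sum {N : ℕ} {ι : Type*} (s : Finset ι) {p : ι → (Fin N → ℝ) → ℝ}
    (hp : ∀ i ∈ s, Good (p i)) : Good (fun l => ∑ i ∈ s, p i l) := by
  classical
  induction s using Finset.induction_on with
  | empty => simpa using good_zero
  | insert a s ha ih =>
    simp only [Finset.sum_insert ha]
    exact (hp a (Finset.mem_insert_self a s)).add
      (ih fun i hi => hp i (Finset.mem_insert_of_mem hi))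

/-! ### Domination -/

lemma pow_mul_exp_le {ε s : ℝ} (hε : 0 < ε) (hs : 0 ≤ s) (m : ℕ) :
    (1 + s) ^ m * Real.exp (-(1 / 2) * (ε * s ^ 2)) ≤
      Real.exp ((m + 1) ^ 2 / (2 * ε)) * Real.exp (-s) := by
  have h1 : (1 + s) ^ m ≤ Real.exp (m * s) := by
    rw [Real.exp_nat_mul]
    have := Real.add_one_le_exp s
    gcongr
    linarith
  have h2 : (m : ℝ) * s + -(1 / 2) * (ε * s ^ 2) ≤ (m + 1) ^ 2 / (2 * ε) + -s := by
    have h3 : (m + 1) ^ 2 / (2 * ε) + -s - ((m : ℝ) * s + -(1 / 2) * (ε * s ^ 2)) =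
        (ε * s - (m + 1)) ^ 2 / (2 * ε) := by
      field_simp
      ring
    have h4 : 0 ≤ (ε * s - (m + 1)) ^ 2 / (2 * ε) := by positivity
    linarith
  calc (1 + s) ^ m * Real.exp (-(1 / 2) * (ε * s ^ 2))
      ≤ Real.exp (m * s) * Real.exp (-(1 / 2) * (ε * s ^ 2)) := by gcongr
    _ = Real.exp ((m : ℝ) * s + -(1 / 2) * (ε * s ^ 2)) := by rw [Real.exp_add]
    _ ≤ Real.exp ((m + 1) ^ 2 / (2 * ε) + -s) := Real.exp_le_exp.mpr h2
    _ = _ := by rw [Real.exp_add]

lemma qf_ge {N : ℕ} {Q : Fin N → Fin N → ℝ} {ε : ℝ} (hQ : ∀ i j, ε ≤ Q i j) {l : Fin N → ℝ}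
    (hl : ∀ i, 0 ≤ l i) : ε * (∑ i, l i) ^ 2 ≤ qf Q l := by
  rw [qf, sq, Finset.sum_mul_sum, Finset.mul_sum]
  refine Finset.sum_le_sum fun i _ => ?_
  rw [Finset.mul_sum]
  refine Finset.sum_le_sum fun j _ => ?_
  rw [mul_assoc]
  exact mul_le_mul_of_nonneg_right (hQ i j) (mul_nonneg (hl i) (hl j))

lemma continuous_qf {N : ℕ} (Q : Fin N → Fin N → ℝ) : Continuous (qf Q) := by
  unfold qf
  fun_prop

lemma integrable_exp_neg_sum (N : ℕ) :
    Integrable (fun l : Fin N → ℝ => Real.exp (-∑ i, l i)) (orth N) := by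
  have h : (fun l : Fin N → ℝ => Real.exp (-∑ i, l i)) = fun l => ∏ i, Real.exp (-l i) := by
    funext l
    rw [← Finset.sum_neg_distrib, Real.exp_sum]
  rw [h, orth]
  refine Integrable.fintype_prod (f := fun (_ : Fin N) (x : ℝ) => Real.exp (-x)) fun i => ?_
  have := exp_neg_integrableOn_Ioi 0 (b := 1) one_pos
  simpa [IntegrableOn] using this

lemma domination {N : ℕ} {p : (Fin N → ℝ) → ℝ} (hp : Good p) {ε : ℝ} (hε : 0 < ε) :
    ∃ C : ℝ, 0 ≤ C ∧ ∀ Q : Fin N → Fin N → ℝ, (∀ i j, ε ≤ Q i j) → ∀ l : Fin N → ℝ,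
      (∀ i, 0 ≤ l i) → |p l * Real.exp (-(1 / 2) * qf Q l)| ≤ C * Real.exp (-∑ i, l i) := by
  obtain ⟨hpc, C, m, hC, h1⟩ := hp
  refine ⟨C * Real.exp ((m + 1) ^ 2 / (2 * ε)), by positivity, fun Q hQ l hl => ?_⟩
  have hs : 0 ≤ ∑ i, l i := Finset.sum_nonneg fun i _ => hl i
  have h2 := qf_ge hQ hl
  have h3 := pow_mul_exp_le hε hs m
  rw [abs_mul, abs_of_pos (Real.exp_pos _)]
  calc |p l| * Real.exp (-(1 / 2) * qf Q l)
      ≤ (C * (1 + ∑ i, l i) ^ m) * Real.exp (-(1 / 2) * (ε * (∑ i, l i) ^ 2)) := by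
        refine mul_le_mul (h1 l hl) ?_ (Real.exp_pos _).le (by positivity)
        apply Real.exp_le_exp.mpr
        linarith
    _ = C * ((1 + ∑ i, l i) ^ m * Real.exp (-(1 / 2) * (ε * (∑ i, l i) ^ 2))) := by ring
    _ ≤ C * (Real.exp ((m + 1) ^ 2 / (2 * ε)) * Real.exp (-∑ i, l i)) := by gcongr
    _ = _ := by ring

lemma exists_lower_bound {N : ℕ} {Q : Fin N → Fin N → ℝ} (hQ : ∀ i j, 0 < Q i j) :
    ∃ ε : ℝ, 0 < ε ∧ ∀ i j, 2 * ε ≤ Q i j := by
  have h : ∀ᶠ ε in 𝓝[>] (0 : ℝ), ∀ i j, 2 * ε ≤ Q i j := by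
    rw [eventually_all]
    intro i
    rw [eventually_all]
    intro j
    have h1 : Tendsto (fun ε : ℝ => 2 * ε) (𝓝 0) (𝓝 (2 * 0)) :=
      (continuous_const.mul continuous_id).tendsto 0
    rw [mul_zero] at h1
    have h2 := (h1.mono_left nhdsWithin_le_nhds : Tendsto (fun ε : ℝ => 2 * ε) (𝓝[>] 0) (𝓝 0))
    filter_upwards [h2.eventually (gt_mem_nhds (hQ i j))] with ε hε using hε.le
  obtain ⟨ε, h1, h2⟩ := (h.and self_mem_nhdsWithin).exists
  exact ⟨ε, h2, h1⟩

lemma integrable_good {N : ℕ} {p : (Fin N → ℝ) → ℝ} (hp : Good p) {Q : Fin N → Fin N → ℝ}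
    (hQ : ∀ i j, 0 < Q i j) :
    Integrable (fun l => p l * Real.exp (-(1 / 2) * qf Q l)) (orth N) := by
  obtain ⟨ε, hε, h2⟩ := exists_lower_bound hQ
  obtain ⟨C, hC, hdom⟩ := domination hp hε
  refine Integrable.mono' ((integrable_exp_neg_sum N).const_mul C) ?_ ?_
  · refine Continuous.aestronglyMeasurable ?_
    exact hp.1.mul (Real.continuous_exp.comp (continuous_const.mul (continuous_qf Q)))
  · filter_upwards [ae_orth N] with l hl
    rw [Real.norm_eq_abs]
    exact hdom Q (fun i j => by linarith [h2 i j]) l fun i => (hl i).le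

/-- The general Gaussian orthant integral. -/
noncomputable def GI {N : ℕ} (p : (Fin N → ℝ) → ℝ) (Q : Fin N → Fin N → ℝ) : ℝ :=
  ∫ l, p l * Real.exp (-(1 / 2) * qf Q l) ∂(orth N)

/-- The coordinate functional `Q ↦ Q i j`. -/
noncomputable def ev {N : ℕ} (i j : Fin N) : (Fin N → Fin N → ℝ) →L[ℝ] ℝ :=
  (ContinuousLinearMap.proj (R := ℝ) (φ := fun _ : Fin N => ℝ) j).comp
    (ContinuousLinearMap.proj (R := ℝ) (φ := fun _ : Fin N => Fin N → ℝ) i)

@[simp] lemma ev_apply {N : ℕ} (i j : Fin N) (Q : Fin N → Fin N → ℝ) : ev i j Q = Q i j := rfl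

lemma sum_ev_apply {N : ℕ} (c v : Fin N → Fin N → ℝ) :
    (∑ i, ∑ j, c i j • ev i j : (Fin N → Fin N → ℝ) →L[ℝ] ℝ) v = ∑ i, ∑ j, c i j * v i j := by
  simp only [sum_apply, smul_apply, ev_apply, smul_eq_mul]

lemma norm_ev_le {N : ℕ} (i j : Fin N) : ‖(ev i j : (Fin N → Fin N → ℝ) →L[ℝ] ℝ)‖ ≤ 1 := by
  refine ContinuousLinearMap.opNorm_le_bound _ zero_le_one fun Q => ?_
  rw [one_mul, ev_apply]
  exact (norm_le_pi_norm (Q i) j).trans (norm_le_pi_norm Q i)

lemma hasFDerivAt_qf {N : ℕ} (l : Fin N → ℝ) (Q : Fin N → Fin N → ℝ) :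
    HasFDerivAt (fun Q : Fin N → Fin N → ℝ => qf Q l) (∑ i, ∑ j, (l i * l j) • ev i j) Q := by
  have h : (fun Q : Fin N → Fin N → ℝ => qf Q l) =
      ((∑ i, ∑ j, (l i * l j) • ev i j : (Fin N → Fin N → ℝ) →L[ℝ] ℝ)) := by
    funext Q
    simp only [qf, sum_apply, smul_apply, ev_apply,
      smul_eq_mul]
    refine Finset.sum_congr rfl fun i _ => Finset.sum_congr rfl fun j _ => ?_
    ring
  rw [h]
  exact ContinuousLinearMap.hasFDerivAt _

lemma isOpen_pos (N : ℕ) : IsOpen {Q : Fin N → Fin N → ℝ | ∀ i j, 0 < Q i j} := by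
  have : {Q : Fin N → Fin N → ℝ | ∀ i j, 0 < Q i j} = ⋂ i, ⋂ j, {Q | 0 < Q i j} := by
    ext Q
    simp
  rw [this]
  refine isOpen_iInter_of_finite fun i => isOpen_iInter_of_finite fun j => ?_
  exact isOpen_lt continuous_const (by fun_prop)

lemma hasFDerivAt_GI {N : ℕ} {p : (Fin N → ℝ) → ℝ} (hp : Good p) {Q : Fin N → Fin N → ℝ}
    (hQ : ∀ i j, 0 < Q i j) :
    HasFDerivAt (GI p) (∑ i, ∑ j, (-(1 / 2) * GI (fun l => l i * l j * p l) Q) • ev i j) Q := by
  obtain ⟨ε, hε, h2⟩ := exists_lower_bound hQ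
  have hgood : ∀ i j : Fin N, Good (fun l : Fin N → ℝ => l i * l j * p l) := fun i j =>
    ((good_coord i).mul (good_coord j)).mul hp
  choose C hC hdom using fun i j => domination (hgood i j) hε
  -- the derivative of the integrand
  set F' : (Fin N → Fin N → ℝ) → (Fin N → ℝ) → ((Fin N → Fin N → ℝ) →L[ℝ] ℝ) := fun Q l =>
    ∑ i, ∑ j, (-(1 / 2) * (l i * l j * p l * Real.exp (-(1 / 2) * qf Q l))) • ev i j with hF'
  set s : Set (Fin N → Fin N → ℝ) := {R | ∀ i j, ε < R i j} with hs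
  have hsQ : s ∈ 𝓝 Q := by
    have hso : IsOpen s := by
      have : s = ⋂ i, ⋂ j, {R | ε < R i j} := by
        ext R
        simp [hs]
      rw [this]
      refine isOpen_iInter_of_finite fun i => isOpen_iInter_of_finite fun j => ?_
      exact isOpen_lt continuous_const (by fun_prop)
    exact hso.mem_nhds fun i j => by linarith [h2 i j]
  have hmain : HasFDerivAt (GI p) (∫ l, F' Q l ∂(orth N)) Q := by
    refine hasFDerivAt_integral_of_dominated_of_fderiv_le (F := fun Q l =>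
      p l * Real.exp (-(1 / 2) * qf Q l)) (F' := F')
      (bound := fun l => ∑ i, ∑ j, (1 / 2) * (C i j * Real.exp (-∑ i, l i))) hsQ ?_ ?_ ?_ ?_ ?_ ?_
    · refine Eventually.of_forall fun R => ?_
      refine Continuous.aestronglyMeasurable ?_
      exact hp.1.mul (Real.continuous_exp.comp (continuous_const.mul (continuous_qf R)))
    · exact integrable_good hp hQ
    · refine Continuous.aestronglyMeasurable ?_
      refine continuous_finsetSum _ fun i _ => continuous_finsetSum _ fun j _ => ?_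
      have hc : Continuous fun l : Fin N → ℝ =>
          -(1 / 2) * (l i * l j * p l * Real.exp (-(1 / 2) * qf Q l)) :=
        continuous_const.mul ((hgood i j).1.mul
          (Real.continuous_exp.comp (continuous_const.mul (continuous_qf Q))))
      exact hc.smul continuous_const
    · filter_upwards [ae_orth N] with l hl R hR
      refine (norm_sum_le _ _).trans (Finset.sum_le_sum fun i _ => ?_)
      refine (norm_sum_le _ _).trans (Finset.sum_le_sum fun j _ => ?_)
      rw [norm_smul]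
      have h3 := hdom i j R (fun i j => (hR i j).le) l fun i => (hl i).le
      rw [norm_mul, Real.norm_eq_abs, Real.norm_eq_abs, abs_neg, abs_of_pos (by norm_num : (0:ℝ) < 1 / 2)]
      calc 1 / 2 * |l i * l j * p l * Real.exp (-(1 / 2) * qf R l)| * ‖ev i j‖
          ≤ 1 / 2 * |l i * l j * p l * Real.exp (-(1 / 2) * qf R l)| * 1 := by
            gcongr
            exact norm_ev_le i j
        _ ≤ 1 / 2 * (C i j * Real.exp (-∑ i, l i)) := by
            rw [mul_one]
            gcongr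
    · refine integrable_finsetSum _ fun i _ => integrable_finsetSum _ fun j _ => ?_
      exact ((integrable_exp_neg_sum N).const_mul _).const_mul _
    · refine Eventually.of_forall fun l R _ => ?_
      have h4 := ((hasFDerivAt_qf l R).const_mul (-(1 / 2) : ℝ)).exp.const_mul (p l)
      refine h4.congr_fderiv ?_
      simp only [hF', Finset.smul_sum, smul_smul]
      refine Finset.sum_congr rfl fun i _ => Finset.sum_congr rfl fun j _ => ?_
      congr 1
      ring
  refine hmain.congr_fderiv ?_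
  rw [hF']
  have hint : ∀ i j : Fin N, Integrable (fun l : Fin N → ℝ =>
      (-(1 / 2) * (l i * l j * p l * Real.exp (-(1 / 2) * qf Q l))) • ev i j) (orth N) := by
    intro i j
    exact ((integrable_good (hgood i j) hQ).const_mul _).smul_const _
  rw [integral_finsetSum _ fun i _ => integrable_finsetSum _ fun j _ => hint i j]
  refine Finset.sum_congr rfl fun i _ => ?_
  rw [integral_finsetSum _ fun j _ => hint i j]
  refine Finset.sum_congr rfl fun j _ => ?_
  rw [integral_smul_const, integral_const_mul]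
  rfl

lemma contDiffOn_GI {N : ℕ} (n : ℕ) : ∀ {p : (Fin N → ℝ) → ℝ}, Good p →
    ContDiffOn ℝ n (GI p) {Q : Fin N → Fin N → ℝ | ∀ i j, 0 < Q i j} := by
  induction n with
  | zero =>
    intro p hp
    rw [Nat.cast_zero, contDiffOn_zero]
    intro Q hQ
    exact (hasFDerivAt_GI hp hQ).continuousAt.continuousWithinAt
  | succ n ih =>
    intro p hp
    rw [Nat.cast_succ, contDiffOn_succ_iff_fderiv_of_isOpen (isOpen_pos N)]
    refine ⟨fun Q hQ => (hasFDerivAt_GI hp hQ).differentiableAt.differentiableWithinAt, ?_, ?_⟩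
    · intro h
      exact absurd h (by simp)
    · have heq : EqOn (fderiv ℝ (GI p)) (fun Q : Fin N → Fin N → ℝ =>
          ∑ i, ∑ j, (-(1 / 2) * GI (fun l => l i * l j * p l) Q) • ev i j)
          {Q : Fin N → Fin N → ℝ | ∀ i j, 0 < Q i j} := fun Q hQ => (hasFDerivAt_GI hp hQ).fderiv
      refine ContDiffOn.congr ?_ heq
      refine ContDiffOn.sum fun i _ => ContDiffOn.sum fun j _ => ?_
      have hc : ContDiffOn ℝ n (fun Q : Fin N → Fin N → ℝ =>
          -(1 / 2) * GI (fun l => l i * l j * p l) Q)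
          {Q : Fin N → Fin N → ℝ | ∀ i j, 0 < Q i j} :=
        contDiffOn_const.mul (ih (((good_coord i).mul (good_coord j)).mul hp))
      exact hc.smul contDiffOn_const

/-! ### Translation to `J`, `J1`, `J2` -/

lemma J_eq_GI {N : ℕ} (Q : Matrix (Fin N) (Fin N) ℝ) : J Q = GI (fun _ => 1) Q := by
  simp only [J, GI, restrict_orthant, one_mul]
  rfl

lemma J1_eq_GI {N : ℕ} (Q : Matrix (Fin N) (Fin N) ℝ) (a : Fin N) :
    J1 Q a = GI (fun l => l a) Q := by
  simp only [J1, GI, restrict_orthant]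
  rfl

lemma J2_eq_GI {N : ℕ} (Q : Matrix (Fin N) (Fin N) ℝ) (a b : Fin N) :
    J2 Q a b = GI (fun l => l a * l b) Q := by
  simp only [J2, GI, restrict_orthant]
  rfl

/-- `J` is smooth on matrices with positive entries. -/
theorem J_contDiffOn {N : ℕ} : ContDiffOn ℝ ∞ (fun Q : Fin N → Fin N → ℝ => J (Matrix.of Q))
    {Q | ∀ i j, 0 < Q i j} := by
  rw [contDiffOn_infty]
  intro n
  have h : (fun Q : Fin N → Fin N → ℝ => J (Matrix.of Q)) = GI (fun _ => 1) := by
    funext Q
    rw [J_eq_GI]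
    rfl
  rw [h]
  exact contDiffOn_GI n good_one

/-- The derivative of `J` along a curve. -/
theorem J_hasDerivAt {N : ℕ} {Q : ℝ → Matrix (Fin N) (Fin N) ℝ} {Q' : Matrix (Fin N) (Fin N) ℝ}
    {t : ℝ} (hpos : ∀ i j, 0 < Q t i j) (hQ : ∀ i j, HasDerivAt (fun s => Q s i j) (Q' i j) t) :
    HasDerivAt (fun s => J (Q s)) (-(1 / 2) * ∑ i, ∑ j, Q' i j * J2 (Q t) i j) t := by
  have h1 : HasDerivAt (fun s => (Q s : Fin N → Fin N → ℝ)) Q' t :=
    hasDerivAt_pi.mpr fun i => hasDerivAt_pi.mpr fun j => hQ i j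
  have h2 := (hasFDerivAt_GI (good_one (N := N)) (Q := Q t) hpos).comp_hasDerivAt t h1
  have h3 : (fun s => J (Q s)) = GI (fun _ => 1) ∘ fun s => (Q s : Fin N → Fin N → ℝ) := by
    funext s
    exact J_eq_GI _
  rw [h3]
  refine h2.congr_deriv ?_
  refine (sum_ev_apply (fun i j => -(1 / 2) * GI (fun l => l i * l j * 1) (Q t)) Q').trans ?_
  rw [Finset.mul_sum]
  refine Finset.sum_congr rfl fun i _ => ?_
  rw [Finset.mul_sum]
  refine Finset.sum_congr rfl fun j _ => ?_
  simp only [mul_one, J2_eq_GI]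
  ring

/-- `J` is positive. -/
theorem J_pos {N : ℕ} (Q : Matrix (Fin N) (Fin N) ℝ) (hpos : ∀ i j, 0 < Q i j) : 0 < J Q := by
  rw [J_eq_GI]
  unfold GI
  have hint := integrable_good (good_one (N := N)) (Q := Q) hpos
  rw [integral_pos_iff_support_of_nonneg (fun l => by positivity) hint]
  have hsupp : Function.support (fun l : Fin N → ℝ => (1 : ℝ) * Real.exp (-(1 / 2) * qf Q l)) =
      univ := by
    ext l
    simp [Real.exp_ne_zero]
  rw [hsupp, ← restrict_orthant, Measure.restrict_apply_univ]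
  refine IsOpen.measure_pos _ ?_ ⟨fun _ => 1, fun _ => one_pos⟩
  have : {l : Fin N → ℝ | ∀ i, 0 < l i} = ⋂ i, {l | 0 < l i} := by
    ext l
    simp
  rw [this]
  exact isOpen_iInter_of_finite fun i => isOpen_lt continuous_const (continuous_apply i)

/-! ### Stokes identities -/

lemma qf_insertNth {N : ℕ} {Q : Fin (N + 1) → Fin (N + 1) → ℝ} (hsymm : ∀ i j, Q i j = Q j i)
    (k : Fin (N + 1)) (t : ℝ) (l : Fin N → ℝ) :
    qf Q (k.insertNth t l) = Q k k * t ^ 2 + 2 * t * ∑ j, Q k (k.succAbove j) * l j +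
      qf (fun i j => Q (k.succAbove i) (k.succAbove j)) l := by
  unfold qf
  rw [Fin.sum_univ_succAbove _ k]
  simp only [Fin.sum_univ_succAbove _ k, Fin.insertNth_apply_same, Fin.insertNth_apply_succAbove,
    Finset.sum_add_distrib, Finset.mul_sum]
  have h1 : ∀ j : Fin N, Q (k.succAbove j) k * l j * t = t * (Q k (k.succAbove j) * l j) := by
    intro j
    rw [hsymm (k.succAbove j) k]
    ring
  have h2 : ∀ j : Fin N, Q k (k.succAbove j) * t * l j = t * (Q k (k.succAbove j) * l j) := by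
    intro j
    ring
  have h3 : ∀ j : Fin N, 2 * t * (Q k (k.succAbove j) * l j) =
      t * (Q k (k.succAbove j) * l j) + t * (Q k (k.succAbove j) * l j) := by
    intro j
    ring
  simp only [h1, h2, h3, Finset.sum_add_distrib]
  ring

lemma lin_insertNth {N : ℕ} (Q : Fin (N + 1) → Fin (N + 1) → ℝ)
    (k : Fin (N + 1)) (t : ℝ) (l : Fin N → ℝ) :
    ∑ j, Q k j * (k.insertNth t l : Fin (N + 1) → ℝ) j =
      Q k k * t + ∑ j, Q k (k.succAbove j) * l j := by
  rw [Fin.sum_univ_succAbove _ k]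
  simp only [Fin.insertNth_apply_same, Fin.insertNth_apply_succAbove]

theorem stokes {N : ℕ} {Q : Fin (N + 1) → Fin (N + 1) → ℝ} (hpos : ∀ i j, 0 < Q i j)
    (hsymm : ∀ i j, Q i j = Q j i) (k : Fin (N + 1)) {P P' : (Fin (N + 1) → ℝ) → ℝ}
    (hP : Good P) (hP' : Good P')
    (hd : ∀ (l : Fin N → ℝ) (t : ℝ),
      HasDerivAt (fun t => P (k.insertNth t l)) (P' (k.insertNth t l)) t) :
    GI (fun l => P' l - P l * ∑ j, Q k j * l j) Q =
      -∫ l, P (k.insertNth 0 l) *
        Real.exp (-(1 / 2) * qf (fun i j => Q (k.succAbove i) (k.succAbove j)) l) ∂(orth N) := by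
  have hgood : Good (fun l : Fin (N + 1) → ℝ => P' l - P l * ∑ j, Q k j * l j) := by
    have h0 : Good (fun l : Fin (N + 1) → ℝ => P' l + (-1) * (P l * ∑ j, Q k j * l j)) :=
      hP'.add ((hP.mul (Good.sum _ fun j _ => (good_coord j).const_mul (Q k j))).const_mul (-1))
    have heq : (fun l : Fin (N + 1) → ℝ => P' l - P l * ∑ j, Q k j * l j) =
        fun l => P' l + (-1) * (P l * ∑ j, Q k j * l j) := by
      funext l
      ring
    rw [heq]
    exact h0
  have hint := integrable_good hgood hpos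
  set G : (Fin (N + 1) → ℝ) → ℝ := fun l =>
    (P' l - P l * ∑ j, Q k j * l j) * Real.exp (-(1 / 2) * qf Q l) with hG
  have hmp : MeasurePreserving (MeasurableEquiv.piFinSuccAbove (fun _ : Fin (N + 1) => ℝ) k)
      (orth (N + 1)) (((volume : Measure ℝ).restrict (Ioi 0)).prod (orth N)) :=
    measurePreserving_piFinSuccAbove (fun _ : Fin (N + 1) => (volume : Measure ℝ).restrict (Ioi 0)) k
  have hmps := hmp.symm
  have hint2 : Integrable (fun z : ℝ × (Fin N → ℝ) => G (k.insertNth z.1 z.2))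
      (((volume : Measure ℝ).restrict (Ioi 0)).prod (orth N)) := by
    have := hmps.integrable_comp_emb (MeasurableEquiv.measurableEmbedding _) (g := G)
    exact this.mpr hint
  have h1 : GI (fun l => P' l - P l * ∑ j, Q k j * l j) Q =
      ∫ z : ℝ × (Fin N → ℝ), G (k.insertNth z.1 z.2)
        ∂(((volume : Measure ℝ).restrict (Ioi 0)).prod (orth N)) := by
    have := hmps.integral_comp (MeasurableEquiv.measurableEmbedding _) G
    exact this.symm
  rw [h1, integral_prod_symm _ hint2, ← integral_neg]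
  obtain ⟨ε, hε, h2⟩ := exists_lower_bound hpos
  obtain ⟨C, hC, hdom⟩ := domination hP hε
  refine integral_congr_ae ?_
  filter_upwards [ae_orth N, hint2.prod_left_ae] with l hl hil
  have hder : ∀ t : ℝ, HasDerivAt (fun t : ℝ => P (k.insertNth t l) *
      Real.exp (-(1 / 2) * qf Q (k.insertNth t l))) (G (k.insertNth t l)) t := by
    intro t
    have hq : HasDerivAt (fun t : ℝ => qf Q (k.insertNth t l))
        (2 * ∑ j, Q k j * (k.insertNth t l : Fin (N + 1) → ℝ) j) t := by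
      have h3 : (fun t : ℝ => qf Q (k.insertNth t l)) = fun t =>
          Q k k * t ^ 2 + 2 * t * ∑ j, Q k (k.succAbove j) * l j +
            qf (fun i j => Q (k.succAbove i) (k.succAbove j)) l := by
        funext t
        exact qf_insertNth hsymm k t l
      rw [h3, lin_insertNth]
      have h4 := (((hasDerivAt_pow 2 t).const_mul (Q k k)).add
        (((hasDerivAt_id t).const_mul 2).mul_const (∑ j, Q k (k.succAbove j) * l j))).add_const
          (qf (fun i j => Q (k.succAbove i) (k.succAbove j)) l)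
      refine h4.congr_deriv ?_
      norm_num
      ring
    have h5 := (hd l t).mul (hq.const_mul (-(1 / 2))).exp
    refine h5.congr_deriv ?_
    rw [hG]
    ring
  have htend : Tendsto (fun t : ℝ => P (k.insertNth t l) *
      Real.exp (-(1 / 2) * qf Q (k.insertNth t l))) atTop (𝓝 0) := by
    refine squeeze_zero_norm' (a := fun t => C * Real.exp (-t)) ?_ ?_
    · filter_upwards [eventually_ge_atTop (0 : ℝ)] with t ht
      have hnn : ∀ i, 0 ≤ (k.insertNth t l : Fin (N + 1) → ℝ) i := by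
        intro i
        rcases Fin.eq_self_or_eq_succAbove k i with rfl | ⟨j, rfl⟩
        · rw [Fin.insertNth_apply_same]
          exact ht
        · rw [Fin.insertNth_apply_succAbove]
          exact (hl j).le
      have h6 := hdom Q (fun i j => by linarith [h2 i j]) (k.insertNth t l) hnn
      rw [Real.norm_eq_abs]
      refine h6.trans (mul_le_mul_of_nonneg_left (Real.exp_le_exp.mpr ?_) hC)
      have h7 := Finset.single_le_sum (f := (k.insertNth t l : Fin (N + 1) → ℝ))
        (fun i _ => hnn i) (Finset.mem_univ k)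
      rw [Fin.insertNth_apply_same] at h7
      linarith
    · have h8 : Tendsto (fun t : ℝ => C * Real.exp (-t)) atTop (𝓝 (C * 0)) :=
        (Real.tendsto_exp_neg_atTop_nhds_zero).const_mul C
      rwa [mul_zero] at h8
  have h9 := integral_Ioi_of_hasDerivAt_of_tendsto (a := 0)
    (hder 0).continuousAt.continuousWithinAt (fun t _ => hder t) hil htend
  have h10 : qf Q (k.insertNth 0 l) = qf (fun i j => Q (k.succAbove i) (k.succAbove j)) l := by
    rw [qf_insertNth hsymm]
    ring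
  rw [h9, h10]
  ring

lemma integral_sum_weight {N : ℕ} {Q : Fin N → Fin N → ℝ} (hpos : ∀ i j, 0 < Q i j)
    {P : (Fin N → ℝ) → ℝ} (hP : Good P) (c : Fin N → ℝ) :
    GI (fun l => P l * ∑ j, c j * l j) Q = ∑ j, c j * GI (fun l => P l * l j) Q := by
  have h1 : GI (fun l => P l * ∑ j, c j * l j) Q =
      ∫ l, ∑ j, c j * (P l * l j * Real.exp (-(1 / 2) * qf Q l)) ∂(orth N) := by
    unfold GI
    refine integral_congr_ae (Eventually.of_forall fun l => ?_)
    simp only
    rw [Finset.mul_sum, Finset.sum_mul]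
    refine Finset.sum_congr rfl fun j _ => ?_
    ring
  rw [h1, integral_finsetSum _ fun j _ =>
    (integrable_good (hP.mul (good_coord j)) hpos).const_mul (c j)]
  refine Finset.sum_congr rfl fun j _ => ?_
  rw [integral_const_mul]
  rfl

lemma GI_sub {N : ℕ} {Q : Fin N → Fin N → ℝ} (hpos : ∀ i j, 0 < Q i j)
    {P R : (Fin N → ℝ) → ℝ} (hP : Good P) (hR : Good R) :
    GI (fun l => P l - R l) Q = GI P Q - GI R Q := by
  unfold GI
  rw [← integral_sub (integrable_good hP hpos) (integrable_good hR hpos)]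
  refine integral_congr_ae (Eventually.of_forall fun l => ?_)
  simp only
  ring

lemma stokes' {N : ℕ} {Q : Fin (N + 1) → Fin (N + 1) → ℝ} (hpos : ∀ i j, 0 < Q i j)
    (hsymm : ∀ i j, Q i j = Q j i) (k : Fin (N + 1)) {P P' : (Fin (N + 1) → ℝ) → ℝ}
    (hP : Good P) (hP' : Good P')
    (hd : ∀ (l : Fin N → ℝ) (t : ℝ),
      HasDerivAt (fun t => P (k.insertNth t l)) (P' (k.insertNth t l)) t) :
    ∑ j, Q k j * GI (fun l => P l * l j) Q = GI P' Q +
      GI (fun l => P (k.insertNth 0 l)) (fun i j => Q (k.succAbove i) (k.succAbove j)) := by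
  have h1 := stokes hpos hsymm k hP hP' hd
  rw [GI_sub hpos hP' (hP.mul (Good.sum _ fun j _ => (good_coord j).const_mul (Q k j))),
    integral_sum_weight hpos hP] at h1
  have h2 : GI (fun l => P (k.insertNth 0 l)) (fun i j => Q (k.succAbove i) (k.succAbove j)) =
      ∫ l, P (k.insertNth 0 l) *
        Real.exp (-(1 / 2) * qf (fun i j => Q (k.succAbove i) (k.succAbove j)) l) ∂(orth N) := rfl
  rw [← h2] at h1
  linarith

/-- Stokes identity with weight `1`. -/
theorem J_stokes0 {N : ℕ} (Q : Matrix (Fin (N + 1)) (Fin (N + 1)) ℝ) (hpos : ∀ i j, 0 < Q i j)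
    (hsymm : Q.IsSymm) (k : Fin (N + 1)) :
    ∑ j, Q k j * J1 Q j = J (Q.submatrix k.succAbove k.succAbove) := by
  have h := stokes' (Q := Q) hpos (fun i j => hsymm.apply j i) k
    (P := fun _ => 1) (P' := fun _ => 0) good_one good_zero
    (fun l t => hasDerivAt_const t 1)
  simp only [J1_eq_GI, J_eq_GI]
  have h2 : GI (fun _ : Fin (N + 1) → ℝ => (0 : ℝ)) Q = 0 := by
    simp [GI]
  rw [h2, zero_add] at h
  simp only [one_mul] at h
  exact h

/-- Stokes identity with weight `l k`. -/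
theorem J_stokes1_same {N : ℕ} (Q : Matrix (Fin (N + 1)) (Fin (N + 1)) ℝ)
    (hpos : ∀ i j, 0 < Q i j) (hsymm : Q.IsSymm) (k : Fin (N + 1)) :
    ∑ l, Q k l * J2 Q k l = J Q := by
  have h := stokes' (Q := Q) hpos (fun i j => hsymm.apply j i) k
    (P := fun l => l k) (P' := fun _ => 1) (good_coord k) good_one
    (fun l t => by
      simp only [Fin.insertNth_apply_same]
      exact hasDerivAt_id t)
  simp only [J2_eq_GI, J_eq_GI]
  have h2 : GI (fun l : Fin N → ℝ => (k.insertNth (0 : ℝ) l : Fin (N + 1) → ℝ) k)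
      (fun i j => Q (k.succAbove i) (k.succAbove j)) = 0 := by
    simp [GI]
  rw [h2, add_zero] at h
  exact h

/-- Stokes identity with weight `l (k.succAbove j)`. -/
theorem J_stokes1_ne {N : ℕ} (Q : Matrix (Fin (N + 1)) (Fin (N + 1)) ℝ)
    (hpos : ∀ i j, 0 < Q i j) (hsymm : Q.IsSymm) (k : Fin (N + 1)) (j : Fin N) :
    ∑ l, Q k l * J2 Q (k.succAbove j) l = J1 (Q.submatrix k.succAbove k.succAbove) j := by
  have h := stokes' (Q := Q) hpos (fun i j => hsymm.apply j i) k
    (P := fun l => l (k.succAbove j)) (P' := fun _ => 0) (good_coord _) good_zero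
    (fun l t => by
      simp only [Fin.insertNth_apply_succAbove]
      exact hasDerivAt_const t (l j))
  simp only [J2_eq_GI, J1_eq_GI]
  have h2 : GI (fun _ : Fin (N + 1) → ℝ => (0 : ℝ)) Q = 0 := by
    simp [GI]
  rw [h2, zero_add] at h
  simp only [Fin.insertNth_apply_succAbove] at h
  exact h

end Pool.Agent.Work.MP_1c91cf_gt

end
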