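import Pool.Agent.Work.MP_1c91cf_gt.Bd.B03
import Pool.Agent.Work.MP_1c91cf_gt.Bd.B01

/-! Bundle of small proof modules (one section per former module). -/

section

/-!
# Definitions for the analytic part
-/

set_option autoImplicit false

open Matrix

namespace Pool.Agent.Work.MP_1c91cf_gt

/-- the matrix `-lor (Y a) (Y b)` of a real tuple -/
def Qm {k n : ℕ} (Y : Fin k → Fin (n + 1) → ℝ) : Matrix (Fin k) (Fin k) ℝ :=
  Matrix.of fun a b => -lor (Y a) (Y b)

/-- the signed simplex function (a constant multiple of the signed hyperbolic volume) -/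
noncomputable def SS {N : ℕ} (Y : Fin (N + 1) → Fin (N + 1) → ℝ) : ℝ :=
  (Matrix.of Y).det * J (Qm Y)

/-- the origin of hyperbolic space -/
def e0 {N : ℕ} : Fin (N + 1) → ℝ := Fin.cons 1 (fun _ => 0)

/-- the volume function of a chain -/
noncomputable def VV {q m : ℕ} (C : (Fin (q + 1 + 1) → Fin m) → ℤ)
    (y : Fin m → Fin (q + 1 + 2) → ℝ) : ℝ :=
  ∑ G : Fin (q + 1 + 1) → Fin m, (C G : ℝ) *
    SS (Fin.cons e0 (y ∘ G) : Fin (q + 1 + 1 + 1) → Fin (q + 1 + 1 + 1) → ℝ)

/-- the complex number whose argument is the angle from `z0^⊥` to `x^⊥` in `F^⊥` -/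
noncomputable def aF {k : ℕ} (z0 x : Fin (k + 2) → ℝ) (F : Fin k → Fin (k + 2) → ℝ) : ℂ :=
  ((lor x (perp F z0) : ℝ) : ℂ) +
    ((lor x (crsL F z0) / Real.sqrt (-(gram F F).det) : ℝ) : ℂ) * Complex.I

/-- the connection term -/
noncomputable def cn {k : ℕ} (x x' : Fin (k + 2) → ℝ) (F F' : Fin k → Fin (k + 2) → ℝ) : ℝ :=
  dt (x' - ∑ a, ((gram F F)⁻¹ *ᵥ fun b => lor x (F b)) a • F' a)
    (Fin.cons x F : Fin (k + 1) → Fin (k + 2) → ℝ) / lor (perp F x) (perp F x)

end Pool.Agent.Work.MP_1c91cf_gt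

end

section

/-!
# Derivative of the dihedral angle in moving frames
-/

set_option autoImplicit false

open Matrix Filter
open scoped Topology

namespace Pool.Agent.Work.MP_1c91cf_gt

section diff

lemma lor_hasDerivAt {N : ℕ} {f g : ℝ → Fin (N + 1) → ℝ} {f' g' : Fin (N + 1) → ℝ} {t : ℝ}
    (hf : HasDerivAt f f' t) (hg : HasDerivAt g g' t) :
    HasDerivAt (fun s => lor (f s) (g s)) (lor f' (g t) + lor (f t) g') t := by
  have h : ∀ i, HasDerivAt (fun s => eta i * f s i * g s i)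
      (eta i * f' i * g t i + eta i * f t i * g' i) t := by
    intro i
    have h1 := (hasDerivAt_pi.1 hf i).const_mul (eta i : ℝ)
    have h2 := hasDerivAt_pi.1 hg i
    exact h1.mul h2
  have h3 := HasDerivAt.fun_sum (u := Finset.univ) (fun i _ => h i)
  refine h3.congr_deriv ?_
  rw [Finset.sum_add_distrib]
  rfl

lemma diff_det {n : ℕ} {M : ℝ → Matrix (Fin n) (Fin n) ℝ} {t : ℝ}
    (h : ∀ i j, DifferentiableAt ℝ (fun s => M s i j) t) :
    DifferentiableAt ℝ (fun s => (M s).det) t := by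
  simp only [Matrix.det_apply]
  refine DifferentiableAt.fun_sum fun σ _ => ?_
  refine DifferentiableAt.const_smul ?_ _
  exact DifferentiableAt.fun_finsetProd fun i _ => h _ _

lemma diff_inv {n : ℕ} {M : ℝ → Matrix (Fin n) (Fin n) ℝ} {t : ℝ}
    (h : ∀ i j, DifferentiableAt ℝ (fun s => M s i j) t) (h0 : (M t).det ≠ 0) (i j : Fin n) :
    DifferentiableAt ℝ (fun s => (M s)⁻¹ i j) t := by
  have h1 : (fun s => (M s)⁻¹ i j) = fun s => ((M s).det)⁻¹ *
      ((M s).updateRow j (Pi.single i 1)).det := by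
    funext s
    rw [Matrix.inv_def, Matrix.smul_apply, Ring.inverse_eq_inv', smul_eq_mul,
      Matrix.adjugate_apply]
  rw [h1]
  refine ((diff_det h).inv h0).mul (diff_det fun a b => ?_)
  by_cases hab : a = j
  · subst hab
    simp
  · simp only [Matrix.updateRow_ne hab]
    exact h a b

lemma diff_lor {N : ℕ} {f g : ℝ → Fin (N + 1) → ℝ} {t : ℝ}
    (hf : DifferentiableAt ℝ f t) (hg : DifferentiableAt ℝ g t) :
    DifferentiableAt ℝ (fun s => lor (f s) (g s)) t :=
  (lor_hasDerivAt hf.hasDerivAt hg.hasDerivAt).differentiableAt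

lemma diff_crsL {k : ℕ} {F : ℝ → Fin k → Fin (k + 2) → ℝ} {x : ℝ → Fin (k + 2) → ℝ} {t : ℝ}
    (hF : DifferentiableAt ℝ F t) (hx : DifferentiableAt ℝ x t) :
    DifferentiableAt ℝ (fun s => crsL (F s) (x s)) t := by
  rw [differentiableAt_pi]
  intro i
  simp only [crsL_apply, crs]
  refine DifferentiableAt.const_mul (diff_det fun a b => ?_) _
  simp only [Matrix.of_apply]
  refine Fin.cases ?_ (fun a' => ?_) a
  · simp
  · refine Fin.cases ?_ (fun a'' => ?_) a'
    · simp only [Fin.cons_succ, Fin.cons_zero]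
      exact differentiableAt_pi.1 hx b
    · simp only [Fin.cons_succ]
      exact differentiableAt_pi.1 (differentiableAt_pi.1 hF a'') b

/-- Derivative of the perpendicular component, tested against `crsL F x`. -/
lemma perp_hasDerivAt {k : ℕ} {F : ℝ → Fin k → Fin (k + 2) → ℝ} {x : ℝ → Fin (k + 2) → ℝ}
    {F' : Fin k → Fin (k + 2) → ℝ} {x' : Fin (k + 2) → ℝ} {t : ℝ}
    (hF : HasDerivAt F F' t) (hx : HasDerivAt x x' t) (h0 : (gram (F t) (F t)).det ≠ 0) :
    ∃ u', HasDerivAt (fun s => perp (F s) (x s)) u' t ∧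
      ∀ z, lor u' (crsL (F t) z) =
        lor (x' - ∑ a, ((gram (F t) (F t))⁻¹ *ᵥ fun b => lor (x t) (F t b)) a • F' a)
          (crsL (F t) z) := by
  have hFa : ∀ a, HasDerivAt (fun s => F s a) (F' a) t := fun a => hasDerivAt_pi.1 hF a
  have hG : ∀ i j, DifferentiableAt ℝ (fun s => gram (F s) (F s) i j) t := by
    intro i j
    simp only [gram_apply]
    exact diff_lor (hFa i).differentiableAt (hFa j).differentiableAt
  have hc : ∀ a, DifferentiableAt ℝ
      (fun s => ((gram (F s) (F s))⁻¹ *ᵥ fun b => lor (x s) (F s b)) a) t := by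
    intro a
    simp only [Matrix.mulVec, dotProduct]
    refine DifferentiableAt.fun_sum fun b _ => ?_
    exact (diff_inv hG h0 a b).mul (diff_lor hx.differentiableAt (hFa b).differentiableAt)
  have h1 : ∀ a, HasDerivAt
      (fun s => ((gram (F s) (F s))⁻¹ *ᵥ fun b => lor (x s) (F s b)) a • F s a)
      (((gram (F t) (F t))⁻¹ *ᵥ fun b => lor (x t) (F t b)) a • F' a +
        deriv (fun s => ((gram (F s) (F s))⁻¹ *ᵥ fun b => lor (x s) (F s b)) a) t • F t a) t :=
    fun a => (hc a).hasDerivAt.smul (hFa a)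
  have h2 := HasDerivAt.fun_sum (u := Finset.univ) (fun a _ => h1 a)
  refine ⟨_, hx.sub h2, fun z => ?_⟩
  rw [Finset.sum_add_distrib, ← sub_sub, lor_sub_left _ (∑ a, _ • F t a)]
  have h3 : lor (∑ a, deriv (fun s => ((gram (F s) (F s))⁻¹ *ᵥ
      fun b => lor (x s) (F s b)) a) t • F t a) (crsL (F t) z) = 0 := by
    rw [lor_sum_left]
    refine Finset.sum_eq_zero fun a _ => ?_
    rw [lor_smul_left, lor_F_crsL, mul_zero]
  rw [h3, sub_zero]

end diff

section plane

variable {K : Type*} [Field K] {k : ℕ}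

lemma lor_perp_crsL (F : Fin k → Fin (k + 2) → K) (hF : (gram F F).det ≠ 0)
    (z w : Fin (k + 2) → K) : lor (perp F z) (crsL F w) = lor z (crsL F w) := by
  rw [lor_perp_left F hF, perp_crsL]

/-- The expansion of `perp F x` in the basis `perp F z`, `crsL F z` of `F^⊥`. -/
lemma plane_expansion (F : Fin k → Fin (k + 2) → K) (hF : (gram F F).det ≠ 0)
    (x z : Fin (k + 2) → K) (hz : lor (perp F z) (perp F z) ≠ 0) :
    (-(gram F F).det * lor (perp F z) (perp F z)) • perp F x =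
      (-(gram F F).det * lor x (perp F z)) • perp F z + lor x (crsL F z) • crsL F z := by
  rw [← sub_eq_zero]
  have hww : lor (crsL F z) (crsL F z) = -(gram F F).det * lor (perp F z) (perp F z) := by
    rw [lor_crsL_crsL F hF]; ring
  have hzw : lor (perp F z) (crsL F z) = 0 := by
    rw [lor_perp_crsL F hF, lor_self_crsL]
  apply eq_zero_of_orth_basis
    (Fin.cons (crsL F z) (Fin.cons (perp F z) F : Fin (k + 1) → Fin (k + 2) → K) :
      Fin (k + 2) → Fin (k + 2) → K)
  · have h1 : (Matrix.of (Fin.cons (crsL F z)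
        (Fin.cons (perp F z) F : Fin (k + 1) → Fin (k + 2) → K) :
        Fin (k + 2) → Fin (k + 2) → K)).det = lor (crsL F z) (crsL F (perp F z)) := by
      rw [crsL_apply F (perp F z), lor_crs]
      rfl
    rw [h1, crsL_perp, hww]
    exact mul_ne_zero (neg_ne_zero.2 hF) hz
  · intro i
    refine Fin.cases ?_ (fun i' => ?_) i
    · rw [Fin.cons_zero, lor_sub_left, lor_add_left, lor_smul_left, lor_smul_left, lor_smul_left,
        hzw, hww, lor_perp_crsL F hF]
      ring
    · refine Fin.cases ?_ (fun i'' => ?_) i'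
      · rw [Fin.cons_succ, Fin.cons_zero, lor_sub_left, lor_add_left, lor_smul_left,
          lor_smul_left, lor_smul_left, lor_comm (crsL F z), hzw, lor_perp_perp F hF z,
          lor_perp_left F hF z, lor_perp_perp F hF x, lor_perp_left F hF x]
        ring
      · rw [Fin.cons_succ, Fin.cons_succ, lor_sub_left, lor_add_left, lor_smul_left,
          lor_smul_left, lor_smul_left, lor_perp F hF, lor_perp F hF, lor_comm (crsL F z),
          lor_F_crsL]
        ring

end plane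

lemma deriv_eq_of_eventually_eq {g h : ℝ → ℝ} {g' h' t : ℝ} (hg : HasDerivAt g g' t)
    (hh : HasDerivAt h h' t) (he : g =ᶠ[𝓝 t] h) : g' = h' :=
  ((he.hasDerivAt_iff).1 hg).unique hh

/-- The final algebra. -/
lemma angle_algebra {P P' S S' T T' H X al be ga de lu lvw lww : ℝ} (hT : 0 < T) (hH : H ≠ 0)
    (hX : X ≠ 0)
    (hA : T * H * lu + (T' * P + T * P') * S - T * P * lvw - S' * (T * P) - S * lww = 0)
    (h1 : H * lvw = P * be - S * al) (h2 : H * lww = P * ga - S * de)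
    (h3 : be + de = 0) (h4 : 2 * ga = T' * H + 2 * (T * al))
    (h5 : T * H * X = T * P ^ 2 + S ^ 2) :
    Real.sqrt T * (((P' : ℂ) + (((S' * Real.sqrt T - S * (T' / (2 * Real.sqrt T))) /
      Real.sqrt T ^ 2 : ℝ) : ℂ) * Complex.I) /
        ((P : ℂ) + ((S / Real.sqrt T : ℝ) : ℂ) * Complex.I)).im = lu / X - be / H := by
  set D := Real.sqrt T with hD
  have hD0 : 0 < D := Real.sqrt_pos.2 hT
  have hDT : T = D ^ 2 := (Real.sq_sqrt hT.le).symm
  have key : H * T * (P * S' - P' * S) - H * S * P * T' / 2 = H * T * (H * lu - X * be) := by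
    have hde : de = -be := by linarith
    have hga : ga = T' * H / 2 + T * al := by linarith
    rw [hde] at h2
    rw [hga] at h2
    linear_combination (-H) * hA - T * P * h1 - S * h2 + be * h5
  have hN : P ^ 2 + (S / D) ^ 2 = H * X := by
    have : T * (P ^ 2 + (S / D) ^ 2) = T * (H * X) := by
      rw [show T * (H * X) = T * H * X by ring, h5, hDT]
      field_simp
    exact mul_left_cancel₀ hT.ne' this
  rw [Complex.div_im]
  have hns : Complex.normSq ((P : ℂ) + ((S / D : ℝ) : ℂ) * Complex.I) = P ^ 2 + (S / D) ^ 2 := by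
    rw [Complex.normSq_add_mul_I]
  rw [hns, hN]
  simp only [Complex.add_re, Complex.add_im, Complex.mul_re, Complex.mul_im, Complex.ofReal_re,
    Complex.ofReal_im, Complex.I_re, Complex.I_im, mul_zero, mul_one, add_zero, zero_add,
    sub_zero]
  have hD' : D ≠ 0 := hD0.ne'
  have key2 : (H * X) * (D * ((S' * D - S * (T' / (2 * D))) / D ^ 2 * P / (H * X) -
      P' * (S / D) / (H * X))) = (H * X) * (lu / X - be / H) := by
    have hR : (H * X) * (lu / X - be / H) = H * lu - X * be := by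
      field_simp
    have hL : (H * X) * (D * ((S' * D - S * (T' / (2 * D))) / D ^ 2 * P / (H * X) -
      P' * (S / D) / (H * X))) = (P * S' - P' * S) - S * P * T' / (2 * D ^ 2) := by
      field_simp
      ring
    rw [hR, hL]
    have h6 : H * T * ((P * S' - P' * S) - S * P * T' / (2 * D ^ 2)) =
        H * T * (H * lu - X * be) := by
      rw [← key, hDT]
      field_simp
    exact mul_left_cancel₀ (mul_ne_zero hH hT.ne') h6
  exact mul_left_cancel₀ (mul_ne_zero hH hX) key2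

theorem angle_aux {k : ℕ} (z0 : Fin (k + 2) → ℝ) {f : ℝ → Fin k → Fin (k + 2) → ℝ}
    {X : ℝ → Fin (k + 2) → ℝ} {F' : Fin k → Fin (k + 2) → ℝ} {x' : Fin (k + 2) → ℝ}
    (hf : HasDerivAt f F' 0) (hX : HasDerivAt X x' 0) (hF : (gram (f 0) (f 0)).det < 0)
    (hx : lor (perp (f 0) (X 0)) (perp (f 0) (X 0)) ≠ 0)
    (hz : lor (perp (f 0) z0) (perp (f 0) z0) ≠ 0) :
    ∃ a' : ℂ, HasDerivAt (fun t : ℝ => aF z0 (X t) (f t)) a' 0 ∧
      Real.sqrt (-(gram (f 0) (f 0)).det) * (a' / aF z0 (X 0) (f 0)).im =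
        cn (X 0) x' (f 0) F' - cn z0 0 (f 0) F' := by
  have hdet : (gram (f 0) (f 0)).det ≠ 0 := hF.ne
  have hcz : HasDerivAt (fun _ : ℝ => z0) 0 0 := hasDerivAt_const _ _
  obtain ⟨u', hu', hu'w⟩ := perp_hasDerivAt hf hX hdet
  obtain ⟨v', hv', hv'w⟩ := perp_hasDerivAt hf hcz hdet
  have hw0 := (diff_crsL hf.differentiableAt hcz.differentiableAt).hasDerivAt
  set w' := deriv (fun s : ℝ => crsL (f s) z0) 0 with hw'
  have hGd : DifferentiableAt ℝ (fun s : ℝ => (gram (f s) (f s)).det) 0 := by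
    refine diff_det fun i j => ?_
    simp only [gram_apply]
    have h1 : ∀ a, HasDerivAt (fun s : ℝ => f s a) (F' a) 0 := hasDerivAt_pi.1 hf
    exact diff_lor (h1 i).differentiableAt (h1 j).differentiableAt
  have hT := hGd.hasDerivAt.fun_neg
  set T' := -deriv (fun s : ℝ => (gram (f s) (f s)).det) 0 with hT'
  have hP := lor_hasDerivAt hX hv'
  have hS := lor_hasDerivAt hX hw0
  have hH := lor_hasDerivAt hv' hv'
  -- eventual nondegeneracy
  have hev1 : ∀ᶠ t in 𝓝 (0 : ℝ), (gram (f t) (f t)).det ≠ 0 :=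
    hGd.continuousAt.eventually_ne hdet
  have hev2 : ∀ᶠ t in 𝓝 (0 : ℝ), lor (perp (f t) z0) (perp (f t) z0) ≠ 0 :=
    hH.continuousAt.eventually_ne hz
  set w := crsL (f 0) (X 0) with hw
  have huw := lor_hasDerivAt hu' (hasDerivAt_const (0 : ℝ) w)
  have hvw := lor_hasDerivAt hv' (hasDerivAt_const (0 : ℝ) w)
  have hww := lor_hasDerivAt hw0 (hasDerivAt_const (0 : ℝ) w)
  simp only [lor_zero_right, add_zero] at huw hvw hww
  -- values at 0
  have e1 : lor (perp (f 0) (X 0)) w = 0 := by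
    rw [hw, lor_perp_crsL _ hdet, lor_self_crsL]
  have e2 : lor (perp (f 0) z0) w = -lor (X 0) (crsL (f 0) z0) := by
    rw [hw, lor_perp_crsL _ hdet, lor_crsL]
  have e3 : lor (crsL (f 0) z0) w = -(gram (f 0) (f 0)).det * lor (X 0) (perp (f 0) z0) := by
    rw [hw, lor_crsL_crsL _ hdet, lor_comm (perp (f 0) z0), lor_perp_perp _ hdet (X 0),
      lor_perp_left _ hdet (X 0)]
    ring
  have hA := deriv_eq_of_eventually_eq
    ((((hT.mul hH).mul huw).sub ((hT.mul hP).mul hvw)).sub (hS.mul hww))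
    (hasDerivAt_const (0 : ℝ) (0 : ℝ)) (by
      filter_upwards [hev1, hev2] with t h1 h2
      have h3 := congrArg (fun y => lor y w) (plane_expansion (f t) h1 (X t) z0 h2)
      simp only [lor_add_left, lor_smul_left] at h3
      simp only [Pi.sub_apply, Pi.mul_apply]
      linear_combination h3)
  have hB := deriv_eq_of_eventually_eq (lor_hasDerivAt hv' hw0)
    (hasDerivAt_const (0 : ℝ) (0 : ℝ)) (by
      filter_upwards [hev1] with t h1
      rw [lor_perp_crsL _ h1, lor_self_crsL])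
  have hC := deriv_eq_of_eventually_eq (lor_hasDerivAt hw0 hw0) (hT.mul hH) (by
      filter_upwards [hev1] with t h1
      rw [lor_crsL_crsL _ h1, Pi.mul_apply]
      ring)
  have hpl := plane_expansion (f 0) hdet (X 0) z0 hz
  have hI2 : ∀ y, lor (perp (f 0) z0) (perp (f 0) z0) * lor y w =
      lor (X 0) (perp (f 0) z0) * lor y (crsL (f 0) z0) -
        lor (X 0) (crsL (f 0) z0) * lor y (perp (f 0) z0) := by
    intro y
    have h1 := congrArg (fun q => lor y (crsL (f 0) q)) hpl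
    simp only [map_add, map_smul, crsL_perp, crsL_crsL _ hdet, lor_add_right, lor_smul_right] at h1
    rw [← hw] at h1
    have h2 : -(gram (f 0) (f 0)).det * (lor (perp (f 0) z0) (perp (f 0) z0) * lor y w) =
        -(gram (f 0) (f 0)).det * (lor (X 0) (perp (f 0) z0) * lor y (crsL (f 0) z0) -
        lor (X 0) (crsL (f 0) z0) * lor y (perp (f 0) z0)) := by
      linear_combination h1
    exact mul_left_cancel₀ (neg_ne_zero.2 hdet) h2
  have hI3 : -(gram (f 0) (f 0)).det * lor (perp (f 0) z0) (perp (f 0) z0) *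
      lor (perp (f 0) (X 0)) (perp (f 0) (X 0)) =
      -(gram (f 0) (f 0)).det * lor (X 0) (perp (f 0) z0) ^ 2 +
        lor (X 0) (crsL (f 0) z0) ^ 2 := by
    have h1 := congrArg (fun q => lor (perp (f 0) (X 0)) q) hpl
    simp only [lor_add_right, lor_smul_right] at h1
    rw [lor_perp_crsL _ hdet, lor_perp_perp _ hdet (X 0) z0, lor_perp_left _ hdet (X 0) z0] at h1
    linear_combination h1
  have hTpos : 0 < -(gram (f 0) (f 0)).det := neg_pos.2 hF
  have hD := hT.sqrt hTpos.ne'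
  have hD0 : Real.sqrt (-(gram (f 0) (f 0)).det) ≠ 0 := (Real.sqrt_pos.2 hTpos).ne'
  have hR := hS.div hD hD0
  have ha := hP.ofReal_comp.add (hR.ofReal_comp.mul_const Complex.I)
  refine ⟨_, ha, ?_⟩
  have hcn1 : cn (X 0) x' (f 0) F' = lor u' w / lor (perp (f 0) (X 0)) (perp (f 0) (X 0)) := by
    rw [cn, ← lor_crs, ← crsL_apply, ← hu'w]
  have hcn2 : cn z0 0 (f 0) F' =
      lor v' (crsL (f 0) z0) / lor (perp (f 0) z0) (perp (f 0) z0) := by
    rw [cn, ← lor_crs, ← crsL_apply, ← hv'w]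
  rw [hcn1, hcn2, aF]
  refine angle_algebra (al := lor v' (perp (f 0) z0)) (ga := lor w' (crsL (f 0) z0))
    (de := lor w' (perp (f 0) z0)) (lvw := lor v' w) (lww := lor w' w) hTpos hz hx ?_
    (hI2 v') (hI2 w') ?_ ?_ hI3
  · simp only [Pi.mul_apply] at hA
    rw [e1, e2, e3] at hA
    linear_combination hA
  · rw [lor_comm w']
    exact hB
  · rw [lor_comm (crsL (f 0) z0) w', lor_comm (perp (f 0) z0) v'] at hC
    linear_combination hC

/-- V2: derivative of the dihedral angle in moving frames. -/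
theorem angle_hasDerivAt {k : ℕ} (z0 x x' : Fin (k + 2) → ℝ) (F F' : Fin k → Fin (k + 2) → ℝ)
    (hF : (gram F F).det < 0) (hx : lor (perp F x) (perp F x) ≠ 0)
    (hz : lor (perp F z0) (perp F z0) ≠ 0) :
    ∃ a' : ℂ, HasDerivAt (fun t : ℝ => aF z0 (x + t • x') (F + t • F')) a' 0 ∧
      Real.sqrt (-(gram F F).det) * (a' / aF z0 x F).im = cn x x' F F' - cn z0 0 F F' := by
  have hcF : HasDerivAt (fun t : ℝ => F + t • F') F' 0 := by
    have h1 : HasDerivAt (fun t : ℝ => t • F') ((1 : ℝ) • F') 0 :=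
      (hasDerivAt_id (0 : ℝ)).smul_const F'
    rw [one_smul] at h1
    exact h1.const_add F
  have hcx : HasDerivAt (fun t : ℝ => x + t • x') x' 0 := by
    have h1 : HasDerivAt (fun t : ℝ => t • x') ((1 : ℝ) • x') 0 :=
      (hasDerivAt_id (0 : ℝ)).smul_const x'
    rw [one_smul] at h1
    exact h1.const_add x
  have hF0 : F + (0 : ℝ) • F' = F := by rw [zero_smul, add_zero]
  have hx0 : x + (0 : ℝ) • x' = x := by rw [zero_smul, add_zero]
  have h := angle_aux z0 hcF hcx (by simpa only [hF0] using hF)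
    (by simpa only [hF0, hx0] using hx) (by simpa only [hF0] using hz)
  simpa only [hF0, hx0] using h

end Pool.Agent.Work.MP_1c91cf_gt

end

section

/-!
# Conversion of the volume sum to the function `VV`
-/

set_option autoImplicit false

open Matrix MeasureTheory

namespace Pool.Agent.Work.MP_1c91cf_gt

theorem J_scale {N : ℕ} (Q : Matrix (Fin N) (Fin N) ℝ) (g : Fin N → ℝ) (hg : ∀ i, 0 < g i) :
    J (Matrix.of fun i j => g i * g j * Q i j) * ∏ i, g i = J Q := by
  have hprod : 0 < ∏ i, g i := Finset.prod_pos fun i _ => hg i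
  have hdet : (Matrix.diagonal g).det = ∏ i, g i := Matrix.det_diagonal
  have hvol := Real.smul_map_diagonal_volume_pi (D := g) (by rw [hdet]; exact hprod.ne')
  rw [hdet, abs_of_pos hprod] at hvol
  set A : Set (Fin N → ℝ) := {l | ∀ i, 0 < l i} with hA
  have hAm : MeasurableSet A := measurableSet_orthant N
  set f : (Fin N → ℝ) → ℝ := fun l => Real.exp (-(1 / 2) * ∑ i, ∑ j, Q i j * l i * l j) with hf
  have hfc : Continuous f := by
    rw [hf]
    fun_prop
  have h1 : J Q = ∫ l, A.indicator f l := by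
    rw [integral_indicator hAm]
    rfl
  have hT : ∀ l : Fin N → ℝ, (Matrix.toLin' (Matrix.diagonal g)) l = fun i => g i * l i := by
    intro l
    funext i
    rw [Matrix.toLin'_apply, Matrix.mulVec_diagonal]
  have h2 : ∫ l, A.indicator f l = (∏ i, g i) *
      ∫ l, A.indicator f ((Matrix.toLin' (Matrix.diagonal g)) l) := by
    conv_lhs => rw [← hvol]
    rw [integral_smul_measure, ENNReal.toReal_ofReal hprod.le, smul_eq_mul]
    congr 1
    rw [integral_map]
    · exact (LinearMap.continuous_of_finiteDimensional _).measurable.aemeasurable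
    · exact (hfc.measurable.indicator hAm).aestronglyMeasurable
  have h3 : ∀ l : Fin N → ℝ, A.indicator f ((Matrix.toLin' (Matrix.diagonal g)) l) =
      A.indicator (fun l => Real.exp (-(1 / 2) * ∑ i, ∑ j,
        (Matrix.of fun i j => g i * g j * Q i j) i j * l i * l j)) l := by
    intro l
    have hiff : (Matrix.toLin' (Matrix.diagonal g)) l ∈ A ↔ l ∈ A := by
      rw [hT]
      simp only [hA, Set.mem_ofPred_eq]
      exact forall_congr' fun i => mul_pos_iff_of_pos_left (hg i)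
    by_cases hl : l ∈ A
    · rw [Set.indicator_of_mem (hiff.2 hl), Set.indicator_of_mem hl, hT]
      simp only [hf]
      congr 2
      refine Finset.sum_congr rfl fun i _ => Finset.sum_congr rfl fun j _ => ?_
      rw [Matrix.of_apply]
      ring
    · rw [Set.indicator_of_notMem (fun h => hl (hiff.1 h)), Set.indicator_of_notMem hl]
  rw [h1, h2, mul_comm]
  congr 1
  rw [integral_congr_ae (Filter.Eventually.of_forall h3), integral_indicator hAm]
  rfl

/-- unit vector of a point of the Klein ball -/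
noncomputable def hyp {N : ℕ} (p : Fin N → ℝ) : Fin (N + 1) → ℝ :=
  (1 / Real.sqrt (1 - ∑ j, (p j) ^ 2)) • (Fin.cons 1 p : Fin (N + 1) → ℝ)

/-- antisymmetrisation -/
def altC {k m : ℕ} (c : (Fin k → Fin m) → ℤ) (G : Fin k → Fin m) : ℤ :=
  ∑ π : Equiv.Perm (Fin k), ((Equiv.Perm.sign π : ℤˣ) : ℤ) * c (G ∘ π)

lemma sign_mul_self {k : ℕ} (π : Equiv.Perm (Fin k)) :
    ((Equiv.Perm.sign π : ℤˣ) : ℤ) * ((Equiv.Perm.sign π : ℤˣ) : ℤ) = 1 := by
  rw [← Units.val_mul, Int.units_mul_self, Units.val_one]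

theorem altC_alt {k m : ℕ} (c : (Fin k → Fin m) → ℤ) (G : Fin k → Fin m) (π : Equiv.Perm (Fin k)) :
    altC c (G ∘ π) = ((Equiv.Perm.sign π : ℤˣ) : ℤ) * altC c G := by
  unfold altC
  rw [← Equiv.sum_comp (Equiv.mulLeft π)
    (fun ρ : Equiv.Perm (Fin k) => ((Equiv.Perm.sign ρ : ℤˣ) : ℤ) * c (G ∘ ρ)), Finset.mul_sum]
  refine Finset.sum_congr rfl fun ρ _ => ?_
  rw [Equiv.coe_mulLeft, Equiv.Perm.sign_mul, Units.val_mul, ← mul_assoc, ← mul_assoc,
    sign_mul_self, one_mul]
  rfl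

/-- The permutation attached to the image of `0` and the remaining permutation. -/
def permOf {k : ℕ} (x : Fin (k + 1) × Equiv.Perm (Fin k)) : Equiv.Perm (Fin (k + 1)) :=
  x.1.cycleRange.symm * Equiv.Perm.decomposeFin.symm (0, x.2)

lemma permOf_zero {k : ℕ} (x : Fin (k + 1) × Equiv.Perm (Fin k)) : permOf x 0 = x.1 := by
  unfold permOf
  rw [Equiv.Perm.mul_apply, Equiv.Perm.decomposeFin_symm_apply_zero, Fin.cycleRange_symm_zero]

lemma permOf_succ {k : ℕ} (x : Fin (k + 1) × Equiv.Perm (Fin k)) (j : Fin k) :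
    permOf x j.succ = x.1.succAbove (x.2 j) := by
  unfold permOf
  rw [Equiv.Perm.mul_apply, Equiv.Perm.decomposeFin_symm_apply_succ, Equiv.swap_self,
    Equiv.refl_apply, Fin.cycleRange_symm_succ]

lemma sign_permOf {k : ℕ} (x : Fin (k + 1) × Equiv.Perm (Fin k)) :
    ((Equiv.Perm.sign (permOf x) : ℤˣ) : ℤ) =
      (-1) ^ (x.1 : ℕ) * ((Equiv.Perm.sign x.2 : ℤˣ) : ℤ) := by
  unfold permOf
  rw [Equiv.Perm.sign_mul, Equiv.Perm.sign_symm, Fin.sign_cycleRange,
    Equiv.Perm.decomposeFin.symm_sign, if_pos rfl, one_mul]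
  push_cast
  rfl

lemma permOf_bijective (k : ℕ) :
    Function.Bijective (permOf : Fin (k + 1) × Equiv.Perm (Fin k) → Equiv.Perm (Fin (k + 1))) := by
  rw [Fintype.bijective_iff_injective_and_card]
  constructor
  · rintro ⟨i, ρ⟩ ⟨i', ρ'⟩ h
    have h0 : i = i' := by
      have := congrArg (fun π : Equiv.Perm (Fin (k + 1)) => π 0) h
      simpa only [permOf_zero] using this
    subst h0
    refine Prod.ext rfl (Equiv.ext fun j => ?_)
    have := congrArg (fun π : Equiv.Perm (Fin (k + 1)) => π j.succ) h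
    simp only [permOf_succ] at this
    exact Fin.succAbove_right_injective this
  · rw [Fintype.card_prod, Fintype.card_perm, Fintype.card_perm, Fintype.card_fin,
      Fintype.card_fin, Nat.factorial_succ]

theorem altC_cyc {k m : ℕ} (c : (Fin (k + 1) → Fin m) → ℤ)
    (hc : ∀ f : (Fin k → Fin m) → ℤ,
      (∀ (τ : Fin k → Fin m) (π : Equiv.Perm (Fin k)),
          f (τ ∘ ⇑π) = ((Equiv.Perm.sign π : ℤˣ) : ℤ) * f τ) →
      ∑ σ : Fin (k+1) → Fin m,
          c σ * ∑ i : Fin (k+1), (-1 : ℤ) ^ (i : ℕ) * f (σ ∘ Fin.succAbove i) = 0)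
    (F : Fin k → Fin m) : ∑ x, altC c (Fin.cons x F) = 0 := by
  classical
  let f : (Fin k → Fin m) → ℤ := fun τ =>
    ∑ ρ : Equiv.Perm (Fin k), if τ ∘ ρ = F then ((Equiv.Perm.sign ρ : ℤˣ) : ℤ) else 0
  have hf : ∀ (τ : Fin k → Fin m) (π : Equiv.Perm (Fin k)),
      f (τ ∘ ⇑π) = ((Equiv.Perm.sign π : ℤˣ) : ℤ) * f τ := by
    intro τ π
    simp only [f]
    rw [← Equiv.sum_comp (Equiv.mulLeft π)
      (fun ρ : Equiv.Perm (Fin k) => if τ ∘ ρ = F then ((Equiv.Perm.sign ρ : ℤˣ) : ℤ) else 0),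
      Finset.mul_sum]
    refine Finset.sum_congr rfl fun ρ _ => ?_
    have e : τ ∘ ⇑π ∘ ⇑ρ = τ ∘ ⇑((Equiv.mulLeft π) ρ) := rfl
    rw [Function.comp_assoc, e]
    split_ifs
    · rw [Equiv.coe_mulLeft, Equiv.Perm.sign_mul, Units.val_mul, ← mul_assoc, sign_mul_self,
        one_mul]
    · rw [mul_zero]
  have h1 := hc f hf
  have h2 : ∀ σ : Fin (k + 1) → Fin m,
      ∑ i : Fin (k+1), (-1 : ℤ) ^ (i : ℕ) * f (σ ∘ Fin.succAbove i) =
      ∑ π : Equiv.Perm (Fin (k + 1)),
        if σ ∘ π ∘ Fin.succ = F then ((Equiv.Perm.sign π : ℤˣ) : ℤ) else 0 := by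
    intro σ
    rw [← (permOf_bijective k).sum_comp (fun π : Equiv.Perm (Fin (k + 1)) =>
      if σ ∘ π ∘ Fin.succ = F then ((Equiv.Perm.sign π : ℤˣ) : ℤ) else 0), Fintype.sum_prod_type]
    refine Finset.sum_congr rfl fun i _ => ?_
    simp only [f]
    rw [Finset.mul_sum]
    refine Finset.sum_congr rfl fun ρ _ => ?_
    have e : σ ∘ ⇑(permOf (i, ρ)) ∘ Fin.succ = (σ ∘ i.succAbove) ∘ ⇑ρ := by
      funext j
      simp only [Function.comp_apply, permOf_succ]
    rw [e]
    split_ifs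
    · rw [sign_permOf]
    · rw [mul_zero]
  simp only [h2] at h1
  rw [← h1]
  unfold altC
  rw [Finset.sum_comm]
  simp only [Finset.mul_sum]
  rw [Finset.sum_comm (s := (Finset.univ : Finset (Fin (k + 1) → Fin m)))]
  rw [← Equiv.sum_comp (Equiv.inv (Equiv.Perm (Fin (k + 1))))
    (fun π : Equiv.Perm (Fin (k + 1)) => ∑ σ : Fin (k + 1) → Fin m,
      c σ * if σ ∘ π ∘ Fin.succ = F then ((Equiv.Perm.sign π : ℤˣ) : ℤ) else 0)]
  refine Finset.sum_congr rfl fun π _ => ?_
  -- substitute `σ = cons x F ∘ π`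
  have h3 : ∀ σ : Fin (k + 1) → Fin m, (σ ∘ ⇑(π⁻¹) ∘ Fin.succ = F) ↔
      ∃ x, (Fin.cons x F : Fin (k + 1) → Fin m) ∘ π = σ := by
    intro σ
    constructor
    · intro h
      refine ⟨σ (π⁻¹ 0), ?_⟩
      funext j
      rw [Function.comp_apply]
      have h4 : ∀ i, (Fin.cons (σ (π⁻¹ 0)) F : Fin (k + 1) → Fin m) i = σ (π⁻¹ i) := by
        intro i
        refine Fin.cases ?_ (fun i => ?_) i
        · rfl
        · rw [Fin.cons_succ, ← h]
          rfl
      rw [h4]
      exact congrArg σ (π.symm_apply_apply j)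
    · rintro ⟨x, rfl⟩
      funext j
      have h6 : π (π⁻¹ j.succ) = j.succ := π.apply_symm_apply j.succ
      rw [Function.comp_apply, Function.comp_apply, Function.comp_apply, h6, Fin.cons_succ]
  have h5 : ∀ σ : Fin (k + 1) → Fin m,
      (c σ * if σ ∘ ⇑((Equiv.inv (Equiv.Perm (Fin (k + 1)))) π) ∘ Fin.succ = F then
        ((Equiv.Perm.sign ((Equiv.inv (Equiv.Perm (Fin (k + 1)))) π) : ℤˣ) : ℤ) else 0) =
      ∑ x : Fin m, if (Fin.cons x F : Fin (k + 1) → Fin m) ∘ π = σ then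
        ((Equiv.Perm.sign π : ℤˣ) : ℤ) * c ((Fin.cons x F : Fin (k + 1) → Fin m) ∘ π) else 0 := by
    intro σ
    have e1 : (Equiv.inv (Equiv.Perm (Fin (k + 1)))) π = π⁻¹ := rfl
    rw [e1, Equiv.Perm.sign_inv]
    by_cases h : σ ∘ ⇑(π⁻¹) ∘ Fin.succ = F
    · rw [if_pos h]
      obtain ⟨x, hx⟩ := (h3 σ).1 h
      rw [Finset.sum_eq_single x]
      · rw [if_pos hx, hx, mul_comm]
      · intro y _ hy
        rw [if_neg]
        intro hy2
        apply hy
        rw [← hx] at hy2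
        have := congrFun hy2 (π⁻¹ 0)
        simpa using this
      · intro h; exact absurd (Finset.mem_univ _) h
    · rw [if_neg h, mul_zero]
      symm
      apply Finset.sum_eq_zero
      intro x _
      rw [if_neg]
      intro hx
      exact h ((h3 σ).2 ⟨x, hx⟩)
  simp only [h5]
  rw [Finset.sum_comm]
  refine Finset.sum_congr rfl fun x _ => ?_
  simp

lemma hyp_zero {N : ℕ} : hyp (0 : Fin N → ℝ) = e0 := by
  unfold hyp e0
  have : ∑ j : Fin N, ((0 : Fin N → ℝ) j) ^ 2 = 0 := by simp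
  rw [this, sub_zero, Real.sqrt_one, div_one, one_smul]
  rfl

lemma lor_hyp {N : ℕ} (x y : Fin N → ℝ) : lor (hyp x) (hyp y) =
    (1 / Real.sqrt (1 - ∑ j, (x j) ^ 2)) * (1 / Real.sqrt (1 - ∑ j, (y j) ^ 2)) *
      (-1 + ∑ j, x j * y j) := by
  unfold lor hyp
  rw [Fin.sum_univ_succ]
  simp only [Pi.smul_apply, Fin.cons_zero, Fin.cons_succ, smul_eq_mul, eta]
  rw [mul_add, Finset.mul_sum]
  congr 1
  · ring
  · refine Finset.sum_congr rfl fun j _ => ?_
    ring

lemma SS_perm {N : ℕ} (z : Fin N → Fin (N + 1) → ℝ) (π : Equiv.Perm (Fin N)) :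
    SS (Fin.cons e0 (z ∘ π) : Fin (N + 1) → Fin (N + 1) → ℝ) =
      (((Equiv.Perm.sign π : ℤˣ) : ℤ) : ℝ) * SS (Fin.cons e0 z : Fin (N + 1) → Fin (N + 1) → ℝ) := by
  set π' : Equiv.Perm (Fin (N + 1)) := Equiv.Perm.decomposeFin.symm (0, π) with hπ'
  have h1 : (Fin.cons e0 (z ∘ π) : Fin (N + 1) → Fin (N + 1) → ℝ) =
      (Fin.cons e0 z : Fin (N + 1) → Fin (N + 1) → ℝ) ∘ π' := by
    funext i
    refine Fin.cases ?_ (fun i => ?_) i
    · rw [Function.comp_apply, hπ', Equiv.Perm.decomposeFin_symm_apply_zero]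
      rfl
    · rw [Function.comp_apply, hπ', Equiv.Perm.decomposeFin_symm_apply_succ, Equiv.swap_self,
        Equiv.refl_apply]
      rfl
  have hs : Equiv.Perm.sign π' = Equiv.Perm.sign π := by
    rw [hπ', Equiv.Perm.decomposeFin.symm_sign, if_pos rfl, one_mul]
  unfold SS
  rw [h1]
  set Y : Fin (N + 1) → Fin (N + 1) → ℝ := Fin.cons e0 z with hY
  have h2 : (Matrix.of (Y ∘ π')).det = (((Equiv.Perm.sign π : ℤˣ) : ℤ) : ℝ) * (Matrix.of Y).det := by
    have := Matrix.det_permute π' (Matrix.of Y)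
    rw [hs] at this
    rw [← this]
    rfl
  have h3 : J (Qm (Y ∘ π')) = J (Qm Y) := J_perm (Qm Y) π'
  rw [h2, h3, mul_assoc]

/-- One term of the sum. -/
lemma term_eq {q : ℕ} (p : Fin (q + 1 + 1) → Fin (q + 1 + 1) → ℝ)
    (hp : ∀ v, ∑ j, (p v j) ^ 2 < 1) :
    Real.sign (Matrix.det (Matrix.of p)) *
      ((hypMeasure (q + 1)) (convexHull ℝ (insert 0 (Set.range p)))).toReal *
        radialConst (q + 1) =
    SS (Fin.cons e0 (fun a => hyp (p a)) :
      Fin (q + 1 + 1 + 1) → Fin (q + 1 + 1 + 1) → ℝ) := by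
  rw [hypVol_eq (q + 1) p hp]
  set P : Fin (q + 1 + 1 + 1) → Fin (q + 1 + 1) → ℝ := Fin.cons 0 p with hP
  have hY : (Fin.cons e0 (fun a => hyp (p a)) :
      Fin (q + 1 + 1 + 1) → Fin (q + 1 + 1 + 1) → ℝ) = fun a => hyp (P a) := by
    funext a
    refine Fin.cases ?_ (fun a => ?_) a
    · rw [Fin.cons_zero, hP, Fin.cons_zero, hyp_zero]
    · rw [Fin.cons_succ, hP, Fin.cons_succ]
  have hP1 : ∀ a, 0 < 1 - ∑ j, (P a j) ^ 2 := by
    intro a
    refine Fin.cases ?_ (fun a => ?_) a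
    · simp [hP]
    · rw [hP, Fin.cons_succ]
      linarith [hp a]
  set g : Fin (q + 1 + 1 + 1) → ℝ := fun a => 1 / Real.sqrt (1 - ∑ j, (P a j) ^ 2) with hg
  have hg0 : ∀ a, 0 < g a := fun a => one_div_pos.2 (Real.sqrt_pos.2 (hP1 a))
  have hQ : Qm (fun a => hyp (P a)) = Matrix.of fun i j => g i * g j *
      (Matrix.of fun a b : Fin (q + 1 + 1 + 1) => 1 - ∑ j, P a j * P b j) i j := by
    ext a b
    unfold Qm
    rw [Matrix.of_apply, Matrix.of_apply, Matrix.of_apply, lor_hyp]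
    simp only [hg]
    ring
  have hdet : (Matrix.of fun a => hyp (P a)).det = (∏ a, g a) * (Matrix.of p).det := by
    have h1 : (Matrix.of fun a => hyp (P a)) = Matrix.diagonal g *
        (Matrix.of fun a => (Fin.cons 1 (P a) : Fin (q + 1 + 1 + 1) → ℝ)) := by
      ext a b
      rw [Matrix.diagonal_mul]
      rfl
    rw [h1, Matrix.det_mul, Matrix.det_diagonal]
    congr 1
    rw [Matrix.det_succ_row_zero, Fin.sum_univ_succ]
    have h2 : ∀ i : Fin (q + 1 + 1), (-1 : ℝ) ^ ((i.succ : Fin (q + 1 + 1 + 1)) : ℕ) *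
        (Matrix.of fun a => (Fin.cons 1 (P a) : Fin (q + 1 + 1 + 1) → ℝ)) 0 i.succ *
        ((Matrix.of fun a => (Fin.cons 1 (P a) : Fin (q + 1 + 1 + 1) → ℝ)).submatrix Fin.succ
          i.succ.succAbove).det = 0 := by
      intro i
      have : (Matrix.of fun a => (Fin.cons 1 (P a) : Fin (q + 1 + 1 + 1) → ℝ)) 0 i.succ = 0 := by
        rw [Matrix.of_apply, Fin.cons_succ, hP, Fin.cons_zero]
        rfl
      rw [this, mul_zero, zero_mul]
    rw [Finset.sum_eq_zero fun i _ => h2 i, add_zero]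
    have h3 : (Matrix.of fun a => (Fin.cons 1 (P a) : Fin (q + 1 + 1 + 1) → ℝ)).submatrix
        Fin.succ (Fin.succAbove 0) = Matrix.of p := by
      ext a b
      rw [Matrix.submatrix_apply, Matrix.of_apply, Fin.zero_succAbove, Fin.cons_succ, hP,
        Fin.cons_succ]
      rfl
    rw [h3]
    simp
  rw [hY, SS, hdet, hQ, ← J_scale _ g hg0]
  ring

theorem frozen_sum_eq {q m : ℕ} (c : (Fin (q + 1 + 1) → Fin m) → ℤ)
    (p : Fin m → Fin (q + 1 + 1) → ℝ) (hp : ∀ v, ∑ j, (p v j) ^ 2 < 1) :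
    (∑ σ : Fin (q + 1 + 1) → Fin m, (c σ : ℝ) *
        Real.sign (Matrix.det (Matrix.of (fun i j => p (σ i) j))) *
        ((hypMeasure (q + 1))
          (convexHull ℝ (insert 0 (Set.range (fun i => p (σ i)))))).toReal) *
      (radialConst (q + 1) * ((q + 1 + 1).factorial : ℝ)) =
    VV (altC c) (fun v => hyp (p v)) := by
  have h1 : ∀ σ : Fin (q + 1 + 1) → Fin m, (c σ : ℝ) *
        Real.sign (Matrix.det (Matrix.of (fun i j => p (σ i) j))) *
        ((hypMeasure (q + 1))
          (convexHull ℝ (insert 0 (Set.range (fun i => p (σ i)))))).toReal *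
      (radialConst (q + 1) * ((q + 1 + 1).factorial : ℝ)) =
      ((q + 1 + 1).factorial : ℝ) * ((c σ : ℝ) *
        SS (Fin.cons e0 ((fun v => hyp (p v)) ∘ σ) :
          Fin (q + 1 + 1 + 1) → Fin (q + 1 + 1 + 1) → ℝ)) := by
    intro σ
    have h2 := term_eq (fun i => p (σ i)) (fun i => hp (σ i))
    have e : ((fun v => hyp (p v)) ∘ σ : Fin (q + 1 + 1) → Fin (q + 1 + 1 + 1) → ℝ) =
        fun a => hyp (p (σ a)) := rfl
    rw [e, ← h2]
    ring
  rw [Finset.sum_mul, Finset.sum_congr rfl fun σ _ => h1 σ, ← Finset.mul_sum]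
  unfold VV altC
  push_cast
  simp only [Finset.sum_mul]
  rw [Finset.sum_comm]
  have h3 : ∀ π : Equiv.Perm (Fin (q + 1 + 1)),
      ∑ G : Fin (q + 1 + 1) → Fin m, (((Equiv.Perm.sign π : ℤˣ) : ℤ) : ℝ) * (c (G ∘ π) : ℝ) *
        SS (Fin.cons e0 ((fun v => hyp (p v)) ∘ G) :
          Fin (q + 1 + 1 + 1) → Fin (q + 1 + 1 + 1) → ℝ) =
      ∑ σ : Fin (q + 1 + 1) → Fin m, (c σ : ℝ) *
        SS (Fin.cons e0 ((fun v => hyp (p v)) ∘ σ) :
          Fin (q + 1 + 1 + 1) → Fin (q + 1 + 1 + 1) → ℝ) := by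
    intro π
    rw [← Equiv.sum_comp (Equiv.arrowCongr π (Equiv.refl (Fin m)))]
    refine Finset.sum_congr rfl fun σ _ => ?_
    have e1 : (Equiv.arrowCongr π (Equiv.refl (Fin m))) σ = σ ∘ ⇑(π⁻¹) := rfl
    rw [e1]
    have e2 : (σ ∘ ⇑(π⁻¹)) ∘ ⇑π = σ := by
      funext j
      simp
    rw [e2, ← Function.comp_assoc, SS_perm, Equiv.Perm.sign_inv]
    have e3 : (((Equiv.Perm.sign π : ℤˣ) : ℤ) : ℝ) * (((Equiv.Perm.sign π : ℤˣ) : ℤ) : ℝ) = 1 := by
      rw [← Int.cast_mul, sign_mul_self, Int.cast_one]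
    linear_combination ((c σ : ℝ) *
      SS (Fin.cons e0 ((fun v => hyp (p v)) ∘ σ) :
        Fin (q + 1 + 1 + 1) → Fin (q + 1 + 1 + 1) → ℝ)) * e3
  rw [Finset.sum_congr rfl fun π _ => h3 π, Finset.sum_const, Finset.card_univ,
    Fintype.card_perm, Fintype.card_fin, nsmul_eq_mul]

end Pool.Agent.Work.MP_1c91cf_gt

end

section

/-!
# The residue lemma: signed sum over real simplices over a residue field
-/

set_option autoImplicit false
set_option linter.unusedSectionVars false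

open Matrix

namespace Pool.Agent.Work.MP_1c91cf_gt

section lorentz

variable {N : ℕ}

lemma lor_eq_sum (u w : Fin (N + 1) → ℝ) :
    lor u w = -(u 0 * w 0) + ∑ i : Fin N, u i.succ * w i.succ := by
  simp [lor, Fin.sum_univ_succ, eta]

lemma lor_cs (u w : Fin (N + 1) → ℝ) :
    (∑ i : Fin N, u i.succ * w i.succ) ^ 2 ≤
      (∑ i : Fin N, u i.succ ^ 2) * (∑ i : Fin N, w i.succ ^ 2) :=
  Finset.sum_mul_sq_le_sq_mul_sq _ _ _

lemma lor_self (u : Fin (N + 1) → ℝ) :
    lor u u = -(u 0) ^ 2 + ∑ i : Fin N, u i.succ ^ 2 := by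
  rw [lor_eq_sum]
  congr 1
  · ring
  · exact Finset.sum_congr rfl fun i _ => by ring

/-- Future timelike vectors have negative product. -/
lemma lor_neg_of_future {u w : Fin (N + 1) → ℝ} (hu : lor u u < 0) (hw : lor w w < 0)
    (hu0 : 0 < u 0) (hw0 : 0 < w 0) : lor u w < 0 := by
  rw [lor_self] at hu hw
  rw [lor_eq_sum]
  have h1 := lor_cs u w
  have h2 : 0 ≤ ∑ i : Fin N, u i.succ ^ 2 := Finset.sum_nonneg fun i _ => sq_nonneg _
  have h3 : 0 ≤ ∑ i : Fin N, w i.succ ^ 2 := Finset.sum_nonneg fun i _ => sq_nonneg _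
  have h4 : (∑ i : Fin N, u i.succ * w i.succ) ^ 2 < (u 0 * w 0) ^ 2 := by
    have h5 : (∑ i : Fin N, u i.succ ^ 2) * (∑ i : Fin N, w i.succ ^ 2) < (u 0) ^ 2 * (w 0) ^ 2 := by
      apply mul_lt_mul'' (by linarith) (by linarith) h2 h3
    calc _ ≤ _ := h1
      _ < _ := h5
      _ = _ := by ring
  have h6 := abs_lt_of_sq_lt_sq h4 (by positivity)
  have h7 := (abs_lt.1 h6).2
  linarith

/-- A vector orthogonal to a timelike vector is spacelike or zero. -/
lemma lor_pos_of_orth {u w : Fin (N + 1) → ℝ} (hu : lor u u < 0) (huw : lor u w = 0)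
    (hw : w ≠ 0) : 0 < lor w w := by
  rw [lor_self] at hu ⊢
  rw [lor_eq_sum] at huw
  have h1 := lor_cs u w
  have h2 : 0 ≤ ∑ i : Fin N, u i.succ ^ 2 := Finset.sum_nonneg fun i _ => sq_nonneg _
  have h3 : 0 ≤ ∑ i : Fin N, w i.succ ^ 2 := Finset.sum_nonneg fun i _ => sq_nonneg _
  have h4 : ∑ i : Fin N, u i.succ * w i.succ = u 0 * w 0 := by linarith
  rw [h4] at h1
  have hu0 : 0 < u 0 ^ 2 := by linarith
  rcases h3.lt_or_eq with h5 | h5
  · have h6 : (u 0 * w 0) ^ 2 < (u 0) ^ 2 * (∑ i : Fin N, w i.succ ^ 2) := by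
      refine lt_of_le_of_lt h1 ?_
      exact mul_lt_mul_of_pos_right (by linarith) h5
    rw [mul_pow] at h6
    have h7 := lt_of_mul_lt_mul_left h6 hu0.le
    linarith
  · exfalso
    rw [← h5, mul_zero] at h1
    have h6 : w 0 = 0 := by
      have h7 : (u 0 * w 0) ^ 2 = 0 := le_antisymm h1 (sq_nonneg _)
      rw [mul_pow] at h7
      rcases mul_eq_zero.1 h7 with h8 | h8
      · exact absurd h8 hu0.ne'
      · exact pow_eq_zero_iff (two_ne_zero) |>.1 h8
    apply hw
    ext i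
    refine Fin.cases ?_ (fun j => ?_) i
    · exact h6
    · have h7 := (Finset.sum_eq_zero_iff_of_nonneg (fun i _ => sq_nonneg (w i.succ))).1 h5.symm j
        (Finset.mem_univ j)
      exact pow_eq_zero_iff (two_ne_zero) |>.1 h7

lemma lor_nonneg_of_orth {u w : Fin (N + 1) → ℝ} (hu : lor u u < 0) (huw : lor u w = 0) :
    0 ≤ lor w w := by
  by_cases hw : w = 0
  · rw [hw, lor_zero_left]
  · exact (lor_pos_of_orth hu huw hw).le

/-- A tuple of linearly independent vectors, one of which is timelike, has a nonsingular Gram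
matrix. -/
lemma det_gram_ne_zero_of_timelike {k : ℕ} (G : Fin k → Fin (N + 1) → ℝ)
    (hG : LinearIndependent ℝ G) (i : Fin k) (hi : lor (G i) (G i) < 0) :
    (gram G G).det ≠ 0 := by
  intro h0
  obtain ⟨c, hc0, hc⟩ := Matrix.exists_vecMul_eq_zero_iff.2 h0
  have h1 : ∀ j, lor (∑ a, c a • G a) (G j) = 0 := by
    intro j
    have h2 := congrFun hc j
    rw [Matrix.vecMul, dotProduct] at h2
    rw [lor_sum_left]
    simpa only [lor_smul_left, gram_apply, Pi.zero_apply] using h2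
  have h3 : lor (∑ a, c a • G a) (∑ a, c a • G a) = 0 := by
    conv_lhs => rw [lor_sum_right]
    refine Finset.sum_eq_zero fun a _ => ?_
    rw [lor_smul_right, h1, mul_zero]
  have h4 : ∑ a, c a • G a = 0 := by
    by_contra hne
    have := lor_pos_of_orth hi (by rw [lor_comm]; exact h1 i) hne
    linarith
  exact hc0 (funext fun a => Fintype.linearIndependent_iff.1 hG c h4 a)

end lorentz

section cone

variable {N q : ℕ}

/-- The Laplace relation between `q + 2` vectors of a `(q + 1)`-dimensional space. -/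
lemma laplace_relation {R : Type*} [CommRing R] (C : Fin (q + 2) → Fin (q + 1) → R)
    (d : Fin (q + 1)) :
    ∑ k : Fin (q + 2), (-1) ^ (k : ℕ) * (Matrix.of fun a => C (k.succAbove a)).det * C k d = 0 := by
  have h := Matrix.det_succ_column_zero
    (Matrix.of fun i : Fin (q + 2) => (Fin.cons (C i d) (C i) : Fin (q + 2) → R))
  rw [Matrix.det_zero_of_column_eq (i := 0) (j := d.succ) (Fin.succ_ne_zero d).symm
    (by intro k; simp)] at h
  rw [h]
  refine Finset.sum_congr rfl fun k _ => ?_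
  have h1 : (Matrix.of fun i : Fin (q + 2) =>
      (Fin.cons (C i d) (C i) : Fin (q + 2) → R)).submatrix k.succAbove Fin.succ
      = Matrix.of fun a => C (k.succAbove a) := by
    ext i j
    simp
  rw [h1]
  simp only [Matrix.of_apply, Fin.cons_zero]
  ring

/-- The coning identity for the Gaussian integrals. -/
lemma cone_identity (x : Fin (q + 2) → Fin (N + 1) → ℝ) (D : Fin (q + 2) → ℝ)
    (hD : ∑ k, D k • x k = 0) (hx : ∀ i j, lor (x i) (x j) < 0) :
    ∑ k : Fin (q + 2), D k *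
      J (Matrix.of fun a b => -lor (x (k.succAbove a)) (x (k.succAbove b))) = 0 := by
  have h1 : ∀ k : Fin (q + 2),
      J (Matrix.of fun a b => -lor (x (k.succAbove a)) (x (k.succAbove b)))
      = ∑ j, -lor (x k) (x j) * J1 (Matrix.of fun i j => -lor (x i) (x j)) j := by
    intro k
    have h := J_stokes0 (Matrix.of fun i j => -lor (x i) (x j))
      (fun i j => by rw [Matrix.of_apply]; exact neg_pos.2 (hx i j))
      (by
        ext i j
        rw [Matrix.transpose_apply, Matrix.of_apply, Matrix.of_apply, lor_comm]) k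
    simp only [Matrix.of_apply] at h
    rw [h]
    rfl
  simp only [h1, Finset.mul_sum]
  rw [Finset.sum_comm]
  refine Finset.sum_eq_zero fun j _ => ?_
  have h2 : ∑ k, D k * lor (x k) (x j) = 0 := by
    have h3 := congrArg (fun v => lor v (x j)) hD
    simp only [lor_zero_left] at h3
    rw [lor_sum_left] at h3
    simpa only [lor_smul_left] using h3
  have h4 : ∀ k, D k * (-lor (x k) (x j) * J1 (Matrix.of fun i j => -lor (x i) (x j)) j)
      = (D k * lor (x k) (x j)) * -J1 (Matrix.of fun i j => -lor (x i) (x j)) j := by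
    intro k; ring
  simp only [h4]
  rw [← Finset.sum_mul, h2, zero_mul]

lemma cons_comp_succAbove {α : Type*} (v : α) (F : Fin (q + 1) → α) (i : Fin (q + 1)) :
    (fun a => (Fin.cons v F : Fin (q + 2) → α) (i.succ.succAbove a))
      = (Fin.cons v (fun a => F (i.succAbove a)) : Fin (q + 1) → α) := by
  funext a
  refine Fin.cases ?_ (fun a' => ?_) a
  · rw [Fin.succ_succAbove_zero, Fin.cons_zero, Fin.cons_zero]
  · rw [Fin.succ_succAbove_succ, Fin.cons_succ, Fin.cons_succ]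

/-- Sum over functions, with the `i`-th value split off. -/
lemma sum_insertNth {m : ℕ} (i : Fin (q + 1)) (f : (Fin (q + 1) → Fin m) → ℝ) :
    ∑ F, f F = ∑ E : Fin q → Fin m, ∑ x : Fin m, f (i.insertNth x E) := by
  rw [← (Fin.insertNthEquiv (fun _ => Fin m) i).sum_comp f, Fintype.sum_prod_type,
    Finset.sum_comm]
  rfl

/-- Coning of an alternating cycle. -/
lemma cone_sum {m : ℕ} (c : Fin m → Fin (q + 1) → ℝ) (u : Fin m → Fin (N + 1) → ℝ)
    (w : Fin (q + 1) → Fin (N + 1) → ℝ) (hu : ∀ v, u v = ∑ b, c v b • w b)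
    (Z : (Fin (q + 1) → Fin m) → ℤ)
    (hZalt : ∀ (F : Fin (q + 1) → Fin m) (π : Equiv.Perm (Fin (q + 1))),
      Z (F ∘ π) = ((Equiv.Perm.sign π : ℤˣ) : ℤ) * Z F)
    (hpos : ∀ F, Z F ≠ 0 → ∀ a, lor (u (F a)) (u (F a)) < 0 ∧ 0 < u (F a) 0)
    (vs : Fin m) (hvs : lor (u vs) (u vs) < 0 ∧ 0 < u vs 0)
    (hcyc : ∀ E : Fin q → Fin m, (∃ y, Z (Fin.cons y E) ≠ 0) →
      LinearIndependent ℝ (fun a => c (E a)) → ∑ x, Z (Fin.cons x E) = 0) :
    ∑ F : Fin (q + 1) → Fin m, (Z F : ℝ) *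
      (J (Matrix.of fun a b => -lor (u (F a)) (u (F b))) *
        (Matrix.of fun a => c (F a)).det) = 0 := by
  set T : (Fin q → Fin m) → ℝ := fun E =>
    (Matrix.of fun a => c ((Fin.cons vs E : Fin (q + 1) → Fin m) a)).det *
      J (Matrix.of fun a b => -lor (u ((Fin.cons vs E : Fin (q + 1) → Fin m) a))
        (u ((Fin.cons vs E : Fin (q + 1) → Fin m) b))) with hT
  have hneg : ∀ F : Fin (q + 1) → Fin m, Z F ≠ 0 → ∀ i j,
      lor (u ((Fin.cons vs F : Fin (q + 2) → Fin m) i))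
        (u ((Fin.cons vs F : Fin (q + 2) → Fin m) j)) < 0 := by
    intro F hF i j
    have h1 : ∀ i, lor (u ((Fin.cons vs F : Fin (q + 2) → Fin m) i))
        (u ((Fin.cons vs F : Fin (q + 2) → Fin m) i)) < 0 ∧
        0 < u ((Fin.cons vs F : Fin (q + 2) → Fin m) i) 0 := by
      intro i
      refine Fin.cases ?_ (fun i' => ?_) i
      · rw [Fin.cons_zero]; exact hvs
      · rw [Fin.cons_succ]; exact hpos F hF i'
    exact lor_neg_of_future (h1 i).1 (h1 j).1 (h1 i).2 (h1 j).2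
  have key : ∀ F : Fin (q + 1) → Fin m, (Z F : ℝ) *
      (J (Matrix.of fun a b => -lor (u (F a)) (u (F b))) *
        (Matrix.of fun a => c (F a)).det)
      = ∑ i : Fin (q + 1), (Z F : ℝ) * ((-1) ^ (i : ℕ) * T (fun a => F (i.succAbove a))) := by
    intro F
    by_cases hF : Z F = 0
    · simp [hF]
    rw [← Finset.mul_sum]
    congr 1
    have h1 := cone_identity (q := q) (fun k => u ((Fin.cons vs F : Fin (q + 2) → Fin m) k))
      (fun k => (-1) ^ (k : ℕ) *
        (Matrix.of fun a => c ((Fin.cons vs F : Fin (q + 2) → Fin m) (k.succAbove a))).det)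
      (by
        simp only [hu, Finset.smul_sum, smul_smul]
        rw [Finset.sum_comm]
        refine Finset.sum_eq_zero fun d _ => ?_
        rw [← Finset.sum_smul,
          laplace_relation (fun k => c ((Fin.cons vs F : Fin (q + 2) → Fin m) k)) d, zero_smul])
      (hneg F hF)
    rw [Fin.sum_univ_succ] at h1
    simp only [Fin.val_zero, pow_zero, one_mul, Fin.zero_succAbove, Fin.cons_succ] at h1
    have h2 : ∀ i : Fin (q + 1),
        (-1 : ℝ) ^ ((i.succ : Fin (q + 2)) : ℕ) *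
          (Matrix.of fun a => c ((Fin.cons vs F : Fin (q + 2) → Fin m) (i.succ.succAbove a))).det *
          J (Matrix.of fun a b => -lor
            (u ((Fin.cons vs F : Fin (q + 2) → Fin m) (i.succ.succAbove a)))
            (u ((Fin.cons vs F : Fin (q + 2) → Fin m) (i.succ.succAbove b))))
        = -((-1) ^ (i : ℕ) * T (fun a => F (i.succAbove a))) := by
      intro i
      have h3 : ∀ a, (Fin.cons vs F : Fin (q + 2) → Fin m) (i.succ.succAbove a)
          = (Fin.cons vs (fun a => F (i.succAbove a)) : Fin (q + 1) → Fin m) a :=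
        fun a => congrFun (cons_comp_succAbove vs F i) a
      simp only [h3, hT]
      rw [Fin.val_succ, pow_succ]
      ring
    simp only [h2, Finset.sum_neg_distrib] at h1
    linear_combination h1
  simp only [key]
  rw [Finset.sum_comm]
  refine Finset.sum_eq_zero fun i _ => ?_
  rw [sum_insertNth i]
  refine Finset.sum_eq_zero fun E _ => ?_
  have h4 : ∀ x : Fin m, (Z (i.insertNth x E) : ℝ) = (-1) ^ (i : ℕ) * (Z (Fin.cons x E) : ℝ) := by
    intro x
    have h5 := hZalt (Fin.cons x E) i.cycleRange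
    rw [Fin.cons_comp_cycleRange, Fin.sign_cycleRange] at h5
    rw [h5]
    push_cast
    rfl
  have h5 : ∀ x : Fin m, (Z (i.insertNth x E) : ℝ) *
      ((-1) ^ (i : ℕ) * T (fun a => (i.insertNth x E : Fin (q + 1) → Fin m) (i.succAbove a)))
      = (Z (Fin.cons x E) : ℝ) * T E := by
    intro x
    rw [h4]
    simp only [Fin.insertNth_apply_succAbove]
    have h6 : ((-1 : ℝ) ^ (i : ℕ)) * (-1) ^ (i : ℕ) = 1 := by
      rw [← mul_pow]; norm_num
    linear_combination (Z (Fin.cons x E) : ℝ) * T E * h6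
  simp only [h5]
  rw [← Finset.sum_mul]
  by_cases hy : ∃ y, Z (Fin.cons y E) ≠ 0
  · by_cases hli : LinearIndependent ℝ (fun a => c (E a))
    · have h6 := hcyc E hy hli
      have h7 : ∑ x, (Z (Fin.cons x E) : ℝ) = 0 := by exact_mod_cast h6
      rw [h7, zero_mul]
    · have h6 : T E = 0 := by
        rw [hT]
        simp only
        have h7 : (Matrix.of fun a => c ((Fin.cons vs E : Fin (q + 1) → Fin m) a)).det = 0 := by
          by_contra hne
          apply hli
          have h8 : LinearIndependent ℝ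
              (fun a => c ((Fin.cons vs E : Fin (q + 1) → Fin m) a)) :=
            Matrix.linearIndependent_rows_iff_isUnit.2
              ((Matrix.isUnit_iff_isUnit_det _).2 (isUnit_iff_ne_zero.2 hne))
          have h9 := h8.comp Fin.succ (Fin.succ_injective _)
          simpa [Function.comp_def] using h9
        rw [h7, zero_mul]
      rw [h6, mul_zero]
  · push Not at hy
    simp [hy]

end cone

section real

variable {N q : ℕ}

/-- real linear combinations of the vectors `w` -/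
noncomputable def Uc (w : Fin q → Fin (N + 1) → ℝ) : (Fin q → ℝ) →ₗ[ℝ] (Fin (N + 1) → ℝ) where
  toFun c := ∑ b, c b • w b
  map_add' c c' := by simp [add_smul, Finset.sum_add_distrib]
  map_smul' r c := by simp [Finset.smul_sum, smul_smul]

lemma Uc_apply (w : Fin q → Fin (N + 1) → ℝ) (c : Fin q → ℝ) : Uc w c = ∑ b, c b • w b := rfl

lemma Uc_single (w : Fin q → Fin (N + 1) → ℝ) (a : Fin q) : Uc w (Pi.single a 1) = w a := by
  rw [Uc_apply, Finset.sum_eq_single a]
  · simp
  · intro b _ hb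
    simp [hb]
  · intro h; exact absurd (Finset.mem_univ _) h

lemma Uc_injective (w : Fin q → Fin (N + 1) → ℝ) (hw : LinearIndependent ℝ w) :
    Function.Injective (Uc w) := by
  rw [← LinearMap.ker_eq_bot, LinearMap.ker_eq_bot']
  intro c hc
  funext a
  exact Fintype.linearIndependent_iff.1 hw c hc a

lemma future_of_neg {u w : Fin (N + 1) → ℝ} (hu : lor u u < 0) (hw : lor w w < 0)
    (hw0 : 0 < w 0) (huw : lor u w < 0) : 0 < u 0 := by
  by_contra h
  rcases (not_lt.1 h).lt_or_eq with h1 | h1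
  · have h2 : lor (-u) w < 0 := by
      refine lor_neg_of_future ?_ hw ?_ hw0
      · rw [lor_neg_left, lor_neg_right]; linarith
      · rw [Pi.neg_apply]; linarith
    rw [lor_neg_left] at h2
    linarith
  · rw [lor_self, h1] at hu
    have h2 : 0 ≤ ∑ i : Fin N, u i.succ ^ 2 := Finset.sum_nonneg fun i _ => sq_nonneg _
    nlinarith

/-- A unit normal vector. -/
lemma exists_unit_normal (w : Fin (q + 1) → Fin (N + 1) → ℝ) (hw : LinearIndependent ℝ w)
    (e : Fin q → Fin (q + 1) → ℝ) (i : Fin q) (hi : lor (Uc w (e i)) (Uc w (e i)) < 0) :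
    ∃ n : Fin (q + 1) → ℝ, (∀ a, lor (Uc w n) (Uc w (e a)) = 0) ∧
      lor (Uc w n) (Uc w n) = 1 := by
  let L : (Fin (q + 1) → ℝ) →ₗ[ℝ] (Fin q → ℝ) :=
    { toFun := fun c a => lor (Uc w c) (Uc w (e a))
      map_add' := by
        intro c c'
        funext a
        rw [map_add, lor_add_left]; rfl
      map_smul' := by
        intro r c
        funext a
        rw [map_smul, lor_smul_left]; rfl }
  have hker : LinearMap.ker L ≠ ⊥ := LinearMap.ker_ne_bot_of_finrank_lt (by simp)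
  obtain ⟨n0, hn0, hn0'⟩ := (Submodule.ne_bot_iff _).1 hker
  have h1 : ∀ a, lor (Uc w n0) (Uc w (e a)) = 0 := fun a => congrFun (LinearMap.mem_ker.1 hn0) a
  have h2 : Uc w n0 ≠ 0 := by
    intro h
    apply hn0'
    apply Uc_injective w hw
    rw [h, map_zero]
  have h3 : 0 < lor (Uc w n0) (Uc w n0) :=
    lor_pos_of_orth hi (by rw [lor_comm]; exact h1 i) h2
  refine ⟨(1 / Real.sqrt (lor (Uc w n0) (Uc w n0))) • n0, fun a => ?_, ?_⟩
  · rw [map_smul, lor_smul_left, h1, mul_zero]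
  · rw [map_smul, lor_smul_left, lor_smul_right]
    have h4 := Real.mul_self_sqrt h3.le
    have h5 : 0 < Real.sqrt (lor (Uc w n0) (Uc w n0)) := Real.sqrt_pos.2 h3
    field_simp
    rw [sq, h4]

end real

section res

variable {κ : Type*} [Field κ] [Algebra ℂ κ] {N q : ℕ}

/-- real linear combinations of vectors over the residue field -/
noncomputable def Sc (sF : Fin q → Fin q → κ) :
    (Fin q → ℝ) →ₛₗ[(rl : ℝ →+* κ)] (Fin q → κ) where
  toFun c := ∑ b, (rl (c b) : κ) • sF b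
  map_add' c c' := by simp [add_smul, Finset.sum_add_distrib]
  map_smul' r c := by simp [Finset.smul_sum, smul_smul]

lemma Sc_apply (sF : Fin q → Fin q → κ) (c : Fin q → ℝ) :
    Sc sF c = ∑ b, (rl (c b) : κ) • sF b := rfl

lemma Sc_single (sF : Fin q → Fin q → κ) (a : Fin q) : Sc sF (Pi.single a 1) = sF a := by
  rw [Sc_apply, Finset.sum_eq_single a]
  · simp
  · intro b _ hb
    simp [hb]
  · intro h; exact absurd (Finset.mem_univ _) h

/-- the bilinear form -/
noncomputable abbrev bil (B : Matrix (Fin q) (Fin q) κ) : LinearMap.BilinForm κ (Fin q → κ) :=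
  Matrix.toBilin' B

lemma bil_apply (B : Matrix (Fin q) (Fin q) κ) (x y : Fin q → κ) :
    bil B x y = x ⬝ᵥ (B *ᵥ y) := Matrix.toBilin'_apply' B x y

lemma bil_comm {B : Matrix (Fin q) (Fin q) κ} (hBs : B.IsSymm) (x y : Fin q → κ) :
    bil B x y = bil B y x := by
  rw [bil_apply, bil_apply, Matrix.dotProduct_mulVec, ← Matrix.mulVec_transpose, hBs.eq,
    dotProduct_comm]

lemma rl_inj {r r' : ℝ} (h : (rl r : κ) = rl r') : r = r' := (rl : ℝ →+* κ).injective h

lemma det_bil (B : Matrix (Fin q) (Fin q) κ) (x : Fin q → Fin q → κ) :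
    (Matrix.of fun a b => bil B (x a) (x b)).det = (Matrix.of x).det ^ 2 * B.det := by
  have h : (Matrix.of fun a b => bil B (x a) (x b)) = Matrix.of x * B * (Matrix.of x)ᵀ := by
    ext a b
    rw [Matrix.of_apply, bil_apply, Matrix.mul_assoc, Matrix.mul_apply]
    simp only [dotProduct, Matrix.mulVec, Matrix.mul_apply, Matrix.transpose_apply,
      Matrix.of_apply]
  rw [h, Matrix.det_mul, Matrix.det_mul, Matrix.det_transpose]
  ring

lemma det_gram_rl {B : Matrix (Fin q) (Fin q) κ} {x : Fin q → Fin q → κ}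
    {z : Fin q → Fin (N + 1) → ℝ} (h : ∀ a b, bil B (x a) (x b) = rl (lor (z a) (z b))) :
    (Matrix.of x).det ^ 2 * B.det = rl (gram z z).det := by
  rw [← det_bil, RingHom.map_det]
  congr 1
  ext a b
  rw [Matrix.of_apply, h]
  rfl

lemma bil_Sc {B : Matrix (Fin q) (Fin q) κ} {sF : Fin q → Fin q → κ}
    {w : Fin q → Fin (N + 1) → ℝ} (h : ∀ a b, bil B (sF a) (sF b) = rl (lor (w a) (w b)))
    (c c' : Fin q → ℝ) : bil B (Sc sF c) (Sc sF c') = rl (lor (Uc w c) (Uc w c')) := by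
  rw [Sc_apply, Sc_apply, Uc_apply, Uc_apply, lor_sum_left]
  simp only [lor_sum_right, lor_smul_left, lor_smul_right, map_sum, map_mul,
    LinearMap.sum_apply, map_smul, LinearMap.smul_apply, smul_eq_mul, h]
  rw [Finset.sum_comm]
  refine Finset.sum_congr rfl fun a _ => ?_
  rw [Finset.mul_sum]

lemma det_Sc (sF : Fin q → Fin q → κ) (c : Fin q → Fin q → ℝ) :
    (Matrix.of fun a => Sc sF (c a)).det = rl (Matrix.of c).det * (Matrix.of sF).det := by
  rw [RingHom.map_det, ← Matrix.det_mul]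
  congr 1
  ext a b
  rw [Matrix.of_apply, Sc_apply, Matrix.mul_apply, Finset.sum_apply]
  rfl

lemma eq_zero_of_bil {B : Matrix (Fin q) (Fin q) κ} (hB : B.det ≠ 0) {x : Fin q → Fin q → κ}
    (hx : (Matrix.of x).det ≠ 0) {d : Fin q → κ} (hd : ∀ a, bil B (x a) d = 0) : d = 0 := by
  have h1 : Matrix.of x *ᵥ (B *ᵥ d) = 0 := by
    funext a
    have := hd a
    rw [bil_apply] at this
    exact this
  exact Matrix.eq_zero_of_mulVec_eq_zero hB (Matrix.eq_zero_of_mulVec_eq_zero hx h1)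

/-- The propagation of the real structure across a face. -/
lemma real_propagate {B : Matrix (Fin (q + 1)) (Fin (q + 1)) κ} (hBs : B.IsSymm)
    (hB : B.det ≠ 0) (sF : Fin (q + 1) → Fin (q + 1) → κ)
    (w : Fin (q + 1) → Fin (N + 1) → ℝ) (hw : LinearIndependent ℝ w)
    (hb : ∀ a b, bil B (sF a) (sF b) = rl (lor (w a) (w b)))
    (e : Fin q → Fin (q + 1) → ℝ) (he0 : ∀ a, 0 < Uc w (e a) 0)
    (y : Fin (N + 1) → ℝ) (hy : lor y y = -1) (hy0 : 0 < y 0)
    (z : Fin q → Fin (N + 1) → ℝ) (hz : ∀ a, lor (z a) (z a) = -1) (hz0 : ∀ a, 0 < z a 0)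
    (hΓ : (gram z z).det ≠ 0)
    (hee : ∀ a b, lor (Uc w (e a)) (Uc w (e b)) = lor (z a) (z b))
    (sy : Fin (q + 1) → κ) (hsy : bil B sy sy = -1)
    (hsye : ∀ a, bil B sy (Sc sF (e a)) = rl (lor y (z a))) (i : Fin q) :
    ∃ c, sy = Sc sF c ∧ 0 < Uc w c 0 := by
  obtain ⟨n, hn, hnn⟩ := exists_unit_normal w hw e i (by rw [hee, hz]; norm_num)
  -- the basis
  have hX : (Matrix.of fun a => Sc sF ((Fin.cons n e : Fin (q + 1) → Fin (q + 1) → ℝ) a)).det
      ≠ 0 := by
    have h1 := det_gram_rl (B := B)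
      (x := fun a => Sc sF ((Fin.cons n e : Fin (q + 1) → Fin (q + 1) → ℝ) a))
      (z := fun a => Uc w ((Fin.cons n e : Fin (q + 1) → Fin (q + 1) → ℝ) a))
      (fun a b => bil_Sc hb _ _)
    have h2 : (gram (fun a => Uc w ((Fin.cons n e : Fin (q + 1) → Fin (q + 1) → ℝ) a))
        (fun a => Uc w ((Fin.cons n e : Fin (q + 1) → Fin (q + 1) → ℝ) a))).det
        = (gram z z).det := by
      rw [det_row_zero _ (by
        intro j
        rw [gram_apply, Fin.cons_zero, Fin.cons_succ, hn])]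
      rw [gram_apply, Fin.cons_zero, hnn, one_mul]
      congr 1
      ext a b
      rw [Matrix.submatrix_apply, gram_apply, gram_apply, Fin.cons_succ, Fin.cons_succ, hee]
    rw [h2] at h1
    intro h0
    rw [h0] at h1
    have h3 : (rl (gram z z).det : κ) = rl 0 := by
      rw [← h1, map_zero]; ring
    exact hΓ (rl_inj h3)
  -- coordinates
  set α : Fin q → ℝ := (gram z z)⁻¹ *ᵥ fun b => lor y (z b) with hα
  have hprj : prj z y = ∑ a, α a • z a := rfl
  set lam : κ := bil B sy (Sc sF n) with hlam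
  have hsum : sy = Sc sF (∑ a, α a • e a) + lam • Sc sF n := by
    have h0 : sy - (Sc sF (∑ a, α a • e a) + lam • Sc sF n) = 0 := by
      refine eq_zero_of_bil hB hX fun a => ?_
      refine Fin.cases ?_ (fun b => ?_) a
      · rw [Fin.cons_zero, bil_comm hBs, map_sub, map_add, map_smul, LinearMap.sub_apply,
          LinearMap.add_apply, LinearMap.smul_apply, bil_Sc hb, bil_Sc hb, hnn, map_sum,
          lor_sum_left]
        have h1 : ∑ a, lor (Uc w (α a • e a)) (Uc w n) = 0 := by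
          refine Finset.sum_eq_zero fun a _ => ?_
          rw [map_smul, lor_smul_left, lor_comm, hn, mul_zero]
        rw [h1, map_zero, map_one, smul_eq_mul, mul_one, zero_add, ← hlam, sub_self]
      · rw [Fin.cons_succ, bil_comm hBs, map_sub, map_add, map_smul, LinearMap.sub_apply,
          LinearMap.add_apply, LinearMap.smul_apply, bil_Sc hb, bil_Sc hb, hn, map_sum,
          lor_sum_left, hsye]
        have h1 : ∑ a, lor (Uc w (α a • e a)) (Uc w (e b)) = lor y (z b) := by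
          rw [← lor_prj z hΓ y b, hprj, lor_sum_left]
          refine Finset.sum_congr rfl fun a _ => ?_
          rw [map_smul, lor_smul_left, lor_smul_left, hee]
        rw [h1, map_zero, smul_zero, add_zero, sub_self]
    exact sub_eq_zero.1 h0
  -- the normal coordinate is real
  have hsq : lam * lam = rl (lor (perp z y) (perp z y)) := by
    have h1 : bil B sy sy = bil B sy (Sc sF (∑ a, α a • e a)) + lam * lam := by
      conv_lhs => rw [show bil B sy sy = bil B sy (Sc sF (∑ a, α a • e a) + lam • Sc sF n) by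
        rw [← hsum]]
      rw [map_add, map_smul, smul_eq_mul, ← hlam]
    have h2 : bil B sy (Sc sF (∑ a, α a • e a)) = rl (lor y (prj z y)) := by
      rw [map_sum, map_sum, hprj, lor_sum_right, map_sum]
      refine Finset.sum_congr rfl fun a _ => ?_
      rw [map_smulₛₗ, map_smul, smul_eq_mul, hsye, lor_smul_right, map_mul]
    rw [hsy, h2] at h1
    have h3 : lor (perp z y) (perp z y) = -1 - lor y (prj z y) := by
      rw [lor_perp_perp z hΓ, perp, lor_sub_left, hy, lor_comm (prj z y)]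
    rw [h3, map_sub, map_neg, map_one]
    linear_combination -h1
  have hnn' : 0 ≤ lor (perp z y) (perp z y) :=
    lor_nonneg_of_orth (u := z i) (by rw [hz]; norm_num) (by rw [lor_comm]; exact lor_perp z hΓ y i)
  obtain ⟨μ, hμ⟩ : ∃ μ : ℝ, lam = rl μ := by
    have h1 : lam * lam = rl (Real.sqrt (lor (perp z y) (perp z y))) *
        rl (Real.sqrt (lor (perp z y) (perp z y))) := by
      rw [hsq, ← map_mul, Real.mul_self_sqrt hnn']
    rcases mul_self_eq_mul_self_iff.1 h1 with h2 | h2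
    · exact ⟨_, h2⟩
    · exact ⟨-Real.sqrt (lor (perp z y) (perp z y)), by rw [h2, map_neg]⟩
  have hsy' : sy = Sc sF (∑ a, α a • e a + μ • n) := by
    rw [hsum, hμ, map_add, map_smulₛₗ]
  refine ⟨_, hsy', ?_⟩
  refine future_of_neg (w := Uc w (e i)) ?_ (by rw [hee, hz]; norm_num) (he0 i) ?_
  · have h1 := bil_Sc hb (∑ a, α a • e a + μ • n) (∑ a, α a • e a + μ • n)
    rw [← hsy', hsy] at h1
    have h2 : lor (Uc w (∑ a, α a • e a + μ • n)) (Uc w (∑ a, α a • e a + μ • n)) = -1 := by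
      apply rl_inj (κ := κ)
      rw [← h1, map_neg, map_one]
    rw [h2]; norm_num
  · have h1 := bil_Sc hb (∑ a, α a • e a + μ • n) (e i)
    rw [← hsy', hsye] at h1
    rw [← rl_inj h1]
    exact lor_neg_of_future (by rw [hy]; norm_num) (by rw [hz]; norm_num) hy0 (hz0 i)

/-- The residue lemma. -/
theorem residue_sum {κ : Type*} [Field κ] [Algebra ℂ κ] {q m : ℕ} (hq : 1 ≤ q)
    (y0 : Fin m → Fin (q + 3) → ℝ) (hy0 : ∀ v, lor (y0 v) (y0 v) = -1 ∧ 0 < y0 v 0)
    (B : Matrix (Fin (q + 1)) (Fin (q + 1)) κ) (hB : B.det ≠ 0) (hBs : B.IsSymm)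
    (s : Fin m → Fin (q + 1) → κ)
    (Z : (Fin (q + 1) → Fin m) → ℤ)
    (hZalt : ∀ (F : Fin (q + 1) → Fin m) (π : Equiv.Perm (Fin (q + 1))),
      Z (F ∘ π) = ((Equiv.Perm.sign π : ℤˣ) : ℤ) * Z F)
    (hZcyc : ∀ E : Fin q → Fin m, (gram (y0 ∘ E) (y0 ∘ E)).det ≠ 0 → ∑ x, Z (Fin.cons x E) = 0)
    (hgram : ∀ F, Z F ≠ 0 → ∀ a b,
      s (F a) ⬝ᵥ (B *ᵥ s (F b)) = (rl (lor (y0 (F a)) (y0 (F b))) : κ)) :
    ∑ F : Fin (q + 1) → Fin m, (Z F : κ) *
      (rl (J (Matrix.of fun a b => -lor (y0 (F a)) (y0 (F b)))) : κ) *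
      (Matrix.of fun a => s (F a)).det = 0 := by
  classical
  -- induction on the number of nondegenerate simplices
  induction hn : (Finset.univ.filter fun F : Fin (q + 1) → Fin m =>
      Z F ≠ 0 ∧ (gram (y0 ∘ F) (y0 ∘ F)).det ≠ 0).card using Nat.strong_induction_on
      generalizing Z with
  | _ n IH =>
  by_cases hex : ∃ F : Fin (q + 1) → Fin m, Z F ≠ 0 ∧ (gram (y0 ∘ F) (y0 ∘ F)).det ≠ 0
  swap
  · refine Finset.sum_eq_zero fun F _ => ?_
    by_cases hF : Z F = 0
    · rw [hF, Int.cast_zero, zero_mul, zero_mul]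
    · have h1 : (gram (y0 ∘ F) (y0 ∘ F)).det = 0 := by
        by_contra h; exact hex ⟨F, hF, h⟩
      have h2 := det_gram_rl (B := B) (x := fun a => s (F a)) (z := y0 ∘ F)
        (fun a b => by rw [bil_apply]; exact hgram F hF a b)
      rw [h1, map_zero] at h2
      have h3 : (Matrix.of fun a => s (F a)).det = 0 := by
        rcases mul_eq_zero.1 h2 with h4 | h4
        · exact (pow_eq_zero_iff two_ne_zero).1 h4
        · exact absurd h4 hB
      rw [h3, mul_zero]
  obtain ⟨Fs, hFs, hFsdet⟩ := hex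
  set w : Fin (q + 1) → Fin (q + 3) → ℝ := y0 ∘ Fs with hw
  set sF : Fin (q + 1) → Fin (q + 1) → κ := fun a => s (Fs a) with hsF
  have hwli : LinearIndependent ℝ w := linearIndependent_of_det_gram w hFsdet
  have hb : ∀ a b, bil B (sF a) (sF b) = rl (lor (w a) (w b)) := fun a b => by
    rw [bil_apply]; exact hgram Fs hFs a b
  set K : Fin m → Prop := fun v => ∃ c, s v = Sc sF c ∧ 0 < Uc w c 0 with hK
  have hKFs : ∀ a, K (Fs a) := fun a =>
    ⟨Pi.single a 1, by rw [Sc_single], by rw [Uc_single]; exact (hy0 _).2⟩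
  set ZK : (Fin (q + 1) → Fin m) → ℤ := fun F => if ∀ a, K (F a) then Z F else 0 with hZK
  have hZKne : ∀ F, ZK F ≠ 0 → (∀ a, K (F a)) ∧ ZK F = Z F := by
    intro F hF
    by_cases h : ∀ a, K (F a)
    · exact ⟨h, if_pos h⟩
    · exact absurd (if_neg h) hF
  have hZKalt : ∀ (F : Fin (q + 1) → Fin m) (π : Equiv.Perm (Fin (q + 1))),
      ZK (F ∘ π) = ((Equiv.Perm.sign π : ℤˣ) : ℤ) * ZK F := by
    intro F π
    have h1 : (∀ a, K ((F ∘ π) a)) ↔ ∀ a, K (F a) := by
      constructor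
      · intro h a
        have := h (π.symm a)
        rwa [Function.comp_apply, Equiv.apply_symm_apply] at this
      · intro h a; exact h (π a)
    by_cases h : ∀ a, K (F a)
    · simp only [hZK, if_pos h, if_pos (h1.2 h), hZalt]
    · simp only [hZK, if_neg h, if_neg (fun h' => h (h1.1 h')), mul_zero]
  -- claim 1
  have claim1 : ∀ (E : Fin q → Fin m), (∀ a, K (E a)) → (gram (y0 ∘ E) (y0 ∘ E)).det ≠ 0 →
      ∀ y, Z (Fin.cons y E) ≠ 0 → K y := by
    intro E hE hdet y hy
    choose e he using hE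
    have hg := hgram _ hy
    have hgE : ∀ a b, bil B (Sc sF (e a)) (Sc sF (e b)) = rl (lor (y0 (E a)) (y0 (E b))) := by
      intro a b
      rw [← (he a).1, ← (he b).1, bil_apply]
      have := hg a.succ b.succ
      simpa only [Fin.cons_succ] using this
    refine real_propagate hBs hB sF w hwli hb e (fun a => (he a).2) (y0 y) (hy0 y).1 (hy0 y).2
      (y0 ∘ E) (fun a => (hy0 _).1) (fun a => (hy0 _).2) hdet ?_ (s y) ?_ ?_ ⟨0, hq⟩
    · intro a b
      apply rl_inj (κ := κ)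
      rw [← bil_Sc hb, hgE]
      rfl
    · rw [bil_apply]
      have := hg 0 0
      rw [Fin.cons_zero, (hy0 y).1, map_neg, map_one] at this
      exact this
    · intro a
      rw [← (he a).1, bil_apply]
      have := hg 0 a.succ
      simp only [Fin.cons_zero, Fin.cons_succ] at this
      exact this
  have hZKcyc : ∀ E : Fin q → Fin m, (gram (y0 ∘ E) (y0 ∘ E)).det ≠ 0 →
      ∑ x, ZK (Fin.cons x E) = 0 := by
    intro E hdet
    by_cases hE : ∀ a, K (E a)
    · rw [← hZcyc E hdet]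
      refine Finset.sum_congr rfl fun x _ => ?_
      by_cases hx : K x
      · refine if_pos fun a => ?_
        refine Fin.cases ?_ (fun a' => ?_) a
        · rw [Fin.cons_zero]; exact hx
        · rw [Fin.cons_succ]; exact hE a'
      · have h1 : Z (Fin.cons x E) = 0 := by
          by_contra h; exact hx (claim1 E hE hdet x h)
        rw [h1]
        by_contra h
        exact h ((hZKne _ h).2.trans h1)
    · refine Finset.sum_eq_zero fun x _ => if_neg fun h => hE fun a => ?_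
      have := h a.succ
      rwa [Fin.cons_succ] at this
  -- the remaining part
  have hrest : ∑ F : Fin (q + 1) → Fin m, ((Z F - ZK F : ℤ) : κ) *
      (rl (J (Matrix.of fun a b => -lor (y0 (F a)) (y0 (F b)))) : κ) *
      (Matrix.of fun a => s (F a)).det = 0 := by
    have hsub : ∀ F, Z F - ZK F ≠ 0 → Z F ≠ 0 := by
      intro F h h0
      apply h
      by_cases hF : ∀ a, K (F a)
      · simp only [hZK, if_pos hF, sub_self]
      · simp only [hZK, if_neg hF, sub_zero, h0]
    refine IH _ ?_ (fun F => Z F - ZK F) ?_ ?_ ?_ rfl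
    · rw [← hn]
      apply Finset.card_lt_card
      refine Finset.ssubset_iff_subset_ne.2 ⟨?_, ?_⟩
      · intro F hF
        rw [Finset.mem_filter] at hF ⊢
        exact ⟨hF.1, hsub F hF.2.1, hF.2.2⟩
      · intro heq
        have h1 : Fs ∈ Finset.univ.filter fun F : Fin (q + 1) → Fin m =>
            Z F ≠ 0 ∧ (gram (y0 ∘ F) (y0 ∘ F)).det ≠ 0 :=
          Finset.mem_filter.2 ⟨Finset.mem_univ _, hFs, hFsdet⟩
        rw [← heq, Finset.mem_filter] at h1
        apply h1.2.1
        simp only [hZK, if_pos hKFs, sub_self]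
    · intro F π
      rw [hZalt, hZKalt, mul_sub]
    · intro E hdet
      rw [Finset.sum_sub_distrib, hZcyc E hdet, hZKcyc E hdet, sub_zero]
    · intro F hF
      exact hgram F (hsub F hF)
  -- the real part
  have hreal : ∑ F : Fin (q + 1) → Fin m, ((ZK F : ℤ) : κ) *
      (rl (J (Matrix.of fun a b => -lor (y0 (F a)) (y0 (F b)))) : κ) *
      (Matrix.of fun a => s (F a)).det = 0 := by
    set c : Fin m → Fin (q + 1) → ℝ := fun v => if h : K v then h.choose else 0 with hc
    have hcs : ∀ v, K v → s v = Sc sF (c v) ∧ 0 < Uc w (c v) 0 := by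
      intro v hv
      simp only [hc, dif_pos hv]
      exact hv.choose_spec
    have hlor : ∀ F, ZK F ≠ 0 → ∀ a b,
        lor (Uc w (c (F a))) (Uc w (c (F b))) = lor (y0 (F a)) (y0 (F b)) := by
      intro F hF a b
      obtain ⟨h1, h2⟩ := hZKne F hF
      apply rl_inj (κ := κ)
      rw [← bil_Sc hb, ← (hcs _ (h1 a)).1, ← (hcs _ (h1 b)).1, bil_apply]
      exact hgram F (by rwa [← h2]) a b
    have hpos : ∀ F, ZK F ≠ 0 → ∀ a, lor (Uc w (c (F a))) (Uc w (c (F a))) < 0 ∧
        0 < Uc w (c (F a)) 0 := by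
      intro F hF a
      refine ⟨?_, (hcs _ ((hZKne F hF).1 a)).2⟩
      rw [hlor F hF, (hy0 _).1]; norm_num
    have hZKFs : ZK Fs ≠ 0 := by
      simp only [hZK, if_pos hKFs]; exact hFs
    have h0 := cone_sum c (fun v => Uc w (c v)) w (fun v => rfl) ZK hZKalt hpos (Fs 0)
      (hpos Fs hZKFs 0) (by
        intro E hy hli
        obtain ⟨y, hy⟩ := hy
        apply hZKcyc
        have h1 : gram (y0 ∘ E) (y0 ∘ E)
            = gram (fun a => Uc w (c (E a))) (fun a => Uc w (c (E a))) := by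
          ext a b
          have := hlor _ hy a.succ b.succ
          simp only [Fin.cons_succ] at this
          rw [gram_apply, gram_apply, this]
          rfl
        rw [h1]
        refine det_gram_ne_zero_of_timelike _ ?_ ⟨0, hq⟩ ?_
        · have := hli.map' (Uc w) (LinearMap.ker_eq_bot.2 (Uc_injective w hwli))
          exact this
        · have := (hpos _ hy (Fin.succ ⟨0, hq⟩)).1
          simpa only [Fin.cons_succ] using this)
    have h1 : ∀ F : Fin (q + 1) → Fin m, ((ZK F : ℤ) : κ) *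
        (rl (J (Matrix.of fun a b => -lor (y0 (F a)) (y0 (F b)))) : κ) *
        (Matrix.of fun a => s (F a)).det
        = rl ((ZK F : ℝ) * (J (Matrix.of fun a b => -lor (Uc w (c (F a))) (Uc w (c (F b)))) *
          (Matrix.of fun a => c (F a)).det)) * (Matrix.of sF).det := by
      intro F
      by_cases hF : ZK F = 0
      · rw [hF]; simp
      · have h2 : (Matrix.of fun a => s (F a)).det
            = rl (Matrix.of fun a => c (F a)).det * (Matrix.of sF).det := by
          rw [← det_Sc]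
          congr 2
          funext a
          exact (hcs _ ((hZKne F hF).1 a)).1
        rw [h2]
        simp only [hlor F hF, map_mul, map_intCast]
        ring
    simp only [h1]
    rw [← Finset.sum_mul, ← map_sum, h0, map_zero, zero_mul]
  have hsplit : ∀ F : Fin (q + 1) → Fin m, (Z F : κ) *
      (rl (J (Matrix.of fun a b => -lor (y0 (F a)) (y0 (F b)))) : κ) *
      (Matrix.of fun a => s (F a)).det
      = ((Z F - ZK F : ℤ) : κ) *
      (rl (J (Matrix.of fun a b => -lor (y0 (F a)) (y0 (F b)))) : κ) *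
      (Matrix.of fun a => s (F a)).det + ((ZK F : ℤ) : κ) *
      (rl (J (Matrix.of fun a b => -lor (y0 (F a)) (y0 (F b)))) : κ) *
      (Matrix.of fun a => s (F a)).det := by
    intro F
    push_cast
    ring
  simp only [hsplit]
  rw [Finset.sum_add_distrib, hrest, hreal, add_zero]

end res

end Pool.Agent.Work.MP_1c91cf_gt

end

section

/-!
# Smoothness of the functions involved
-/

set_option autoImplicit false
set_option linter.unusedSectionVars false

open Matrix
open scoped ContDiff Topology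

namespace Pool.Agent.Work.MP_1c91cf_gt

variable {E : Type*} [NormedAddCommGroup E] [NormedSpace ℝ E] {x : E}

lemma contDiffAt_det {k : ℕ} {M : E → Matrix (Fin k) (Fin k) ℝ}
    (h : ∀ i j, ContDiffAt ℝ ∞ (fun y => M y i j) x) :
    ContDiffAt ℝ ∞ (fun y => (M y).det) x := by
  simp only [Matrix.det_apply]
  refine ContDiffAt.sum fun σ _ => ?_
  have h1 : ContDiffAt ℝ ∞ (fun y => ∏ i, M y (σ i) i) x :=
    contDiffAt_prod fun i _ => h _ _
  rcases Int.units_eq_one_or (Equiv.Perm.sign σ) with h2 | h2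
  · simpa [h2] using h1
  · simpa [h2] using h1.neg

lemma contDiffAt_inv {k : ℕ} {M : E → Matrix (Fin k) (Fin k) ℝ}
    (h : ∀ i j, ContDiffAt ℝ ∞ (fun y => M y i j) x) (hd : (M x).det ≠ 0) (i j : Fin k) :
    ContDiffAt ℝ ∞ (fun y => (M y)⁻¹ i j) x := by
  have h1 : (fun y => (M y)⁻¹ i j) = fun y => (M y).det⁻¹ *
      ((M y).updateRow j (Pi.single i 1)).det := by
    funext y
    rw [Matrix.inv_def, Ring.inverse_eq_inv', Matrix.smul_apply, smul_eq_mul,
      Matrix.adjugate_apply]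
  rw [h1]
  refine ((contDiffAt_det h).inv hd).mul (contDiffAt_det fun a b => ?_)
  by_cases hab : a = j
  · subst hab
    simp only [Matrix.updateRow_self]
    exact contDiffAt_const
  · simp only [Matrix.updateRow_ne hab]
    exact h a b

/-- coordinatewise smoothness -/
def CS {n : ℕ} (x : E) (z : E → Fin n → ℝ) : Prop := ∀ i, ContDiffAt ℝ ∞ (fun e => z e i) x

lemma cs_lor {n : ℕ} {z w : E → Fin (n + 1) → ℝ} (hz : CS x z) (hw : CS x w) :
    ContDiffAt ℝ ∞ (fun e => lor (z e) (w e)) x := by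
  unfold lor
  exact ContDiffAt.sum fun i _ => (contDiffAt_const.mul (hz i)).mul (hw i)

lemma cs_const {n : ℕ} (z : Fin n → ℝ) : CS x (fun _ => z) := fun _ => contDiffAt_const

lemma cs_cons {n k : ℕ} {z : E → Fin n → ℝ} {F : E → Fin k → Fin n → ℝ} (hz : CS x z)
    (hF : ∀ a, CS x fun e => F e a) (a : Fin (k + 1)) :
    CS x fun e => (Fin.cons (z e) (F e) : Fin (k + 1) → Fin n → ℝ) a := by
  refine Fin.cases ?_ (fun a' => ?_) a
  · simpa using hz
  · simpa using hF a'

lemma cs_gram {n k : ℕ} {F : E → Fin k → Fin (n + 1) → ℝ} (hF : ∀ a, CS x fun e => F e a)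
    (a b : Fin k) : ContDiffAt ℝ ∞ (fun e => gram (F e) (F e) a b) x :=
  cs_lor (hF a) (hF b)

lemma cs_perp {n k : ℕ} {F : E → Fin k → Fin (n + 1) → ℝ} {z : E → Fin (n + 1) → ℝ}
    (hF : ∀ a, CS x fun e => F e a) (hz : CS x z) (hd : (gram (F x) (F x)).det ≠ 0) :
    CS x fun e => perp (F e) (z e) := by
  intro i
  have h1 : (fun e => perp (F e) (z e) i) = fun e => z e i -
      ∑ a, (∑ b, (gram (F e) (F e))⁻¹ a b *
        lor (z e) (F e b)) * F e a i := by
    funext e
    simp [perp, prj, Matrix.mulVec, dotProduct, Finset.sum_apply]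
  rw [h1]
  refine (hz i).sub (ContDiffAt.sum fun a _ => ContDiffAt.mul (ContDiffAt.sum fun b _ => ?_)
    (hF a i))
  exact (contDiffAt_inv (cs_gram hF) hd a b).mul (cs_lor hz (hF b))

lemma cs_crsL {k : ℕ} {F : E → Fin k → Fin (k + 2) → ℝ} {z : E → Fin (k + 2) → ℝ}
    (hF : ∀ a, CS x fun e => F e a) (hz : CS x z) :
    CS x fun e => crsL (F e) (z e) := by
  intro i
  have h1 : (fun e => crsL (F e) (z e) i) = fun e => eta i *
      (Matrix.of (Fin.cons (Pi.single i 1) (Fin.cons (z e) (F e) :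
        Fin (k + 1) → Fin (k + 2) → ℝ) : Fin (k + 2) → Fin (k + 2) → ℝ)).det := rfl
  rw [h1]
  refine contDiffAt_const.mul (contDiffAt_det fun a b => ?_)
  exact cs_cons (F := fun e => (Fin.cons (z e) (F e) : Fin (k + 1) → Fin (k + 2) → ℝ))
    (cs_const (x := x) (Pi.single i 1)) (fun a => cs_cons hz hF a) a b

lemma contDiffAt_aF {k : ℕ} {F : E → Fin k → Fin (k + 2) → ℝ} {z : E → Fin (k + 2) → ℝ}
    (z0 : Fin (k + 2) → ℝ)
    (hF : ∀ a, CS x fun e => F e a) (hz : CS x z) (hd : (gram (F x) (F x)).det < 0) :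
    ContDiffAt ℝ ∞ (fun e => aF z0 (z e) (F e)) x := by
  have h1 : ContDiffAt ℝ ∞ (fun e => lor (z e) (perp (F e) z0)) x :=
    cs_lor hz (cs_perp hF (cs_const z0) hd.ne)
  have hdet : ContDiffAt ℝ ∞ (fun e => -(gram (F e) (F e)).det) x :=
    (contDiffAt_det (cs_gram hF)).neg
  have h2 : ContDiffAt ℝ ∞ (fun e => lor (z e) (crsL (F e) z0) /
      Real.sqrt (-(gram (F e) (F e)).det)) x := by
    refine (cs_lor hz (cs_crsL hF (cs_const z0))).div (hdet.sqrt (by linarith)) ?_
    exact (Real.sqrt_pos.2 (by linarith)).ne'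
  unfold aF
  refine ContDiffAt.add ?_ (ContDiffAt.mul ?_ contDiffAt_const)
  · exact Complex.ofRealCLM.contDiff.contDiffAt.comp x h1
  · exact Complex.ofRealCLM.contDiff.contDiffAt.comp x h2

lemma isOpen_posmat (N : ℕ) : IsOpen {Q : Fin N → Fin N → ℝ | ∀ i j, 0 < Q i j} := by
  have : {Q : Fin N → Fin N → ℝ | ∀ i j, 0 < Q i j} = ⋂ i, ⋂ j, {Q | 0 < Q i j} := by
    ext Q
    simp
  rw [this]
  exact isOpen_iInter_of_finite fun i => isOpen_iInter_of_finite fun j =>
    isOpen_lt continuous_const (by fun_prop)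

lemma contDiffAt_JQm {n k : ℕ} {Y : E → Fin k → Fin (n + 1) → ℝ} (hY : ∀ a, CS x fun e => Y e a)
    (hneg : ∀ a b, lor (Y x a) (Y x b) < 0) :
    ContDiffAt ℝ ∞ (fun e => J (Qm (Y e))) x := by
  have h1 : ContDiffAt ℝ ∞ (fun Q : Fin k → Fin k → ℝ => J (Matrix.of Q))
      (fun a b => -lor (Y x a) (Y x b)) :=
    J_contDiffOn.contDiffAt ((isOpen_posmat k).mem_nhds (fun a b => neg_pos.2 (hneg a b)))
  have h2 : ContDiffAt ℝ ∞ (fun e => (fun a b => -lor (Y e a) (Y e b) : Fin k → Fin k → ℝ)) x := by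
    rw [contDiffAt_pi]
    intro a
    rw [contDiffAt_pi]
    intro b
    exact (cs_lor (hY a) (hY b)).neg
  exact ContDiffAt.comp (g := fun Q : Fin k → Fin k → ℝ => J (Matrix.of Q))
    (f := fun e => (fun a b => -lor (Y e a) (Y e b) : Fin k → Fin k → ℝ)) x h1 h2

lemma contDiffAt_SS {N : ℕ} {Y : E → Fin (N + 1) → Fin (N + 1) → ℝ} (hY : ∀ a, CS x fun e => Y e a)
    (hneg : ∀ a b, lor (Y x a) (Y x b) < 0) :
    ContDiffAt ℝ ∞ (fun e => SS (Y e)) x := by
  unfold SS
  exact (contDiffAt_det fun a b => hY a b).mul (contDiffAt_JQm hY hneg)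

lemma e0_fut {N : ℕ} : Fut (e0 : Fin (N + 1) → ℝ) := by
  refine ⟨?_, by simp [e0]⟩
  rw [lor_real]
  simp [e0]

lemma lor_e0 {N : ℕ} (y : Fin (N + 1) → ℝ) : lor e0 y = -(y 0) := by
  rw [lor_real]
  simp [e0]

lemma cons_e0_neg {N k : ℕ} (Y : Fin k → Fin (N + 1) → ℝ) (hneg : ∀ a b, lor (Y a) (Y b) < 0)
    (h0 : ∀ a, 0 < Y a 0) (a b : Fin (k + 1)) :
    lor ((Fin.cons e0 Y : Fin (k + 1) → Fin (N + 1) → ℝ) a)
      ((Fin.cons e0 Y : Fin (k + 1) → Fin (N + 1) → ℝ) b) < 0 := by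
  refine Fin.cases ?_ (fun a' => ?_) a
  · refine Fin.cases ?_ (fun b' => ?_) b
    · rw [Fin.cons_zero, e0_fut.1]; norm_num
    · rw [Fin.cons_zero, Fin.cons_succ, lor_e0]; linarith [h0 b']
  · refine Fin.cases ?_ (fun b' => ?_) b
    · rw [Fin.cons_zero, Fin.cons_succ, lor_comm, lor_e0]; linarith [h0 a']
    · rw [Fin.cons_succ, Fin.cons_succ]; exact hneg a' b'

lemma contDiffAt_VV {q m : ℕ} (C : (Fin (q + 1 + 1) → Fin m) → ℤ)
    {Y : E → Fin m → Fin (q + 1 + 2) → ℝ} (hY : ∀ a, CS x fun e => Y e a)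
    (hneg : ∀ v w, lor (Y x v) (Y x w) < 0) (h0 : ∀ v, 0 < Y x v 0) :
    ContDiffAt ℝ ∞ (fun e => VV C (Y e)) x := by
  unfold VV
  refine ContDiffAt.sum fun G _ => contDiffAt_const.mul (contDiffAt_SS ?_ ?_)
  · intro a
    exact cs_cons (F := fun e => Y e ∘ G) (cs_const e0) (fun a => hY (G a)) a
  · exact cons_e0_neg (Y x ∘ G) (fun a b => hneg _ _) (fun a => h0 _)

end Pool.Agent.Work.MP_1c91cf_gt

end

section

/-!
# The sign of a real simplex at an edge of the building
-/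

set_option autoImplicit false
set_option linter.unusedSectionVars false

open Matrix

namespace Pool.Agent.Work.MP_1c91cf_gt

variable {L κ : Type*} [Field L] [Field κ] [Algebra ℂ L] [Algebra ℂ κ] (P : Place L κ) {q : ℕ}

variable {F0 F : Fin (q + 1) → Fin (q + 1 + 2) → L} {Γ0 Γ : Matrix (Fin (q + 1)) (Fin (q + 1)) ℝ}
  {I : L} {ep0 em0 : Fin (q + 1 + 2) → L} {d0 d c : ℝ} {ep em ξ : Fin (q + 1 + 2) → L}

lemma notMem_span_of_lor {k n : ℕ} (F : Fin k → Fin (n + 1) → L) (ξ η : Fin (n + 1) → L)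
    (hη : ∀ a, lor η (F a) = 0) (h : lor ξ η ≠ 0) : ξ ∉ Submodule.span L (Set.range F) := by
  intro hmem
  apply h
  clear h
  induction hmem using Submodule.span_induction with
  | mem x hx => obtain ⟨i, rfl⟩ := hx; rw [lor_comm]; exact hη i
  | zero => exact lor_zero_left _
  | add x y _ _ hx hy => rw [lor_add_left, hx, hy, add_zero]
  | smul a x _ hx => rw [lor_smul_left, hx, mul_zero]

lemma red_det_edge_aux (h0 : HypPair F0 (rl d0) I ep0 em0) (hF0 : RealTuple F0 Γ0)
    (hI : I ^ 2 = -1) (hF : RealTuple F Γ) {i k : ℤ}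
    (hξF : ξ ∉ Submodule.span L (Set.range F))
    (hξ : crsL F ξ = (rl c * I) • ξ)
    (hk : nrm P F0 ep0 em0 i ξ = k)
    (hk' : nrm P F0 ep0 em0 (i + 1) ξ = ((k + 1 : ℤ) : WithTop ℤ))
    (hFμ : ∀ a, ((0 : ℤ) : WithTop ℤ) ≤ nrm P F0 ep0 em0 i (F a)) :
    (Matrix.of fun a b => P.red (lor (F a) (F0 b))).det = (rl (c * d0) : κ) := by
  obtain ⟨u1, u2, u3⟩ := up_info P hk hk'
  obtain ⟨c1, hc1⟩ := P.exists_o (-k)
  obtain ⟨c2, hc2⟩ := P.exists_o i
  have hli : LinearIndependent L (Fin.cons ξ F : Fin (q + 1 + 1) → Fin (q + 1 + 2) → L) :=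
    linearIndependent_finCons.2 ⟨linearIndependent_of_det_gram F hF.det_ne, hξF⟩
  set M := gram (Fin.cons ξ F : Fin (q + 1 + 1) → Fin (q + 1 + 2) → L)
    (Fin.cons em0 F0 : Fin (q + 1 + 1) → Fin (q + 1 + 2) → L) with hM
  have hdM : M.det = rl (c * d0) * lor ξ em0 := by
    have h1 := lor_crs_crs (Fin.cons ξ F : Fin (q + 1 + 1) → Fin (q + 1 + 2) → L)
      (Fin.cons em0 F0 : Fin (q + 1 + 1) → Fin (q + 1 + 2) → L) hli
    rw [← crsL_apply, ← crsL_apply, hξ, h0.crsm, lor_smul_left, lor_smul_right, ← hM] at h1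
    rw [map_mul]
    linear_combination h1 - (rl c * rl d0 * lor ξ em0) * hI
  set N : Matrix (Fin (q + 1 + 1)) (Fin (q + 1 + 1)) L :=
    Matrix.diagonal (Fin.cons c1 (fun _ => 1)) * M * Matrix.diagonal (Fin.cons c2 (fun _ => 1))
    with hN
  have hNe : ∀ a b, N a b = (Fin.cons c1 (fun _ => 1) : Fin (q + 1 + 1) → L) a * M a b *
      (Fin.cons c2 (fun _ => 1) : Fin (q + 1 + 1) → L) b := by
    intro a b
    rw [hN, Matrix.mul_diagonal, Matrix.diagonal_mul]
  have n00 : N 0 0 = c1 * c2 * lor ξ em0 := by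
    rw [hNe, hM, gram_apply]; simp only [Fin.cons_zero]; ring
  have n0b : ∀ b, N 0 (Fin.succ b) = c1 * lor ξ (F0 b) := by
    intro b
    rw [hNe, hM, gram_apply]; simp only [Fin.cons_zero, Fin.cons_succ]; ring
  have na0 : ∀ a, N (Fin.succ a) 0 = c2 * lor (F a) em0 := by
    intro a
    rw [hNe, hM, gram_apply]; simp only [Fin.cons_zero, Fin.cons_succ]; ring
  have nab : ∀ a b, N (Fin.succ a) (Fin.succ b) = lor (F a) (F0 b) := by
    intro a b
    rw [hNe, hM, gram_apply]; simp only [Fin.cons_succ]; ring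
  have o00 : P.o (N 0 0) = ((0 : ℤ) : WithTop ℤ) := by
    rw [n00, P.o_mul, P.o_mul, hc1, hc2, u1, ← WithTop.coe_add, ← WithTop.coe_add]
    congr 1; ring
  have o0b : ∀ b, ((1 : ℤ) : WithTop ℤ) ≤ P.o (N 0 (Fin.succ b)) := by
    intro b
    rw [n0b]
    have := P.ge_mul hc1.ge (u2 b)
    convert this using 2; ring
  have oa0 : ∀ a, ((0 : ℤ) : WithTop ℤ) ≤ P.o (N (Fin.succ a) 0) := by
    intro a
    rw [na0]
    have := P.ge_mul hc2.ge ((le_nrm P).1 (hFμ a)).2.2
    convert this using 2; ring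
  have oab : ∀ a b, ((0 : ℤ) : WithTop ℤ) ≤ P.o (N (Fin.succ a) (Fin.succ b)) := by
    intro a b
    rw [nab]
    exact ((le_nrm P).1 (hFμ a)).1 b
  have hint : ∀ a b, 0 ≤ P.o (N a b) := by
    intro a b
    refine Fin.cases ?_ (fun a' => ?_) a
    · refine Fin.cases o00.ge (fun b' => wt_mono (by norm_num) (o0b b')) b
    · refine Fin.cases (oa0 a') (fun b' => oab a' b') b
  have hdN : N.det = c1 * c2 * (rl (c * d0) * lor ξ em0) := by
    rw [hN, Matrix.det_mul, Matrix.det_mul, Matrix.det_diagonal, Matrix.det_diagonal, hdM]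
    simp only [Fin.prod_univ_succ, Fin.cons_zero, Fin.cons_succ, Finset.prod_const_one]
    ring
  have hdN' : N.det = rl (c * d0) * N 0 0 := by rw [hdN, n00]; ring
  have h1 := P.red_det N hint
  rw [det_row_zero (N.map P.red) (fun b => by
    rw [Matrix.map_apply]; exact P.red_eq_zero (o0b b))] at h1
  rw [hdN', P.red_mul _ _ (P.o_real_ge _) o00.ge, P.red_real, Matrix.map_apply] at h1
  have hne : P.red (N 0 0) ≠ 0 := by
    intro h2
    rw [P.red_zero _ o00.ge, o00, WithTop.coe_le_coe] at h2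
    norm_num at h2
  have h3 : (N.map P.red).submatrix Fin.succ Fin.succ =
      Matrix.of fun a b => P.red (lor (F a) (F0 b)) := by
    ext a b
    simp only [Matrix.submatrix_apply, Matrix.map_apply, nab, Matrix.of_apply]
  rw [h3] at h1
  apply mul_left_cancel₀ hne
  rw [← h1]; ring

/-- Sign at an edge, positive direction. -/
theorem red_det_edge_pos (h0 : HypPair F0 (rl d0) I ep0 em0) (hF0 : RealTuple F0 Γ0)
    (hI : I ^ 2 = -1) (h : HypPair F (rl d) I ep em) (hF : RealTuple F Γ) {i k : ℤ}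
    (hk : nrm P F0 ep0 em0 i ep = k)
    (hk' : nrm P F0 ep0 em0 (i + 1) ep = ((k + 1 : ℤ) : WithTop ℤ))
    (hFμ : ∀ a, ((0 : ℤ) : WithTop ℤ) ≤ nrm P F0 ep0 em0 i (F a)) :
    (Matrix.of fun a b => P.red (lor (F a) (F0 b))).det = (rl (-(d * d0)) : κ) := by
  rw [← neg_mul]
  refine red_det_edge_aux P h0 hF0 hI hF (ξ := ep) ?_ ?_ hk hk' hFμ
  · exact notMem_span_of_lor F ep em h.mF (by rw [h.pm]; exact two_ne')
  · rw [h.crsp, map_neg]; congr 1; ring

/-- Sign at an edge, negative direction. -/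
theorem red_det_edge_neg (h0 : HypPair F0 (rl d0) I ep0 em0) (hF0 : RealTuple F0 Γ0)
    (hI : I ^ 2 = -1) (h : HypPair F (rl d) I ep em) (hF : RealTuple F Γ) {i k : ℤ}
    (hk : nrm P F0 ep0 em0 i em = k)
    (hk' : nrm P F0 ep0 em0 (i + 1) em = ((k + 1 : ℤ) : WithTop ℤ))
    (hFμ : ∀ a, ((0 : ℤ) : WithTop ℤ) ≤ nrm P F0 ep0 em0 i (F a)) :
    (Matrix.of fun a b => P.red (lor (F a) (F0 b))).det = (rl (d * d0) : κ) := by
  refine red_det_edge_aux P h0 hF0 hI hF (ξ := em) ?_ ?_ hk hk' hFμ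
  · exact notMem_span_of_lor F em ep h.pF (by rw [lor_comm, h.pm]; exact two_ne')
  · rw [h.crsm]; congr 1; ring

/-- Two adjacent self-dual norms containing `F` are adjacent on the line of `F`. -/
theorem edge_on_line (h0 : HypPair F0 (rl d0) I ep0 em0) (hF0 : RealTuple F0 Γ0)
    (h : HypPair F (rl d) I ep em) (hF : RealTuple F Γ) {i : ℤ}
    (hFμ : ∀ a, ((0 : ℤ) : WithTop ℤ) ≤ nrm P F0 ep0 em0 i (F a))
    (hFμ' : ∀ a, ((0 : ℤ) : WithTop ℤ) ≤ nrm P F0 ep0 em0 (i + 1) (F a)) :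
    ∃ k : ℤ, nrm P F0 ep0 em0 i = nrm P F ep em k ∧
      (nrm P F0 ep0 em0 (i + 1) = nrm P F ep em (k + 1) ∨
        nrm P F0 ep0 em0 (i + 1) = nrm P F ep em (k - 1)) := by
  obtain ⟨k, hk1, hk2, hk3⟩ := (sdn_nrm P h0 hF0 i).eq_nrm P h hF hFμ
  obtain ⟨k', hk1', hk2', hk3'⟩ := (sdn_nrm P h0 hF0 (i + 1)).eq_nrm P h hF hFμ'
  refine ⟨k, hk3, ?_⟩
  obtain ⟨a1, a2⟩ := nrm_adj P ep hk1
  rw [hk1', WithTop.coe_le_coe] at a1 a2
  have hne : k' ≠ k := by
    intro hkk
    have h1 : nrm P F0 ep0 em0 (i + 1) = nrm P F0 ep0 em0 i := by rw [hk3, hk3', hkk]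
    have h2 := congrFun h1 ep0
    rw [nrm_ep P h0, nrm_ep P h0, WithTop.coe_inj] at h2
    omega
  have : k' = k + 1 ∨ k' = k - 1 := by omega
  rcases this with rfl | rfl
  · left; exact hk3'
  · right; exact hk3'

end Pool.Agent.Work.MP_1c91cf_gt

end

section

/-!
# Cycles, configurations, valid choices of norms
-/

set_option autoImplicit false
set_option linter.unusedSectionVars false

open Matrix

namespace Pool.Agent.Work.MP_1c91cf_gt

open Classical

/-- A cycle together with a real reference configuration. -/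
structure RealConf (q m : ℕ) where
  y0 : Fin m → Fin (q + 1 + 2) → ℝ
  fut : ∀ v, Fut (y0 v)
  C : (Fin (q + 1 + 1) → Fin m) → ℤ
  alt : ∀ (G : Fin (q + 1 + 1) → Fin m) (π : Equiv.Perm (Fin (q + 1 + 1))),
    C (G ∘ π) = ((Equiv.Perm.sign π : ℤˣ) : ℤ) * C G
  cyc : ∀ F : Fin (q + 1) → Fin m, ∑ x, C (Fin.cons x F) = 0

namespace RealConf

variable {q m : ℕ} (c : RealConf q m)

/-- Gram matrix of a tuple of vertices -/
def Γ {k : ℕ} (F : Fin k → Fin m) : Matrix (Fin k) (Fin k) ℝ := gram (c.y0 ∘ F) (c.y0 ∘ F)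

/-- nondegenerate tuple -/
def nd {k : ℕ} (F : Fin k → Fin m) : Prop := (c.Γ F).det ≠ 0

/-- tuple of vertices of a simplex in the support -/
def sub {k : ℕ} (F : Fin k → Fin m) : Prop := ∃ G, c.C G ≠ 0 ∧ ∀ a, ∃ i, G i = F a

/-- determinant factor -/
noncomputable def D {k : ℕ} (F : Fin k → Fin m) : ℝ := Real.sqrt (-(c.Γ F).det)

/-- Gaussian factor -/
noncomputable def jf {k : ℕ} (F : Fin k → Fin m) : ℝ :=
  J (Matrix.of fun a b => -lor (c.y0 (F a)) (c.y0 (F b)))

lemma D_sq {k : ℕ} (F : Fin (k + 1) → Fin m) (h : c.nd F) : (c.D F) ^ 2 = -(c.Γ F).det := by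
  rw [D, Real.sq_sqrt]
  have := det_gram_neg (c.y0 ∘ F) (fun a => c.fut _) h
  have h2 : (c.Γ F).det = (gram (c.y0 ∘ F) (c.y0 ∘ F)).det := rfl
  rw [h2]; linarith

lemma D_pos {k : ℕ} (F : Fin (k + 1) → Fin m) (h : c.nd F) : 0 < c.D F := by
  rw [D]
  apply Real.sqrt_pos.2
  have := det_gram_neg (c.y0 ∘ F) (fun a => c.fut _) h
  have h2 : (c.Γ F).det = (gram (c.y0 ∘ F) (c.y0 ∘ F)).det := rfl
  rw [h2]; linarith

lemma nd_iff {k : ℕ} (F : Fin (k + 1) → Fin m) : c.nd F ↔ LinearIndependent ℝ (c.y0 ∘ F) :=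
  det_gram_ne_iff (c.y0 ∘ F) fun a => c.fut _

lemma nd_tail {k : ℕ} {F : Fin (k + 1 + 1) → Fin m} (h : c.nd F) : c.nd (Fin.tail F) := by
  rw [nd_iff] at h ⊢
  exact h.comp Fin.succ (Fin.succ_injective _)

lemma nd_comp {k : ℕ} {F : Fin k → Fin m} (π : Equiv.Perm (Fin k)) : c.nd (F ∘ π) ↔ c.nd F := by
  have : c.Γ (F ∘ π) = (c.Γ F).submatrix π π := by
    ext a b; rfl
  rw [nd, nd, this, Matrix.det_submatrix_equiv_self]

lemma D_comp {k : ℕ} (F : Fin k → Fin m) (π : Equiv.Perm (Fin k)) : c.D (F ∘ π) = c.D F := by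
  have : c.Γ (F ∘ π) = (c.Γ F).submatrix π π := by
    ext a b; rfl
  rw [D, D, this, Matrix.det_submatrix_equiv_self]

lemma sub_comp {k l : ℕ} {F : Fin k → Fin m} (h : c.sub F) (π : Fin l → Fin k) :
    c.sub (F ∘ π) := by
  obtain ⟨G, h1, h2⟩ := h
  exact ⟨G, h1, fun a => h2 _⟩

lemma sub_of_C {G : Fin (q + 1 + 1) → Fin m} (h : c.C G ≠ 0) : c.sub G :=
  ⟨G, h, fun a => ⟨a, rfl⟩⟩

lemma sub_of_cons {x : Fin m} {F : Fin (q + 1) → Fin m}
    (h : c.C (Fin.cons x F : Fin (q + 1 + 1) → Fin m) ≠ 0) : c.sub F :=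
  ⟨_, h, fun a => ⟨a.succ, by simp⟩⟩

/-- swapping the first two vertices -/
lemma C_swap (x v : Fin m) (E : Fin q → Fin m) :
    c.C (Fin.cons x (Fin.cons v E : Fin (q + 1) → Fin m)) =
      -c.C (Fin.cons v (Fin.cons x E : Fin (q + 1) → Fin m)) := by
  have h := c.alt (Fin.cons v (Fin.cons x E : Fin (q + 1) → Fin m)) (Equiv.swap 0 1)
  rw [Equiv.Perm.sign_swap (by exact Fin.zero_ne_one)] at h
  have h2 : (Fin.cons v (Fin.cons x E : Fin (q + 1) → Fin m) : Fin (q + 1 + 1) → Fin m) ∘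
      (Equiv.swap 0 1 : Equiv.Perm (Fin (q + 1 + 1))) =
      Fin.cons x (Fin.cons v E : Fin (q + 1) → Fin m) := by
    ext i
    refine Fin.cases ?_ (fun i' => ?_) i
    · simp only [Function.comp_apply, Equiv.swap_apply_left]; rfl
    · refine Fin.cases ?_ (fun i'' => ?_) i'
      · have : (Fin.succ (0 : Fin (q + 1))) = (1 : Fin (q + 1 + 1)) := rfl
        simp only [this, Function.comp_apply, Equiv.swap_apply_right]
        rfl
      · have h0 : (Fin.succ (Fin.succ i'')) ≠ (0 : Fin (q + 1 + 1)) := Fin.succ_ne_zero _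
        have h1 : (Fin.succ (Fin.succ i'')) ≠ (1 : Fin (q + 1 + 1)) := by
          have : (1 : Fin (q + 1 + 1)) = Fin.succ 0 := rfl
          rw [this]
          exact fun h => Fin.succ_ne_zero _ (Fin.succ_injective _ h)
        simp [Equiv.swap_apply_of_ne_of_ne h0 h1]
  rw [h2] at h
  rw [h]
  push_cast
  ring

/-- the permutation of `Fin (k+1)` extending `π` and fixing `0` -/
def extPerm {k : ℕ} (π : Equiv.Perm (Fin k)) : Equiv.Perm (Fin (k + 1)) :=
  Equiv.Perm.decomposeFin.symm (0, π)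

lemma cons_comp_extPerm {k : ℕ} {α : Type*} (x : α) (F : Fin k → α) (π : Equiv.Perm (Fin k)) :
    (Fin.cons x F : Fin (k + 1) → α) ∘ (extPerm π) = Fin.cons x (F ∘ π) := by
  ext i
  refine Fin.cases ?_ (fun i' => ?_) i
  · simp [extPerm]
  · simp [extPerm, Equiv.Perm.decomposeFin_symm_apply_succ]

lemma sign_extPerm {k : ℕ} (π : Equiv.Perm (Fin k)) :
    Equiv.Perm.sign (extPerm π) = Equiv.Perm.sign π := by
  simp [extPerm]

lemma C_perm (x : Fin m) (F : Fin (q + 1) → Fin m) (π : Equiv.Perm (Fin (q + 1))) :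
    c.C (Fin.cons x (F ∘ π)) = ((Equiv.Perm.sign π : ℤˣ) : ℤ) * c.C (Fin.cons x F) := by
  rw [← cons_comp_extPerm, c.alt, sign_extPerm]

end RealConf

/-- A configuration over `L`. -/
structure LConf {q m : ℕ} (c : RealConf q m) (L : Type*) [Field L] [Algebra ℂ L] where
  y : Fin m → Fin (q + 1 + 2) → L
  gr : ∀ G, c.C G ≠ 0 → ∀ a b, lor (y (G a)) (y (G b)) = (rl (lor (c.y0 (G a)) (c.y0 (G b))) : L)
  lin : ∀ G, c.C G ≠ 0 → ∀ w : Fin (q + 1 + 1) → ℝ, ∑ i, w i • c.y0 (G i) = 0 →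
    ∑ i, (rl (w i) : L) • y (G i) = 0
  z0 : Fin (q + 1 + 2) → L
  hz0 : ∀ F : Fin (q + 1) → Fin m, c.sub F → c.nd F →
    lor (perp (y ∘ F) z0) (perp (y ∘ F) z0) ≠ 0

namespace LConf

variable {q m : ℕ} {c : RealConf q m} {L κ : Type*} [Field L] [Field κ] [Algebra ℂ L] [Algebra ℂ κ]
  (l : LConf c L)

lemma gram_eq {k : ℕ} {F : Fin k → Fin m} (hs : c.sub F) :
    gram (l.y ∘ F) (l.y ∘ F) = (c.Γ F).map rl := by
  obtain ⟨G, h1, h2⟩ := hs
  ext a b
  obtain ⟨i, hi⟩ := h2 a
  obtain ⟨j, hj⟩ := h2 b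
  rw [gram_apply, Matrix.map_apply, RealConf.Γ, gram_apply, Function.comp_apply,
    Function.comp_apply, Function.comp_apply, Function.comp_apply, ← hi, ← hj, l.gr G h1]

lemma rt {k : ℕ} {F : Fin k → Fin m} (hs : c.sub F) (hn : c.nd F) :
    RealTuple (l.y ∘ F) (c.Γ F) := ⟨l.gram_eq hs, hn⟩

/-- the imaginary unit -/
noncomputable def ii (L : Type*) [Field L] [Algebra ℂ L] : L := algebraMap ℂ L Complex.I

lemma ii_sq : (ii L) ^ 2 = -1 := by
  rw [ii, ← map_pow, Complex.I_sq, map_neg, map_one]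

/-- the isotropic vector `ε_+(F)` -/
noncomputable def ep (F : Fin (q + 1) → Fin m) : Fin (q + 1 + 2) → L :=
  iso (l.y ∘ F) (ii L / rl (c.D F)) l.z0

/-- the isotropic vector `ε_-(F)` before normalisation -/
noncomputable def ep' (F : Fin (q + 1) → Fin m) : Fin (q + 1 + 2) → L :=
  iso (l.y ∘ F) (-(ii L / rl (c.D F))) l.z0

/-- the isotropic vector `ε_-(F)` -/
noncomputable def em (F : Fin (q + 1) → Fin m) : Fin (q + 1 + 2) → L :=
  (lor (perp (l.y ∘ F) l.z0) (perp (l.y ∘ F) l.z0))⁻¹ • l.ep' F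

lemma hp {F : Fin (q + 1) → Fin m} (hs : c.sub F) (hn : c.nd F) :
    HypPair (l.y ∘ F) (rl (c.D F)) (ii L) (l.ep F) (l.em F) := by
  refine hypPair_iso (l.y ∘ F) (l.rt hs hn).det_ne ii_sq ?_ l.z0 (l.hz0 F hs hn)
  rw [← map_pow, c.D_sq F hn, (l.rt hs hn).det_eq, map_neg]

/-- real linear dependence transfers -/
lemma mem_span_of_deg {k : ℕ} {x : Fin m} {F : Fin k → Fin m}
    (hs : c.sub (Fin.cons x F : Fin (k + 1) → Fin m))
    (hx : c.y0 x ∈ Submodule.span ℝ (Set.range (c.y0 ∘ F))) :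
    ∃ w : Fin k → ℝ, l.y x = ∑ a, (rl (w a) : L) • l.y (F a) := by
  obtain ⟨w, hw⟩ := (Submodule.mem_span_range_iff_exists_fun ℝ).1 hx
  refine ⟨w, ?_⟩
  obtain ⟨G, hG, hsub⟩ := hs
  -- indices
  obtain ⟨i0, hi0⟩ := hsub 0
  rw [Fin.cons_zero] at hi0
  have hch : ∀ a, ∃ i, G i = F a := fun a => by
    have := hsub a.succ
    rwa [Fin.cons_succ] at this
  choose g hg using hch
  have h1 := l.lin G hG (fun i => (if i = i0 then -1 else 0) + ∑ a, if i = g a then w a else 0) ?_
  · simp only [map_add, add_smul, Finset.sum_add_distrib, map_sum, Finset.sum_smul] at h1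
    rw [Finset.sum_comm] at h1
    have e1 : ∑ i, (rl (if i = i0 then (-1 : ℝ) else 0) : L) • l.y (G i) = -l.y x := by
      rw [Finset.sum_eq_single i0]
      · simp [hi0]
      · intro b _ hb; simp [hb]
      · simp
    have e2 : ∀ a, ∑ i, (rl (if i = g a then w a else 0) : L) • l.y (G i) =
        (rl (w a) : L) • l.y (F a) := by
      intro a
      rw [Finset.sum_eq_single (g a)]
      · simp [hg]
      · intro b _ hb; simp [hb]
      · simp
    rw [e1] at h1
    simp only [e2] at h1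
    exact (neg_add_eq_zero.1 h1)
  · simp only [add_smul, Finset.sum_add_distrib, Finset.sum_smul]
    rw [Finset.sum_comm]
    have e1 : ∑ i, (if i = i0 then (-1 : ℝ) else 0) • c.y0 (G i) = -c.y0 x := by
      rw [Finset.sum_eq_single i0]
      · simp [hi0]
      · intro b _ hb; simp [hb]
      · simp
    have e2 : ∀ a, ∑ i, (if i = g a then w a else 0) • c.y0 (G i) = w a • c.y0 (F a) := by
      intro a
      rw [Finset.sum_eq_single (g a)]
      · simp [hg]
      · intro b _ hb; simp [hb]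
      · simp
    rw [e1]
    simp only [e2]
    have : ∑ a, w a • c.y0 (F a) = c.y0 x := hw
    rw [this]
    abel

end LConf

end Pool.Agent.Work.MP_1c91cf_gt

end

section

/-!
# The cycle attached to an edge of the building
-/

set_option autoImplicit false
set_option linter.unusedSectionVars false

open Matrix

namespace Pool.Agent.Work.MP_1c91cf_gt

open Classical

section line

variable {L κ : Type*} [Field L] [Field κ] [Algebra ℂ L] [Algebra ℂ κ] (P : Place L κ) {k : ℕ}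
  {F : Fin k → Fin (k + 2) → L} {D I : L} {ep em : Fin (k + 2) → L}

lemma dge_line (h : HypPair F D I ep em) (a b m : ℤ) :
    dge (nrm P F ep em a) (nrm P F ep em b) m ↔ m ≤ a - b ∧ m ≤ b - a := by
  constructor
  · intro hd
    have h1 := hd ep b (nrm_ep P h b).ge
    have h2 := hd em (-b) (nrm_em P h b).ge
    rw [nrm_ep P h, WithTop.coe_le_coe] at h1
    rw [nrm_em P h, WithTop.coe_le_coe] at h2
    omega
  · rintro ⟨h1, h2⟩ z s hs
    rw [le_nrm] at hs ⊢
    exact ⟨fun i => wt_mono (by omega) (hs.1 i), wt_mono (by omega) hs.2.1,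
      wt_mono (by omega) hs.2.2⟩

lemma hside_line_up (h : HypPair F D I ep em) (a b : ℤ) :
    hside (nrm P F ep em a) (nrm P F ep em (a + 1)) (nrm P F ep em b) ↔ a + 1 ≤ b := by
  constructor
  · rintro ⟨m, h1, h2⟩
    rw [dge_line P h] at h1 h2
    omega
  · intro hab
    refine ⟨a + 1 - b, ?_, ?_⟩
    · rw [dge_line P h]; omega
    · rw [dge_line P h]; omega

lemma hside_line_down (h : HypPair F D I ep em) (a b : ℤ) :
    hside (nrm P F ep em a) (nrm P F ep em (a - 1)) (nrm P F ep em b) ↔ ¬ a ≤ b := by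
  constructor
  · rintro ⟨m, h1, h2⟩
    rw [dge_line P h] at h1 h2
    omega
  · intro hab
    refine ⟨b - (a - 1), ?_, ?_⟩
    · rw [dge_line P h]; omega
    · rw [dge_line P h]; omega

lemma nrm_inj (h : HypPair F D I ep em) {a b : ℤ} (hab : nrm P F ep em a = nrm P F ep em b) :
    a = b := by
  have := congrFun hab ep
  rwa [nrm_ep P h, nrm_ep P h, WithTop.coe_inj] at this

end line

variable {q m : ℕ} {c : RealConf q m} {L κ : Type*} [Field L] [Field κ] [Algebra ℂ L] [Algebra ℂ κ]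
  (P : Place L κ) (l : LConf c L)

/-- A choice of self-dual norms for the simplices in the support. -/
structure Valid (nu : (Fin (q + 1 + 1) → Fin m) → (Fin (q + 1 + 2) → L) → WithTop ℤ) : Prop where
  perm : ∀ (G : Fin (q + 1 + 1) → Fin m) (π : Equiv.Perm (Fin (q + 1 + 1))), nu (G ∘ π) = nu G
  sdn : ∀ (x : Fin m) (F : Fin (q + 1) → Fin m), c.C (Fin.cons x F) ≠ 0 → c.nd F →
    SDN P (nu (Fin.cons x F)) ∧ ∀ a, ((0 : ℤ) : WithTop ℤ) ≤
      nu (Fin.cons x F) (l.y ((Fin.cons x F : Fin (q + 1 + 1) → Fin m) a))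

namespace LConf

/-- the norms on the line of `F` -/
noncomputable def ln (F : Fin (q + 1) → Fin m) (j : ℤ) : (Fin (q + 1 + 2) → L) → WithTop ℤ :=
  nrm P (l.y ∘ F) (l.ep F) (l.em F) j

end LConf

variable {nu : (Fin (q + 1 + 1) → Fin m) → (Fin (q + 1 + 2) → L) → WithTop ℤ}

/-- the position of the norm `ν (x, F)` on the line of `F` -/
noncomputable def jj (nu : (Fin (q + 1 + 1) → Fin m) → (Fin (q + 1 + 2) → L) → WithTop ℤ)
    (x : Fin m) (F : Fin (q + 1) → Fin m) : ℤ :=
  (nu (Fin.cons x F) (l.ep F)).untopD 0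

lemma Valid.eq_ln (hv : Valid P l nu) {x : Fin m} {F : Fin (q + 1) → Fin m}
    (hC : c.C (Fin.cons x F) ≠ 0) (hn : c.nd F) : nu (Fin.cons x F) = l.ln P F (jj l nu x F) := by
  have hs := c.sub_of_cons hC
  obtain ⟨h1, h2⟩ := hv.sdn x F hC hn
  obtain ⟨j, hj1, hj2, hj3⟩ := h1.eq_nrm P (l.hp hs hn) (l.rt hs hn) (fun a => by
    have := h2 a.succ
    rwa [Fin.cons_succ] at this)
  have : jj l nu x F = j := by rw [jj, hj1]; rfl
  rw [this]
  exact hj3

/-- vertices in `M ∩ M'` -/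
def inMM (μ μ' : (Fin (q + 1 + 2) → L) → WithTop ℤ) (v : Fin m) : Prop :=
  ((0 : ℤ) : WithTop ℤ) ≤ μ (l.y v) ∧ ((0 : ℤ) : WithTop ℤ) ≤ μ' (l.y v)

/-- the chain attached to an edge -/
noncomputable def ZZ (nu : (Fin (q + 1 + 1) → Fin m) → (Fin (q + 1 + 2) → L) → WithTop ℤ)
    (μ μ' : (Fin (q + 1 + 2) → L) → WithTop ℤ) (F : Fin (q + 1) → Fin m) : ℤ :=
  if ∀ a, inMM l μ μ' (F a) then
    ∑ x, if hside μ μ' (nu (Fin.cons x F)) then c.C (Fin.cons x F) else 0
  else 0

lemma ZZ_perm (hv : Valid P l nu) (μ μ' : (Fin (q + 1 + 2) → L) → WithTop ℤ)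
    (F : Fin (q + 1) → Fin m) (π : Equiv.Perm (Fin (q + 1))) :
    ZZ l nu μ μ' (F ∘ π) = ((Equiv.Perm.sign π : ℤˣ) : ℤ) * ZZ l nu μ μ' F := by
  have h1 : (∀ a, inMM l μ μ' ((F ∘ π) a)) ↔ ∀ a, inMM l μ μ' (F a) :=
    ⟨fun h a => by simpa using h (π.symm a), fun h a => h _⟩
  have h2 : ∀ x, nu (Fin.cons x (F ∘ π)) = nu (Fin.cons x F) := fun x => by
    rw [← RealConf.cons_comp_extPerm, hv.perm]
  unfold ZZ
  simp only [h1, h2, c.C_perm]
  split_ifs
  · rw [Finset.mul_sum]
    refine Finset.sum_congr rfl fun x _ => ?_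
    split_ifs <;> simp
  · simp

/-- The cycle property. -/
theorem ZZ_cyc (hv : Valid P l nu) {F0 : Fin (q + 1) → Fin m} (hs0 : c.sub F0) (hn0 : c.nd F0)
    (i : ℤ) {E : Fin q → Fin m} (hq : 1 ≤ q) (hE : c.nd E) :
    ∑ v, ZZ l nu (l.ln P F0 i) (l.ln P F0 (i + 1)) (Fin.cons v E) = 0 := by
  set μ := l.ln P F0 i with hμ
  set μ' := l.ln P F0 (i + 1) with hμ'
  by_cases hEM : ∀ a, inMM l μ μ' (E a)
  swap
  · apply Finset.sum_eq_zero
    intro v _
    unfold ZZ
    rw [if_neg]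
    intro h
    apply hEM
    intro a
    have := h a.succ
    rwa [Fin.cons_succ] at this
  set f : Fin m → Fin m → ℤ := fun x v =>
    if hside μ μ' (nu (Fin.cons x (Fin.cons v E : Fin (q + 1) → Fin m))) then
      c.C (Fin.cons x (Fin.cons v E : Fin (q + 1) → Fin m)) else 0 with hf
  have hZ : ∀ v, ZZ l nu μ μ' (Fin.cons v E) = if inMM l μ μ' v then ∑ x, f x v else 0 := by
    intro v
    unfold ZZ
    have h1 : (∀ a, inMM l μ μ' ((Fin.cons v E : Fin (q + 1) → Fin m) a)) ↔ inMM l μ μ' v := by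
      constructor
      · intro h
        have := h 0
        rwa [Fin.cons_zero] at this
      · intro h a
        refine Fin.cases ?_ (fun a' => ?_) a
        · rwa [Fin.cons_zero]
        · rw [Fin.cons_succ]; exact hEM a'
    simp only [h1, hf]
  -- antisymmetry
  have hanti : ∀ x v, f x v = -f v x := by
    intro x v
    have h1 : nu (Fin.cons x (Fin.cons v E : Fin (q + 1) → Fin m)) =
        nu (Fin.cons v (Fin.cons x E : Fin (q + 1) → Fin m)) := by
      have h2 : (Fin.cons v (Fin.cons x E : Fin (q + 1) → Fin m) : Fin (q + 1 + 1) → Fin m) ∘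
          (Equiv.swap 0 1 : Equiv.Perm (Fin (q + 1 + 1))) =
          Fin.cons x (Fin.cons v E : Fin (q + 1) → Fin m) := by
        ext i
        refine Fin.cases ?_ (fun i' => ?_) i
        · simp only [Function.comp_apply, Equiv.swap_apply_left]; rfl
        · refine Fin.cases ?_ (fun i'' => ?_) i'
          · have : (Fin.succ (0 : Fin (q + 1))) = (1 : Fin (q + 1 + 1)) := rfl
            simp only [this, Function.comp_apply, Equiv.swap_apply_right]
            rfl
          · have h0 : (Fin.succ (Fin.succ i'')) ≠ (0 : Fin (q + 1 + 1)) := Fin.succ_ne_zero _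
            have h1 : (Fin.succ (Fin.succ i'')) ≠ (1 : Fin (q + 1 + 1)) := by
              have : (1 : Fin (q + 1 + 1)) = Fin.succ 0 := rfl
              rw [this]
              exact fun h => Fin.succ_ne_zero _ (Fin.succ_injective _ h)
            simp [Equiv.swap_apply_of_ne_of_ne h0 h1]
      rw [← h2, hv.perm]
    simp only [hf]
    rw [h1, c.C_swap x v E]
    split_ifs <;> simp
  have htot : ∑ v, ∑ x, f x v = 0 := by
    have h1 : ∑ v, ∑ x, f x v = -∑ v, ∑ x, f x v := by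
      conv_rhs => rw [Finset.sum_comm]
      rw [← Finset.sum_neg_distrib]
      refine Finset.sum_congr rfl fun v _ => ?_
      rw [← Finset.sum_neg_distrib]
      exact Finset.sum_congr rfl fun x _ => hanti x v
    omega
  have hbad : ∀ v, ¬ inMM l μ μ' v → ∑ x, f x v = 0 := by
    intro v hv'
    by_cases hex : ∃ x, c.C (Fin.cons x (Fin.cons v E : Fin (q + 1) → Fin m)) ≠ 0
    swap
    · push Not at hex
      apply Finset.sum_eq_zero
      intro x _
      simp only [hf]
      rw [hex x]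
      split_ifs <;> rfl
    obtain ⟨x0, hx0⟩ := hex
    have hsF : c.sub (Fin.cons v E : Fin (q + 1) → Fin m) := c.sub_of_cons hx0
    have hsE : c.sub E := by
      have := c.sub_comp hsF Fin.succ
      exact this
    have hnF : c.nd (Fin.cons v E : Fin (q + 1) → Fin m) := by
      rw [c.nd_iff]
      have h1 : c.y0 ∘ (Fin.cons v E : Fin (q + 1) → Fin m) = Fin.cons (c.y0 v) (c.y0 ∘ E) := by
        ext a
        refine Fin.cases ?_ (fun a' => ?_) a <;> rfl
      rw [h1, linearIndependent_finCons]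
      obtain ⟨q', rfl⟩ : ∃ q', q = q' + 1 := ⟨q - 1, by omega⟩
      refine ⟨(c.nd_iff E).1 hE, fun hmem => ?_⟩
      obtain ⟨w, hw⟩ := l.mem_span_of_deg hsF hmem
      apply hv'
      have hs0' := sdn_nrm P (l.hp hs0 hn0) (l.rt hs0 hn0) i
      have hs1' := sdn_nrm P (l.hp hs0 hn0) (l.rt hs0 hn0) (i + 1)
      constructor
      · rw [hw]
        refine hs0'.ge_sum _ _ fun a _ => ?_
        have := hs0'.ge_smul (P.o_real_ge (w a)) (hEM a).1
        rwa [add_zero] at this
      · rw [hw]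
        refine hs1'.ge_sum _ _ fun a _ => ?_
        have := hs1'.ge_smul (P.o_real_ge (w a)) (hEM a).2
        rwa [add_zero] at this
    have hyc : l.y ∘ (Fin.cons v E : Fin (q + 1) → Fin m) = Fin.cons (l.y v) (l.y ∘ E) := by
      ext a
      refine Fin.cases ?_ (fun a' => ?_) a <;> rfl
    have hrtF := l.rt hsF hnF
    have hhpF := l.hp hsF hnF
    rw [hyc] at hrtF hhpF
    rcases tree_side P (l.hp hs0 hn0) (l.rt hs0 hn0) (i := i) (l.rt hsE hE) hrtF hhpF
      (fun a => (hEM a).1) (fun a => (hEM a).2) with h1 | ⟨b, hb⟩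
    · exact absurd h1 hv'
    have h2 : ∀ x, f x v = if b then c.C (Fin.cons x (Fin.cons v E : Fin (q + 1) → Fin m)) else 0 := by
      intro x
      simp only [hf]
      by_cases hx : c.C (Fin.cons x (Fin.cons v E : Fin (q + 1) → Fin m)) = 0
      · rw [hx]; split_ifs <;> rfl
      · have h3 := hv.eq_ln P l hx hnF
        rw [h3]
        have h5 : l.ln P (Fin.cons v E : Fin (q + 1) → Fin m)
            (jj l nu x (Fin.cons v E : Fin (q + 1) → Fin m)) =
            nrm P (Fin.cons (l.y v) (l.y ∘ E) : Fin (q + 1) → Fin (q + 1 + 2) → L)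
              (l.ep (Fin.cons v E)) (l.em (Fin.cons v E))
              (jj l nu x (Fin.cons v E : Fin (q + 1) → Fin m)) := by
          rw [LConf.ln, hyc]
        have h4 : hside μ μ' (l.ln P (Fin.cons v E : Fin (q + 1) → Fin m)
            (jj l nu x (Fin.cons v E : Fin (q + 1) → Fin m))) ↔ b := by
          rw [h5]
          exact hb _
        by_cases hb' : b
        · rw [if_pos hb', if_pos (h4.2 hb')]
        · rw [if_neg hb', if_neg (fun h => hb' (h4.1 h))]
    simp only [h2]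
    by_cases hb' : b
    · simp only [hb', if_true]
      exact c.cyc _
    · simp only [hb', if_false, Finset.sum_const_zero]
  simp only [hZ]
  have h1 : ∀ v, (if inMM l μ μ' v then ∑ x, f x v else 0) = ∑ x, f x v := by
    intro v
    split_ifs with h
    · rfl
    · exact (hbad v h).symm
  simp only [h1]
  exact htot

end Pool.Agent.Work.MP_1c91cf_gt

end
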