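import Mathlib

/-! Bundle of small proof modules (one section per former module). -/

section

/-!
# A discrete valuation detecting a transcendental element

If `L` is a finitely generated field extension of `ℂ` and `y ∈ L` is transcendental over `ℂ`, there
is a discrete valuation on `L`, trivial on `ℂ`, with `v y < 1`.
-/

set_option autoImplicit false

namespace Pool.Agent.Work.MP_1c91cf_gt

open Polynomial

/-- If `R` and `S` both map to the domain `L`, and the image of `S` contains the image of `R`, then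
`L` is algebraic over `S` as soon as it is algebraic over `R`. -/
lemma isAlgebraic_of_range {R S L : Type*} [CommRing R] [CommRing S] [CommRing L] [IsDomain L]
    [Algebra R L] [Algebra S L] (hR : Function.Injective (algebraMap R L))
    (hRS : ∀ r : R, ∃ s : S, algebraMap S L s = algebraMap R L r)
    (h : Algebra.IsAlgebraic R L) : Algebra.IsAlgebraic S L := by
  choose σ hσ using hRS
  refine ⟨fun x => ?_⟩
  obtain ⟨p, hp0, hp⟩ := h.isAlgebraic x
  refine ⟨∑ i ∈ p.support, Polynomial.monomial i (σ (p.coeff i)), ?_, ?_⟩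
  · intro h0
    apply hp0
    have h1 := congrArg (Polynomial.map (algebraMap S L)) h0
    rw [Polynomial.map_sum] at h1
    simp only [Polynomial.map_monomial, hσ, Polynomial.map_zero] at h1
    have h2 : p.map (algebraMap R L) = ∑ i ∈ p.support,
        Polynomial.monomial i (algebraMap R L (p.coeff i)) := by
      conv_lhs => rw [p.as_sum_support]
      rw [Polynomial.map_sum]
      simp
    rw [← h2] at h1
    exact (Polynomial.map_eq_zero_iff hR).mp h1
  · rw [Polynomial.aeval_def, Polynomial.eval₂_finsetSum]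
    simp only [Polynomial.eval₂_monomial, hσ]
    rw [Polynomial.aeval_def, Polynomial.eval₂_eq_sum, Polynomial.sum_def] at hp
    exact hp

open scoped IntermediateField.algebraAdjoinAdjoin in
lemma transcendental_intermediateField {k L : Type*} [Field k] [Field L] [Algebra k L]
    {S : Set L} {y : L} (h : Transcendental (Algebra.adjoin k S) y) :
    Transcendental (IntermediateField.adjoin k S) y := by
  rw [Transcendental, ← IsFractionRing.isAlgebraic_iff (Algebra.adjoin k S)]
  exact h

/-- There is an intermediate field `k₀` such that `y` is transcendental over `k₀`, and such that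
`L` is algebraic over a subring contained in the subring generated by `k₀` and `y`. -/
lemma exists_intermediateField {k L : Type*} [Field k] [Field L] [Algebra k L]
    {y : L} (hy : Transcendental k y) :
    ∃ (k₀ : IntermediateField k L) (t : Set L), Transcendental k₀ y ∧
      Algebra.IsAlgebraic (Algebra.adjoin k t) L ∧ t \ {y} ⊆ k₀ := by
  have h1 : AlgebraicIndepOn k id ({y} : Set L) :=
    (algebraicIndependent_singleton_iff (R := k) (x := (fun i : ({y} : Set L) => id i.1))
      (⟨y, rfl⟩ : ({y} : Set L))).mpr hy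
  obtain ⟨t, hyt, ht⟩ := exists_isTranscendenceBasis_superset h1
  rw [Set.singleton_subset_iff] at hyt
  have himg : ((↑) : t → L) '' {⟨y, hyt⟩}ᶜ = t \ {y} := by
    ext z
    simp only [Set.mem_image, Set.mem_compl_iff, Set.mem_singleton_iff, Subtype.exists,
      Subtype.mk.injEq, exists_and_left, exists_prop, exists_eq_right_right, Set.mem_sdiff]
    tauto
  have h2 : Transcendental (Algebra.adjoin k (t \ {y})) y := by
    have := ht.1.transcendental_adjoin (s := {⟨y, hyt⟩}ᶜ) (i := ⟨y, hyt⟩) (by simp)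
    rw [himg] at this
    exact this
  refine ⟨IntermediateField.adjoin k (t \ {y}), t, transcendental_intermediateField h2, ?_,
    IntermediateField.subset_adjoin k (t \ {y})⟩
  have halg : Algebra.IsAlgebraic (Algebra.adjoin k (Set.range ((↑) : t → L))) L :=
    ht.isAlgebraic
  rwa [Subtype.range_coe] at halg

/-- The form over a field `k₀` such that `L` is algebraic over `k₀[y]`. -/
lemma exists_valuation_aux {k₀ L : Type} [Field k₀] [CharZero k₀] [Field L] [Algebra k₀ L]
    [Algebra.EssFiniteType k₀ L] [Algebra k₀[X] L] [FaithfulSMul k₀[X] L]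
    [IsScalarTower k₀ k₀[X] L] [Algebra.IsAlgebraic k₀[X] L] :
    ∃ v : Valuation L (WithZero (Multiplicative ℤ)),
      (∀ c : k₀, c ≠ 0 → v (algebraMap k₀ L c) = 1) ∧ v (algebraMap k₀[X] L X) < 1 ∧
        ∃ p : L, v p = WithZero.exp (-1 : ℤ) := by
  letI : Algebra (FractionRing k₀[X]) L := FractionRing.liftAlgebra k₀[X] L
  haveI : IsScalarTower k₀[X] (FractionRing k₀[X]) L := FractionRing.isScalarTower_liftAlgebra _ _
  haveI : Algebra.IsAlgebraic (FractionRing k₀[X]) L :=
    (IsFractionRing.comap_isAlgebraic_iff (A := k₀[X])).mp inferInstance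
  haveI : IsScalarTower k₀ (FractionRing k₀[X]) L := IsScalarTower.of_algebraMap_eq fun c => by
    rw [IsScalarTower.algebraMap_apply k₀ k₀[X] (FractionRing k₀[X]),
      ← IsScalarTower.algebraMap_apply k₀[X] (FractionRing k₀[X]) L,
      ← IsScalarTower.algebraMap_apply k₀ k₀[X] L]
  haveI : Algebra.EssFiniteType (FractionRing k₀[X]) L := Algebra.EssFiniteType.of_comp k₀ _ _
  haveI : Module.Finite (FractionRing k₀[X]) L :=
    Algebra.finite_of_essFiniteType_of_isAlgebraic
  haveI : CharZero (FractionRing k₀[X]) := inferInstance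
  haveI : Algebra.IsSeparable (FractionRing k₀[X]) L := inferInstance
  -- the Dedekind domain
  set B := integralClosure k₀[X] L with hB
  haveI : IsDedekindDomain B := integralClosure.isDedekindDomain k₀[X] (FractionRing k₀[X]) L
  haveI : IsFractionRing B L :=
    integralClosure.isFractionRing_of_finite_extension (FractionRing k₀[X]) L
  haveI : Algebra.IsIntegral k₀[X] B := inferInstance
  haveI : FaithfulSMul k₀[X] B := inferInstance
  -- a prime above `X`
  haveI hXprime : (Ideal.span {(X : k₀[X])}).IsPrime :=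
    (Ideal.span_singleton_prime Polynomial.X_ne_zero).mpr Polynomial.prime_X
  obtain ⟨P, hP, hPX⟩ := Ideal.exists_ideal_over_prime_of_isIntegral_of_isDomain (S := B)
    (Ideal.span {(X : k₀[X])}) (by
      rw [(RingHom.injective_iff_ker_eq_bot _).mp (FaithfulSMul.algebraMap_injective k₀[X] B)]
      exact bot_le)
  have hXP : algebraMap k₀[X] B X ∈ P := by
    rw [← Ideal.mem_comap, hPX]
    exact Ideal.mem_span_singleton_self X
  have hP0 : P ≠ ⊥ := by
    rintro rfl
    rw [Ideal.mem_bot, map_eq_zero_iff _ (FaithfulSMul.algebraMap_injective k₀[X] B)] at hXP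
    exact Polynomial.X_ne_zero hXP
  let 𝔭 : IsDedekindDomain.HeightOneSpectrum B := ⟨P, hP, hP0⟩
  refine ⟨𝔭.valuation L, ?_, ?_, 𝔭.valuation_exists_uniformizer L⟩
  · intro c hc
    have hc1 : ∀ d : k₀, 𝔭.valuation L (algebraMap k₀ L d) ≤ 1 := by
      intro d
      have h3 : algebraMap k₀ L d = algebraMap B L (algebraMap k₀[X] B (C d)) := by
        rw [← IsScalarTower.algebraMap_apply k₀[X] B L, ← Polynomial.algebraMap_eq,
          ← IsScalarTower.algebraMap_apply k₀ k₀[X] L]
      rw [h3]
      exact 𝔭.valuation_le_one _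
    have h4 : 𝔭.valuation L (algebraMap k₀ L c) * 𝔭.valuation L (algebraMap k₀ L c⁻¹) = 1 := by
      rw [← map_mul, ← map_mul, mul_inv_cancel₀ hc, map_one, map_one]
    refine le_antisymm (hc1 c) ?_
    rw [← h4]
    exact mul_le_of_le_one_right' (hc1 c⁻¹)
  · have h5 : algebraMap k₀[X] L X = algebraMap B L (algebraMap k₀[X] B X) :=
      IsScalarTower.algebraMap_apply k₀[X] B L X
    rw [h5]
    exact (𝔭.valuation_lt_one_iff_mem _).mpr hXP

/-- The general form, over a field of characteristic zero. -/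
theorem exists_discrete_valuation_unif' {k L : Type} [Field k] [CharZero k] [Field L]
    [Algebra k L] (hfg : (⊤ : IntermediateField k L).FG) {y : L} (hy : Transcendental k y) :
    ∃ v : Valuation L (WithZero (Multiplicative ℤ)),
      (∀ c : k, c ≠ 0 → v (algebraMap k L c) = 1) ∧ v y < 1 ∧
        ∃ p : L, v p = WithZero.exp (-1 : ℤ) := by
  haveI : Algebra.EssFiniteType k L := IntermediateField.fg_top_iff.mp hfg
  obtain ⟨k₀, t, hk₀, halg, hsub⟩ := exists_intermediateField hy
  haveI : Algebra.EssFiniteType k₀ L := Algebra.EssFiniteType.of_comp k _ _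
  haveI : CharZero k₀ := charZero_of_injective_algebraMap (algebraMap k k₀).injective
  letI : Algebra k₀[X] L := (Polynomial.aeval y : k₀[X] →ₐ[k₀] L).toRingHom.toAlgebra
  have hmap : ∀ p : k₀[X], algebraMap k₀[X] L p = Polynomial.aeval y p := fun p => rfl
  haveI : IsScalarTower k₀ k₀[X] L := IsScalarTower.of_algebraMap_eq fun c => by
    rw [hmap, Polynomial.algebraMap_eq, Polynomial.aeval_C]
  have hinj : Function.Injective (algebraMap k₀[X] L) := by
    rw [transcendental_iff_injective] at hk₀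
    exact hk₀
  haveI : FaithfulSMul k₀[X] L := (faithfulSMul_iff_algebraMap_injective _ _).mpr hinj
  haveI : Algebra.IsAlgebraic k₀[X] L := by
    refine isAlgebraic_of_range (R := Algebra.adjoin k t) (Subtype.val_injective) ?_ halg
    rintro ⟨r, hr⟩
    change ∃ s : k₀[X], Polynomial.aeval y s = r
    refine Algebra.adjoin_induction (hx := hr)
      (p := fun r _ => ∃ s : k₀[X], Polynomial.aeval y s = r) ?_ ?_ ?_ ?_
    · intro z hz
      by_cases hzy : z = y
      · exact ⟨X, by rw [Polynomial.aeval_X, hzy]⟩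
      · refine ⟨C ⟨z, hsub ⟨hz, hzy⟩⟩, ?_⟩
        rw [Polynomial.aeval_C]
        rfl
    · intro c
      refine ⟨C (algebraMap k k₀ c), ?_⟩
      rw [Polynomial.aeval_C]
      rfl
    · rintro a b _ _ ⟨s, hs⟩ ⟨s', hs'⟩
      exact ⟨s + s', by rw [map_add, hs, hs']⟩
    · rintro a b _ _ ⟨s, hs⟩ ⟨s', hs'⟩
      exact ⟨s * s', by rw [map_mul, hs, hs']⟩
  obtain ⟨v, hv1, hv2, hv3⟩ := exists_valuation_aux (k₀ := k₀) (L := L)
  refine ⟨v, ?_, ?_, hv3⟩
  · intro c hc
    have := hv1 (algebraMap k k₀ c) (by simpa using hc)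
    exact this
  · rw [hmap, Polynomial.aeval_X] at hv2
    exact hv2

/-- The general form, over a field of characteristic zero. -/
theorem exists_discrete_valuation' {k L : Type} [Field k] [CharZero k] [Field L] [Algebra k L]
    (hfg : (⊤ : IntermediateField k L).FG) {y : L} (hy : Transcendental k y) :
    ∃ v : Valuation L (WithZero (Multiplicative ℤ)),
      (∀ c : k, c ≠ 0 → v (algebraMap k L c) = 1) ∧ v y < 1 := by
  obtain ⟨v, h1, h2, -⟩ := exists_discrete_valuation_unif' hfg hy
  exact ⟨v, h1, h2⟩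

/-- If `L` is a finitely generated field extension of `ℂ` and `y ∈ L` is transcendental over `ℂ`,
there is a discrete valuation on `L`, trivial on `ℂ`, with `v y < 1`, and such that some element
has value `exp (-1)`. -/
theorem exists_discrete_valuation_unif {L : Type} [Field L] [Algebra ℂ L]
    (hfg : (⊤ : IntermediateField ℂ L).FG) {y : L} (hy : Transcendental ℂ y) :
    ∃ v : Valuation L (WithZero (Multiplicative ℤ)),
      (∀ c : ℂ, c ≠ 0 → v (algebraMap ℂ L c) = 1) ∧ v y < 1 ∧
        ∃ p : L, v p = WithZero.exp (-1 : ℤ) :=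
  exists_discrete_valuation_unif' hfg hy

/-- If `L` is a finitely generated field extension of `ℂ` and `y ∈ L` is transcendental over `ℂ`,
there is a discrete valuation on `L`, trivial on `ℂ`, with `v y < 1`. -/
theorem exists_discrete_valuation {L : Type} [Field L] [Algebra ℂ L]
    (hfg : (⊤ : IntermediateField ℂ L).FG) {y : L} (hy : Transcendental ℂ y) :
    ∃ v : Valuation L (WithZero (Multiplicative ℤ)),
      (∀ c : ℂ, c ≠ 0 → v (algebraMap ℂ L c) = 1) ∧ v y < 1 :=
  exists_discrete_valuation' hfg hy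

end Pool.Agent.Work.MP_1c91cf_gt

end

section

/-!
# The Lorentz form, Gram matrices, cross products
-/

set_option autoImplicit false
set_option linter.unusedSectionVars false

open Matrix

namespace Pool.Agent.Work.MP_1c91cf_gt

section ring

variable {R : Type*} [CommRing R] {N : ℕ}

/-- the signature vector `(-1, 1, ..., 1)` -/
def eta {R : Type*} [CommRing R] {N : ℕ} : Fin (N + 1) → R := Fin.cons (-1) (fun _ => 1)

/-- Lorentz form -/
def lor (z w : Fin (N + 1) → R) : R := ∑ i, eta i * z i * w i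

lemma eta_mul_eta (i : Fin (N + 1)) : (eta i : R) * eta i = 1 := by
  refine Fin.cases ?_ (fun j => ?_) i <;> simp [eta]

lemma prod_eta : ∏ i : Fin (N + 1), (eta i : R) = -1 := by
  simp [Fin.prod_univ_succ, eta]

lemma lor_comm (z w : Fin (N + 1) → R) : lor z w = lor w z := by
  simp only [lor]
  exact Finset.sum_congr rfl fun i _ => by ring

lemma lor_add_left (z z' w : Fin (N + 1) → R) : lor (z + z') w = lor z w + lor z' w := by
  simp only [lor, ← Finset.sum_add_distrib, Pi.add_apply]
  exact Finset.sum_congr rfl fun i _ => by ring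

lemma lor_add_right (z w w' : Fin (N + 1) → R) : lor z (w + w') = lor z w + lor z w' := by
  rw [lor_comm, lor_add_left, lor_comm w, lor_comm w']

lemma lor_smul_left (c : R) (z w : Fin (N + 1) → R) : lor (c • z) w = c * lor z w := by
  simp only [lor, Finset.mul_sum, Pi.smul_apply, smul_eq_mul]
  exact Finset.sum_congr rfl fun i _ => by ring

lemma lor_smul_right (c : R) (z w : Fin (N + 1) → R) : lor z (c • w) = c * lor z w := by
  rw [lor_comm, lor_smul_left, lor_comm]

lemma lor_neg_left (z w : Fin (N + 1) → R) : lor (-z) w = -lor z w := by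
  rw [← neg_one_smul R z, lor_smul_left]; ring

lemma lor_neg_right (z w : Fin (N + 1) → R) : lor z (-w) = -lor z w := by
  rw [lor_comm, lor_neg_left, lor_comm]

lemma lor_sub_left (z z' w : Fin (N + 1) → R) : lor (z - z') w = lor z w - lor z' w := by
  rw [sub_eq_add_neg, lor_add_left, lor_neg_left, ← sub_eq_add_neg]

lemma lor_sub_right (z w w' : Fin (N + 1) → R) : lor z (w - w') = lor z w - lor z w' := by
  rw [lor_comm, lor_sub_left, lor_comm w, lor_comm w']

lemma lor_zero_left (w : Fin (N + 1) → R) : lor 0 w = 0 := by simp [lor]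

lemma lor_zero_right (w : Fin (N + 1) → R) : lor w 0 = 0 := by simp [lor]

lemma lor_sum_left {ι : Type*} (s : Finset ι) (f : ι → Fin (N + 1) → R) (w : Fin (N + 1) → R) :
    lor (∑ a ∈ s, f a) w = ∑ a ∈ s, lor (f a) w := by
  classical
  induction s using Finset.induction_on with
  | empty => simp [lor_zero_left]
  | insert a s ha ih => rw [Finset.sum_insert ha, Finset.sum_insert ha, lor_add_left, ih]

lemma lor_sum_right {ι : Type*} (s : Finset ι) (f : ι → Fin (N + 1) → R) (w : Fin (N + 1) → R) :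
    lor w (∑ a ∈ s, f a) = ∑ a ∈ s, lor w (f a) := by
  rw [lor_comm, lor_sum_left]
  exact Finset.sum_congr rfl fun a _ => lor_comm _ _

/-- mixed Gram matrix -/
def gram {m k : Type*} (A : m → Fin (N + 1) → R) (A' : k → Fin (N + 1) → R) : Matrix m k R :=
  Matrix.of fun i j => lor (A i) (A' j)

lemma gram_apply {m k : Type*} (A : m → Fin (N + 1) → R) (A' : k → Fin (N + 1) → R) (i : m)
    (j : k) : gram A A' i j = lor (A i) (A' j) := rfl

lemma gram_eq {m k : Type*} (A : m → Fin (N + 1) → R) (A' : k → Fin (N + 1) → R) :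
    gram A A' = (Matrix.of A : Matrix m (Fin (N + 1)) R) *
      (Matrix.diagonal eta : Matrix (Fin (N + 1)) (Fin (N + 1)) R) *
      (Matrix.of A' : Matrix k (Fin (N + 1)) R)ᵀ := by
  ext i j
  rw [Matrix.mul_apply]
  simp only [gram, Matrix.of_apply, lor, Matrix.mul_diagonal, Matrix.transpose_apply]
  exact Finset.sum_congr rfl fun i _ => by ring

lemma gram_transpose {m k : Type*} (A : m → Fin (N + 1) → R) (A' : k → Fin (N + 1) → R) :
    (gram A A')ᵀ = gram A' A := by
  ext i j
  simp only [gram, Matrix.of_apply, Matrix.transpose_apply]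
  exact lor_comm _ _

lemma gram_isSymm {m : Type*} (A : m → Fin (N + 1) → R) : (gram A A).IsSymm := gram_transpose A A

lemma det_gram (A A' : Fin (N + 1) → Fin (N + 1) → R) :
    (gram A A').det = -((Matrix.of A).det * (Matrix.of A').det) := by
  rw [gram_eq, Matrix.det_mul, Matrix.det_mul, Matrix.det_transpose, Matrix.det_diagonal, prod_eta]
  ring

/-- the cross product of `N` vectors in `R^(N+1)` -/
def crs (G : Fin N → Fin (N + 1) → R) : Fin (N + 1) → R :=
  fun i => eta i * (Matrix.of (Fin.cons (Pi.single i 1) G : Fin (N + 1) → Fin (N + 1) → R)).det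

/-- determinant of `z, G` -/
def dt (z : Fin (N + 1) → R) (G : Fin N → Fin (N + 1) → R) : R :=
  (Matrix.of (Fin.cons z G : Fin (N + 1) → Fin (N + 1) → R)).det

lemma cons_eq_updateRow (z z' : Fin (N + 1) → R) (G : Fin N → Fin (N + 1) → R) :
    Matrix.of (Fin.cons z G : Fin (N + 1) → Fin (N + 1) → R)
      = (Matrix.of (Fin.cons z' G : Fin (N + 1) → Fin (N + 1) → R)).updateRow 0 z := by
  ext i j
  refine Fin.cases ?_ (fun i' => ?_) i
  · simp
  · simp [Matrix.updateRow_apply, Fin.succ_ne_zero]

lemma dt_add (z z' : Fin (N + 1) → R) (G : Fin N → Fin (N + 1) → R) :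
    dt (z + z') G = dt z G + dt z' G := by
  unfold dt
  rw [cons_eq_updateRow (z + z') 0, cons_eq_updateRow z 0, cons_eq_updateRow z' 0,
    Matrix.det_updateRow_add]

lemma dt_smul (c : R) (z : Fin (N + 1) → R) (G : Fin N → Fin (N + 1) → R) :
    dt (c • z) G = c * dt z G := by
  unfold dt
  rw [cons_eq_updateRow (c • z) 0, cons_eq_updateRow z 0, Matrix.det_updateRow_smul]

/-- `dt` as a linear map in the first argument -/
def dtL (G : Fin N → Fin (N + 1) → R) : (Fin (N + 1) → R) →ₗ[R] R where
  toFun z := dt z G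
  map_add' z z' := dt_add z z' G
  map_smul' c z := by simp [dt_smul]

lemma lor_crs (z : Fin (N + 1) → R) (G : Fin N → Fin (N + 1) → R) :
    lor z (crs G) = dt z G := by
  have h1 : z = ∑ i, z i • (Pi.single i (1 : R) : Fin (N + 1) → R) := by
    ext j
    simp [Finset.sum_apply, Pi.single_apply]
  have h2 : dt z G = dtL G z := rfl
  rw [h2]
  conv_rhs => rw [h1]
  rw [map_sum]
  simp only [map_smul, smul_eq_mul, lor, crs]
  refine Finset.sum_congr rfl fun i _ => ?_
  have : dtL G (Pi.single i (1 : R)) = (Matrix.of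
    (Fin.cons (Pi.single i 1) G : Fin (N + 1) → Fin (N + 1) → R)).det := rfl
  rw [this]
  linear_combination (z i * (Matrix.of
    (Fin.cons (Pi.single i 1) G : Fin (N + 1) → Fin (N + 1) → R)).det) * eta_mul_eta (R := R) i

lemma dt_self (G : Fin N → Fin (N + 1) → R) (i : Fin N) : dt (G i) G = 0 := by
  unfold dt
  refine Matrix.det_zero_of_row_eq (i := 0) (j := i.succ) (Fin.succ_ne_zero i).symm ?_
  ext j
  simp

lemma lor_crs_self (G : Fin N → Fin (N + 1) → R) (i : Fin N) : lor (G i) (crs G) = 0 := by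
  rw [lor_crs, dt_self]

/-- The form is nondegenerate. -/
lemma eq_zero_of_lor (z : Fin (N + 1) → R) (h : ∀ w, lor z w = 0) : z = 0 := by
  ext i
  have := h (Pi.single i 1)
  simp only [lor, Pi.single_apply, mul_ite, mul_one, mul_zero, Finset.sum_ite_eq',
    Finset.mem_univ, if_true] at this
  have h2 : (eta i : R) * (eta i * z i) = 0 := by rw [this, mul_zero]
  rw [← mul_assoc, eta_mul_eta, one_mul] at h2
  simpa using h2

end ring

section field

variable {K : Type*} [Field K] {N : ℕ}

lemma linearIndependent_of_det_gram {k : ℕ} (G : Fin k → Fin (N + 1) → K)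
    (h : (gram G G).det ≠ 0) : LinearIndependent K G := by
  rw [Fintype.linearIndependent_iff]
  intro c hc
  have h1 : Matrix.vecMul c (gram G G) = 0 := by
    ext j
    simp only [Matrix.vecMul, dotProduct, gram_apply, Pi.zero_apply]
    have : lor (∑ i, c i • G i) (G j) = 0 := by rw [hc, lor_zero_left]
    rw [lor_sum_left] at this
    simpa only [lor_smul_left] using this
  have h2 : c = 0 := by
    by_contra hne
    exact h (Matrix.exists_vecMul_eq_zero_iff.1 ⟨c, hne, h1⟩)
  intro i
  rw [h2]; rfl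

lemma det_ne_zero_of_linearIndependent (A : Fin (N + 1) → Fin (N + 1) → K)
    (h : LinearIndependent K A) : (Matrix.of A).det ≠ 0 := by
  have h1 : IsUnit (Matrix.of A) := Matrix.linearIndependent_rows_iff_isUnit.1 h
  exact ((Matrix.isUnit_iff_isUnit_det _).1 h1).ne_zero

lemma exists_dt_ne_zero (G : Fin N → Fin (N + 1) → K) (h : LinearIndependent K G) :
    ∃ z, dt z G ≠ 0 := by
  have h1 : Submodule.span K (Set.range G) ≠ ⊤ := by
    intro h2
    have h3 := finrank_span_eq_card h
    rw [h2, finrank_top, Module.finrank_fin_fun, Fintype.card_fin] at h3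
    omega
  obtain ⟨z, hz⟩ : ∃ z, z ∉ Submodule.span K (Set.range G) := by
    by_contra hcon
    push Not at hcon
    exact h1 (Submodule.eq_top_iff'.2 hcon)
  refine ⟨z, det_ne_zero_of_linearIndependent _ ?_⟩
  exact linearIndependent_finCons.2 ⟨h, hz⟩

/-- A vector orthogonal to a basis is zero. -/
lemma eq_zero_of_orth_basis (A : Fin (N + 1) → Fin (N + 1) → K) (h : (Matrix.of A).det ≠ 0)
    (z : Fin (N + 1) → K) (hz : ∀ i, lor z (A i) = 0) : z = 0 := by
  apply eq_zero_of_lor
  have hli : LinearIndependent K A :=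
    Matrix.linearIndependent_rows_iff_isUnit.2 ((Matrix.isUnit_iff_isUnit_det _).2 (isUnit_iff_ne_zero.2 h))
  have hsp : Submodule.span K (Set.range A) = ⊤ :=
    hli.span_eq_top_of_card_eq_finrank (by simp)
  intro w
  have hw : w ∈ Submodule.span K (Set.range A) := by rw [hsp]; trivial
  induction hw using Submodule.span_induction with
  | mem x hx => obtain ⟨i, rfl⟩ := hx; exact hz i
  | zero => exact lor_zero_right _
  | add x y _ _ hx hy => rw [lor_add_right, hx, hy, add_zero]
  | smul a x _ hx => rw [lor_smul_right, hx, mul_zero]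

lemma det_gram_cons (z z' : Fin (N + 1) → K) (G G' : Fin N → Fin (N + 1) → K) :
    (gram (Fin.cons z G : Fin (N + 1) → Fin (N + 1) → K)
      (Fin.cons z' G' : Fin (N + 1) → Fin (N + 1) → K)).det = -(dt z G * dt z' G') :=
  det_gram _ _

/-- If the first row of a matrix is `(a, 0, …, 0)`. -/
lemma det_row_zero {k : ℕ} (M : Matrix (Fin (k + 1)) (Fin (k + 1)) K)
    (h : ∀ j : Fin k, M 0 j.succ = 0) :
    M.det = M 0 0 * (M.submatrix Fin.succ Fin.succ).det := by
  rw [Matrix.det_succ_row_zero, Fin.sum_univ_succ]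
  simp only [Fin.val_zero, pow_zero, one_mul, h, mul_zero, zero_mul, Finset.sum_const_zero,
    add_zero]
  rfl

lemma det_col_zero {k : ℕ} (M : Matrix (Fin (k + 1)) (Fin (k + 1)) K)
    (h : ∀ j : Fin k, M j.succ 0 = 0) :
    M.det = M 0 0 * (M.submatrix Fin.succ Fin.succ).det := by
  rw [← Matrix.det_transpose, det_row_zero Mᵀ (by simpa using h), ← Matrix.det_transpose]
  rfl

/-- Lagrange identity for cross products. -/
lemma lor_crs_crs (G G' : Fin N → Fin (N + 1) → K) (h : LinearIndependent K G) :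
    lor (crs G) (crs G') = -(gram G G').det := by
  obtain ⟨z, hz⟩ := exists_dt_ne_zero G h
  have h1 := det_gram_cons z (crs G) G G'
  rw [det_col_zero _ (by
    intro j
    rw [gram_apply, Fin.cons_succ, Fin.cons_zero]
    exact lor_crs_self G j)] at h1
  have h2 : (gram (Fin.cons z G : Fin (N + 1) → Fin (N + 1) → K)
      (Fin.cons (crs G) G' : Fin (N + 1) → Fin (N + 1) → K)).submatrix Fin.succ Fin.succ
      = gram G G' := by
    ext i j
    simp [gram]
  rw [h2, gram_apply, Fin.cons_zero, Fin.cons_zero, lor_crs, ← lor_crs (crs G) G'] at h1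
  have h3 : dt z G * (lor (crs G) (crs G') + (gram G G').det) = 0 := by
    linear_combination h1
  rcases mul_eq_zero.1 h3 with h4 | h4
  · exact absurd h4 hz
  · linear_combination h4

end field

end Pool.Agent.Work.MP_1c91cf_gt

end

section

/-!
# Projections and hyperbolic pairs orthogonal to a nondegenerate tuple
-/

set_option autoImplicit false
set_option linter.unusedSectionVars false

open Matrix

namespace Pool.Agent.Work.MP_1c91cf_gt

section ring

variable {R : Type*} [CommRing R] {k : ℕ}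

lemma dt_swap (u w : Fin (k + 2) → R) (F : Fin k → Fin (k + 2) → R) :
    dt u (Fin.cons w F : Fin (k + 1) → Fin (k + 2) → R)
      = -dt w (Fin.cons u F : Fin (k + 1) → Fin (k + 2) → R) := by
  unfold dt
  have h : (Matrix.of (Fin.cons u (Fin.cons w F : Fin (k + 1) → Fin (k + 2) → R) :
      Fin (k + 2) → Fin (k + 2) → R))
      = (Matrix.of (Fin.cons w (Fin.cons u F : Fin (k + 1) → Fin (k + 2) → R) :
      Fin (k + 2) → Fin (k + 2) → R)).submatrix (Equiv.swap 0 1) id := by
    ext i j
    refine Fin.cases ?_ (fun i' => ?_) i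
    · simp only [Matrix.submatrix_apply, Equiv.swap_apply_left, Matrix.of_apply, id]
      rfl
    · refine Fin.cases ?_ (fun i'' => ?_) i'
      · have : (Fin.succ (0 : Fin (k + 1))) = (1 : Fin (k + 2)) := rfl
        simp only [this, Matrix.submatrix_apply, Equiv.swap_apply_right, Matrix.of_apply, id]
        rfl
      · have h0 : (Fin.succ (Fin.succ i'')) ≠ (0 : Fin (k + 2)) := Fin.succ_ne_zero _
        have h1 : (Fin.succ (Fin.succ i'')) ≠ (1 : Fin (k + 2)) := by
          have : (1 : Fin (k + 2)) = Fin.succ 0 := rfl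
          rw [this]
          exact fun h => Fin.succ_ne_zero _ (Fin.succ_injective _ h)
        simp [Equiv.swap_apply_of_ne_of_ne h0 h1]
  rw [h, Matrix.det_permute]
  simp [Equiv.Perm.sign_swap (show (0 : Fin (k + 2)) ≠ 1 by
    have : (1 : Fin (k + 2)) = Fin.succ 0 := rfl
    rw [this]; exact (Fin.succ_ne_zero _).symm)]

lemma lor_ext (z w : Fin (k + 1) → R) (h : ∀ u, lor u z = lor u w) : z = w := by
  have h1 : z - w = 0 := by
    apply eq_zero_of_lor
    intro u
    rw [lor_comm, lor_sub_right, h, sub_self]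
  exact sub_eq_zero.1 h1

lemma lor_crs_cons (u w : Fin (k + 2) → R) (F : Fin k → Fin (k + 2) → R) :
    lor u (crs (Fin.cons w F : Fin (k + 1) → Fin (k + 2) → R))
      = -lor w (crs (Fin.cons u F : Fin (k + 1) → Fin (k + 2) → R)) := by
  rw [lor_crs, lor_crs, dt_swap]

lemma crs_cons_add (z w : Fin (k + 2) → R) (F : Fin k → Fin (k + 2) → R) :
    crs (Fin.cons (z + w) F : Fin (k + 1) → Fin (k + 2) → R)
      = crs (Fin.cons z F : Fin (k + 1) → Fin (k + 2) → R)
        + crs (Fin.cons w F : Fin (k + 1) → Fin (k + 2) → R) := by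
  apply lor_ext
  intro u
  rw [lor_add_right, lor_crs_cons, lor_crs_cons u z, lor_crs_cons u w, lor_add_left]
  ring

lemma crs_cons_smul (c : R) (w : Fin (k + 2) → R) (F : Fin k → Fin (k + 2) → R) :
    crs (Fin.cons (c • w) F : Fin (k + 1) → Fin (k + 2) → R)
      = c • crs (Fin.cons w F : Fin (k + 1) → Fin (k + 2) → R) := by
  apply lor_ext
  intro u
  rw [lor_smul_right, lor_crs_cons, lor_crs_cons u w, lor_smul_left]
  ring

lemma crs_cons_self (F : Fin k → Fin (k + 2) → R) (a : Fin k) :
    crs (Fin.cons (F a) F : Fin (k + 1) → Fin (k + 2) → R) = 0 := by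
  apply lor_ext
  intro u
  rw [lor_zero_right, lor_crs_cons]
  have := lor_crs_self (Fin.cons u F : Fin (k + 1) → Fin (k + 2) → R) a.succ
  rw [Fin.cons_succ] at this
  rw [this, neg_zero]

/-- `w ↦ crs (w, F)` as a linear map -/
def crsL (F : Fin k → Fin (k + 2) → R) : (Fin (k + 2) → R) →ₗ[R] (Fin (k + 2) → R) where
  toFun w := crs (Fin.cons w F : Fin (k + 1) → Fin (k + 2) → R)
  map_add' z z' := crs_cons_add z z' F
  map_smul' c z := by simp [crs_cons_smul]

lemma crsL_apply (F : Fin k → Fin (k + 2) → R) (w : Fin (k + 2) → R) :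
    crsL F w = crs (Fin.cons w F : Fin (k + 1) → Fin (k + 2) → R) := rfl

lemma lor_crsL (u w : Fin (k + 2) → R) (F : Fin k → Fin (k + 2) → R) :
    lor u (crsL F w) = -lor w (crsL F u) := lor_crs_cons u w F

lemma crsL_self (F : Fin k → Fin (k + 2) → R) (a : Fin k) : crsL F (F a) = 0 :=
  crs_cons_self F a

lemma lor_F_crsL (F : Fin k → Fin (k + 2) → R) (a : Fin k) (w : Fin (k + 2) → R) :
    lor (F a) (crsL F w) = 0 := by
  rw [lor_crsL, crsL_self, lor_zero_right, neg_zero]

lemma lor_self_crsL (F : Fin k → Fin (k + 2) → R) (w : Fin (k + 2) → R) :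
    lor w (crsL F w) = 0 := by
  have := lor_crs_self (Fin.cons w F : Fin (k + 1) → Fin (k + 2) → R) 0
  rwa [Fin.cons_zero] at this

end ring

section field

variable {K : Type*} [Field K] {k n : ℕ}

/-- orthogonal projection to the span of a nondegenerate tuple -/
noncomputable def prj (F : Fin k → Fin (n + 1) → K) (z : Fin (n + 1) → K) : Fin (n + 1) → K :=
  ∑ a, ((gram F F)⁻¹ *ᵥ fun b => lor z (F b)) a • F a

/-- component orthogonal to a nondegenerate tuple -/
noncomputable def perp (F : Fin k → Fin (n + 1) → K) (z : Fin (n + 1) → K) : Fin (n + 1) → K :=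
  z - prj F z

lemma prj_add (F : Fin k → Fin (n + 1) → K) (z w : Fin (n + 1) → K) :
    prj F (z + w) = prj F z + prj F w := by
  simp only [prj, ← Finset.sum_add_distrib, ← add_smul]
  refine Finset.sum_congr rfl fun a _ => ?_
  congr 1
  rw [← Pi.add_apply, ← Matrix.mulVec_add]
  congr 2
  ext b
  simp [lor_add_left]

lemma prj_smul (c : K) (F : Fin k → Fin (n + 1) → K) (z : Fin (n + 1) → K) :
    prj F (c • z) = c • prj F z := by
  simp only [prj, Finset.smul_sum, smul_smul]
  refine Finset.sum_congr rfl fun a _ => ?_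
  congr 1
  have : (fun b => lor (c • z) (F b)) = c • fun b => lor z (F b) := by
    ext b; simp [lor_smul_left]
  rw [this, Matrix.mulVec_smul, Pi.smul_apply, smul_eq_mul]

lemma lor_prj (F : Fin k → Fin (n + 1) → K) (hF : (gram F F).det ≠ 0) (z : Fin (n + 1) → K)
    (b : Fin k) : lor (prj F z) (F b) = lor z (F b) := by
  have hu : IsUnit (gram F F).det := isUnit_iff_ne_zero.2 hF
  simp only [prj, lor_sum_left, lor_smul_left]
  have h1 : (gram F F) *ᵥ ((gram F F)⁻¹ *ᵥ fun b => lor z (F b)) = fun b => lor z (F b) := by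
    rw [Matrix.mulVec_mulVec, Matrix.mul_nonsing_inv _ hu, Matrix.one_mulVec]
  have h2 := congrFun h1 b
  rw [Matrix.mulVec, dotProduct] at h2
  rw [← h2]
  refine Finset.sum_congr rfl fun a _ => ?_
  rw [gram_apply, lor_comm (F b), mul_comm]

lemma lor_perp (F : Fin k → Fin (n + 1) → K) (hF : (gram F F).det ≠ 0) (z : Fin (n + 1) → K)
    (b : Fin k) : lor (perp F z) (F b) = 0 := by
  rw [perp, lor_sub_left, lor_prj F hF, sub_self]

lemma lor_perp_prj (F : Fin k → Fin (n + 1) → K) (hF : (gram F F).det ≠ 0)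
    (z w : Fin (n + 1) → K) : lor (perp F z) (prj F w) = 0 := by
  rw [prj, lor_sum_right]
  refine Finset.sum_eq_zero fun a _ => ?_
  rw [lor_smul_right, lor_perp F hF, mul_zero]

lemma lor_perp_perp (F : Fin k → Fin (n + 1) → K) (hF : (gram F F).det ≠ 0)
    (z w : Fin (n + 1) → K) : lor (perp F z) (perp F w) = lor (perp F z) w := by
  have h : perp F w = w - prj F w := rfl
  rw [h, lor_sub_right, lor_perp_prj F hF, sub_zero]

lemma lor_perp_left (F : Fin k → Fin (n + 1) → K) (hF : (gram F F).det ≠ 0)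
    (z w : Fin (n + 1) → K) : lor (perp F z) w = lor z (perp F w) := by
  rw [← lor_perp_perp F hF, lor_comm, lor_perp_perp F hF, lor_comm]

lemma prj_of_mem (F : Fin k → Fin (n + 1) → K) (hF : (gram F F).det ≠ 0) (a : Fin k) :
    prj F (F a) = F a := by
  have hu : IsUnit (gram F F).det := isUnit_iff_ne_zero.2 hF
  have h1 : (fun b => lor (F a) (F b)) = (gram F F) *ᵥ (Pi.single a 1) := by
    ext b
    rw [Matrix.mulVec_single_one, Matrix.col_apply, gram_apply, lor_comm]
  rw [prj, h1, Matrix.mulVec_mulVec, Matrix.nonsing_inv_mul _ hu, Matrix.one_mulVec]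
  simp [Pi.single_apply]

lemma perp_add (F : Fin k → Fin (n + 1) → K) (z w : Fin (n + 1) → K) :
    perp F (z + w) = perp F z + perp F w := by
  simp only [perp, prj_add]; abel

lemma perp_smul (c : K) (F : Fin k → Fin (n + 1) → K) (z : Fin (n + 1) → K) :
    perp F (c • z) = c • perp F z := by
  simp only [perp, prj_smul, smul_sub]

lemma perp_of_mem (F : Fin k → Fin (n + 1) → K) (hF : (gram F F).det ≠ 0) (a : Fin k) :
    perp F (F a) = 0 := by
  rw [perp, prj_of_mem F hF, sub_self]

/-- Schur complement formula for Gram determinants. -/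
lemma det_gram_cons_eq (F : Fin k → Fin (n + 1) → K) (hF : (gram F F).det ≠ 0)
    (z w : Fin (n + 1) → K) :
    (gram (Fin.cons z F : Fin (k + 1) → Fin (n + 1) → K)
      (Fin.cons w F : Fin (k + 1) → Fin (n + 1) → K)).det
      = (gram F F).det * lor (perp F z) (perp F w) := by
  -- linear functional
  have hupd : ∀ u : Fin (n + 1) → K, gram (Fin.cons u F : Fin (k + 1) → Fin (n + 1) → K)
      (Fin.cons w F : Fin (k + 1) → Fin (n + 1) → K) =
      (gram (Fin.cons 0 F : Fin (k + 1) → Fin (n + 1) → K)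
      (Fin.cons w F : Fin (k + 1) → Fin (n + 1) → K)).updateRow 0
        (fun j => lor u ((Fin.cons w F : Fin (k + 1) → Fin (n + 1) → K) j)) := by
    intro u
    ext i j
    refine Fin.cases ?_ (fun i' => ?_) i
    · simp [gram_apply]
    · simp [gram_apply, Matrix.updateRow_apply, Fin.succ_ne_zero]
  let L : (Fin (n + 1) → K) →ₗ[K] K :=
    { toFun := fun u => (gram (Fin.cons u F : Fin (k + 1) → Fin (n + 1) → K)
        (Fin.cons w F : Fin (k + 1) → Fin (n + 1) → K)).det
      map_add' := by
        intro u u'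
        rw [hupd (u + u'), hupd u, hupd u', ← Matrix.det_updateRow_add]
        congr 2
        ext j
        simp [lor_add_left]
      map_smul' := by
        intro c u
        rw [hupd (c • u), hupd u]
        simp only [RingHom.id_apply, smul_eq_mul]
        rw [← Matrix.det_updateRow_smul]
        congr 2
        ext j
        simp [lor_smul_left] }
  have hL : ∀ u, L u = (gram (Fin.cons u F : Fin (k + 1) → Fin (n + 1) → K)
        (Fin.cons w F : Fin (k + 1) → Fin (n + 1) → K)).det := fun _ => rfl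
  have h0 : ∀ a, L (F a) = 0 := by
    intro a
    rw [hL]
    refine Matrix.det_zero_of_row_eq (i := 0) (j := a.succ) (Fin.succ_ne_zero a).symm ?_
    ext j
    simp [gram_apply]
  have h1 : L (prj F z) = 0 := by
    rw [prj, map_sum]
    refine Finset.sum_eq_zero fun a _ => ?_
    rw [map_smul, h0, smul_zero]
  have h2 : L z = L (perp F z) := by
    rw [perp, map_sub, h1, sub_zero]
  rw [← hL, h2, hL, det_row_zero _ (by
    intro j
    rw [gram_apply, Fin.cons_zero, Fin.cons_succ, lor_perp F hF])]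
  rw [gram_apply, Fin.cons_zero, Fin.cons_zero, lor_perp_perp F hF, mul_comm]
  congr 1

/-- Decomposition of a vector along a hyperbolic pair orthogonal to `F`. -/
structure HypPair (F : Fin k → Fin (k + 2) → K) (D I : K) (ep em : Fin (k + 2) → K) : Prop where
  pp : lor ep ep = 0
  mm : lor em em = 0
  pm : lor ep em = 2
  pF : ∀ a, lor ep (F a) = 0
  mF : ∀ a, lor em (F a) = 0
  crsp : crsL F ep = -(I * D) • ep
  crsm : crsL F em = (I * D) • em

/-- A vector orthogonal to `F` is its own perpendicular component. -/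
lemma perp_of_orth (F : Fin k → Fin (n + 1) → K) (z : Fin (n + 1) → K)
    (hz : ∀ a, lor z (F a) = 0) : perp F z = z := by
  have : (fun b => lor z (F b)) = 0 := by ext b; exact hz b
  simp [perp, prj, this]

lemma lor_prj_prj (F : Fin k → Fin (n + 1) → K) (hF : (gram F F).det ≠ 0)
    (z w : Fin (n + 1) → K) : lor (prj F z) (prj F w) =
      ∑ a, ∑ b, (gram F F)⁻¹ a b * lor z (F a) * lor w (F b) := by
  have h1 : lor (prj F z) (prj F w) = lor z (prj F w) := by
    have h := lor_perp_prj F hF z w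
    rw [perp, lor_sub_left] at h
    exact (sub_eq_zero.1 h).symm
  rw [h1, prj, lor_sum_right]
  refine Finset.sum_congr rfl fun a _ => ?_
  rw [lor_smul_right, Matrix.mulVec, dotProduct, Finset.sum_mul]
  refine Finset.sum_congr rfl fun b _ => ?_
  ring

lemma mem_span_perp (F : Fin k → Fin (n + 1) → K) (hF : (gram F F).det ≠ 0)
    (z : Fin (n + 1) → K) (hz : z ∈ Submodule.span K (Set.range F)) : perp F z = 0 := by
  induction hz using Submodule.span_induction with
  | mem x hx => obtain ⟨i, rfl⟩ := hx; exact perp_of_mem F hF i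
  | zero => simpa using perp_smul (0 : K) F 0
  | add x y _ _ hx hy => rw [perp_add, hx, hy, add_zero]
  | smul a x _ hx => rw [perp_smul, hx, smul_zero]

lemma prj_mem_span (F : Fin k → Fin (n + 1) → K) (z : Fin (n + 1) → K) :
    prj F z ∈ Submodule.span K (Set.range F) :=
  Submodule.sum_mem _ fun a _ => Submodule.smul_mem _ _ (Submodule.subset_span ⟨a, rfl⟩)

lemma crsL_span (F : Fin k → Fin (k + 2) → K) (z : Fin (k + 2) → K)
    (hz : z ∈ Submodule.span K (Set.range F)) : crsL F z = 0 := by
  induction hz using Submodule.span_induction with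
  | mem x hx => obtain ⟨i, rfl⟩ := hx; exact crsL_self F i
  | zero => simp
  | add x y _ _ hx hy => rw [map_add, hx, hy, add_zero]
  | smul a x _ hx => rw [map_smul, hx, smul_zero]

lemma crsL_perp (F : Fin k → Fin (k + 2) → K) (z : Fin (k + 2) → K) :
    crsL F (perp F z) = crsL F z := by
  rw [perp, map_sub, crsL_span F _ (prj_mem_span F z), sub_zero]

lemma perp_crsL (F : Fin k → Fin (k + 2) → K) (z : Fin (k + 2) → K) :
    perp F (crsL F z) = crsL F z :=
  perp_of_orth F _ fun a => by rw [lor_comm, lor_F_crsL]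

lemma lor_crsL_crsL (F : Fin k → Fin (k + 2) → K) (hF : (gram F F).det ≠ 0)
    (z w : Fin (k + 2) → K) :
    lor (crsL F z) (crsL F w) = -((gram F F).det * lor (perp F z) (perp F w)) := by
  by_cases h : LinearIndependent K (Fin.cons z F : Fin (k + 1) → Fin (k + 2) → K)
  · rw [crsL_apply, crsL_apply, lor_crs_crs _ _ h, det_gram_cons_eq F hF]
  · have hli := linearIndependent_of_det_gram F hF
    rw [linearIndependent_finCons, not_and, not_not] at h
    have hz := h hli
    rw [crsL_span F z hz, mem_span_perp F hF z hz, lor_zero_left, lor_zero_left]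
    ring

lemma crsL_crsL (F : Fin k → Fin (k + 2) → K) (hF : (gram F F).det ≠ 0)
    (z : Fin (k + 2) → K) : crsL F (crsL F z) = (gram F F).det • perp F z := by
  apply lor_ext
  intro u
  rw [lor_crsL, lor_crsL_crsL F hF, lor_smul_right, lor_perp_left F hF, lor_comm u,
    lor_perp_left F hF z u]
  have : perp F (perp F u) = perp F u := perp_of_orth F _ (lor_perp F hF u)
  rw [this]
  ring

/-- The isotropic vector attached to `z`. -/
noncomputable def iso (F : Fin k → Fin (k + 2) → K) (c : K) (z : Fin (k + 2) → K) :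
    Fin (k + 2) → K := perp F z + c • crsL F z

lemma lor_iso_iso (F : Fin k → Fin (k + 2) → K) (hF : (gram F F).det ≠ 0) {c : K}
    (hc : c ^ 2 * (gram F F).det = 1) (z w : Fin (k + 2) → K) :
    lor (iso F c z) (iso F c w) = 0 := by
  simp only [iso, lor_add_left, lor_add_right, lor_smul_left, lor_smul_right]
  rw [lor_crsL_crsL F hF, lor_perp_left F hF z (crsL F w), perp_crsL, lor_comm (crsL F z),
    lor_perp_left F hF w (crsL F z), perp_crsL, lor_crsL z w]
  linear_combination (-lor (perp F z) (perp F w)) * hc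

lemma lor_iso_iso' (F : Fin k → Fin (k + 2) → K) (hF : (gram F F).det ≠ 0) {c : K}
    (hc : c ^ 2 * (gram F F).det = 1) (z w : Fin (k + 2) → K) :
    lor (iso F c z) (iso F (-c) w) = 2 * lor (perp F z) (perp F w) - 2 * c * lor z (crsL F w) := by
  simp only [iso, lor_add_left, lor_add_right, lor_smul_left, lor_smul_right]
  rw [lor_crsL_crsL F hF, lor_perp_left F hF z (crsL F w), perp_crsL, lor_comm (crsL F z),
    lor_perp_left F hF w (crsL F z), perp_crsL, lor_crsL w z]
  linear_combination (lor (perp F z) (perp F w)) * hc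

lemma lor_iso_F (F : Fin k → Fin (k + 2) → K) (hF : (gram F F).det ≠ 0) (c : K)
    (z : Fin (k + 2) → K) (a : Fin k) : lor (iso F c z) (F a) = 0 := by
  rw [iso, lor_add_left, lor_smul_left, lor_perp F hF, lor_comm (crsL F z), lor_F_crsL]
  ring

lemma crsL_iso (F : Fin k → Fin (k + 2) → K) (hF : (gram F F).det ≠ 0) {c : K}
    (hc : c ^ 2 * (gram F F).det = 1) (z : Fin (k + 2) → K) :
    crsL F (iso F c z) = (c * (gram F F).det) • iso F c z := by
  rw [iso, map_add, map_smul, crsL_perp, crsL_crsL F hF, smul_add, smul_smul, smul_smul,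
    add_comm (crsL F z)]
  congr 1
  rw [show c * (gram F F).det * c = c ^ 2 * (gram F F).det by ring, hc, one_smul]

/-- Construction of hyperbolic pairs. -/
lemma hypPair_iso (F : Fin k → Fin (k + 2) → K) (hF : (gram F F).det ≠ 0) {D I : K}
    (hI : I ^ 2 = -1) (hD : D ^ 2 = -(gram F F).det) (z : Fin (k + 2) → K)
    (hz : lor (perp F z) (perp F z) ≠ 0) :
    HypPair F D I (iso F (I / D) z)
      ((lor (perp F z) (perp F z))⁻¹ • iso F (-(I / D)) z) := by
  have hD0 : D ≠ 0 := by
    rintro rfl
    apply hF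
    rw [zero_pow two_ne_zero] at hD
    linear_combination hD
  have hc : (I / D) ^ 2 * (gram F F).det = 1 := by
    rw [div_pow, hI]
    field_simp
    linear_combination -hD
  have hc' : (-(I / D)) ^ 2 * (gram F F).det = 1 := by rw [neg_sq, hc]
  have hcd : (I / D) * (gram F F).det = -(I * D) := by
    field_simp
    linear_combination I * hD
  refine ⟨lor_iso_iso F hF hc _ _, ?_, ?_, lor_iso_F F hF _ _, ?_, ?_, ?_⟩
  · rw [lor_smul_left, lor_smul_right, lor_iso_iso F hF hc']
    ring
  · rw [lor_smul_right, lor_iso_iso' F hF hc, lor_self_crsL]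
    field_simp
    ring
  · intro a
    rw [lor_smul_left, lor_iso_F F hF]
    ring
  · rw [crsL_iso F hF hc, hcd]
  · rw [map_smul, crsL_iso F hF hc', smul_comm, neg_mul, hcd, neg_neg]

variable {F : Fin k → Fin (k + 2) → K} {D I : K} {ep em : Fin (k + 2) → K}

lemma HypPair.linearIndependent (h : HypPair F D I ep em) (hF : (gram F F).det ≠ 0)
    (h2 : (2 : K) ≠ 0) : LinearIndependent K
      (Fin.cons ep (Fin.cons em F : Fin (k + 1) → Fin (k + 2) → K) :
        Fin (k + 2) → Fin (k + 2) → K) := by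
  have hli := linearIndependent_of_det_gram F hF
  have hspan : ∀ z ∈ Submodule.span K (Set.range F), lor z ep = 0 ∧ lor z em = 0 := by
    intro z hz
    induction hz using Submodule.span_induction with
    | mem x hx =>
      obtain ⟨i, rfl⟩ := hx
      exact ⟨by rw [lor_comm]; exact h.pF i, by rw [lor_comm]; exact h.mF i⟩
    | zero => exact ⟨lor_zero_left _, lor_zero_left _⟩
    | add x y _ _ hx hy =>
      exact ⟨by rw [lor_add_left, hx.1, hy.1, add_zero], by rw [lor_add_left, hx.2, hy.2, add_zero]⟩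
    | smul a x _ hx =>
      exact ⟨by rw [lor_smul_left, hx.1, mul_zero], by rw [lor_smul_left, hx.2, mul_zero]⟩
  rw [linearIndependent_finCons, linearIndependent_finCons]
  refine ⟨⟨hli, fun hem => ?_⟩, fun hep => ?_⟩
  · have := (hspan em hem).1
    rw [lor_comm, h.pm] at this
    exact h2 this
  · have hspan' : ∀ z ∈ Submodule.span K
        (Set.range (Fin.cons em F : Fin (k + 1) → Fin (k + 2) → K)), lor z em = 0 := by
      intro z hz
      induction hz using Submodule.span_induction with
      | mem x hx =>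
        obtain ⟨i, rfl⟩ := hx
        refine Fin.cases ?_ (fun i' => ?_) i
        · rw [Fin.cons_zero]; exact h.mm
        · rw [Fin.cons_succ, lor_comm]; exact h.mF i'
      | zero => exact lor_zero_left _
      | add x y _ _ hx hy => rw [lor_add_left, hx, hy, add_zero]
      | smul a x _ hx => rw [lor_smul_left, hx, mul_zero]
    have := hspan' ep hep
    rw [h.pm] at this
    exact h2 this

lemma HypPair.decomp (h : HypPair F D I ep em) (hF : (gram F F).det ≠ 0)
    (h2 : (2 : K) ≠ 0) (z : Fin (k + 2) → K) :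
    z = prj F z + (1 / 2 : K) • (lor z em • ep + lor z ep • em) := by
  have hdet := det_ne_zero_of_linearIndependent _ (h.linearIndependent hF h2)
  have hprj : ∀ w : Fin (k + 2) → K, (∀ a, lor w (F a) = 0) → lor (prj F z) w = 0 := by
    intro w hw
    rw [prj, lor_sum_left]
    refine Finset.sum_eq_zero fun a _ => ?_
    rw [lor_smul_left, lor_comm, hw, mul_zero]
  have := eq_zero_of_orth_basis _ hdet
    (z - (prj F z + (1 / 2 : K) • (lor z em • ep + lor z ep • em))) ?_
  · exact sub_eq_zero.1 this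
  intro i
  refine Fin.cases ?_ (fun i' => ?_) i
  · rw [Fin.cons_zero, lor_sub_left, lor_add_left, lor_smul_left, lor_add_left, lor_smul_left,
      lor_smul_left, hprj ep h.pF, h.pp, lor_comm em ep, h.pm]
    field_simp
    ring
  refine Fin.cases ?_ (fun a => ?_) i'
  · rw [Fin.cons_succ, Fin.cons_zero, lor_sub_left, lor_add_left, lor_smul_left, lor_add_left,
      lor_smul_left, lor_smul_left, hprj em h.mF, h.mm, h.pm]
    field_simp
    ring
  · rw [Fin.cons_succ, Fin.cons_succ, lor_sub_left, lor_add_left, lor_smul_left, lor_add_left,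
      lor_smul_left, lor_smul_left, lor_prj F hF, h.pF, h.mF]
    ring

lemma HypPair.lor_eq (h : HypPair F D I ep em) (hF : (gram F F).det ≠ 0)
    (h2 : (2 : K) ≠ 0) (z w : Fin (k + 2) → K) :
    lor z w = lor (prj F z) (prj F w) + (1 / 2 : K) * (lor z em * lor w ep + lor z ep * lor w em) := by
  have hprj : ∀ z w : Fin (k + 2) → K, (∀ a, lor w (F a) = 0) → lor (prj F z) w = 0 := by
    intro z w hw
    rw [prj, lor_sum_left]
    refine Finset.sum_eq_zero fun a _ => ?_
    rw [lor_smul_left, lor_comm, hw, mul_zero]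
  conv_lhs => rw [h.decomp hF h2 z, h.decomp hF h2 w]
  simp only [lor_add_left, lor_add_right, lor_smul_left, lor_smul_right]
  rw [hprj z ep h.pF, hprj z em h.mF, lor_comm ep (prj F w), lor_comm em (prj F w),
    hprj w ep h.pF, hprj w em h.mF, h.pp, h.mm, lor_comm em ep, h.pm]
  field_simp
  ring

/-- An isotropic vector orthogonal to `F` lies on one of the two isotropic lines. -/
lemma HypPair.isotropic (h : HypPair F D I ep em) (hF : (gram F F).det ≠ 0)
    (h2 : (2 : K) ≠ 0) (x : Fin (k + 2) → K) (hx : lor x x = 0) (hxF : ∀ a, lor x (F a) = 0) :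
    x = ((1 / 2 : K) * lor x em) • ep ∨ x = ((1 / 2 : K) * lor x ep) • em := by
  have h0 : prj F x = 0 := by
    have : (fun b => lor x (F b)) = 0 := by ext b; exact hxF b
    simp [prj, this]
  have h1 := h.lor_eq hF h2 x x
  rw [hx, h0, lor_zero_left] at h1
  have h3 : lor x em * lor x ep = 0 := by
    apply mul_left_cancel₀ h2
    field_simp at h1
    linear_combination -h1
  have hdec := h.decomp hF h2 x
  rw [h0, zero_add, smul_add, smul_smul, smul_smul] at hdec
  rcases mul_eq_zero.1 h3 with h4 | h4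
  · right
    rw [h4, mul_zero, zero_smul, zero_add] at hdec
    exact hdec
  · left
    rw [h4, mul_zero, zero_smul, add_zero] at hdec
    exact hdec

end field

end Pool.Agent.Work.MP_1c91cf_gt

end

section

/-!
# Discrete places and self-dual norms
-/

set_option autoImplicit false
set_option linter.unusedSectionVars false

open Matrix

namespace Pool.Agent.Work.MP_1c91cf_gt

/-- A discrete place of a field containing the complex numbers, trivial on the constants. -/
structure Place (L κ : Type*) [Field L] [Field κ] [Algebra ℂ L] [Algebra ℂ κ] where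
  o : L → WithTop ℤ
  o_top : ∀ x, o x = ⊤ ↔ x = 0
  o_mul : ∀ x y, o (x * y) = o x + o y
  o_add : ∀ x y, min (o x) (o y) ≤ o (x + y)
  o_const : ∀ c : ℂ, c ≠ 0 → o (algebraMap ℂ L c) = 0
  unif : ∃ p, o p = ((1 : ℤ) : WithTop ℤ)
  red : L → κ
  red_add : ∀ x y, 0 ≤ o x → 0 ≤ o y → red (x + y) = red x + red y
  red_mul : ∀ x y, 0 ≤ o x → 0 ≤ o y → red (x * y) = red x * red y
  red_const : ∀ c : ℂ, red (algebraMap ℂ L c) = algebraMap ℂ κ c
  red_zero : ∀ x, 0 ≤ o x → (red x = 0 ↔ ((1 : ℤ) : WithTop ℤ) ≤ o x)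

section wt

/-- thresholds determine the order -/
lemma wt_le {x y : WithTop ℤ} (h : ∀ m : ℤ, (m : WithTop ℤ) ≤ x → (m : WithTop ℤ) ≤ y) : x ≤ y := by
  induction x using WithTop.recTopCoe with
  | top =>
    induction y using WithTop.recTopCoe with
    | top => exact le_rfl
    | coe b =>
      have := h (b + 1) le_top
      rw [WithTop.coe_le_coe] at this
      omega
  | coe a => exact h a le_rfl

lemma wt_add {x y : WithTop ℤ} {a b : ℤ} (hx : (a : WithTop ℤ) ≤ x) (hy : (b : WithTop ℤ) ≤ y) :
    ((a + b : ℤ) : WithTop ℤ) ≤ x + y := by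
  rw [WithTop.coe_add]; exact add_le_add hx hy

lemma wt_sub {x : WithTop ℤ} {a b : ℤ} : ((a : ℤ) : WithTop ℤ) ≤ (b : WithTop ℤ) + x ↔
    ((a - b : ℤ) : WithTop ℤ) ≤ x := by
  induction x using WithTop.recTopCoe with
  | top => simp
  | coe c =>
    rw [← WithTop.coe_add, WithTop.coe_le_coe, WithTop.coe_le_coe]
    omega

lemma wt_mono {x : WithTop ℤ} {a b : ℤ} (hab : b ≤ a) (hx : (a : WithTop ℤ) ≤ x) :
    (b : WithTop ℤ) ≤ x := le_trans (WithTop.coe_le_coe.2 hab) hx

lemma wt_eq_of {x : WithTop ℤ} {a : ℤ} (h1 : (a : WithTop ℤ) ≤ x)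
    (h2 : ¬ ((a + 1 : ℤ) : WithTop ℤ) ≤ x) : x = a := by
  induction x using WithTop.recTopCoe with
  | top => exact absurd le_top h2
  | coe c =>
    rw [WithTop.coe_le_coe] at h1 h2
    congr 1
    omega

lemma wt_not_le {a b : ℤ} (h : a < b) : ¬ ((b : ℤ) : WithTop ℤ) ≤ (a : WithTop ℤ) := by
  rw [WithTop.coe_le_coe]; omega

end wt

section place

variable {L κ : Type*} [Field L] [Field κ] [Algebra ℂ L] [Algebra ℂ κ] (P : Place L κ)

/-- embedding of the reals -/
noncomputable def rl {A : Type*} [Semiring A] [Algebra ℂ A] : ℝ →+* A :=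
  (algebraMap ℂ A).comp Complex.ofRealHom

lemma rl_apply {A : Type*} [Semiring A] [Algebra ℂ A] (r : ℝ) :
    (rl r : A) = algebraMap ℂ A (r : ℂ) := rfl

lemma two_ne' {A : Type*} [Field A] [Algebra ℂ A] : (2 : A) ≠ 0 := by
  intro h
  have h1 : algebraMap ℂ A 2 = 0 := by rw [map_ofNat]; exact h
  rw [map_eq_zero] at h1
  exact two_ne_zero h1

namespace Place

lemma o_zero : P.o 0 = ⊤ := (P.o_top 0).2 rfl

lemma o_one : P.o 1 = 0 := by
  have := P.o_const 1 one_ne_zero
  rwa [map_one] at this

lemma o_neg (x : L) : P.o (-x) = P.o x := by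
  have h : P.o (-1 : L) = 0 := by
    have := P.o_const (-1) (by norm_num)
    rwa [map_neg, map_one] at this
  rw [← neg_one_mul, P.o_mul, h, zero_add]

lemma o_const_ge (c : ℂ) : (0 : WithTop ℤ) ≤ P.o (algebraMap ℂ L c) := by
  by_cases hc : c = 0
  · rw [hc, map_zero, P.o_zero]; exact le_top
  · rw [P.o_const c hc]

lemma o_real_ge (r : ℝ) : ((0 : ℤ) : WithTop ℤ) ≤ P.o (rl r : L) := P.o_const_ge _

lemma o_real (r : ℝ) (h : r ≠ 0) : P.o (rl r : L) = ((0 : ℤ) : WithTop ℤ) :=
  P.o_const _ (by simpa using h)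

lemma o_two : P.o (2 : L) = ((0 : ℤ) : WithTop ℤ) := by
  have := P.o_real 2 two_ne_zero
  rwa [map_ofNat] at this

lemma o_half : P.o (1 / 2 : L) = ((0 : ℤ) : WithTop ℤ) := by
  have := P.o_real (1 / 2) (by norm_num)
  rwa [map_div₀, map_one, map_ofNat] at this

lemma ge_add {m : ℤ} {x y : L} (hx : (m : WithTop ℤ) ≤ P.o x) (hy : (m : WithTop ℤ) ≤ P.o y) :
    (m : WithTop ℤ) ≤ P.o (x + y) := le_trans (le_min hx hy) (P.o_add x y)

lemma ge_neg {m : ℤ} {x : L} (hx : (m : WithTop ℤ) ≤ P.o x) : (m : WithTop ℤ) ≤ P.o (-x) := by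
  rwa [P.o_neg]

lemma ge_sub {m : ℤ} {x y : L} (hx : (m : WithTop ℤ) ≤ P.o x) (hy : (m : WithTop ℤ) ≤ P.o y) :
    (m : WithTop ℤ) ≤ P.o (x - y) := by
  rw [sub_eq_add_neg]; exact P.ge_add hx (P.ge_neg hy)

lemma ge_mul {m m' : ℤ} {x y : L} (hx : (m : WithTop ℤ) ≤ P.o x) (hy : (m' : WithTop ℤ) ≤ P.o y) :
    ((m + m' : ℤ) : WithTop ℤ) ≤ P.o (x * y) := by
  rw [P.o_mul]; exact wt_add hx hy

lemma ge_zero {m : ℤ} : (m : WithTop ℤ) ≤ P.o 0 := by rw [P.o_zero]; exact le_top

lemma ge_sum {ι : Type*} {m : ℤ} (s : Finset ι) (f : ι → L)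
    (h : ∀ a ∈ s, (m : WithTop ℤ) ≤ P.o (f a)) : (m : WithTop ℤ) ≤ P.o (∑ a ∈ s, f a) := by
  classical
  induction s using Finset.induction_on with
  | empty => rw [Finset.sum_empty]; exact P.ge_zero
  | insert a s ha ih =>
    rw [Finset.sum_insert ha]
    exact P.ge_add (h a (Finset.mem_insert_self _ _))
      (ih fun b hb => h b (Finset.mem_insert_of_mem hb))

lemma exists_int {x : L} (hx : x ≠ 0) : ∃ k : ℤ, P.o x = k := by
  have h : P.o x ≠ ⊤ := fun h => hx ((P.o_top x).1 h)
  obtain ⟨k, hk⟩ := WithTop.ne_top_iff_exists.1 h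
  exact ⟨k, hk.symm⟩

lemma o_inv {x : L} {k : ℤ} (h : P.o x = k) : P.o x⁻¹ = ((-k : ℤ) : WithTop ℤ) := by
  have hx : x ≠ 0 := by
    rintro rfl
    rw [P.o_zero] at h
    exact WithTop.top_ne_coe h
  obtain ⟨l, hl⟩ := P.exists_int (inv_ne_zero hx)
  have h1 := P.o_mul x x⁻¹
  rw [mul_inv_cancel₀ hx, P.o_one, h, hl, ← WithTop.coe_add, ← WithTop.coe_zero,
    WithTop.coe_inj] at h1
  rw [hl]
  congr 1
  omega

/-- elements of every order -/
lemma exists_o (k : ℤ) : ∃ x : L, P.o x = k := by
  obtain ⟨p, hp⟩ := P.unif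
  have hnat : ∀ n : ℕ, ∃ x : L, P.o x = ((n : ℤ) : WithTop ℤ) := by
    intro n
    induction n with
    | zero => exact ⟨1, P.o_one⟩
    | succ n ih =>
      obtain ⟨x, hx⟩ := ih
      refine ⟨x * p, ?_⟩
      rw [P.o_mul, hx, hp, ← WithTop.coe_add]
      congr 1
  rcases le_total 0 k with h | h
  · obtain ⟨n, rfl⟩ := Int.eq_ofNat_of_zero_le h
    exact hnat n
  · obtain ⟨n, hn⟩ := Int.eq_ofNat_of_zero_le (neg_nonneg.2 h)
    obtain ⟨x, hx⟩ := hnat n
    refine ⟨x⁻¹, ?_⟩
    rw [P.o_inv hx]
    congr 1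
    omega

/-- half of the order of a square -/
lemma ge_of_sq {x : L} {m : ℤ} (h : ((2 * m : ℤ) : WithTop ℤ) ≤ P.o (x * x)) :
    (m : WithTop ℤ) ≤ P.o x := by
  by_cases hx : x = 0
  · rw [hx]; exact P.ge_zero
  obtain ⟨k, hk⟩ := P.exists_int hx
  rw [P.o_mul, hk, ← WithTop.coe_add, WithTop.coe_le_coe] at h
  rw [hk, WithTop.coe_le_coe]
  omega

lemma red_zero' : P.red 0 = 0 := by
  have := P.red_const 0
  rwa [map_zero, map_zero] at this

lemma red_real (r : ℝ) : P.red (rl r : L) = rl r := P.red_const _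

lemma red_sum {ι : Type*} (s : Finset ι) (f : ι → L) (h : ∀ a ∈ s, 0 ≤ P.o (f a)) :
    P.red (∑ a ∈ s, f a) = ∑ a ∈ s, P.red (f a) := by
  classical
  induction s using Finset.induction_on with
  | empty => simp [P.red_zero']
  | insert a s ha ih =>
    rw [Finset.sum_insert ha, Finset.sum_insert ha, P.red_add, ih]
    · exact fun b hb => h b (Finset.mem_insert_of_mem hb)
    · exact h a (Finset.mem_insert_self _ _)
    · exact P.ge_sum (m := 0) s f fun b hb => h b (Finset.mem_insert_of_mem hb)

lemma red_neg {x : L} (hx : 0 ≤ P.o x) : P.red (-x) = -P.red x := by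
  have h := P.red_add x (-x) hx (by rwa [P.o_neg])
  rw [add_neg_cancel, P.red_zero'] at h
  linear_combination -h

lemma red_eq_zero {x : L} (hx : ((1 : ℤ) : WithTop ℤ) ≤ P.o x) : P.red x = 0 :=
  (P.red_zero x (wt_mono (by norm_num) hx)).2 hx

lemma red_prod {ι : Type*} (s : Finset ι) (f : ι → L) (h : ∀ a ∈ s, 0 ≤ P.o (f a)) :
    P.red (∏ a ∈ s, f a) = ∏ a ∈ s, P.red (f a) ∧ 0 ≤ P.o (∏ a ∈ s, f a) := by
  classical
  induction s using Finset.induction_on with
  | empty =>
    refine ⟨?_, ?_⟩
    · have := P.red_const 1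
      rw [map_one, map_one] at this
      simpa using this
    · rw [Finset.prod_empty, P.o_one]
  | insert a s ha ih =>
    obtain ⟨h1, h2⟩ := ih fun b hb => h b (Finset.mem_insert_of_mem hb)
    have h3 := h a (Finset.mem_insert_self _ _)
    rw [Finset.prod_insert ha, Finset.prod_insert ha, P.red_mul _ _ h3 h2, h1]
    exact ⟨rfl, P.ge_mul (m := 0) (m' := 0) h3 h2⟩

lemma red_det {k : ℕ} (M : Matrix (Fin k) (Fin k) L) (h : ∀ i j, 0 ≤ P.o (M i j)) :
    P.red M.det = (M.map P.red).det := by
  rw [Matrix.det_apply, Matrix.det_apply]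
  have hz : ∀ (s : ℤˣ) (x : L), 0 ≤ P.o x → 0 ≤ P.o (s • x) ∧ P.red (s • x) = s • P.red x := by
    intro s x hx
    rcases Int.units_eq_one_or s with rfl | rfl
    · exact ⟨by simpa using hx, by simp⟩
    · refine ⟨by simpa [P.o_neg] using hx, ?_⟩
      simp [P.red_neg hx]
  rw [P.red_sum]
  · refine Finset.sum_congr rfl fun σ _ => ?_
    obtain ⟨h1, h2⟩ := P.red_prod Finset.univ (fun i => M (σ i) i) fun i _ => h _ _
    rw [(hz _ _ h2).2, h1]
    rfl
  · intro σ _
    exact (hz _ _ (P.red_prod Finset.univ (fun i => M (σ i) i) fun i _ => h _ _).2).1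

end Place

end place

end Pool.Agent.Work.MP_1c91cf_gt

end

section

/-!
# Countability of argument sums on an algebraic set
-/

set_option autoImplicit false
set_option linter.unusedSectionVars false

open Matrix

namespace Pool.Agent.Work.MP_1c91cf_gt

section place

variable {L : Type} [Field L] (v : Valuation L (WithZero (Multiplicative ℤ)))

open Classical in
/-- the additive valuation -/
noncomputable def addV (x : L) : WithTop ℤ :=
  if x = 0 then ⊤ else ((-(WithZero.log (v x)) : ℤ) : WithTop ℤ)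

lemma addV_zero : addV v 0 = ⊤ := if_pos rfl

lemma addV_ne {x : L} (hx : x ≠ 0) : addV v x = ((-(WithZero.log (v x)) : ℤ) : WithTop ℤ) :=
  if_neg hx

lemma le_addV (x : L) (m : ℤ) : ((m : ℤ) : WithTop ℤ) ≤ addV v x ↔ v x ≤ WithZero.exp (-m) := by
  by_cases hx : x = 0
  · rw [hx, addV_zero, map_zero]
    exact ⟨fun _ => zero_le, fun _ => le_top⟩
  · rw [addV_ne v hx, WithTop.coe_le_coe, ← WithZero.log_le_iff_le_exp (v.ne_zero_iff.2 hx)]
    omega

lemma zero_le_addV (x : L) : 0 ≤ addV v x ↔ v x ≤ 1 := by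
  have := le_addV v x 0
  rw [neg_zero, WithZero.exp_zero] at this
  exact this

lemma one_le_addV (x : L) : ((1 : ℤ) : WithTop ℤ) ≤ addV v x ↔ v x < 1 := by
  by_cases hx : x = 0
  · rw [hx, addV_zero, map_zero]
    exact ⟨fun _ => zero_lt_one, fun _ => le_top⟩
  · rw [addV_ne v hx, WithTop.coe_le_coe]
    have h1 := WithZero.log_lt_log (v.ne_zero_iff.2 hx)
      (one_ne_zero : (1 : WithZero (Multiplicative ℤ)) ≠ 0)
    rw [WithZero.log_one] at h1
    rw [← h1]
    omega

lemma residue_zero_iff (x : v.valuationSubring) :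
    IsLocalRing.residue v.valuationSubring x = 0 ↔ v x < 1 := by
  rw [IsLocalRing.residue_eq_zero_iff, ValuationSubring.valuation_lt_one_iff]
  exact (Valuation.isEquiv_valuation_valuationSubring v).symm.lt_one_iff_lt_one

open Classical in
/-- reduction -/
noncomputable def redV (x : L) : IsLocalRing.ResidueField v.valuationSubring :=
  if h : v x ≤ 1 then IsLocalRing.residue v.valuationSubring ⟨x, h⟩ else 0

lemma redV_of_le {x : L} (h : v x ≤ 1) :
    redV v x = IsLocalRing.residue v.valuationSubring ⟨x, h⟩ := dif_pos h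

/-- A discrete valuation gives a place. -/
theorem exists_place [Algebra ℂ L] (hc : ∀ c : ℂ, c ≠ 0 → v (algebraMap ℂ L c) = 1)
    (hu : ∃ p : L, v p = WithZero.exp (-1 : ℤ)) :
    ∃ (κ : Type) (_ : Field κ) (_ : Algebra ℂ κ) (P : Place L κ),
      ∀ x : L, x ≠ 0 → P.o x = ((-(WithZero.log (v x)) : ℤ) : WithTop ℤ) := by
  classical
  have hc1 : ∀ c : ℂ, v (algebraMap ℂ L c) ≤ 1 := by
    intro c
    by_cases h : c = 0
    · rw [h, map_zero, map_zero]; exact zero_le
    · exact (hc c h).le
  let f : ℂ →+* v.valuationSubring :=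
    (algebraMap ℂ L).codRestrict v.valuationSubring.toSubring hc1
  have hf : ∀ c, f c = ⟨algebraMap ℂ L c, hc1 c⟩ := fun c => rfl
  let inst : Algebra ℂ (IsLocalRing.ResidueField v.valuationSubring) :=
    ((IsLocalRing.residue v.valuationSubring).comp f).toAlgebra
  refine ⟨IsLocalRing.ResidueField v.valuationSubring, inferInstance, inst,
    { o := addV v
      o_top := fun x => ?_
      o_mul := fun x y => ?_
      o_add := fun x y => ?_
      o_const := fun c h => ?_
      unif := ?_
      red := redV v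
      red_add := fun x y hx hy => ?_
      red_mul := fun x y hx hy => ?_
      red_const := fun c => ?_
      red_zero := fun x hx => ?_ }, fun x hx => addV_ne v hx⟩
  · by_cases h : x = 0
    · simp [h, addV_zero]
    · rw [addV_ne v h]
      exact ⟨fun h' => absurd h' (WithTop.coe_ne_top), fun h' => absurd h' h⟩
  · by_cases hx : x = 0
    · rw [hx, zero_mul, addV_zero, top_add]
    by_cases hy : y = 0
    · rw [hy, mul_zero, addV_zero, add_top]
    rw [addV_ne v hx, addV_ne v hy, addV_ne v (mul_ne_zero hx hy), map_mul,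
      WithZero.log_mul (v.ne_zero_iff.2 hx) (v.ne_zero_iff.2 hy), ← WithTop.coe_add]
    congr 1
    ring
  · apply wt_le
    intro m hm
    rw [le_min_iff, le_addV, le_addV] at hm
    rw [le_addV]
    exact v.map_add_le hm.1 hm.2
  · have h1 : algebraMap ℂ L c ≠ 0 := by simpa using h
    rw [addV_ne v h1, hc c h, WithZero.log_one, neg_zero]
    rfl
  · obtain ⟨p, hp⟩ := hu
    refine ⟨p, ?_⟩
    have hp0 : p ≠ 0 := by
      rintro rfl
      rw [map_zero] at hp
      exact WithZero.exp_ne_zero hp.symm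
    rw [addV_ne v hp0, hp, WithZero.log_exp]
    norm_num
  · rw [zero_le_addV] at hx hy
    rw [redV_of_le v hx, redV_of_le v hy, redV_of_le v (v.map_add_le hx hy), ← map_add]
    rfl
  · rw [zero_le_addV] at hx hy
    have hxy : v (x * y) ≤ 1 := by rw [map_mul]; exact mul_le_one' hx hy
    rw [redV_of_le v hx, redV_of_le v hy, redV_of_le v hxy, ← map_mul]
    rfl
  · rw [redV_of_le v (hc1 c)]
    rfl
  · rw [zero_le_addV] at hx
    rw [redV_of_le v hx, residue_zero_iff, one_le_addV]

end place

section countable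

/-- Integral coordinates of finitely many reals. -/
lemma exists_int_basis {A : Type} [Fintype A] (w : A → ℝ) :
    ∃ (r : ℕ) (β : Fin r → ℝ) (n : A → Fin r → ℤ), (∀ i, w i = ∑ b, (n i b : ℝ) * β b) ∧
      ∀ z : Fin r → ℤ, ∑ b, (z b : ℝ) * β b = 0 → z = 0 := by
  let M := Submodule.span ℤ (Set.range w)
  have : Module.Finite ℤ M := Module.Finite.span_of_finite ℤ (Set.finite_range w)
  have : Module.Free ℤ M := Module.free_of_finite_type_torsion_free'
  let bs := Module.finBasis ℤ M
  have hmem : ∀ i, w i ∈ M := fun i => Submodule.subset_span ⟨i, rfl⟩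
  refine ⟨_, fun b => (bs b : ℝ), fun i b => bs.repr ⟨w i, hmem i⟩ b, fun i => ?_,
    fun z hz => ?_⟩
  · have h1 := bs.sum_repr ⟨w i, hmem i⟩
    have h2 := congrArg (fun x : M => (x : ℝ)) h1
    simp only [Submodule.coe_sum, Submodule.coe_smul] at h2
    rw [← h2]
    simp
  · have h1 : ∑ b, z b • bs b = 0 := by
      apply Subtype.ext
      simp only [Submodule.coe_sum, Submodule.coe_smul, Submodule.coe_zero]
      rw [← hz]
      simp
    funext b
    exact Fintype.linearIndependent_iff.1 bs.linearIndependent z h1 b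

/-- An algebraic element over the complex numbers is a constant. -/
lemma exists_const_of_isAlgebraic {L : Type} [Field L] [Algebra ℂ L] {y : L}
    (hy : IsAlgebraic ℂ y) : ∃ c : ℂ, algebraMap ℂ L c = y := by
  have h1 : (minpoly ℂ y).degree = 1 :=
    IsAlgClosed.degree_eq_one_of_irreducible ℂ (minpoly.irreducible hy.isIntegral)
  exact minpoly.mem_range_of_degree_eq_one ℂ y h1

/-- From a multiplicative relation to a relation between arguments. -/
lemma arg_relation {A : Type} [Fintype A] (z : A → ℂ) (hz : ∀ i, z i ≠ 0) (n : A → ℤ) (c : ℂ)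
    (h : ∏ i, z i ^ n i = c) :
    ∃ m : ℤ, ∑ i, (n i : ℝ) * Complex.arg (z i) = Complex.arg c + m * (2 * Real.pi) := by
  have hc : c ≠ 0 := by
    rw [← h]
    exact Finset.prod_ne_zero_iff.2 fun i _ => zpow_ne_zero _ (hz i)
  have h1 : Complex.exp (∑ i, (n i : ℂ) * Complex.log (z i)) = Complex.exp (Complex.log c) := by
    rw [Complex.exp_sum, Complex.exp_log hc, ← h]
    refine Finset.prod_congr rfl fun i _ => ?_
    rw [Complex.exp_int_mul, Complex.exp_log (hz i)]
  obtain ⟨m, hm⟩ := Complex.exp_eq_exp_iff_exists_int.1 h1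
  refine ⟨m, ?_⟩
  have h2 := congrArg Complex.im hm
  rw [Complex.im_sum] at h2
  simp only [Complex.add_im, Complex.log_im] at h2
  have h3 : ∀ i, ((n i : ℂ) * Complex.log (z i)).im = (n i : ℝ) * Complex.arg (z i) := by
    intro i
    rw [← Complex.log_im, ← Complex.ofReal_intCast, Complex.im_ofReal_mul]
  have h4 : ((m : ℂ) * (2 * (Real.pi : ℂ) * Complex.I)).im = m * (2 * Real.pi) := by
    simp [Complex.mul_im]
  simp only [h3] at h2
  rw [h2, h4]

lemma exp_sum_eq {A : Type} (t : Finset A) (f : A → ℤ) :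
    (WithZero.exp (∑ i ∈ t, f i) : WithZero (Multiplicative ℤ)) = ∏ i ∈ t, WithZero.exp (f i) := by
  classical
  induction t using Finset.induction_on with
  | empty => simp
  | insert a s ha ih => rw [Finset.sum_insert ha, Finset.prod_insert ha, WithZero.exp_add, ih]

/-- Clearing denominators in a multiplicative relation. -/
lemma zpow_prod_iff {A K : Type} [Fintype A] [Field K] (u : A → K) (hu : ∀ i, u i ≠ 0)
    (n : A → ℤ) (c : K) : ∏ i, u i ^ n i = c ↔
      ∏ i, u i ^ (n i).toNat = c * ∏ i, u i ^ (-(n i)).toNat := by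
  have h1 : (∏ i, u i ^ n i) * ∏ i, u i ^ (-(n i)).toNat = ∏ i, u i ^ (n i).toNat := by
    rw [← Finset.prod_mul_distrib]
    refine Finset.prod_congr rfl fun i _ => ?_
    rw [← zpow_natCast, ← zpow_natCast, ← zpow_add₀ (hu i)]
    congr 1
    omega
  have h2 : ∏ i, u i ^ (-(n i)).toNat ≠ 0 := Finset.prod_ne_zero_iff.2 fun i _ =>
    pow_ne_zero _ (hu i)
  rw [← h1]
  exact ⟨fun h => by rw [h], fun h => mul_right_cancel₀ h2 h⟩

variable {σ A : Type} [Fintype σ] [Fintype A]

/-- On the zero set of one prime. -/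
lemma countable_arg_prime
    (I : Ideal (MvPolynomial σ ℂ)) (a : A → MvPolynomial σ ℂ) (w : A → ℝ)
    (hw : ∀ (L κ : Type) [Field L] [Field κ] [Algebra ℂ L] [Algebra ℂ κ] (P : Place L κ)
      (φ : MvPolynomial σ ℂ →ₐ[ℂ] L), (∀ f ∈ I, φ f = 0) → (∀ i, φ (a i) ≠ 0) →
      ∀ k : A → ℤ, (∀ i, P.o (φ (a i)) = ((k i : ℤ) : WithTop ℤ)) → ∑ i, w i * (k i : ℝ) = 0)
    (p : Ideal (MvPolynomial σ ℂ)) [hp : p.IsPrime] (hIp : I ≤ p) (hap : ∀ i, a i ∉ p) :
    ∃ C : Set ℝ, C.Countable ∧ ∀ x : σ → ℂ, (∀ f ∈ p, MvPolynomial.eval x f = 0) →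
      (∀ i, MvPolynomial.eval x (a i) ≠ 0) →
      ∑ i, w i * Complex.arg (MvPolynomial.eval x (a i)) ∈ C := by
  obtain ⟨r, β, n, hwn, hβ⟩ := exists_int_basis w
  let R := MvPolynomial σ ℂ ⧸ p
  let L := FractionRing R
  let φ : MvPolynomial σ ℂ →ₐ[ℂ] L := (IsScalarTower.toAlgHom ℂ R L).comp (Ideal.Quotient.mkₐ ℂ p)
  have hφ : ∀ f, φ f = 0 ↔ f ∈ p := by
    intro f
    have h1 : φ f = algebraMap R L (Ideal.Quotient.mk p f) := rfl
    rw [h1, map_eq_zero_iff _ (IsFractionRing.injective R L), Ideal.Quotient.eq_zero_iff_mem]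
  have hφa : ∀ i, φ (a i) ≠ 0 := fun i h => hap i ((hφ _).1 h)
  -- the units are constants
  have hconst : ∀ b : Fin r, ∃ c : ℂ, algebraMap ℂ L c = ∏ i, φ (a i) ^ n i b := by
    intro b
    apply exists_const_of_isAlgebraic
    by_contra htr
    have hfg : (⊤ : IntermediateField ℂ L).FG := by
      rw [IntermediateField.fg_top_iff]
      have : Algebra.EssFiniteType R L :=
        Algebra.EssFiniteType.of_isLocalization (M := nonZeroDivisors R) L
      exact Algebra.EssFiniteType.comp ℂ R L
    obtain ⟨v, hv1, hv2, hv3⟩ := exists_discrete_valuation_unif hfg htr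
    obtain ⟨κ, _, _, P, hP⟩ := exists_place v hv1 hv3
    have h1 := hw L κ P φ (fun f hf => (hφ f).2 (hIp hf)) hφa
      (fun i => -(WithZero.log (v (φ (a i))))) (fun i => hP _ (hφa i))
    have h2 : ∑ b, ((∑ i, n i b * -(WithZero.log (v (φ (a i)))) : ℤ) : ℝ) * β b = 0 := by
      rw [← h1]
      simp only [hwn, Finset.sum_mul, Int.cast_sum]
      rw [Finset.sum_comm]
      refine Finset.sum_congr rfl fun i _ => Finset.sum_congr rfl fun b _ => ?_
      push_cast
      ring
    have h3 := congrFun (hβ _ h2) b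
    simp only [Pi.zero_apply] at h3
    have h4 : WithZero.log (v (∏ i, φ (a i) ^ n i b)) = 0 := by
      have h5 : v (∏ i, φ (a i) ^ n i b)
          = WithZero.exp (∑ i, n i b * WithZero.log (v (φ (a i)))) := by
        rw [map_prod]
        have h6 : ∀ i, v (φ (a i) ^ n i b) = WithZero.exp (n i b * WithZero.log (v (φ (a i)))) := by
          intro i
          rw [map_zpow₀, ← smul_eq_mul, WithZero.exp_zsmul,
            WithZero.exp_log (v.ne_zero_iff.2 (hφa i))]
        simp only [h6]
        rw [exp_sum_eq]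
      rw [h5, WithZero.log_exp]
      simp only [mul_neg, Finset.sum_neg_distrib, neg_eq_zero] at h3
      exact h3
    have h7 : v (∏ i, φ (a i) ^ n i b) ≠ 0 :=
      v.ne_zero_iff.2 (Finset.prod_ne_zero_iff.2 fun i _ => zpow_ne_zero _ (hφa i))
    have h8 := WithZero.exp_log h7
    rw [h4, WithZero.exp_zero] at h8
    rw [← h8] at hv2
    exact lt_irrefl _ hv2
  choose c hc using hconst
  refine ⟨Set.range (fun m : Fin r → ℤ => ∑ b, (Complex.arg (c b) + m b * (2 * Real.pi)) * β b),
    Set.countable_range _, fun x hx hxa => ?_⟩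
  have hev : ∀ b, ∏ i, MvPolynomial.eval x (a i) ^ n i b = c b := by
    intro b
    rw [zpow_prod_iff _ hxa]
    have h1 := (zpow_prod_iff _ hφa (fun i => n i b) _).1 (hc b).symm
    have h2 : φ (∏ i, a i ^ (n i b).toNat - MvPolynomial.C (c b) * ∏ i, a i ^ (-(n i b)).toNat)
        = 0 := by
      rw [map_sub, map_mul, map_prod, map_prod]
      simp only [map_pow]
      have h3 : φ (MvPolynomial.C (c b)) = algebraMap ℂ L (c b) := φ.commutes (c b)
      rw [h3, h1, sub_self]
    have h3 := hx _ ((hφ _).1 h2)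
    rw [map_sub, map_mul, map_prod, map_prod, MvPolynomial.eval_C] at h3
    simp only [map_pow] at h3
    exact sub_eq_zero.1 h3
  have hm : ∀ b, ∃ m : ℤ, ∑ i, (n i b : ℝ) * Complex.arg (MvPolynomial.eval x (a i))
      = Complex.arg (c b) + m * (2 * Real.pi) := fun b =>
    arg_relation _ hxa (fun i => n i b) (c b) (hev b)
  choose m hm using hm
  refine ⟨m, ?_⟩
  simp only [← hm, hwn, Finset.sum_mul]
  rw [Finset.sum_comm]
  refine Finset.sum_congr rfl fun i _ => Finset.sum_congr rfl fun b _ => ?_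
  ring

/-- Countability of the argument sums. -/
theorem countable_arg {σ A : Type} [Fintype σ] [Fintype A]
    (I : Ideal (MvPolynomial σ ℂ)) (a : A → MvPolynomial σ ℂ) (w : A → ℝ)
    (hw : ∀ (L κ : Type) [Field L] [Field κ] [Algebra ℂ L] [Algebra ℂ κ] (P : Place L κ)
      (φ : MvPolynomial σ ℂ →ₐ[ℂ] L), (∀ f ∈ I, φ f = 0) → (∀ i, φ (a i) ≠ 0) →
      ∀ k : A → ℤ, (∀ i, P.o (φ (a i)) = ((k i : ℤ) : WithTop ℤ)) → ∑ i, w i * (k i : ℝ) = 0)
    (X : Set (σ → ℂ)) (hX : ∀ x ∈ X, ∀ f ∈ I, MvPolynomial.eval x f = 0)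
    (hXa : ∀ x ∈ X, ∀ i, MvPolynomial.eval x (a i) ≠ 0) :
    ((fun x => ∑ i, w i * Complex.arg (MvPolynomial.eval x (a i))) '' X).Countable := by
  have h1 : ∀ p : Ideal (MvPolynomial σ ℂ), ∃ C : Set ℝ, C.Countable ∧
      (p ∈ I.minimalPrimes → ∀ x ∈ X, (∀ f ∈ p, MvPolynomial.eval x f = 0) →
        ∑ i, w i * Complex.arg (MvPolynomial.eval x (a i)) ∈ C) := by
    intro p
    by_cases hp : p ∈ I.minimalPrimes
    swap
    · exact ⟨∅, Set.countable_empty, fun h => absurd h hp⟩
    by_cases hne : ∃ x ∈ X, ∀ f ∈ p, MvPolynomial.eval x f = 0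
    · obtain ⟨x0, hx0, hx0p⟩ := hne
      have := hp.1.1
      obtain ⟨C, hC, hC'⟩ := countable_arg_prime I a w hw p hp.1.2
        (fun i hi => hXa x0 hx0 i (hx0p _ hi))
      exact ⟨C, hC, fun _ x hx hxp => hC' x hxp (hXa x hx)⟩
    · exact ⟨∅, Set.countable_empty, fun _ x hx hxp => absurd ⟨x, hx, hxp⟩ hne⟩
  choose C hC hC' using h1
  have hfin : (I.minimalPrimes).Finite := I.finite_minimalPrimes_of_isNoetherianRing
  refine Set.Countable.mono ?_ (hfin.countable.biUnion fun p _ => hC p)
  rintro _ ⟨x, hx, rfl⟩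
  have hker : (RingHom.ker (MvPolynomial.eval x)).IsPrime := RingHom.ker_isPrime _
  obtain ⟨p, hp, hpx⟩ := Ideal.exists_minimalPrimes_le (I := I)
    (J := RingHom.ker (MvPolynomial.eval x)) (fun f hf => hX x hx f hf)
  exact Set.mem_biUnion hp (hC' p hp x hx fun f hf => hpx hf)

end countable

end Pool.Agent.Work.MP_1c91cf_gt

end
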