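import Mathlib
import Pool.Agent.Work.MP_1c91cf_gt.Bd.B01
import Pool.Agent.Work.MP_1c91cf_gt.Bd.B02

/-! Bundle of small proof modules (one section per former module). -/

section

/-!
# Sard's theorem for smooth real-valued functions on a finite-dimensional space
-/

set_option autoImplicit false

open MeasureTheory Metric Set Filter Module
open scoped ContDiff Topology NNReal ENNReal

namespace Pool.Agent.Work.MP_1c91cf_gt

section Local

/-- Countable subadditivity of `A ↦ volume (f '' A)`, in local form. -/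
lemma volume_image_eq_zero_of_locally {E : Type*} [TopologicalSpace E]
    [SecondCountableTopology E] {f : E → ℝ} {A : Set E}
    (h : ∀ x ∈ A, ∃ O ∈ 𝓝 x, volume (f '' (A ∩ O)) = 0) : volume (f '' A) = 0 := by
  choose! O hO hv using h
  obtain ⟨t, htA, htc, hcov⟩ := TopologicalSpace.countable_cover_nhdsWithin (s := A) (f := O)
    (fun x hx => mem_nhdsWithin_of_mem_nhds (hO x hx))
  have hsub : f '' A ⊆ ⋃ x ∈ t, f '' (A ∩ O x) := by
    rintro _ ⟨y, hy, rfl⟩
    obtain ⟨x, hxt, hyx⟩ := mem_iUnion₂.mp (hcov hy)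
    exact mem_iUnion₂.mpr ⟨x, hxt, ⟨y, ⟨hy, hyx⟩, rfl⟩⟩
  refine measure_mono_null hsub ?_
  rw [measure_biUnion_null_iff htc]
  exact fun x hx => hv x (htA hx)

end Local

section Taylor

variable {E F : Type*} [NormedAddCommGroup E] [NormedSpace ℝ E] [NormedAddCommGroup F]
  [NormedSpace ℝ F]

lemma mean_value_step {g : E → F} {x y : E} {r K : ℝ} {i : ℕ} (hK : 0 ≤ K)
    (hg : ∀ z ∈ ball x r, DifferentiableAt ℝ g z)
    (hb : ∀ z ∈ ball x r, ‖fderiv ℝ g z‖ ≤ K * ‖z - y‖ ^ i) (hy : y ∈ ball x r) :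
    ∀ z ∈ ball x r, ‖g z - g y‖ ≤ K * ‖z - y‖ ^ (i + 1) := by
  intro z hz
  have hconv : Convex ℝ (ball x r ∩ closedBall y ‖z - y‖) :=
    (convex_ball x r).inter (convex_closedBall y _)
  have h1 : ∀ u ∈ ball x r ∩ closedBall y ‖z - y‖, ‖fderiv ℝ g u‖ ≤ K * ‖z - y‖ ^ i := by
    rintro u ⟨hu1, hu2⟩
    refine (hb u hu1).trans ?_
    rw [mem_closedBall, dist_eq_norm] at hu2
    gcongr
  have h2 := hconv.norm_image_sub_le_of_norm_fderiv_le (fun u hu => hg u hu.1) h1
    (x := y) (y := z) ⟨hy, mem_closedBall_self (norm_nonneg _)⟩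
    ⟨hz, by rw [mem_closedBall, dist_eq_norm]⟩
  calc ‖g z - g y‖ ≤ K * ‖z - y‖ ^ i * ‖z - y‖ := h2
    _ = K * ‖z - y‖ ^ (i + 1) := by ring

lemma taylor_bound {f : E → F} {N : ℕ} {x y : E} {r K : ℝ} (hK : 0 ≤ K)
    (hf : ∀ z ∈ ball x r, ContDiffAt ℝ (N + 1 : ℕ) f z)
    (hb : ∀ z ∈ ball x r, ‖iteratedFDeriv ℝ (N + 1) f z‖ ≤ K) (hy : y ∈ ball x r)
    (h0 : ∀ j, 1 ≤ j → j ≤ N → iteratedFDeriv ℝ j f y = 0) :
    ∀ z ∈ ball x r, ‖f z - f y‖ ≤ K * ‖z - y‖ ^ (N + 1) := by
  have key : ∀ i, i ≤ N → ∀ z ∈ ball x r, ‖iteratedFDeriv ℝ (N + 1 - i) f z‖ ≤ K * ‖z - y‖ ^ i := by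
    intro i
    induction i with
    | zero =>
      intro _ z hz
      simpa using hb z hz
    | succ i ih =>
      intro hi z hz
      have hi' : i ≤ N := by omega
      have h1 := mean_value_step (g := iteratedFDeriv ℝ (N + 1 - (i + 1)) f) (i := i) hK ?_ ?_ hy z hz
      · rw [h0 (N + 1 - (i + 1)) (by omega) (by omega), sub_zero] at h1
        exact h1
      · intro u hu
        have h2 := (hf u hu).differentiableAt_iteratedFDeriv (m := N + 1 - (i + 1))
          (by exact_mod_cast (by omega : N + 1 - (i + 1) < N + 1))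
        exact h2
      · intro u hu
        rw [norm_fderiv_iteratedFDeriv]
        have h3 : N + 1 - (i + 1) + 1 = N + 1 - i := by omega
        rw [h3]
        exact ih hi' u hu
  refine mean_value_step hK ?_ ?_ hy
  · intro u hu
    exact (hf u hu).differentiableAt (by simp)
  · intro u hu
    rw [← norm_iteratedFDeriv_one]
    have := key N le_rfl u hu
    rwa [show N + 1 - N = 1 by omega] at this

end Taylor

section Holder

/-- The image of the set where all derivatives up to a large order vanish is null. -/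
lemma volume_image_flat {E : Type*} [NormedAddCommGroup E] [NormedSpace ℝ E]
    [FiniteDimensional ℝ E] {f : E → ℝ} {N : ℕ} {A : Set E} (hN : finrank ℝ E ≤ N)
    (hA : ∀ x ∈ A, ContDiffAt ℝ (N + 1 : ℕ) f x ∧
      ∀ j, 1 ≤ j → j ≤ N → iteratedFDeriv ℝ j f x = 0) : volume (f '' A) = 0 := by
  apply volume_image_eq_zero_of_locally
  intro x hx
  have hcd := (hA x hx).1
  have hev : ∀ᶠ z in 𝓝 x, ContDiffAt ℝ (N + 1 : ℕ) f z := hcd.eventually (by simp)
  have hcont : ContinuousAt (iteratedFDeriv ℝ (N + 1) f) x :=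
    (hcd.iteratedFDeriv_right (m := 0) (i := N + 1) (by simp)).continuousAt
  have hbd : ∀ᶠ z in 𝓝 x, ‖iteratedFDeriv ℝ (N + 1) f z‖ < ‖iteratedFDeriv ℝ (N + 1) f x‖ + 1 :=
    hcont.norm.eventually (gt_mem_nhds (by linarith))
  obtain ⟨r, hr, hball⟩ := Metric.eventually_nhds_iff_ball.mp (hev.and hbd)
  refine ⟨ball x r, ball_mem_nhds x hr, ?_⟩
  set K : ℝ := ‖iteratedFDeriv ℝ (N + 1) f x‖ + 1 with hK
  have hK0 : 0 ≤ K := by positivity
  have hhol : HolderOnWith K.toNNReal ((N + 1 : ℕ) : ℝ≥0) f (A ∩ ball x r) := by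
    intro y hy z hz
    have h1 := taylor_bound hK0 (fun u hu => (hball u hu).1) (fun u hu => (hball u hu).2.le) hz.2
      (hA z hz.1).2 y hy.2
    rw [← dist_eq_norm, ← dist_eq_norm] at h1
    rw [edist_dist, edist_dist]
    have h2 : ENNReal.ofReal (dist (f y) (f z)) ≤ ENNReal.ofReal (K * dist y z ^ (N + 1)) :=
      ENNReal.ofReal_le_ofReal h1
    refine h2.trans_eq ?_
    rw [ENNReal.ofReal_mul hK0, ENNReal.ofReal_pow dist_nonneg]
    congr 1
    rw [NNReal.coe_natCast, ENNReal.rpow_natCast]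
  have hdim : dimH (f '' (A ∩ ball x r)) < 1 := by
    have hpos : (0 : ℝ≥0) < ((N + 1 : ℕ) : ℝ≥0) := by positivity
    refine (hhol.dimH_image_le hpos).trans_lt ?_
    have h3 : dimH (A ∩ ball x r) ≤ (N : ℝ≥0∞) := by
      refine (dimH_mono (subset_univ _)).trans ?_
      rw [Real.dimH_univ_eq_finrank]
      exact_mod_cast hN
    refine (ENNReal.div_le_div_right h3 _).trans_lt ?_
    rw [ENNReal.div_lt_iff (by left; simp) (by left; simp), one_mul]
    push_cast
    exact ENNReal.lt_add_right (by simp) (by simp)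
  have hH := hausdorffMeasure_of_dimH_lt (d := 1) (by simpa using hdim)
  rw [NNReal.coe_one, hausdorffMeasure_real] at hH
  exact hH

end Holder

section Hypersurface

/-- The statement of Sard's theorem in dimension `n` for functions of class `C^M`. -/
def SardAt (n M : ℕ) : Prop :=
  ∀ (E : Type) [NormedAddCommGroup E] [NormedSpace ℝ E] [FiniteDimensional ℝ E],
    finrank ℝ E = n → ∀ (f : E → ℝ) (A : Set E),
      (∀ x ∈ A, ContDiffAt ℝ M f x ∧ fderiv ℝ f x = 0) → volume (f '' A) = 0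

lemma sard_hypersurface {n M : ℕ} (hM : 1 ≤ M) (ih : SardAt n M)
    {E : Type} [NormedAddCommGroup E] [NormedSpace ℝ E] [FiniteDimensional ℝ E]
    (hE : finrank ℝ E = n + 1) {f w : E → ℝ} {x : E} (hw : ContDiffAt ℝ M w x)
    (hw0 : w x = 0) (hdw : fderiv ℝ w x ≠ 0) {A : Set E}
    (hA : ∀ y ∈ A, ContDiffAt ℝ M f y ∧ fderiv ℝ f y = 0 ∧ w y = 0) :
    ∃ O ∈ 𝓝 x, volume (f '' (A ∩ O)) = 0 := by
  have hM0 : ((M : ℕ) : ℕ∞ω) ≠ 0 := by
    have : M ≠ 0 := by omega
    exact_mod_cast this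
  have hstrict : HasStrictFDerivAt w (fderiv ℝ w x) x := hw.hasStrictFDerivAt hM0
  have hsurj : Function.Surjective (fderiv ℝ w x) := by
    have h1 : (fderiv ℝ w x : E →ₗ[ℝ] ℝ) ≠ 0 := by
      intro h
      apply hdw
      ext v
      exact congrArg (fun l : E →ₗ[ℝ] ℝ => l v) h
    exact LinearMap.surjective h1
  have hrange : (fderiv ℝ w x).range = ⊤ := LinearMap.range_eq_top.mpr hsurj
  have hker : (fderiv ℝ w x).ker.ClosedComplemented :=
    Submodule.ClosedComplemented.of_finiteDimensional _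
  set φ := HasStrictFDerivAt.implicitFunctionDataOfComplemented w (fderiv ℝ w x) hstrict hrange hker
    with hφ
  have hpt : φ.pt = x := rfl
  have hleft : φ.leftFun = w := rfl
  have hright : ContDiff ℝ M φ.rightFun := by
    change ContDiff ℝ M (fun y => Classical.choose hker (y - x))
    exact (Classical.choose hker).contDiff.comp (contDiff_id.sub contDiff_const)
  set ψ : (fderiv ℝ w x).ker → E := φ.implicitFunction (w x) with hψ
  have hψs : ContDiffAt ℝ M ψ (φ.rightFun x) := by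
    have h1 := φ.contDiffAt_implicitFunction (n := M) (by rw [hleft, hpt]; exact hw)
      hright.contDiffAt hM0
    have h2 : ψ = φ.implicitFunction.uncurry ∘ fun t => (w x, t) := rfl
    rw [h2]
    refine ContDiffAt.comp _ ?_ (contDiffAt_const.prodMk contDiffAt_id)
    exact h1
  have hev1 : ∀ᶠ y in 𝓝 x, w y = w x ↔ ψ (φ.rightFun y) = y := φ.leftFun_eq_iff_implicitFunction
  have hev2 : ∀ᶠ y in 𝓝 x, ContDiffAt ℝ M ψ (φ.rightFun y) :=
    hright.continuous.continuousAt.eventually (hψs.eventually (by simp))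
  refine ⟨{y | (w y = w x ↔ ψ (φ.rightFun y) = y) ∧ ContDiffAt ℝ M ψ (φ.rightFun y)},
    hev1.and hev2, ?_⟩
  set T : Set (fderiv ℝ w x).ker := φ.rightFun '' (A ∩ {y | (w y = w x ↔ ψ (φ.rightFun y) = y) ∧
    ContDiffAt ℝ M ψ (φ.rightFun y)}) with hT
  have hfin : finrank ℝ (fderiv ℝ w x).ker = n := by
    have h1 := LinearMap.finrank_range_add_finrank_ker (fderiv ℝ w x : E →ₗ[ℝ] ℝ)
    rw [hE] at h1
    have h2 : finrank ℝ (LinearMap.range (fderiv ℝ w x : E →ₗ[ℝ] ℝ)) = 1 := by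
      rw [LinearMap.range_eq_top.mpr hsurj]
      simp
    rw [h2] at h1
    have h3 : finrank ℝ (LinearMap.ker (fderiv ℝ w x : E →ₗ[ℝ] ℝ)) = n := by omega
    exact h3
  have hvol := ih (fderiv ℝ w x).ker hfin (f ∘ ψ) T (by
    rintro _ ⟨y, ⟨hyA, hy1, hy2⟩, rfl⟩
    obtain ⟨hfy, hdf, hwy⟩ := hA y hyA
    have hyy : ψ (φ.rightFun y) = y := hy1.mp (by rw [hwy, hw0])
    have hfy' : ContDiffAt ℝ M f (ψ (φ.rightFun y)) := by rw [hyy]; exact hfy
    refine ⟨hfy'.comp _ hy2, ?_⟩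
    rw [fderiv_comp _ (hfy'.differentiableAt hM0) (hy2.differentiableAt hM0), hyy, hdf]
    simp)
  refine measure_mono_null ?_ hvol
  rintro _ ⟨y, hy, rfl⟩
  obtain ⟨hyA, hy1, hy2⟩ := hy
  have hyy : ψ (φ.rightFun y) = y := hy1.mp (by rw [(hA y hyA).2.2, hw0])
  exact ⟨φ.rightFun y, ⟨y, ⟨hyA, hy1, hy2⟩, rfl⟩, by simp [hyy]⟩

end Hypersurface

lemma sard_aux (n : ℕ) : ∃ M : ℕ, 1 ≤ M ∧ SardAt n M := by
  induction n with
  | zero =>
    refine ⟨1, le_rfl, ?_⟩
    intro E _ _ _ hE f A _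
    have hsub : Subsingleton E := finrank_zero_iff.mp hE
    exact ((Set.subsingleton_of_subsingleton (s := A)).image f).countable.measure_zero _
  | succ n ih =>
    obtain ⟨M, hM, ih⟩ := ih
    refine ⟨M + n + 3, by omega, ?_⟩
    intro E _ _ _ hE f A hA
    -- the flat part
    set A₀ : Set E := {x ∈ A | ∀ j, 1 ≤ j → j ≤ n + 1 → iteratedFDeriv ℝ j f x = 0} with hA₀
    set B : ℕ → Set E := fun k =>
      {x ∈ A | iteratedFDeriv ℝ k f x = 0 ∧ iteratedFDeriv ℝ (k + 1) f x ≠ 0} with hB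
    have hcov : A ⊆ A₀ ∪ ⋃ k ∈ Finset.range (n + 1), B k := by
      intro x hx
      by_cases h : ∀ j, 1 ≤ j → j ≤ n + 1 → iteratedFDeriv ℝ j f x = 0
      · exact Or.inl ⟨hx, h⟩
      · right
        push Not at h
        have hex : ∃ j, 1 ≤ j ∧ j ≤ n + 1 ∧ iteratedFDeriv ℝ j f x ≠ 0 := h
        classical
        have hspec := Nat.find_spec hex
        have hmin := fun m => @Nat.find_min _ _ hex m
        set j := Nat.find hex with hj
        have h1 : iteratedFDeriv ℝ 1 f x = 0 := by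
          rw [← norm_eq_zero, norm_iteratedFDeriv_one, (hA x hx).2, norm_zero]
        have hj1 : j ≠ 1 := by
          intro h'
          rw [h'] at hspec
          exact hspec.2.2 h1
        refine mem_iUnion₂.mpr ⟨j - 1, Finset.mem_range.mpr (by omega), hx, ?_, ?_⟩
        · by_contra hne
          exact hmin (j - 1) (by omega) ⟨by omega, by omega, hne⟩
        · rw [show j - 1 + 1 = j by omega]
          exact hspec.2.2
    have hA₀v : volume (f '' A₀) = 0 := by
      refine volume_image_flat (N := n + 1) hE.le ?_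
      rintro x ⟨hx, h⟩
      exact ⟨(hA x hx).1.of_le (by exact_mod_cast (by omega : n + 1 + 1 ≤ M + n + 3)), h⟩
    have hBv : ∀ k ∈ Finset.range (n + 1), volume (f '' B k) = 0 := by
      intro k hk
      rw [Finset.mem_range] at hk
      apply volume_image_eq_zero_of_locally
      rintro x ⟨hx, hk0, hk1⟩
      obtain ⟨m, hm⟩ : ∃ m, iteratedFDeriv ℝ (k + 1) f x m ≠ 0 := by
        by_contra hcon
        push Not at hcon
        apply hk1
        ext m
        simpa using hcon m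
      rw [iteratedFDeriv_succ_apply_left] at hm
      set v : Fin k → E := Fin.tail m with hv
      set L := ContinuousMultilinearMap.apply ℝ (fun _ : Fin k => E) ℝ v with hL
      have hcdk : ContDiffAt ℝ M (iteratedFDeriv ℝ k f) x :=
        (hA x hx).1.iteratedFDeriv_right (by exact_mod_cast (by omega : M + k ≤ M + n + 3))
      have hM0 : ((M : ℕ) : ℕ∞ω) ≠ 0 := by
        have : M ≠ 0 := by omega
        exact_mod_cast this
      refine sard_hypersurface hM ih hE (w := fun y => L (iteratedFDeriv ℝ k f y))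
        (L.contDiff.contDiffAt.comp x hcdk) ?_ ?_ ?_
      · rw [hk0, map_zero]
      · intro h0
        apply hm
        have h1 : HasFDerivAt (fun y => L (iteratedFDeriv ℝ k f y))
            (L.comp (fderiv ℝ (iteratedFDeriv ℝ k f) x)) x :=
          L.hasFDerivAt.comp x (hcdk.differentiableAt hM0).hasFDerivAt
        rw [h1.fderiv] at h0
        have h2 := congrArg (fun l : E →L[ℝ] ℝ => l (m 0)) h0
        exact h2
      · rintro y ⟨hy, hy0, -⟩
        refine ⟨(hA y hy).1.of_le (by exact_mod_cast (by omega : M ≤ M + n + 3)), (hA y hy).2, ?_⟩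
        simp only [hy0, map_zero]
    refine measure_mono_null (image_mono hcov) ?_
    rw [image_union, measure_union_null_iff]
    refine ⟨hA₀v, ?_⟩
    rw [image_iUnion₂]
    exact (measure_biUnion_null_iff (I := ((Finset.range (n + 1) : Finset ℕ) : Set ℕ))
      (Finset.countable_toSet _)).mpr hBv

/-- Sard's theorem for smooth real-valued functions: the set of critical values is null. -/
theorem sard_real {E : Type} [NormedAddCommGroup E] [NormedSpace ℝ E] [FiniteDimensional ℝ E]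
    {f : E → ℝ} {U : Set E} (hU : IsOpen U) (hf : ContDiffOn ℝ ∞ f U) :
    MeasureTheory.volume (f '' {x | x ∈ U ∧ fderiv ℝ f x = 0}) = 0 := by
  obtain ⟨M, -, hM⟩ := sard_aux (finrank ℝ E)
  refine hM E rfl f _ ?_
  rintro x ⟨hx, hx0⟩
  refine ⟨((hf x hx).contDiffAt (hU.mem_nhds hx)).of_le ?_, hx0⟩
  exact_mod_cast le_top

end Pool.Agent.Work.MP_1c91cf_gt

end

section

/-!
# Hyperbolic volume of a Klein simplex as a Gaussian orthant integral
-/

set_option autoImplicit false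

open MeasureTheory Set

namespace Pool.Agent.Work.MP_1c91cf_gt

namespace HypVol

/-- Scaling of the Lebesgue integral. -/
lemma lintegral_scale (n : ℕ) {r : ℝ} (hr : 0 < r) (f : (Fin n → ℝ) → ENNReal) :
    ∫⁻ y, f y = ENNReal.ofReal (r ^ n) * ∫⁻ t, f (r • t) := by
  have h1 := Measure.map_addHaar_smul (volume : Measure (Fin n → ℝ)) hr.ne'
  have h2 : ∫⁻ t, f (r • t) = ∫⁻ y, f y ∂(Measure.map (r • ·) (volume : Measure (Fin n → ℝ))) :=
    (lintegral_map_equiv f
      (Homeomorph.smulOfNeZero (α := Fin n → ℝ) r hr.ne').toMeasurableEquiv).symm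
  rw [h2, h1, lintegral_smul_measure, smul_eq_mul, ← mul_assoc, ← ENNReal.ofReal_mul (by positivity)]
  have h3 : r ^ n * |(r ^ Module.finrank ℝ (Fin n → ℝ))⁻¹| = 1 := by
    rw [Module.finrank_fin_fun, abs_of_pos (by positivity)]
    exact mul_inv_cancel₀ (by positivity)
  rw [h3, ENNReal.ofReal_one, one_mul]

/-- Scaling on the line. -/
lemma lintegral_scale_one {r : ℝ} (hr : 0 < r) (f : ℝ → ENNReal) :
    ∫⁻ y, f y = ENNReal.ofReal r * ∫⁻ t, f (r * t) := by
  have h1 := Measure.map_addHaar_smul (volume : Measure ℝ) hr.ne'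
  have h2 : ∫⁻ t, f (r • t) = ∫⁻ y, f y ∂(Measure.map (r • ·) (volume : Measure ℝ)) :=
    (lintegral_map_equiv f
      (Homeomorph.smulOfNeZero (α := ℝ) r hr.ne').toMeasurableEquiv).symm
  simp only [smul_eq_mul] at h2 h1
  rw [h2, h1, lintegral_smul_measure, smul_eq_mul, ← mul_assoc, ← ENNReal.ofReal_mul (by positivity)]
  have h3 : r * |(r ^ Module.finrank ℝ ℝ)⁻¹| = 1 := by
    rw [Module.finrank_self, pow_one, abs_of_pos (by positivity)]
    exact mul_inv_cancel₀ (by positivity)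
  rw [h3, ENNReal.ofReal_one, one_mul]

/-- The radial constant, as a Lebesgue integral. -/
noncomputable def radL (k : ℕ) : ENNReal :=
  ∫⁻ r in Ioi (0 : ℝ), ENNReal.ofReal (r ^ (k + 1) * Real.exp (-(1 / 2) * r ^ 2))

lemma radialConst_eq (k : ℕ) : radialConst k = (radL k).toReal := by
  unfold radialConst radL
  rw [integral_eq_lintegral_of_nonneg_ae]
  · refine (ae_restrict_iff' measurableSet_Ioi).2 (Filter.Eventually.of_forall fun r hr => ?_)
    have : (0 : ℝ) < r := hr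
    simp only [Pi.zero_apply]
    positivity
  · apply Continuous.aestronglyMeasurable
    fun_prop

/-- The radial integral with a parameter. -/
lemma rad_param (k : ℕ) {c : ℝ} (hc : 0 < c) :
    ∫⁻ r in Ioi (0 : ℝ), ENNReal.ofReal (r ^ (k + 1) * Real.exp (-(1 / 2) * (c * r ^ 2))) =
      ENNReal.ofReal (c ^ (-((k : ℝ) + 2) / 2)) * radL k := by
  have ha : 0 < Real.sqrt c := Real.sqrt_pos.2 hc
  unfold radL
  rw [← lintegral_indicator measurableSet_Ioi, ← lintegral_indicator measurableSet_Ioi]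
  rw [lintegral_scale_one ha (fun r => indicator (Ioi 0) (fun r : ℝ => ENNReal.ofReal
    (r ^ (k + 1) * Real.exp (-(1 / 2) * r ^ 2))) r), ← mul_assoc, ← ENNReal.ofReal_mul (by positivity)]
  rw [← lintegral_const_mul' _ _ ENNReal.ofReal_ne_top]
  refine lintegral_congr fun r => ?_
  by_cases hr : 0 < r
  · rw [indicator_of_mem (show r ∈ Ioi (0 : ℝ) from hr),
      indicator_of_mem (show Real.sqrt c * r ∈ Ioi (0 : ℝ) from mul_pos ha hr),
      ← ENNReal.ofReal_mul (by positivity)]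
    congr 1
    rw [mul_pow, mul_pow, Real.sq_sqrt hc.le]
    have h1 : c ^ (-((k : ℝ) + 2) / 2) * Real.sqrt c * (Real.sqrt c) ^ (k + 1) = 1 := by
      rw [mul_assoc, ← pow_succ', ← Real.rpow_natCast (Real.sqrt c), Real.sqrt_eq_rpow,
        ← Real.rpow_mul hc.le, ← Real.rpow_add hc]
      have : -((k : ℝ) + 2) / 2 + 1 / 2 * ((k + 1 + 1 : ℕ) : ℝ) = 0 := by
        push_cast
        ring
      rw [this, Real.rpow_zero]
    calc r ^ (k + 1) * Real.exp (-(1 / 2) * (c * r ^ 2))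
        = 1 * (r ^ (k + 1) * Real.exp (-(1 / 2) * (c * r ^ 2))) := by ring
      _ = _ := by rw [← h1]; ring
  · rw [indicator_of_notMem (show r ∉ Ioi (0 : ℝ) from hr),
      indicator_of_notMem (show Real.sqrt c * r ∉ Ioi (0 : ℝ) from fun h =>
        hr (pos_of_mul_pos_right h ha.le)), mul_zero]

variable {k : ℕ} (p : Fin (k + 1) → Fin (k + 1) → ℝ)

/-- The point `∑ t i * p i`. -/
def lc (t : Fin (k + 1) → ℝ) (j : Fin (k + 1)) : ℝ := ∑ i, t i * p i j

/-- Squared norm of the point `∑ t i * p i`. -/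
def sq (t : Fin (k + 1) → ℝ) : ℝ := ∑ j, (lc p t j) ^ 2

/-- The closed standard simplex. -/
def D (k : ℕ) : Set (Fin (k + 1) → ℝ) := {t | (∀ i, 0 ≤ t i) ∧ ∑ i, t i ≤ 1}

lemma continuous_lc (j : Fin (k + 1)) : Continuous (fun t => lc p t j) := by
  unfold lc
  fun_prop

lemma continuous_sq : Continuous (sq p) := by
  unfold sq
  exact continuous_finsetSum _ fun j _ => (continuous_lc p j).pow 2

lemma sq_smul (r : ℝ) (t : Fin (k + 1) → ℝ) : sq p (r • t) = r ^ 2 * sq p t := by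
  unfold sq lc
  rw [Finset.mul_sum]
  refine Finset.sum_congr rfl fun j _ => ?_
  rw [← mul_pow, Finset.mul_sum]
  congr 1
  refine Finset.sum_congr rfl fun i _ => ?_
  rw [Pi.smul_apply, smul_eq_mul, mul_assoc]

lemma isClosed_D (k : ℕ) : IsClosed (D k) := by
  have : D k = (⋂ i, {t | 0 ≤ t i}) ∩ {t | ∑ i, t i ≤ 1} := by
    ext t
    simp [D]
  rw [this]
  refine (isClosed_iInter fun i => isClosed_le continuous_const (continuous_apply i)).inter
    (isClosed_le (by fun_prop) continuous_const)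

lemma quad_eq (l : Fin (k + 2) → ℝ) :
    ∑ a, ∑ b, (Matrix.of fun a b : Fin (k + 2) =>
        1 - ∑ j, (Fin.cons 0 p : Fin (k + 2) → Fin (k + 1) → ℝ) a j *
          (Fin.cons 0 p : Fin (k + 2) → Fin (k + 1) → ℝ) b j) a b * l a * l b =
      (l 0 + ∑ i : Fin (k + 1), l i.succ) ^ 2 - sq p (fun i => l i.succ) := by
  have h1 : ∀ j, ∑ a, l a * (Fin.cons 0 p : Fin (k + 2) → Fin (k + 1) → ℝ) a j =
      lc p (fun i => l i.succ) j := by
    intro j
    rw [Fin.sum_univ_succ]
    simp [lc]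
  have h2 : l 0 + ∑ i : Fin (k + 1), l i.succ = ∑ a, l a := (Fin.sum_univ_succ _).symm
  have h3 : ∑ j, (lc p (fun i => l i.succ) j) ^ 2 = ∑ a, ∑ b, ∑ j,
      (l a * (Fin.cons 0 p : Fin (k + 2) → Fin (k + 1) → ℝ) a j) *
      (l b * (Fin.cons 0 p : Fin (k + 2) → Fin (k + 1) → ℝ) b j) := by
    simp only [← h1, pow_two, Finset.sum_mul_sum]
    rw [Finset.sum_comm]
    refine Finset.sum_congr rfl fun a _ => ?_
    rw [Finset.sum_comm]
  rw [h2, sq, h3, pow_two, Finset.sum_mul_sum, ← Finset.sum_sub_distrib]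
  refine Finset.sum_congr rfl fun a _ => ?_
  rw [← Finset.sum_sub_distrib]
  refine Finset.sum_congr rfl fun b _ => ?_
  rw [Matrix.of_apply, sub_mul, sub_mul, one_mul, Finset.sum_mul, Finset.sum_mul]
  congr 1
  refine Finset.sum_congr rfl fun j _ => ?_
  ring

/-- The Gaussian orthant integral, as a Lebesgue integral. -/
noncomputable def JL : ENNReal :=
  ∫⁻ l : Fin (k + 2) → ℝ in {l | ∀ i, 0 < l i}, ENNReal.ofReal
    (Real.exp (-(1 / 2) * ((l 0 + ∑ i : Fin (k + 1), l i.succ) ^ 2 - sq p (fun i => l i.succ))))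

lemma J_eq : J (Matrix.of fun a b : Fin (k + 2) =>
        1 - ∑ j, (Fin.cons 0 p : Fin (k + 2) → Fin (k + 1) → ℝ) a j *
          (Fin.cons 0 p : Fin (k + 2) → Fin (k + 1) → ℝ) b j) = (JL p).toReal := by
  unfold J JL
  simp only [quad_eq]
  rw [integral_eq_lintegral_of_nonneg_ae]
  · exact Filter.Eventually.of_forall fun l => (Real.exp_pos _).le
  · apply Continuous.aestronglyMeasurable
    have h := continuous_sq p
    fun_prop

/-- The integrand as a function on a product. -/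
noncomputable def F (x : ℝ × (Fin (k + 1) → ℝ)) : ENNReal :=
  indicator {x : ℝ × (Fin (k + 1) → ℝ) | (∀ i, 0 ≤ x.2 i) ∧ ∑ i, x.2 i ≤ x.1}
    (fun x => ENNReal.ofReal (Real.exp (-(1 / 2) * (x.1 ^ 2 - sq p x.2)))) x

lemma isClosed_region : IsClosed
    {x : ℝ × (Fin (k + 1) → ℝ) | (∀ i, 0 ≤ x.2 i) ∧ ∑ i, x.2 i ≤ x.1} := by
  have : {x : ℝ × (Fin (k + 1) → ℝ) | (∀ i, 0 ≤ x.2 i) ∧ ∑ i, x.2 i ≤ x.1} =
      (⋂ i, {x | 0 ≤ x.2 i}) ∩ {x | ∑ i, x.2 i ≤ x.1} := by
    ext t
    simp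
  rw [this]
  refine (isClosed_iInter fun i => isClosed_le continuous_const (by fun_prop)).inter
    (isClosed_le (by fun_prop) (by fun_prop))

lemma measurable_F : Measurable (F p) := by
  unfold F
  refine Measurable.indicator ?_ isClosed_region.measurableSet
  apply Measurable.ennreal_ofReal
  apply Continuous.measurable
  have h := continuous_sq p
  fun_prop

lemma JL_eq_prod : JL p = ∫⁻ y : Fin (k + 1) → ℝ, ∫⁻ r : ℝ, F p (r, y) := by
  unfold JL
  have h1 : ({l : Fin (k + 2) → ℝ | ∀ i, 0 < l i} : Set (Fin (k + 2) → ℝ)) =ᵐ[volume]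
      ({l : Fin (k + 2) → ℝ | ∀ i, 0 ≤ l i} : Set (Fin (k + 2) → ℝ)) := by
    have h2 := Measure.univ_pi_Ioi_ae_eq_Ici (μ := fun _ : Fin (k + 2) => (volume : Measure ℝ))
      (f := fun _ => 0)
    have h3 : {l : Fin (k + 2) → ℝ | ∀ i, 0 < l i} = (univ.pi fun _ => Ioi 0) := by
      ext l; simp
    have h4 : {l : Fin (k + 2) → ℝ | ∀ i, 0 ≤ l i} = Ici (fun _ => 0) := by
      ext l; simp [Pi.le_def]
    rw [h3, h4]
    exact h2
  rw [setLIntegral_congr h1]
  have hcl : MeasurableSet {l : Fin (k + 2) → ℝ | ∀ i, 0 ≤ l i} := by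
    have : {l : Fin (k + 2) → ℝ | ∀ i, 0 ≤ l i} = Ici 0 := by
      ext l; simp [Pi.le_def]
    rw [this]
    exact measurableSet_Ici
  rw [← lintegral_indicator hcl]
  have hmp := (volume_preserving_piFinSuccAbove (fun _ : Fin (k + 2) => ℝ) 0).symm
  rw [← hmp.lintegral_comp_emb (MeasurableEquiv.measurableEmbedding _)]
  rw [Measure.volume_eq_prod, lintegral_prod_symm]
  · refine lintegral_congr fun y => ?_
    rw [← lintegral_add_right_eq_self (fun r => F p (r, y)) (∑ i, y i)]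
    refine lintegral_congr fun x => ?_
    simp only [MeasurableEquiv.piFinSuccAbove_symm_apply, F, indicator, mem_ofPred_eq]
    have e0 : (Fin.insertNthEquiv (fun _ => ℝ) 0 (x, y) : Fin (k + 2) → ℝ) 0 = x := rfl
    have e1 : ∀ i : Fin (k + 1), (Fin.insertNthEquiv (fun _ => ℝ) 0 (x, y) : Fin (k + 2) → ℝ)
      i.succ = y i := fun i => rfl
    simp only [Fin.forall_fin_succ (n := k + 1), e0, e1, le_add_iff_nonneg_left]
    exact if_congr and_comm rfl rfl
  · apply Measurable.aemeasurable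
    refine (Measurable.indicator ?_ hcl).comp (MeasurableEquiv.measurable _)
    apply Measurable.ennreal_ofReal
    apply Continuous.measurable
    have h := continuous_sq p
    fun_prop

lemma F_neg {r : ℝ} (hr : r < 0) (y : Fin (k + 1) → ℝ) : F p (r, y) = 0 := by
  unfold F
  apply indicator_of_notMem
  rintro ⟨h1, h2⟩
  have h3 : 0 ≤ ∑ i, y i := Finset.sum_nonneg fun i _ => h1 i
  exact absurd (h3.trans h2) (not_le.2 hr)

lemma F_scale {r : ℝ} (hr : 0 < r) (t : Fin (k + 1) → ℝ) :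
    F p (r, r • t) = indicator (D k)
      (fun t => ENNReal.ofReal (Real.exp (-(1 / 2) * ((1 - sq p t) * r ^ 2)))) t := by
  unfold F
  have h1 : ((r, r • t) ∈ {x : ℝ × (Fin (k + 1) → ℝ) | (∀ i, 0 ≤ x.2 i) ∧ ∑ i, x.2 i ≤ x.1}) ↔
      t ∈ D k := by
    simp only [D, mem_ofPred_eq, Pi.smul_apply, smul_eq_mul, ← Finset.mul_sum]
    constructor
    · rintro ⟨h1, h2⟩
      refine ⟨fun i => nonneg_of_mul_nonneg_right (h1 i) hr, ?_⟩
      by_contra h3
      push Not at h3
      nlinarith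
    · rintro ⟨h1, h2⟩
      refine ⟨fun i => mul_nonneg hr.le (h1 i), ?_⟩
      nlinarith
  by_cases ht : t ∈ D k
  · rw [indicator_of_mem (h1.2 ht), indicator_of_mem ht]
    simp only [sq_smul]
    congr 3
    ring
  · rw [indicator_of_notMem (fun h => ht (h1.1 h)), indicator_of_notMem ht]

lemma JL_eq : JL p = ∫⁻ t in D k, ∫⁻ r in Ioi (0 : ℝ),
    ENNReal.ofReal (r ^ (k + 1) * Real.exp (-(1 / 2) * ((1 - sq p t) * r ^ 2))) := by
  rw [JL_eq_prod, lintegral_lintegral_swap]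
  swap
  · exact ((measurable_F p).comp measurable_swap).aemeasurable
  have h1 : ∀ᵐ r : ℝ, (∫⁻ y, F p (r, y)) = indicator (Ioi 0) (fun r => ∫⁻ y, F p (r, y)) r := by
    have h0 : ∀ᵐ r : ℝ, r ≠ 0 := by
      rw [ae_iff]
      simp
    filter_upwards [h0] with r hr
    rcases lt_or_gt_of_ne hr with h | h
    · rw [indicator_of_notMem (show r ∉ Ioi (0 : ℝ) from fun h' => lt_asymm h h')]
      simp only [F_neg p h, lintegral_zero]
    · rw [indicator_of_mem (show r ∈ Ioi (0 : ℝ) from h)]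
  rw [lintegral_congr_ae h1, lintegral_indicator measurableSet_Ioi]
  rw [← lintegral_indicator (isClosed_D k).measurableSet]
  have h2 : ∀ t, (D k).indicator (fun t => ∫⁻ r in Ioi (0 : ℝ), ENNReal.ofReal
      (r ^ (k + 1) * Real.exp (-(1 / 2) * ((1 - sq p t) * r ^ 2)))) t =
      ∫⁻ r in Ioi (0 : ℝ), (D k).indicator (fun t => ENNReal.ofReal
      (r ^ (k + 1) * Real.exp (-(1 / 2) * ((1 - sq p t) * r ^ 2)))) t := by
    intro t
    by_cases ht : t ∈ D k
    · simp only [indicator_of_mem ht]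
    · simp only [indicator_of_notMem ht, lintegral_zero]
  have hmeas : AEMeasurable (Function.uncurry fun (t : Fin (k + 1) → ℝ) (r : ℝ) =>
      (D k).indicator (fun t => ENNReal.ofReal (r ^ (k + 1) *
          Real.exp (-(1 / 2) * ((1 - sq p t) * r ^ 2)))) t)
      ((volume : Measure (Fin (k + 1) → ℝ)).prod ((volume : Measure ℝ).restrict (Ioi 0))) := by
    apply Measurable.aemeasurable
    have h3 : (Function.uncurry fun (t : Fin (k + 1) → ℝ) (r : ℝ) => (D k).indicator
        (fun t => ENNReal.ofReal (r ^ (k + 1) *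
          Real.exp (-(1 / 2) * ((1 - sq p t) * r ^ 2)))) t) =
        ((fun x : (Fin (k + 1) → ℝ) × ℝ => x.1) ⁻¹' (D k)).indicator
          (fun x => ENNReal.ofReal (x.2 ^ (k + 1) *
          Real.exp (-(1 / 2) * ((1 - sq p x.1) * x.2 ^ 2)))) := by
      ext ⟨t, r⟩
      rfl
    rw [h3]
    refine Measurable.indicator ?_ ((isClosed_D k).measurableSet.preimage measurable_fst)
    apply Measurable.ennreal_ofReal
    apply Continuous.measurable
    have h := continuous_sq p
    fun_prop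
  conv_rhs => rw [lintegral_congr h2, lintegral_lintegral_swap hmeas]
  refine setLIntegral_congr_fun measurableSet_Ioi fun r hr => ?_
  have hr' : 0 < r := hr
  rw [lintegral_scale (k + 1) hr', ← lintegral_const_mul' _ _ ENNReal.ofReal_ne_top]
  refine lintegral_congr fun t => ?_
  rw [F_scale p hr']
  by_cases ht : t ∈ D k
  · rw [indicator_of_mem ht, indicator_of_mem ht, ← ENNReal.ofReal_mul (by positivity)]
  · rw [indicator_of_notMem ht, indicator_of_notMem ht, mul_zero]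

lemma sq_lt_one (hp : ∀ i, ∑ j, (p i j) ^ 2 < 1) {t : Fin (k + 1) → ℝ} (ht : t ∈ D k) :
    sq p t < 1 := by
  obtain ⟨h0, h1⟩ := ht
  have h2 : ∀ j, (lc p t j) ^ 2 ≤ (∑ i, t i) * ∑ i, t i * (p i j) ^ 2 := by
    intro j
    unfold lc
    apply Finset.sum_sq_le_sum_mul_sum_of_sq_le_mul
    · exact fun i _ => h0 i
    · exact fun i _ => mul_nonneg (h0 i) (sq_nonneg _)
    · intro i _
      apply le_of_eq
      ring
  have h3 : sq p t ≤ (∑ i, t i) * ∑ i, t i * ∑ j, (p i j) ^ 2 := by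
    unfold sq
    refine (Finset.sum_le_sum fun j _ => h2 j).trans (le_of_eq ?_)
    rw [← Finset.mul_sum, Finset.sum_comm]
    simp only [Finset.mul_sum]
  have h4 : 0 ≤ ∑ i, t i * ∑ j, (p i j) ^ 2 :=
    Finset.sum_nonneg fun i _ => mul_nonneg (h0 i) (Finset.sum_nonneg fun j _ => sq_nonneg _)
  have h5 : sq p t ≤ ∑ i, t i * ∑ j, (p i j) ^ 2 := by
    have h6 : 0 ≤ ∑ i, t i := Finset.sum_nonneg fun i _ => h0 i
    nlinarith
  by_cases hz : ∀ i, t i = 0
  · refine lt_of_le_of_lt h5 ?_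
    simp [hz]
  · push Not at hz
    obtain ⟨i, hi⟩ := hz
    have h7 : ∑ i, t i * ∑ j, (p i j) ^ 2 < ∑ i, t i := by
      apply Finset.sum_lt_sum
      · intro i _
        have := h0 i
        have := hp i
        nlinarith
      · refine ⟨i, Finset.mem_univ _, ?_⟩
        have h8 : 0 < t i := lt_of_le_of_ne (h0 i) (Ne.symm hi)
        have := hp i
        nlinarith
    linarith

lemma JL_eq' (hp : ∀ i, ∑ j, (p i j) ^ 2 < 1) : JL p =
    (∫⁻ t in D k, ENNReal.ofReal ((1 - sq p t) ^ (-((k : ℝ) + 2) / 2))) * radL k := by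
  rw [JL_eq, ← lintegral_mul_const]
  · refine setLIntegral_congr_fun (isClosed_D k).measurableSet fun t ht => ?_
    exact rad_param k (by linarith [sq_lt_one p hp ht])
  · apply Measurable.ennreal_ofReal
    exact (measurable_const.sub (continuous_sq p).measurable).pow_const _

/-- The linear map `t ↦ ∑ t i * p i`. -/
noncomputable def LM : (Fin (k + 1) → ℝ) →L[ℝ] (Fin (k + 1) → ℝ) :=
  LinearMap.toContinuousLinearMap (Matrix.toLin' (Matrix.of p).transpose)

lemma LM_apply (t : Fin (k + 1) → ℝ) : LM p t = lc p t := by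
  funext j
  unfold LM lc
  rw [LinearMap.coe_toContinuousLinearMap', Matrix.toLin'_apply]
  simp only [Matrix.mulVec, dotProduct, Matrix.transpose_apply, Matrix.of_apply]
  exact Finset.sum_congr rfl fun i _ => mul_comm _ _

lemma LM_det : (LM p).det = (Matrix.of p).det := by
  unfold LM
  rw [ContinuousLinearMap.det, LinearMap.coe_toContinuousLinearMap, LinearMap.det_toLin',
    Matrix.det_transpose]

lemma hull_eq : convexHull ℝ (insert 0 (Set.range p)) = LM p '' D k := by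
  apply Subset.antisymm
  · apply convexHull_min
    · intro x hx
      rcases hx with rfl | ⟨i, rfl⟩
      · exact ⟨0, ⟨fun i => le_rfl, by simp⟩, map_zero _⟩
      · refine ⟨Pi.single i 1, ⟨fun j => ?_, ?_⟩, ?_⟩
        · rw [Pi.single_apply]
          split_ifs <;> norm_num
        · simp
        · rw [LM_apply]
          funext j
          simp [lc, Pi.single_apply]
    · apply Convex.linear_image
      intro x hx y hy a b ha hb hab
      refine ⟨fun i => ?_, ?_⟩
      · rw [Pi.add_apply, Pi.smul_apply, Pi.smul_apply, smul_eq_mul, smul_eq_mul]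
        have := hx.1 i
        have := hy.1 i
        positivity
      · simp only [Pi.add_apply, Pi.smul_apply, smul_eq_mul, Finset.sum_add_distrib,
          ← Finset.mul_sum]
        have := hx.2
        have := hy.2
        nlinarith
  · rintro x ⟨t, ⟨ht0, ht1⟩, rfl⟩
    have h := Convex.sum_mem (convex_convexHull ℝ (insert 0 (Set.range p)))
      (t := (Finset.univ : Finset (Fin (k + 2))))
      (w := (Fin.cons (1 - ∑ i, t i) t : Fin (k + 2) → ℝ))
      (z := (Fin.cons 0 p : Fin (k + 2) → Fin (k + 1) → ℝ)) ?_ ?_ ?_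
    · rw [Fin.sum_univ_succ] at h
      simp only [Fin.cons_zero, Fin.cons_succ, smul_zero, zero_add] at h
      convert h using 1
      rw [LM_apply]
      funext j
      simp [lc]
    · intro i _
      refine Fin.cases ?_ (fun i => ?_) i
      · simp only [Fin.cons_zero]; linarith
      · simp only [Fin.cons_succ]; exact ht0 i
    · rw [Fin.sum_univ_succ]
      simp
    · intro i _
      refine Fin.cases ?_ (fun i => ?_) i
      · simp only [Fin.cons_zero]; exact subset_convexHull ℝ _ (mem_insert _ _)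
      · simp only [Fin.cons_succ]
        exact subset_convexHull ℝ _ (mem_insert_of_mem _ (mem_range_self i))

lemma hyp_hull (hdet : (Matrix.of p).det ≠ 0) :
    (hypMeasure k) (convexHull ℝ (insert 0 (Set.range p))) =
      ENNReal.ofReal |(Matrix.of p).det| *
        ∫⁻ t in D k, ENNReal.ofReal ((1 - sq p t) ^ (-((k : ℝ) + 2) / 2)) := by
  have hinj : Function.Injective (LM p) := by
    have h1 : Function.Injective (Matrix.of p).transpose.mulVec := by
      apply Matrix.mulVec_injective_of_isUnit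
      rw [Matrix.isUnit_iff_isUnit_det, Matrix.det_transpose]
      exact isUnit_iff_ne_zero.2 hdet
    intro x y hxy
    apply h1
    exact hxy
  have hcomp : IsCompact (D k) := by
    apply isCompact_Icc.of_isClosed_subset (isClosed_D k)
      (s := Icc (0 : Fin (k + 1) → ℝ) 1)
    rintro t ⟨h0, h1⟩
    exact ⟨fun i => h0 i, fun i => (Finset.single_le_sum (fun j _ => h0 j)
      (Finset.mem_univ i)).trans h1⟩
  unfold hypMeasure
  rw [withDensity_apply, hull_eq]
  · rw [lintegral_image_eq_lintegral_abs_det_fderiv_mul volume (isClosed_D k).measurableSet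
      (fun x _ => (LM p).hasFDerivWithinAt) hinj.injOn]
    rw [LM_det, lintegral_const_mul' _ _ ENNReal.ofReal_ne_top]
    simp only [LM_apply]
    rfl
  · rw [hull_eq]
    exact (hcomp.image (LM p).continuous).measurableSet

end HypVol

open HypVol in
theorem hypVol_eq (k : ℕ) (p : Fin (k + 1) → Fin (k + 1) → ℝ) (hp : ∀ i, ∑ j, (p i j) ^ 2 < 1) :
    Real.sign (Matrix.det (Matrix.of p)) *
      ((hypMeasure k) (convexHull ℝ (insert 0 (Set.range p)))).toReal * radialConst k =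
    Matrix.det (Matrix.of p) *
      J (Matrix.of fun a b : Fin (k + 2) =>
        1 - ∑ j, (Fin.cons 0 p : Fin (k + 2) → Fin (k + 1) → ℝ) a j *
          (Fin.cons 0 p : Fin (k + 2) → Fin (k + 1) → ℝ) b j) := by
  by_cases hdet : (Matrix.of p).det = 0
  · rw [hdet, Real.sign_zero, zero_mul, zero_mul, zero_mul]
  · rw [J_eq, JL_eq' p hp, hyp_hull p hdet, radialConst_eq, ENNReal.toReal_mul,
      ENNReal.toReal_mul, ENNReal.toReal_ofReal (abs_nonneg _)]
    have h1 : Real.sign (Matrix.of p).det * |(Matrix.of p).det| = (Matrix.of p).det := by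
      rcases lt_or_gt_of_ne hdet with h | h
      · rw [Real.sign_of_neg h, abs_of_neg h]; ring
      · rw [Real.sign_of_pos h, abs_of_pos h]; ring
    conv_rhs => rw [← h1]
    ring

theorem radialConst_pos (k : ℕ) : 0 < radialConst k := by
  unfold radialConst
  have h1 : IntegrableOn (fun r : ℝ => r ^ (k + 1) * Real.exp (-(1 / 2) * r ^ 2)) (Ioi 0) := by
    have h := integrableOn_rpow_mul_exp_neg_mul_sq (b := 1 / 2) (by norm_num)
      (s := ((k + 1 : ℕ) : ℝ)) (by push_cast; have : (0 : ℝ) ≤ k := Nat.cast_nonneg k; linarith)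
    simpa only [Real.rpow_natCast] using h
  rw [setIntegral_pos_iff_support_of_nonneg_ae _ h1]
  · have h2 : Ioi (0 : ℝ) ⊆ Function.support
        (fun r : ℝ => r ^ (k + 1) * Real.exp (-(1 / 2) * r ^ 2)) ∩ Ioi 0 := by
      intro r hr
      have hr' : 0 < r := hr
      refine ⟨?_, hr⟩
      rw [Function.mem_support]
      positivity
    refine lt_of_lt_of_le ?_ (measure_mono h2)
    simp
  · refine (ae_restrict_iff' measurableSet_Ioi).2 (Filter.Eventually.of_forall fun r hr => ?_)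
    have : (0 : ℝ) < r := hr
    simp only [Pi.zero_apply]
    positivity

end Pool.Agent.Work.MP_1c91cf_gt

end

section

/-!
# Invariance of the Gaussian orthant integral under permutations
-/

set_option autoImplicit false

open MeasureTheory

namespace Pool.Agent.Work.MP_1c91cf_gt

theorem J_perm {N : ℕ} (Q : Matrix (Fin N) (Fin N) ℝ) (π : Equiv.Perm (Fin N)) :
    J (Q.submatrix π π) = J Q := by
  have hmp := volume_preserving_arrowCongr' π (MeasurableEquiv.refl ℝ)
    (MeasurePreserving.id (volume : Measure ℝ))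
  have hval : ∀ (l : Fin N → ℝ) (i : Fin N),
      (MeasurableEquiv.arrowCongr' π (MeasurableEquiv.refl ℝ)) l i = l (π.symm i) := by
    intro l i
    rfl
  have h := hmp.setIntegral_preimage_emb
    (MeasurableEquiv.measurableEmbedding _)
    (fun l : Fin N → ℝ => Real.exp (-(1 / 2) * ∑ i, ∑ j, Q i j * l i * l j))
    {l | ∀ i, 0 < l i}
  unfold J
  rw [← h]
  have hset : (MeasurableEquiv.arrowCongr' π (MeasurableEquiv.refl ℝ)) ⁻¹'
      {l : Fin N → ℝ | ∀ i, 0 < l i} = {l : Fin N → ℝ | ∀ i, 0 < l i} := by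
    ext l
    simp only [Set.mem_preimage, Set.mem_ofPred_eq, hval]
    exact ⟨fun h i => by simpa using h (π i), fun h i => h _⟩
  rw [hset]
  congr 1
  funext l
  congr 2
  symm
  rw [← Equiv.sum_comp π]
  refine Finset.sum_congr rfl fun i _ => ?_
  rw [← Equiv.sum_comp π]
  refine Finset.sum_congr rfl fun j _ => ?_
  rw [hval, hval]
  simp

end Pool.Agent.Work.MP_1c91cf_gt

end

section

/-!
# Real Lorentz geometry
-/

set_option autoImplicit false
set_option linter.unusedSectionVars false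

open Matrix

namespace Pool.Agent.Work.MP_1c91cf_gt

variable {N : ℕ}

/-- unit future timelike vectors (points of hyperbolic space) -/
def Fut (y : Fin (N + 1) → ℝ) : Prop := lor y y = -1 ∧ 0 < y 0

lemma lor_real (z w : Fin (N + 1) → ℝ) : lor z w = -(z 0 * w 0) + ∑ i : Fin N, z i.succ * w i.succ := by
  simp [lor, Fin.sum_univ_succ, eta]

lemma lor_pos_orth_real {t w : Fin (N + 1) → ℝ} (ht : lor t t < 0) (htw : lor t w = 0)
    (hw : w ≠ 0) : 0 < lor w w := by
  rw [lor_real] at ht htw ⊢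
  set T := ∑ i : Fin N, t i.succ * t i.succ with hT
  set W := ∑ i : Fin N, w i.succ * w i.succ with hW
  have hcs : (∑ i : Fin N, t i.succ * w i.succ) ^ 2 ≤ T * W := by
    have := Finset.sum_mul_sq_le_sq_mul_sq Finset.univ (fun i : Fin N => t i.succ)
      (fun i : Fin N => w i.succ)
    simpa only [hT, hW, sq] using this
  have hW0 : 0 ≤ W := Finset.sum_nonneg fun i _ => mul_self_nonneg _
  have hT0 : 0 ≤ T := Finset.sum_nonneg fun i _ => mul_self_nonneg _
  have h1 : ∑ i : Fin N, t i.succ * w i.succ = t 0 * w 0 := by linarith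
  rw [h1] at hcs
  have ht0 : 0 < t 0 * t 0 := by linarith
  rcases hW0.lt_or_eq with hW1 | hW1
  · have h2 : t 0 * t 0 * (w 0 * w 0) < t 0 * t 0 * W := by
      nlinarith
    have h3 := lt_of_mul_lt_mul_left h2 ht0.le
    linarith
  · exfalso
    rw [← hW1, mul_zero] at hcs
    have h2 : t 0 * w 0 = 0 := by nlinarith [sq_nonneg (t 0 * w 0)]
    have h3 : t 0 ≠ 0 := by
      rintro h; rw [h] at ht0; simp at ht0
    have h4 : w 0 = 0 := (mul_eq_zero.1 h2).resolve_left h3
    apply hw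
    ext i
    refine Fin.cases h4 (fun j => ?_) i
    have h5 := (Finset.sum_eq_zero_iff_of_nonneg
      (fun i _ => mul_self_nonneg (w (Fin.succ i)))).1 hW1.symm j (Finset.mem_univ _)
    exact mul_self_eq_zero.1 h5

lemma Fut.lor_neg {y z : Fin (N + 1) → ℝ} (hy : Fut y) (hz : Fut z) : lor y z < 0 := by
  obtain ⟨hy1, hy0⟩ := hy
  obtain ⟨hz1, hz0⟩ := hz
  rw [lor_real] at hy1 hz1 ⊢
  have hcs := Finset.sum_mul_sq_le_sq_mul_sq Finset.univ (fun i : Fin N => y i.succ)
      (fun i : Fin N => z i.succ)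
  by_contra hcon
  push Not at hcon
  have h1 : y 0 * z 0 ≤ ∑ i : Fin N, y i.succ * z i.succ := by linarith
  have h2 : (y 0 * z 0) ^ 2 ≤ (∑ i : Fin N, y i.succ * z i.succ) ^ 2 :=
    pow_le_pow_left₀ (mul_pos hy0 hz0).le h1 2
  have h3 : ∑ i : Fin N, (y i.succ) ^ 2 = y 0 ^ 2 - 1 := by
    have : ∑ i : Fin N, (y i.succ) ^ 2 = ∑ i : Fin N, y i.succ * y i.succ :=
      Finset.sum_congr rfl fun i _ => sq _
    rw [this]; nlinarith
  have h4 : ∑ i : Fin N, (z i.succ) ^ 2 = z 0 ^ 2 - 1 := by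
    have : ∑ i : Fin N, (z i.succ) ^ 2 = ∑ i : Fin N, z i.succ * z i.succ :=
      Finset.sum_congr rfl fun i _ => sq _
    rw [this]; nlinarith
  rw [h3, h4] at hcs
  have h5 : 0 ≤ y 0 ^ 2 - 1 := by rw [← h3]; exact Finset.sum_nonneg fun i _ => sq_nonneg _
  have h6 : 0 ≤ z 0 ^ 2 - 1 := by rw [← h4]; exact Finset.sum_nonneg fun i _ => sq_nonneg _
  nlinarith

/-- relation from a kernel vector of the Gram matrix -/
lemma relation_of_kernel {k : ℕ} (F : Fin k → Fin (N + 1) → ℝ) {t : Fin (N + 1) → ℝ}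
    (ht : lor t t < 0) (htF : t ∈ Submodule.span ℝ (Set.range F)) {c : Fin k → ℝ}
    (hc : ∀ b, ∑ a, c a * lor (F a) (F b) = 0) : ∑ a, c a • F a = 0 := by
  by_contra hne
  have h1 : ∀ b, lor (F b) (∑ a, c a • F a) = 0 := by
    intro b
    rw [lor_comm, lor_sum_left, ← hc b]
    exact Finset.sum_congr rfl fun a _ => lor_smul_left _ _ _
  have h2 : ∀ z ∈ Submodule.span ℝ (Set.range F), lor z (∑ a, c a • F a) = 0 := by
    intro z hz
    induction hz using Submodule.span_induction with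
    | mem x hx => obtain ⟨i, rfl⟩ := hx; exact h1 i
    | zero => exact lor_zero_left _
    | add x y _ _ hx hy => rw [lor_add_left, hx, hy, add_zero]
    | smul a x _ hx => rw [lor_smul_left, hx, mul_zero]
  have h3 := lor_pos_orth_real ht (h2 t htF) hne
  have h4 := h2 (∑ a, c a • F a) (Submodule.sum_mem _ fun a _ =>
    Submodule.smul_mem _ _ (Submodule.subset_span ⟨a, rfl⟩))
  linarith

lemma det_gram_ne_iff {k : ℕ} (F : Fin (k + 1) → Fin (N + 1) → ℝ) (hF : ∀ a, Fut (F a)) :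
    (gram F F).det ≠ 0 ↔ LinearIndependent ℝ F := by
  refine ⟨linearIndependent_of_det_gram F, fun hli hdet => ?_⟩
  obtain ⟨c, hc, hcG⟩ := Matrix.exists_vecMul_eq_zero_iff.2 hdet
  have h1 : ∑ a, c a • F a = 0 := by
    refine relation_of_kernel F (t := F 0) (by rw [(hF 0).1]; norm_num)
      (Submodule.subset_span ⟨0, rfl⟩) ?_
    intro b
    have := congrFun hcG b
    simpa only [Matrix.vecMul, dotProduct, gram_apply, Pi.zero_apply] using this
  exact hc (funext (Fintype.linearIndependent_iff.1 hli c h1))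

lemma perp_pos {k : ℕ} (F : Fin (k + 1) → Fin (N + 1) → ℝ) (hF : ∀ a, Fut (F a))
    (hd : (gram F F).det ≠ 0) (x : Fin (N + 1) → ℝ) (hx : x ∉ Submodule.span ℝ (Set.range F)) :
    0 < lor (perp F x) (perp F x) := by
  refine lor_pos_orth_real (t := F 0) (by rw [(hF 0).1]; norm_num) ?_ ?_
  · rw [lor_comm]; exact lor_perp F hd x 0
  · intro h0
    apply hx
    have h1 : x = prj F x := by
      rw [perp] at h0
      exact sub_eq_zero.1 h0
    rw [h1]
    exact prj_mem_span F x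

lemma perp_nonneg {k : ℕ} (F : Fin (k + 1) → Fin (N + 1) → ℝ) (hF : ∀ a, Fut (F a))
    (hd : (gram F F).det ≠ 0) (x : Fin (N + 1) → ℝ) :
    0 ≤ lor (perp F x) (perp F x) := by
  by_cases hx : x ∈ Submodule.span ℝ (Set.range F)
  · rw [mem_span_perp F hd x hx, lor_zero_left]
  · exact (perp_pos F hF hd x hx).le

lemma det_gram_neg {k : ℕ} (F : Fin (k + 1) → Fin (N + 1) → ℝ) (hF : ∀ a, Fut (F a))
    (hd : (gram F F).det ≠ 0) : (gram F F).det < 0 := by
  induction k with
  | zero =>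
    rw [Matrix.det_fin_one, gram_apply, (hF 0).1]
    norm_num
  | succ k ih =>
    have hli := (det_gram_ne_iff F hF).1 hd
    rw [← Fin.cons_self_tail F] at hli
    rw [linearIndependent_finCons] at hli
    have hd' : (gram (Fin.tail F) (Fin.tail F)).det ≠ 0 :=
      (det_gram_ne_iff _ fun a => hF a.succ).2 hli.1
    have h1 := ih (Fin.tail F) (fun a => hF a.succ) hd'
    have h2 := det_gram_cons_eq (Fin.tail F) hd' (F 0) (F 0)
    rw [Fin.cons_self_tail] at h2
    rw [h2]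
    have h3 := perp_pos (Fin.tail F) (fun a => hF a.succ) hd' (F 0) hli.2
    exact mul_neg_of_neg_of_pos h1 h3

end Pool.Agent.Work.MP_1c91cf_gt

end

section

/-!
# Self-dual norms (vertices of the building)
-/

set_option autoImplicit false
set_option linter.unusedSectionVars false

open Matrix

namespace Pool.Agent.Work.MP_1c91cf_gt

variable {L κ : Type*} [Field L] [Field κ] [Algebra ℂ L] [Algebra ℂ κ]

/-- A tuple whose Gram matrix is a nondegenerate real matrix. -/
structure RealTuple {k n : ℕ} (F : Fin k → Fin (n + 1) → L) (Γ : Matrix (Fin k) (Fin k) ℝ) :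
    Prop where
  eq : gram F F = Γ.map rl
  ne : Γ.det ≠ 0

namespace RealTuple

variable {k n : ℕ} {F : Fin k → Fin (n + 1) → L} {Γ : Matrix (Fin k) (Fin k) ℝ}

lemma det_eq (h : RealTuple F Γ) : (gram F F).det = rl Γ.det := by
  rw [h.eq, RingHom.map_det]; rfl

lemma det_ne (h : RealTuple F Γ) : (gram F F).det ≠ 0 := by
  rw [h.det_eq, map_ne_zero_iff _ (RingHom.injective _)]
  exact h.ne

lemma inv_eq (h : RealTuple F Γ) : (gram F F)⁻¹ = Γ⁻¹.map (rl : ℝ →+* L) := by
  rw [h.eq]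
  apply Matrix.inv_eq_left_inv
  have h1 : Γ⁻¹ * Γ = 1 := Matrix.nonsing_inv_mul _ (isUnit_iff_ne_zero.2 h.ne)
  have h2 := congrArg (fun M : Matrix (Fin k) (Fin k) ℝ => M.map (rl : ℝ →+* L)) h1
  simp only [Matrix.map_mul] at h2
  rw [h2]
  ext i j
  simp [Matrix.one_apply]

variable (P : Place L κ)

lemma inv_ge (h : RealTuple F Γ) (a b : Fin k) :
    ((0 : ℤ) : WithTop ℤ) ≤ P.o ((gram F F)⁻¹ a b) := by
  rw [h.inv_eq]; exact P.o_real_ge _

lemma coef_ge (h : RealTuple F Γ) {m : ℤ} {z : Fin (n + 1) → L}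
    (hz : ∀ b, (m : WithTop ℤ) ≤ P.o (lor z (F b))) (a : Fin k) :
    (m : WithTop ℤ) ≤ P.o (((gram F F)⁻¹ *ᵥ fun b => lor z (F b)) a) := by
  rw [Matrix.mulVec, dotProduct]
  refine P.ge_sum _ _ fun b _ => ?_
  have := P.ge_mul (h.inv_ge P a b) (hz b)
  rwa [zero_add] at this

lemma lor_prj_prj_ge (h : RealTuple F Γ) {m m' : ℤ} {z w : Fin (n + 1) → L}
    (hz : ∀ b, (m : WithTop ℤ) ≤ P.o (lor z (F b)))
    (hw : ∀ b, (m' : WithTop ℤ) ≤ P.o (lor w (F b))) :
    ((m + m' : ℤ) : WithTop ℤ) ≤ P.o (lor (prj F z) (prj F w)) := by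
  rw [lor_prj_prj F h.det_ne]
  refine P.ge_sum _ _ fun a _ => P.ge_sum _ _ fun b _ => ?_
  have := P.ge_mul (P.ge_mul (h.inv_ge P a b) (hz a)) (hw b)
  rwa [zero_add] at this

end RealTuple

variable {n : ℕ}

/-- Self-dual norms with values in `WithTop ℤ`. -/
structure SDN (P : Place L κ) (μ : (Fin (n + 1) → L) → WithTop ℤ) : Prop where
  add : ∀ z w, min (μ z) (μ w) ≤ μ (z + w)
  smul : ∀ c z, μ (c • z) = P.o c + μ z
  top : ∀ z, μ z = ⊤ → z = 0
  pair : ∀ z w, μ z + μ w ≤ P.o (lor z w)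
  dual : ∀ z, z ≠ 0 → ∃ w, w ≠ 0 ∧ P.o (lor z w) ≤ μ z + μ w

namespace SDN

variable {P : Place L κ} {μ : (Fin (n + 1) → L) → WithTop ℤ}

lemma zero (h : SDN P μ) : μ 0 = ⊤ := by
  have := h.smul 0 0
  rw [zero_smul, P.o_zero, top_add] at this
  exact this

lemma ge_add (h : SDN P μ) {m : ℤ} {z w : Fin (n + 1) → L} (hz : (m : WithTop ℤ) ≤ μ z)
    (hw : (m : WithTop ℤ) ≤ μ w) : (m : WithTop ℤ) ≤ μ (z + w) := le_trans (le_min hz hw) (h.add z w)

lemma ge_smul (h : SDN P μ) {m m' : ℤ} {c : L} {z : Fin (n + 1) → L}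
    (hc : (m : WithTop ℤ) ≤ P.o c) (hz : (m' : WithTop ℤ) ≤ μ z) :
    ((m + m' : ℤ) : WithTop ℤ) ≤ μ (c • z) := by
  rw [h.smul]; exact wt_add hc hz

lemma ge_neg (h : SDN P μ) {m : ℤ} {z : Fin (n + 1) → L} (hz : (m : WithTop ℤ) ≤ μ z) :
    (m : WithTop ℤ) ≤ μ (-z) := by
  rw [← neg_one_smul L z]
  have h1 : ((0 : ℤ) : WithTop ℤ) ≤ P.o (-1 : L) := by rw [P.o_neg, P.o_one]; rfl
  have := h.ge_smul h1 hz
  rwa [zero_add] at this

lemma ge_sub (h : SDN P μ) {m : ℤ} {z w : Fin (n + 1) → L} (hz : (m : WithTop ℤ) ≤ μ z)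
    (hw : (m : WithTop ℤ) ≤ μ w) : (m : WithTop ℤ) ≤ μ (z - w) := by
  rw [sub_eq_add_neg]; exact h.ge_add hz (h.ge_neg hw)

lemma ge_sum (h : SDN P μ) {ι : Type*} {m : ℤ} (s : Finset ι) (f : ι → Fin (n + 1) → L)
    (hf : ∀ a ∈ s, (m : WithTop ℤ) ≤ μ (f a)) : (m : WithTop ℤ) ≤ μ (∑ a ∈ s, f a) := by
  classical
  induction s using Finset.induction_on with
  | empty => rw [Finset.sum_empty, h.zero]; exact le_top
  | insert a s ha ih =>
    rw [Finset.sum_insert ha]
    exact h.ge_add (hf a (Finset.mem_insert_self _ _))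
      (ih fun b hb => hf b (Finset.mem_insert_of_mem hb))

lemma ge_pair (h : SDN P μ) {m m' : ℤ} {z w : Fin (n + 1) → L} (hz : (m : WithTop ℤ) ≤ μ z)
    (hw : (m' : WithTop ℤ) ≤ μ w) : ((m + m' : ℤ) : WithTop ℤ) ≤ P.o (lor z w) :=
  le_trans (wt_add hz hw) (h.pair z w)

lemma exists_int (h : SDN P μ) {z : Fin (n + 1) → L} (hz : z ≠ 0) : ∃ k : ℤ, μ z = k := by
  have h1 : μ z ≠ ⊤ := fun h2 => hz (h.top z h2)
  obtain ⟨k, hk⟩ := WithTop.ne_top_iff_exists.1 h1
  exact ⟨k, hk.symm⟩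

/-- duality criterion for lower bounds -/
lemma ge_of_dual (h : SDN P μ) {z : Fin (n + 1) → L} {m : ℤ}
    (hz : ∀ (w : Fin (n + 1) → L) (s : ℤ), (s : WithTop ℤ) ≤ μ w →
      ((m + s : ℤ) : WithTop ℤ) ≤ P.o (lor z w)) : (m : WithTop ℤ) ≤ μ z := by
  by_cases h0 : z = 0
  · rw [h0, h.zero]; exact le_top
  obtain ⟨w, hw0, hw⟩ := h.dual z h0
  obtain ⟨a, ha⟩ := h.exists_int h0
  obtain ⟨s, hs⟩ := h.exists_int hw0
  have h1 := le_trans (hz w s hs.ge) hw
  rw [ha, hs, ← WithTop.coe_add, WithTop.coe_le_coe] at h1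
  rw [ha, WithTop.coe_le_coe]
  omega

variable {k : ℕ} {F : Fin k → Fin (n + 1) → L} {Γ : Matrix (Fin k) (Fin k) ℝ}

lemma prj_ge (h : SDN P μ) (hF : RealTuple F Γ) (hμ : ∀ a, ((0 : ℤ) : WithTop ℤ) ≤ μ (F a))
    {m : ℤ} {z : Fin (n + 1) → L} (hz : ∀ b, (m : WithTop ℤ) ≤ P.o (lor z (F b))) :
    (m : WithTop ℤ) ≤ μ (prj F z) := by
  rw [prj]
  refine h.ge_sum _ _ fun a _ => ?_
  have := h.ge_smul (hF.coef_ge P hz a) (hμ a)
  rwa [add_zero] at this

lemma prj_ge' (h : SDN P μ) (hF : RealTuple F Γ) (hμ : ∀ a, ((0 : ℤ) : WithTop ℤ) ≤ μ (F a))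
    {m : ℤ} {z : Fin (n + 1) → L} (hz : (m : WithTop ℤ) ≤ μ z) :
    (m : WithTop ℤ) ≤ μ (prj F z) := by
  refine h.prj_ge hF hμ fun b => ?_
  have := h.ge_pair hz (hμ b)
  rwa [add_zero] at this

lemma perp_ge' (h : SDN P μ) (hF : RealTuple F Γ) (hμ : ∀ a, ((0 : ℤ) : WithTop ℤ) ≤ μ (F a))
    {m : ℤ} {z : Fin (n + 1) → L} (hz : (m : WithTop ℤ) ≤ μ z) :
    (m : WithTop ℤ) ≤ μ (perp F z) := h.ge_sub hz (h.prj_ge' hF hμ hz)

end SDN

section nrm

variable (P : Place L κ) {k : ℕ}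

/-- The norms along the apartment line of `F`. -/
noncomputable def nrm (F : Fin k → Fin (k + 2) → L) (ep em : Fin (k + 2) → L) (j : ℤ)
    (z : Fin (k + 2) → L) : WithTop ℤ :=
  (Finset.univ.inf fun a => P.o (lor z (F a))) ⊓
    ((((-j : ℤ) : WithTop ℤ) + P.o (lor z ep)) ⊓ (((j : ℤ) : WithTop ℤ) + P.o (lor z em)))

lemma le_nrm {F : Fin k → Fin (k + 2) → L} {ep em : Fin (k + 2) → L} {j : ℤ}
    {z : Fin (k + 2) → L} {m : ℤ} : (m : WithTop ℤ) ≤ nrm P F ep em j z ↔
      (∀ a, (m : WithTop ℤ) ≤ P.o (lor z (F a))) ∧ ((m + j : ℤ) : WithTop ℤ) ≤ P.o (lor z ep) ∧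
      ((m - j : ℤ) : WithTop ℤ) ≤ P.o (lor z em) := by
  rw [nrm, le_inf_iff, le_inf_iff, Finset.le_inf_iff, wt_sub, wt_sub]
  simp only [Finset.mem_univ, forall_true_left, sub_neg_eq_add]

variable {F : Fin k → Fin (k + 2) → L} {Γ : Matrix (Fin k) (Fin k) ℝ} {D I : L}
  {ep em : Fin (k + 2) → L}

lemma nrm_ep (h : HypPair F D I ep em) (j : ℤ) : nrm P F ep em j ep = j := by
  apply le_antisymm
  · apply wt_le
    intro m hm
    rw [le_nrm] at hm
    have := hm.2.2
    rw [h.pm, P.o_two, WithTop.coe_le_coe] at this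
    rw [WithTop.coe_le_coe]; omega
  · rw [le_nrm]
    refine ⟨fun a => ?_, ?_, ?_⟩
    · rw [h.pF]; exact P.ge_zero
    · rw [h.pp]; exact P.ge_zero
    · rw [h.pm, P.o_two, WithTop.coe_le_coe]; omega

lemma nrm_em (h : HypPair F D I ep em) (j : ℤ) : nrm P F ep em j em = ((-j : ℤ) : WithTop ℤ) := by
  apply le_antisymm
  · apply wt_le
    intro m hm
    rw [le_nrm] at hm
    have := hm.2.1
    rw [lor_comm, h.pm, P.o_two, WithTop.coe_le_coe] at this
    rw [WithTop.coe_le_coe]; omega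
  · rw [le_nrm]
    refine ⟨fun a => ?_, ?_, ?_⟩
    · rw [h.mF]; exact P.ge_zero
    · rw [lor_comm, h.pm, P.o_two, WithTop.coe_le_coe]; omega
    · rw [h.mm]; exact P.ge_zero

lemma nrm_F (h : HypPair F D I ep em) (hF : RealTuple F Γ) (j : ℤ) (a : Fin k) :
    ((0 : ℤ) : WithTop ℤ) ≤ nrm P F ep em j (F a) := by
  rw [le_nrm]
  refine ⟨fun b => ?_, ?_, ?_⟩
  · have h1 : lor (F a) (F b) = rl (Γ a b) := by
      rw [← gram_apply, hF.eq]; rfl
    rw [h1]; exact P.o_real_ge _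
  · rw [lor_comm, h.pF]; exact P.ge_zero
  · rw [lor_comm, h.mF]; exact P.ge_zero

lemma sdn_nrm (h : HypPair F D I ep em) (hF : RealTuple F Γ) (j : ℤ) :
    SDN P (nrm P F ep em j) where
  add z w := by
    apply wt_le
    intro m hm
    rw [le_min_iff, le_nrm, le_nrm] at hm
    rw [le_nrm]
    refine ⟨fun a => ?_, ?_, ?_⟩
    · rw [lor_add_left]; exact P.ge_add (hm.1.1 a) (hm.2.1 a)
    · rw [lor_add_left]; exact P.ge_add hm.1.2.1 hm.2.2.1
    · rw [lor_add_left]; exact P.ge_add hm.1.2.2 hm.2.2.2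
  smul c z := by
    by_cases hc : c = 0
    · subst hc
      rw [P.o_zero, top_add, zero_smul]
      refine le_antisymm le_top (wt_le fun m _ => ?_)
      rw [le_nrm]
      simp only [lor_zero_left]
      exact ⟨fun _ => P.ge_zero, P.ge_zero, P.ge_zero⟩
    · obtain ⟨s, hs⟩ := P.exists_int hc
      have key : ∀ (m : ℤ) (w : Fin (k + 2) → L), ((m : ℤ) : WithTop ℤ) ≤ P.o (lor (c • z) w) ↔
          ((m - s : ℤ) : WithTop ℤ) ≤ P.o (lor z w) := by
        intro m w
        rw [lor_smul_left, P.o_mul, hs, wt_sub]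
      rw [hs]
      apply le_antisymm
      · apply wt_le
        intro m hm
        rw [wt_sub, le_nrm]
        rw [le_nrm] at hm
        simp only [key] at hm
        refine ⟨hm.1, ?_, ?_⟩
        · convert hm.2.1 using 2; ring
        · convert hm.2.2 using 2; ring
      · apply wt_le
        intro m hm
        rw [wt_sub, le_nrm] at hm
        rw [le_nrm]
        simp only [key]
        refine ⟨hm.1, ?_, ?_⟩
        · convert hm.2.1 using 2; ring
        · convert hm.2.2 using 2; ring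
  top z hz := by
    have h1 : ∀ m : ℤ, (m : WithTop ℤ) ≤ nrm P F ep em j z := by
      intro m; rw [hz]; exact le_top
    have hall : ∀ x : L, (∀ m : ℤ, (m : WithTop ℤ) ≤ P.o x) → x = 0 := by
      intro x hx
      by_contra hne
      obtain ⟨s, hs⟩ := P.exists_int hne
      have := hx (s + 1)
      rw [hs, WithTop.coe_le_coe] at this
      omega
    have hF0 : ∀ a, lor z (F a) = 0 := fun a => hall _ fun m => ((le_nrm P).1 (h1 m)).1 a
    have hep : lor z ep = 0 := hall _ fun m => by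
      have := ((le_nrm P).1 (h1 (m - j))).2.1
      rwa [sub_add_cancel] at this
    have hem : lor z em = 0 := hall _ fun m => by
      have := ((le_nrm P).1 (h1 (m + j))).2.2
      rwa [add_sub_cancel_right] at this
    have hdec := h.decomp hF.det_ne two_ne' z
    have hp : prj F z = 0 := by
      have : (fun b => lor z (F b)) = 0 := by ext b; exact hF0 b
      simp [prj, this]
    rw [hp, hep, hem] at hdec
    simpa using hdec
  pair z w := by
    apply wt_le
    intro m hm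
    -- split the threshold
    by_cases h0 : ∃ m1 m2 : ℤ, m1 + m2 = m ∧ (m1 : WithTop ℤ) ≤ nrm P F ep em j z ∧
        (m2 : WithTop ℤ) ≤ nrm P F ep em j w
    · obtain ⟨m1, m2, hm12, h1, h2⟩ := h0
      rw [le_nrm] at h1 h2
      rw [h.lor_eq hF.det_ne two_ne' z w, ← hm12]
      refine P.ge_add (hF.lor_prj_prj_ge P h1.1 h2.1) ?_
      have e1 := P.ge_mul h1.2.2 h2.2.1
      have e2 := P.ge_mul h1.2.1 h2.2.2
      have e3 : (m1 - j) + (m2 + j) = m1 + m2 := by ring
      have e4 : (m1 + j) + (m2 - j) = m1 + m2 := by ring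
      rw [e3] at e1
      rw [e4] at e2
      have := P.ge_mul P.o_half.ge (P.ge_add e1 e2)
      rwa [zero_add] at this
    · exfalso
      apply h0
      generalize hx : nrm P F ep em j z = x at hm ⊢
      generalize hy : nrm P F ep em j w = y at hm ⊢
      induction x using WithTop.recTopCoe with
      | top =>
        induction y using WithTop.recTopCoe with
        | top => exact ⟨m, 0, by ring, le_top, le_top⟩
        | coe b => exact ⟨m - b, b, by ring, le_top, le_rfl⟩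
      | coe a =>
        induction y using WithTop.recTopCoe with
        | top => exact ⟨a, m - a, by ring, le_rfl, le_top⟩
        | coe b =>
          rw [← WithTop.coe_add, WithTop.coe_le_coe] at hm
          refine ⟨m - b, b, by ring, ?_, le_rfl⟩
          rw [WithTop.coe_le_coe]; omega
  dual z hz := by
    -- the minimum is attained
    by_cases htop : nrm P F ep em j z = ⊤
    · refine ⟨ep, ?_, ?_⟩
      · intro h0
        have := h.pm
        rw [h0, lor_zero_left] at this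
        exact two_ne' this.symm
      · rw [htop, top_add]; exact le_top
    obtain ⟨m, hm⟩ := WithTop.ne_top_iff_exists.1 htop
    have h1 := (le_nrm P).1 hm.le
    have h2 : ¬ ((m + 1 : ℤ) : WithTop ℤ) ≤ nrm P F ep em j z := by
      rw [← hm]; exact wt_not_le (by omega)
    rw [le_nrm] at h2
    have hep0 : ep ≠ 0 := by
      intro h0
      have := h.pm
      rw [h0, lor_zero_left] at this
      exact two_ne' this.symm
    have hem0 : em ≠ 0 := by
      intro h0
      have := h.pm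
      rw [h0, lor_zero_right] at this
      exact two_ne' this.symm
    by_cases ha : ∀ a, ((m + 1 : ℤ) : WithTop ℤ) ≤ P.o (lor z (F a))
    · by_cases hb : ((m + 1 + j : ℤ) : WithTop ℤ) ≤ P.o (lor z ep)
      · have hc : ¬ ((m + 1 - j : ℤ) : WithTop ℤ) ≤ P.o (lor z em) := fun hc => h2 ⟨ha, hb, hc⟩
        refine ⟨em, hem0, ?_⟩
        rw [nrm_em P h, ← hm, ← WithTop.coe_add]
        have : P.o (lor z em) = ((m - j : ℤ) : WithTop ℤ) := wt_eq_of h1.2.2 (by
          convert hc using 3; ring)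
        rw [this, WithTop.coe_le_coe]; omega
      · refine ⟨ep, hep0, ?_⟩
        rw [nrm_ep P h, ← hm, ← WithTop.coe_add]
        have : P.o (lor z ep) = ((m + j : ℤ) : WithTop ℤ) := wt_eq_of h1.2.1 (by
          convert hb using 3; ring)
        rw [this]
    · push Not at ha
      obtain ⟨a, ha⟩ := ha
      refine ⟨F a, ?_, ?_⟩
      · intro h0
        rw [h0, lor_zero_right, P.o_zero] at ha
        exact absurd ha not_top_lt
      · have : P.o (lor z (F a)) = (m : WithTop ℤ) := wt_eq_of (h1.1 a) (not_le.2 ha)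
        rw [this, ← hm]
        have := nrm_F P h hF j a
        calc (m : WithTop ℤ) = m + ((0 : ℤ) : WithTop ℤ) := by simp
          _ ≤ _ := by gcongr

/-- Uniqueness: a self-dual norm whose lattice contains `F` is on the apartment line of `F`. -/
lemma SDN.eq_nrm {μ : (Fin (k + 2) → L) → WithTop ℤ} (hμ : SDN P μ) (h : HypPair F D I ep em)
    (hF : RealTuple F Γ) (hμF : ∀ a, ((0 : ℤ) : WithTop ℤ) ≤ μ (F a)) :
    ∃ j : ℤ, μ ep = j ∧ μ em = ((-j : ℤ) : WithTop ℤ) ∧ μ = nrm P F ep em j := by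
  have hep0 : ep ≠ 0 := by
    intro h0
    have := h.pm
    rw [h0, lor_zero_left] at this
    exact two_ne' this.symm
  have hem0 : em ≠ 0 := by
    intro h0
    have := h.pm
    rw [h0, lor_zero_right] at this
    exact two_ne' this.symm
  obtain ⟨j, hj⟩ := hμ.exists_int hep0
  obtain ⟨j', hj'⟩ := hμ.exists_int hem0
  have hsum : j + j' ≤ 0 := by
    have := hμ.pair ep em
    rw [h.pm, P.o_two, hj, hj', ← WithTop.coe_add, WithTop.coe_le_coe] at this
    exact this
  have hge : -j ≤ j' := by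
    obtain ⟨w, hw0, hw⟩ := hμ.dual ep hep0
    obtain ⟨s, hs⟩ := hμ.exists_int hw0
    have e1 : P.o (lor w ep) = ((j + s : ℤ) : WithTop ℤ) := by
      rw [lor_comm]
      apply le_antisymm
      · rw [WithTop.coe_add, ← hj, ← hs]; exact hw
      · rw [WithTop.coe_add, ← hj, ← hs]; exact hμ.pair ep w
    have e2 : (s : WithTop ℤ) ≤ μ (perp F w) := hμ.perp_ge' hF hμF hs.ge
    have e3 : lor (perp F w) (perp F w) = lor w em * lor w ep := by
      rw [lor_perp_left F hF.det_ne, perp_of_orth F _ (lor_perp F hF.det_ne w), lor_comm,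
        perp, lor_sub_left]
      have h1 := h.lor_eq hF.det_ne two_ne' w w
      have h2 : lor (prj F w) w = lor (prj F w) (prj F w) := by
        have h3 := lor_perp_prj F hF.det_ne w w
        rw [perp, lor_sub_left] at h3
        rw [lor_comm]
        exact sub_eq_zero.1 h3
      rw [h2]
      have h4 : (2 : L) ≠ 0 := two_ne'
      rw [h1]
      field_simp
      ring
    have e4 : ((2 * s : ℤ) : WithTop ℤ) ≤ P.o (lor w em * lor w ep) := by
      rw [← e3]
      have := hμ.ge_pair e2 e2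
      rwa [← two_mul] at this
    rw [P.o_mul, e1, add_comm, wt_sub] at e4
    have e5 : (s : WithTop ℤ) ≤ μ (lor w em • ep) := by
      have := hμ.ge_smul e4 hj.ge
      convert this using 2; ring
    have e6 : (2 : L) • perp F w = lor w em • ep + lor w ep • em := by
      have := h.decomp hF.det_ne two_ne' w
      have h4 : (2 : L) ≠ 0 := two_ne'
      have h5 : perp F w = (1 / 2 : L) • (lor w em • ep + lor w ep • em) := by
        rw [perp]
        exact sub_eq_of_eq_add' this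
      rw [h5, smul_smul, mul_one_div_cancel h4, one_smul]
    have e7 : (s : WithTop ℤ) ≤ μ (lor w ep • em) := by
      have h1 : lor w ep • em = (2 : L) • perp F w - lor w em • ep := by rw [e6]; abel
      rw [h1]
      refine hμ.ge_sub ?_ e5
      have := hμ.ge_smul P.o_two.ge e2
      rwa [zero_add] at this
    rw [hμ.smul, e1, hj', ← WithTop.coe_add, WithTop.coe_le_coe] at e7
    omega
  have hj'' : j' = -j := by omega
  subst hj''
  refine ⟨j, hj, hj', ?_⟩
  funext z
  apply le_antisymm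
  · apply wt_le
    intro m hm
    rw [le_nrm]
    refine ⟨fun a => ?_, ?_, ?_⟩
    · have := hμ.ge_pair hm (hμF a)
      rwa [add_zero] at this
    · exact hμ.ge_pair hm hj.ge
    · have := hμ.ge_pair hm hj'.ge
      rwa [← sub_eq_add_neg] at this
  · apply wt_le
    intro m hm
    rw [le_nrm] at hm
    rw [h.decomp hF.det_ne two_ne' z]
    refine hμ.ge_add (hμ.prj_ge hF hμF hm.1) ?_
    have e1 := hμ.ge_smul hm.2.2 hj.ge
    have e2 := hμ.ge_smul hm.2.1 hj'.ge
    have e3 : (m - j) + j = m := by ring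
    have e4 : (m + j) + (-j) = m := by ring
    rw [e3] at e1
    rw [e4] at e2
    have := hμ.ge_smul P.o_half.ge (hμ.ge_add e1 e2)
    rwa [zero_add] at this

end nrm

end Pool.Agent.Work.MP_1c91cf_gt

end

section

/-!
# The tree argument: sides of an edge of the building
-/

set_option autoImplicit false
set_option linter.unusedSectionVars false

open Matrix

namespace Pool.Agent.Work.MP_1c91cf_gt

section kappa

variable {κ : Type*} [Field κ] {q : ℕ}

/-- linear algebra over the residue field -/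
lemma row_eq_zero (A B G : Matrix (Fin (q + 1)) (Fin (q + 1)) κ)
    (h : A * B * Aᵀ = G) (h0 : ∀ j, G 0 j = 0)
    (hG : (G.submatrix Fin.succ Fin.succ).det ≠ 0) (hB : B.det ≠ 0) (j : Fin (q + 1)) :
    A 0 j = 0 := by
  have hdG : G.det = 0 := by
    apply Matrix.det_eq_zero_of_row_eq_zero 0
    exact h0
  have hdA : A.det = 0 := by
    have h1 := congrArg Matrix.det h
    rw [Matrix.det_mul, Matrix.det_mul, Matrix.det_transpose, hdG] at h1
    by_contra hA
    exact (mul_ne_zero (mul_ne_zero hA hB) hA) h1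
  obtain ⟨c, hc, hcA⟩ := Matrix.exists_vecMul_eq_zero_iff.2 hdA
  have hcG : Matrix.vecMul c G = 0 := by
    rw [← h, Matrix.mul_assoc, ← Matrix.vecMul_vecMul, hcA, Matrix.zero_vecMul]
  have hcs : (fun i : Fin q => c i.succ) = 0 := by
    by_contra hne
    apply hG
    apply Matrix.exists_vecMul_eq_zero_iff.1
    refine ⟨_, hne, ?_⟩
    ext j
    have := congrFun hcG j.succ
    simp only [Matrix.vecMul, dotProduct, Pi.zero_apply, Fin.sum_univ_succ, h0, mul_zero,
      zero_add] at this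
    simpa [Matrix.vecMul, dotProduct] using this
  have hcs' : ∀ i : Fin q, c i.succ = 0 := fun i => congrFun hcs i
  have hc0 : c 0 ≠ 0 := by
    intro h0
    apply hc
    ext i
    refine Fin.cases h0 (fun i' => hcs' i') i
  have := congrFun hcA j
  simp only [Matrix.vecMul, dotProduct, Pi.zero_apply, Fin.sum_univ_succ, hcs', zero_mul,
    Finset.sum_const_zero, add_zero] at this
  exact (mul_eq_zero.1 this).resolve_left hc0

end kappa

variable {L κ : Type*} [Field L] [Field κ] [Algebra ℂ L] [Algebra ℂ κ] (P : Place L κ) {q : ℕ}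

section edge

variable {F0 : Fin (q + 1) → Fin (q + 1 + 2) → L} {Γ0 : Matrix (Fin (q + 1)) (Fin (q + 1)) ℝ}
  {D0 I : L} {ep0 em0 : Fin (q + 1 + 2) → L}

/-- The reduction of the Lorentz form on `M ∩ M'`. -/
lemma red_lor (h0 : HypPair F0 D0 I ep0 em0) (hF0 : RealTuple F0 Γ0) {i : ℤ}
    {z w : Fin (q + 1 + 2) → L}
    (hz : ((0 : ℤ) : WithTop ℤ) ≤ nrm P F0 ep0 em0 i z)
    (hz' : ((0 : ℤ) : WithTop ℤ) ≤ nrm P F0 ep0 em0 (i + 1) z)
    (hw : ((0 : ℤ) : WithTop ℤ) ≤ nrm P F0 ep0 em0 i w)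
    (hw' : ((0 : ℤ) : WithTop ℤ) ≤ nrm P F0 ep0 em0 (i + 1) w) :
    P.red (lor z w) = ∑ a, ∑ b, (rl (Γ0⁻¹ a b) : κ) * P.red (lor z (F0 a)) *
      P.red (lor w (F0 b)) := by
  rw [le_nrm] at hz hz' hw hw'
  have e1 : ((1 : ℤ) : WithTop ℤ) ≤ P.o (lor z em0 * lor w ep0) := by
    have := P.ge_mul hz.2.2 hw'.2.1
    convert this using 2; ring
  have e2 : ((1 : ℤ) : WithTop ℤ) ≤ P.o (lor z ep0 * lor w em0) := by
    have := P.ge_mul hz'.2.1 hw.2.2
    convert this using 2; ring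
  have e3 : ((1 : ℤ) : WithTop ℤ) ≤ P.o ((1 / 2 : L) * (lor z em0 * lor w ep0 +
      lor z ep0 * lor w em0)) := by
    have := P.ge_mul P.o_half.ge (P.ge_add e1 e2)
    rwa [zero_add] at this
  have e4 := hF0.lor_prj_prj_ge P hz.1 hw.1
  rw [h0.lor_eq hF0.det_ne two_ne' z w, P.red_add _ _ (by simpa using e4)
    (wt_mono (by norm_num) e3), P.red_eq_zero e3, add_zero, lor_prj_prj F0 hF0.det_ne]
  have ht : ∀ a b, ((0 : ℤ) : WithTop ℤ) ≤
      P.o ((gram F0 F0)⁻¹ a b * lor z (F0 a) * lor w (F0 b)) := by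
    intro a b
    have := P.ge_mul (P.ge_mul (hF0.inv_ge P a b) (hz.1 a)) (hw.1 b)
    simpa using this
  rw [P.red_sum _ _ fun a _ => P.ge_sum _ _ fun b _ => ht a b]
  refine Finset.sum_congr rfl fun a _ => ?_
  rw [P.red_sum _ _ fun b _ => ht a b]
  refine Finset.sum_congr rfl fun b _ => ?_
  have h2 : ((0 : ℤ) : WithTop ℤ) ≤ P.o ((gram F0 F0)⁻¹ a b * lor z (F0 a)) := by
    have := P.ge_mul (hF0.inv_ge P a b) (hz.1 a)
    simpa using this
  rw [P.red_mul _ _ h2 (hw.1 b), P.red_mul _ _ (hF0.inv_ge P a b) (hz.1 a), hF0.inv_eq,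
    Matrix.map_apply, P.red_real]

lemma nrm_adj (z : Fin (q + 1 + 2) → L) {i k : ℤ} (hk : nrm P F0 ep0 em0 i z = k) :
    ((k - 1 : ℤ) : WithTop ℤ) ≤ nrm P F0 ep0 em0 (i + 1) z ∧
      ¬ ((k + 2 : ℤ) : WithTop ℤ) ≤ nrm P F0 ep0 em0 (i + 1) z := by
  have h1 := (le_nrm P).1 hk.ge
  refine ⟨?_, fun h2 => ?_⟩
  · rw [le_nrm]
    refine ⟨fun a => wt_mono (by omega) (h1.1 a), wt_mono (by omega) h1.2.1,
      wt_mono (by omega) h1.2.2⟩
  · have h3 : ((k + 1 : ℤ) : WithTop ℤ) ≤ nrm P F0 ep0 em0 i z := by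
      rw [le_nrm] at h2 ⊢
      refine ⟨fun a => wt_mono (by omega) (h2.1 a), wt_mono (by omega) h2.2.1,
        wt_mono (by omega) h2.2.2⟩
    rw [hk, WithTop.coe_le_coe] at h3
    omega

/-- consequences of `μ' ξ = μ ξ + 1` -/
lemma up_info {z : Fin (q + 1 + 2) → L} {i k : ℤ} (hk : nrm P F0 ep0 em0 i z = k)
    (hk' : nrm P F0 ep0 em0 (i + 1) z = ((k + 1 : ℤ) : WithTop ℤ)) :
    P.o (lor z em0) = ((k - i : ℤ) : WithTop ℤ) ∧
    (∀ a, ((k + 1 : ℤ) : WithTop ℤ) ≤ P.o (lor z (F0 a))) ∧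
    ((k + i + 2 : ℤ) : WithTop ℤ) ≤ P.o (lor z ep0) := by
  have h1 := (le_nrm P).1 hk.ge
  have h2 := (le_nrm P).1 hk'.ge
  refine ⟨?_, h2.1, by convert h2.2.1 using 2; ring⟩
  apply wt_eq_of h1.2.2
  intro h3
  have h4 : ((k + 1 : ℤ) : WithTop ℤ) ≤ nrm P F0 ep0 em0 i z := by
    rw [le_nrm]
    exact ⟨h2.1, wt_mono (by omega) h2.2.1, by convert h3 using 2; ring⟩
  rw [hk, WithTop.coe_le_coe] at h4
  omega

/-- consequences of `μ' ξ = μ ξ - 1` -/
lemma down_info {z : Fin (q + 1 + 2) → L} {i k : ℤ} (hk : nrm P F0 ep0 em0 i z = k)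
    (hk' : nrm P F0 ep0 em0 (i + 1) z = ((k - 1 : ℤ) : WithTop ℤ)) :
    P.o (lor z ep0) = ((k + i : ℤ) : WithTop ℤ) := by
  have h1 := (le_nrm P).1 hk.ge
  apply wt_eq_of h1.2.1
  intro h3
  have h4 : ((k : ℤ) : WithTop ℤ) ≤ nrm P F0 ep0 em0 (i + 1) z := by
    rw [le_nrm]
    exact ⟨h1.1, by convert h3 using 2; ring, wt_mono (by omega) h1.2.2⟩
  rw [hk', WithTop.coe_le_coe] at h4
  omega

variable {E : Fin q → Fin (q + 1 + 2) → L} {ΓE : Matrix (Fin q) (Fin q) ℝ}

/-- The key dichotomy. -/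
lemma adj_cases (h0 : HypPair F0 D0 I ep0 em0) (hF0 : RealTuple F0 Γ0) (hE : RealTuple E ΓE)
    {i : ℤ} (hEμ : ∀ a, ((0 : ℤ) : WithTop ℤ) ≤ nrm P F0 ep0 em0 i (E a))
    (hEμ' : ∀ a, ((0 : ℤ) : WithTop ℤ) ≤ nrm P F0 ep0 em0 (i + 1) (E a))
    {ξ : Fin (q + 1 + 2) → L} (hξ : lor ξ ξ = 0) (hξE : ∀ a, lor ξ (E a) = 0) {k : ℤ}
    (hk : nrm P F0 ep0 em0 i ξ = k) :
    nrm P F0 ep0 em0 (i + 1) ξ = ((k + 1 : ℤ) : WithTop ℤ) ∨
      nrm P F0 ep0 em0 (i + 1) ξ = ((k - 1 : ℤ) : WithTop ℤ) := by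
  have h1 := (le_nrm P).1 hk.ge
  by_cases hep : ((k + i + 1 : ℤ) : WithTop ℤ) ≤ P.o (lor ξ ep0)
  · left
    -- scale
    obtain ⟨c, hc⟩ := P.exists_o (-k)
    have hge : ((k : ℤ) : WithTop ℤ) ≤ nrm P F0 ep0 em0 (i + 1) ξ := by
      rw [le_nrm]
      exact ⟨h1.1, by convert hep using 2; ring, wt_mono (by omega) h1.2.2⟩
    have hs := sdn_nrm P h0 hF0 i
    have hs' := sdn_nrm P h0 hF0 (i + 1)
    have hc1 : ((0 : ℤ) : WithTop ℤ) ≤ nrm P F0 ep0 em0 i (c • ξ) := by
      have := hs.ge_smul hc.ge hk.ge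
      rwa [neg_add_cancel] at this
    have hc2 : ((0 : ℤ) : WithTop ℤ) ≤ nrm P F0 ep0 em0 (i + 1) (c • ξ) := by
      have := hs'.ge_smul hc.ge hge
      rwa [neg_add_cancel] at this
    -- rows
    let v : Fin (q + 1) → Fin (q + 1 + 2) → L := Fin.cons (c • ξ) E
    have hv : ∀ a, ((0 : ℤ) : WithTop ℤ) ≤ nrm P F0 ep0 em0 i (v a) := by
      intro a
      refine Fin.cases ?_ (fun a' => ?_) a
      · simpa [v] using hc1
      · simpa [v] using hEμ a'
    have hv' : ∀ a, ((0 : ℤ) : WithTop ℤ) ≤ nrm P F0 ep0 em0 (i + 1) (v a) := by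
      intro a
      refine Fin.cases ?_ (fun a' => ?_) a
      · simpa [v] using hc2
      · simpa [v] using hEμ' a'
    have hrow : ∀ j, P.red (lor (v 0) (F0 j)) = 0 := by
      intro j
      refine row_eq_zero (A := Matrix.of fun a b => P.red (lor (v a) (F0 b)))
        (B := (Γ0⁻¹).map (rl : ℝ →+* κ))
        (G := Matrix.of fun a b => P.red (lor (v a) (v b))) ?_ ?_ ?_ ?_ j
      · ext a b
        simp only [Matrix.mul_apply, Matrix.of_apply, Matrix.map_apply, Matrix.transpose_apply]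
        rw [red_lor P h0 hF0 (hv a) (hv' a) (hv b) (hv' b)]
        simp only [Finset.sum_mul]
        rw [Finset.sum_comm]
        refine Finset.sum_congr rfl fun x _ => Finset.sum_congr rfl fun y _ => ?_
        ring
      · intro b
        refine Fin.cases ?_ (fun b' => ?_) b
        · simp [v, lor_smul_left, lor_smul_right, hξ, P.red_zero']
        · simp [v, lor_smul_left, hξE, P.red_zero']
      · have : (Matrix.of fun a b => P.red (lor (v a) (v b))).submatrix Fin.succ Fin.succ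
            = ΓE.map (rl : ℝ →+* κ) := by
          ext a b
          simp only [Matrix.submatrix_apply, Matrix.of_apply, Matrix.map_apply, v, Fin.cons_succ]
          rw [← gram_apply E E a b, hE.eq, Matrix.map_apply, P.red_real]
        rw [this]
        have h2 : (ΓE.map (rl : ℝ →+* κ)).det = rl ΓE.det := by
          rw [RingHom.map_det]; rfl
        rw [h2, map_ne_zero_iff _ (RingHom.injective _)]
        exact hE.ne
      · have h2 : ((Γ0⁻¹).map (rl : ℝ →+* κ)).det = rl (Γ0⁻¹).det := by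
          rw [RingHom.map_det]; rfl
        rw [h2, map_ne_zero_iff _ (RingHom.injective _), Matrix.det_nonsing_inv]
        simpa using hF0.ne
    have hF1 : ∀ j, ((k + 1 : ℤ) : WithTop ℤ) ≤ P.o (lor ξ (F0 j)) := by
      intro j
      have h2 := hrow j
      have h3 : ((0 : ℤ) : WithTop ℤ) ≤ P.o (lor (v 0) (F0 j)) := ((le_nrm P).1 (hv 0)).1 j
      rw [P.red_zero _ h3] at h2
      have h4 : v 0 = c • ξ := rfl
      rw [h4, lor_smul_left, P.o_mul, hc, wt_sub] at h2
      convert h2 using 2; ring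
    have h5 : ¬ ((k + 1 - i : ℤ) : WithTop ℤ) ≤ P.o (lor ξ em0) := by
      intro h6
      have h7 : ((k + 1 : ℤ) : WithTop ℤ) ≤ nrm P F0 ep0 em0 i ξ := by
        rw [le_nrm]
        exact ⟨hF1, by convert hep using 2; ring, h6⟩
      rw [hk, WithTop.coe_le_coe] at h7
      omega
    have h6 : P.o (lor ξ em0) = ((k - i : ℤ) : WithTop ℤ) := wt_eq_of h1.2.2 (by
      convert h5 using 3; ring)
    have h7 : lor ξ em0 * lor ξ ep0 = -lor (prj F0 ξ) (prj F0 ξ) := by
      have h8 := h0.lor_eq hF0.det_ne two_ne' ξ ξ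
      rw [hξ] at h8
      have h9 : (2 : L) ≠ 0 := two_ne'
      field_simp at h8
      apply mul_left_cancel₀ h9
      linear_combination -h8
    have h8 : ((k + 1 + (k + 1) : ℤ) : WithTop ℤ) ≤ P.o (lor ξ em0 * lor ξ ep0) := by
      rw [h7]
      exact P.ge_neg (hF0.lor_prj_prj_ge P hF1 hF1)
    rw [P.o_mul, h6, wt_sub] at h8
    apply wt_eq_of
    · rw [le_nrm]
      refine ⟨hF1, by convert h8 using 2; ring, ?_⟩
      rw [h6, WithTop.coe_le_coe]; omega
    · rw [le_nrm]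
      rintro ⟨-, -, h9⟩
      rw [h6, WithTop.coe_le_coe] at h9
      omega
  · right
    apply wt_eq_of
    · exact (nrm_adj P ξ hk).1
    · rw [le_nrm]
      rintro ⟨-, h9, -⟩
      apply hep
      convert h9 using 2; ring

end edge

section T1

variable {E : Fin q → Fin (q + 1 + 2) → L} {ΓE : Matrix (Fin q) (Fin q) ℝ}
  {x : Fin (q + 1 + 2) → L} {Γ : Matrix (Fin (q + 1)) (Fin (q + 1)) ℝ} {D I : L}
  {ep em : Fin (q + 1 + 2) → L} {μ : (Fin (q + 1 + 2) → L) → WithTop ℤ}

/-- lower bounds on `μ` at the vertices of `F = (x, E)` -/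
lemma T1 (hμ : SDN P μ) (hE : RealTuple E ΓE)
    (hF : RealTuple (Fin.cons x E : Fin (q + 1) → Fin (q + 1 + 2) → L) Γ)
    (h : HypPair (Fin.cons x E : Fin (q + 1) → Fin (q + 1 + 2) → L) D I ep em)
    (hEμ : ∀ a, ((0 : ℤ) : WithTop ℤ) ≤ μ (E a)) {m j : ℤ}
    (h1 : ((m + j : ℤ) : WithTop ℤ) ≤ μ ep) (h2 : ((m - j : ℤ) : WithTop ℤ) ≤ μ em)
    (a : Fin (q + 1)) :
    (m : WithTop ℤ) ≤ μ ((Fin.cons x E : Fin (q + 1) → Fin (q + 1 + 2) → L) a) := by
  have hm : m ≤ 0 := by
    have := hμ.ge_pair h1 h2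
    rw [h.pm, P.o_two, WithTop.coe_le_coe] at this
    omega
  refine Fin.cases ?_ (fun a' => ?_) a
  swap
  · rw [Fin.cons_succ]; exact wt_mono hm (hEμ a')
  rw [Fin.cons_zero]
  have hx : x = prj E x + perp E x := by rw [perp]; abel
  have hxE : ∀ b, ((0 : ℤ) : WithTop ℤ) ≤ P.o (lor x (E b)) := by
    intro b
    have h3 : lor x (E b) = rl (Γ 0 b.succ) := by
      have := congrFun (congrFun hF.eq 0) b.succ
      rw [gram_apply, Fin.cons_zero, Fin.cons_succ] at this
      rw [this]; rfl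
    rw [h3]; exact P.o_real_ge _
  rw [hx]
  refine hμ.ge_add (wt_mono hm (hμ.prj_ge hE hEμ hxE)) ?_
  apply hμ.ge_of_dual
  intro w s hs
  have hs' : (s : WithTop ℤ) ≤ μ (perp E w) := hμ.perp_ge' hE hEμ hs
  rw [lor_perp_left E hE.det_ne]
  set w' := perp E w with hw'
  have hw'E : ∀ b, lor w' (E b) = 0 := lor_perp E hE.det_ne w
  set γ : ℝ := Γ⁻¹ 0 0 with hγ
  have hγ0 : γ ≠ 0 := by
    have h3 : γ = (Γ.det)⁻¹ * ΓE.det := by
      rw [hγ, Matrix.inv_def, Ring.inverse_eq_inv', Matrix.smul_apply, smul_eq_mul,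
        Matrix.adjugate_fin_succ_eq_det_submatrix]
      congr 1
      simp only [Fin.val_zero, add_zero, pow_zero, one_mul]
      congr 1
      ext a b
      have h4 := congrFun (congrFun hF.eq a.succ) b.succ
      have h5 := congrFun (congrFun hE.eq a) b
      rw [gram_apply, Fin.cons_succ, Fin.cons_succ] at h4
      rw [gram_apply] at h5
      rw [h4, Matrix.map_apply, Matrix.map_apply] at h5
      exact (rl : ℝ →+* L).injective h5
    rw [h3]
    exact mul_ne_zero (inv_ne_zero hF.ne) hE.ne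
  have key : rl γ * (lor x w' * lor x w') = lor w' w' - lor w' em * lor w' ep := by
    have h3 := h.lor_eq hF.det_ne two_ne' w' w'
    rw [lor_prj_prj _ hF.det_ne, Fin.sum_univ_succ, Fin.sum_univ_succ] at h3
    simp only [Fin.cons_zero, Fin.cons_succ, hw'E, mul_zero, zero_mul, Finset.sum_const_zero,
      add_zero] at h3
    have h4 : ((gram (Fin.cons x E : Fin (q + 1) → Fin (q + 1 + 2) → L)
        (Fin.cons x E : Fin (q + 1) → Fin (q + 1 + 2) → L))⁻¹ 0 0 : L) = rl γ := by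
      rw [hF.inv_eq]; rfl
    rw [h4, lor_comm w' x] at h3
    rw [h3]
    have h9 : (2 : L) ≠ 0 := two_ne'
    field_simp
    ring
  have e1 : ((s + s + 2 * m : ℤ) : WithTop ℤ) ≤ P.o (lor w' w') :=
    wt_mono (by omega) (hμ.ge_pair hs' hs')
  have e2 : ((s + s + 2 * m : ℤ) : WithTop ℤ) ≤ P.o (lor w' em * lor w' ep) := by
    have := P.ge_mul (hμ.ge_pair hs' h2) (hμ.ge_pair hs' h1)
    convert this using 2; ring
  have e3 := P.ge_sub e1 e2
  rw [← key, P.o_mul, P.o_real γ hγ0, wt_sub] at e3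
  apply P.ge_of_sq
  convert e3 using 2; ring

/-- `ν + m ≤ μ` pointwise -/
def dge {V : Type*} (μ ν : V → WithTop ℤ) (m : ℤ) : Prop :=
  ∀ (z : V) (s : ℤ), (s : WithTop ℤ) ≤ ν z → ((s + m : ℤ) : WithTop ℤ) ≤ μ z

/-- `ν` is on the side of `μ'`. -/
def hside {V : Type*} (μ μ' ν : V → WithTop ℤ) : Prop := ∃ m : ℤ, dge μ' ν m ∧ ¬ dge μ ν m

lemma dge_iff (hμ : SDN P μ) (hE : RealTuple E ΓE)
    (hF : RealTuple (Fin.cons x E : Fin (q + 1) → Fin (q + 1 + 2) → L) Γ)
    (h : HypPair (Fin.cons x E : Fin (q + 1) → Fin (q + 1 + 2) → L) D I ep em)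
    (hEμ : ∀ a, ((0 : ℤ) : WithTop ℤ) ≤ μ (E a)) {m j : ℤ} :
    dge μ (nrm P (Fin.cons x E : Fin (q + 1) → Fin (q + 1 + 2) → L) ep em j) m ↔
      ((m + j : ℤ) : WithTop ℤ) ≤ μ ep ∧ ((m - j : ℤ) : WithTop ℤ) ≤ μ em := by
  constructor
  · intro hd
    refine ⟨?_, ?_⟩
    · have := hd ep j (nrm_ep P h j).ge
      rwa [add_comm] at this
    · have := hd em (-j) (nrm_em P h j).ge
      convert this using 2; ring
  · rintro ⟨h1, h2⟩ z s hs
    rw [le_nrm] at hs
    rw [h.decomp hF.det_ne two_ne' z]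
    refine hμ.ge_add ?_ ?_
    · rw [prj]
      refine hμ.ge_sum _ _ fun a _ => ?_
      exact hμ.ge_smul (hF.coef_ge P hs.1 a) (T1 P hμ hE hF h hEμ h1 h2 a)
    · have e1 := hμ.ge_smul hs.2.2 h1
      have e2 := hμ.ge_smul hs.2.1 h2
      have e3 : (s - j) + (m + j) = s + m := by ring
      have e4 : (s + j) + (m - j) = s + m := by ring
      rw [e3] at e1
      rw [e4] at e2
      have := hμ.ge_smul P.o_half.ge (hμ.ge_add e1 e2)
      rwa [zero_add] at this

end T1

section T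

variable {F0 : Fin (q + 1) → Fin (q + 1 + 2) → L} {Γ0 : Matrix (Fin (q + 1)) (Fin (q + 1)) ℝ}
  {D0 I I' : L} {ep0 em0 : Fin (q + 1 + 2) → L}
  {E : Fin q → Fin (q + 1 + 2) → L} {ΓE : Matrix (Fin q) (Fin q) ℝ}
  {x : Fin (q + 1 + 2) → L} {Γ : Matrix (Fin (q + 1)) (Fin (q + 1)) ℝ} {D : L}
  {ep em : Fin (q + 1 + 2) → L}

lemma sum_zero_of_mixed (h0 : HypPair F0 D0 I' ep0 em0) (hF0 : RealTuple F0 Γ0) {i k l : ℤ}
    {ξ η : Fin (q + 1 + 2) → L} (hξη : lor ξ η = 2)
    (hk : nrm P F0 ep0 em0 i ξ = k)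
    (hk' : nrm P F0 ep0 em0 (i + 1) ξ = ((k + 1 : ℤ) : WithTop ℤ))
    (hl : nrm P F0 ep0 em0 i η = l)
    (hl' : nrm P F0 ep0 em0 (i + 1) η = ((l - 1 : ℤ) : WithTop ℤ)) : k + l = 0 := by
  obtain ⟨u1, u2, u3⟩ := up_info P hk hk'
  have u4 := down_info P hl hl'
  have u5 := (le_nrm P).1 hl.ge
  have e1 : ((k + l + 1 : ℤ) : WithTop ℤ) ≤ P.o (lor (prj F0 ξ) (prj F0 η)) := by
    have := hF0.lor_prj_prj_ge P u2 u5.1
    convert this using 2; ring
  have e2 : ((k + l + 1 : ℤ) : WithTop ℤ) ≤ P.o (lor ξ ep0 * lor η em0) := by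
    have := P.ge_mul u3 u5.2.2
    exact wt_mono (by omega) this
  have e3 : P.o (lor ξ em0 * lor η ep0) = ((k + l : ℤ) : WithTop ℤ) := by
    rw [P.o_mul, u1, u4, ← WithTop.coe_add]
    congr 1; ring
  have h1 := h0.lor_eq hF0.det_ne two_ne' ξ η
  rw [hξη] at h1
  have e4 : lor ξ em0 * lor η ep0 = 2 * 2 - (2 * lor (prj F0 ξ) (prj F0 η)
      + lor ξ ep0 * lor η em0) := by
    have h9 : (2 : L) ≠ 0 := two_ne'
    field_simp at h1
    linear_combination -h1
  have e5 : ((k + l + 1 : ℤ) : WithTop ℤ) ≤ P.o (2 * lor (prj F0 ξ) (prj F0 η)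
      + lor ξ ep0 * lor η em0) := by
    refine P.ge_add ?_ e2
    have := P.ge_mul P.o_two.ge e1
    rwa [zero_add] at this
  have o4 : P.o (2 * 2 : L) = ((0 : ℤ) : WithTop ℤ) := by
    rw [P.o_mul, P.o_two, ← WithTop.coe_add, add_zero]
  -- compare
  have h2 : ((k + l : ℤ) : WithTop ℤ) ≤ P.o (2 * 2 : L) := by
    have : (2 * 2 : L) = lor ξ em0 * lor η ep0 + (2 * lor (prj F0 ξ) (prj F0 η)
      + lor ξ ep0 * lor η em0) := by rw [e4]; ring
    rw [this]
    exact P.ge_add e3.ge (wt_mono (by omega) e5)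
  rw [o4, WithTop.coe_le_coe] at h2
  by_contra hne
  have h3 : ((k + l + 1 : ℤ) : WithTop ℤ) ≤ P.o (2 * 2 : L) := by
    rw [o4, WithTop.coe_le_coe]; omega
  have h4 := P.ge_sub h3 e5
  rw [← e4, e3, WithTop.coe_le_coe] at h4
  omega

/-- The tree argument. -/
theorem tree_side (h0 : HypPair F0 D0 I' ep0 em0) (hF0 : RealTuple F0 Γ0) {i : ℤ}
    (hE : RealTuple E ΓE)
    (hF : RealTuple (Fin.cons x E : Fin (q + 1) → Fin (q + 1 + 2) → L) Γ)
    (h : HypPair (Fin.cons x E : Fin (q + 1) → Fin (q + 1 + 2) → L) D I ep em)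
    (hEμ : ∀ a, ((0 : ℤ) : WithTop ℤ) ≤ nrm P F0 ep0 em0 i (E a))
    (hEμ' : ∀ a, ((0 : ℤ) : WithTop ℤ) ≤ nrm P F0 ep0 em0 (i + 1) (E a)) :
    (((0 : ℤ) : WithTop ℤ) ≤ nrm P F0 ep0 em0 i x ∧
      ((0 : ℤ) : WithTop ℤ) ≤ nrm P F0 ep0 em0 (i + 1) x) ∨
    ∃ b : Prop, ∀ j : ℤ, hside (nrm P F0 ep0 em0 i) (nrm P F0 ep0 em0 (i + 1))
      (nrm P (Fin.cons x E : Fin (q + 1) → Fin (q + 1 + 2) → L) ep em j) ↔ b := by
  have hs := sdn_nrm P h0 hF0 i
  have hs' := sdn_nrm P h0 hF0 (i + 1)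
  have hep0 : ep ≠ 0 := by
    intro h0
    have := h.pm
    rw [h0, lor_zero_left] at this
    exact two_ne' this.symm
  have hem0 : em ≠ 0 := by
    intro h0
    have := h.pm
    rw [h0, lor_zero_right] at this
    exact two_ne' this.symm
  obtain ⟨k, hk⟩ := hs.exists_int hep0
  obtain ⟨l, hl⟩ := hs.exists_int hem0
  have hepE : ∀ a, lor ep (E a) = 0 := fun a => by
    have := h.pF a.succ
    rwa [Fin.cons_succ] at this
  have hemE : ∀ a, lor em (E a) = 0 := fun a => by
    have := h.mF a.succ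
    rwa [Fin.cons_succ] at this
  have hd : ∀ m j : ℤ, dge (nrm P F0 ep0 em0 i)
      (nrm P (Fin.cons x E : Fin (q + 1) → Fin (q + 1 + 2) → L) ep em j) m ↔
      m + j ≤ k ∧ m - j ≤ l := by
    intro m j
    rw [dge_iff P hs hE hF h hEμ, hk, hl, WithTop.coe_le_coe, WithTop.coe_le_coe]
  have hd' : ∀ (k' l' : ℤ), nrm P F0 ep0 em0 (i + 1) ep = k' → nrm P F0 ep0 em0 (i + 1) em = l' →
      ∀ m j : ℤ, dge (nrm P F0 ep0 em0 (i + 1))
      (nrm P (Fin.cons x E : Fin (q + 1) → Fin (q + 1 + 2) → L) ep em j) m ↔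
      m + j ≤ k' ∧ m - j ≤ l' := by
    intro k' l' hk' hl' m j
    rw [dge_iff P hs' hE hF h hEμ', hk', hl', WithTop.coe_le_coe, WithTop.coe_le_coe]
  rcases adj_cases P h0 hF0 hE hEμ hEμ' h.pp hepE hk with hk' | hk' <;>
    rcases adj_cases P h0 hF0 hE hEμ hEμ' h.mm hemE hl with hl' | hl'
  · right
    refine ⟨True, fun j => iff_true_intro ?_⟩
    refine ⟨min (k + 1 - j) (l + 1 + j), ?_, ?_⟩
    · rw [hd' _ _ hk' hl']
      omega
    · rw [hd]
      omega
  · left
    have hsum := sum_zero_of_mixed P h0 hF0 h.pm hk hk' hl hl'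
    have t1 := T1 P hs hE hF h hEμ (m := 0) (j := k) (by rw [hk, WithTop.coe_le_coe]; omega)
      (by rw [hl, WithTop.coe_le_coe]; omega) 0
    have t2 := T1 P hs' hE hF h hEμ' (m := 0) (j := k + 1)
      (by rw [hk', WithTop.coe_le_coe]; omega)
      (by rw [hl', WithTop.coe_le_coe]; omega) 0
    rw [Fin.cons_zero] at t1 t2
    exact ⟨t1, t2⟩
  · left
    have hsum := sum_zero_of_mixed P h0 hF0 (by rw [lor_comm]; exact h.pm) hl hl' hk hk'
    have t1 := T1 P hs hE hF h hEμ (m := 0) (j := k) (by rw [hk, WithTop.coe_le_coe]; omega)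
      (by rw [hl, WithTop.coe_le_coe]; omega) 0
    have t2 := T1 P hs' hE hF h hEμ' (m := 0) (j := k - 1)
      (by rw [hk', WithTop.coe_le_coe]; omega)
      (by rw [hl', WithTop.coe_le_coe]; omega) 0
    rw [Fin.cons_zero] at t1 t2
    exact ⟨t1, t2⟩
  · right
    refine ⟨False, fun j => iff_false_intro ?_⟩
    rintro ⟨m, h1, h2⟩
    rw [hd' _ _ hk' hl'] at h1
    rw [hd] at h2
    omega

end T

end Pool.Agent.Work.MP_1c91cf_gt

end
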