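import Pool.Agent.Work.MP_1c91cf_gt.Bd.B04
import Pool.Agent.Work.MP_1c91cf_gt.Bd.B01
import Pool.Agent.Work.MP_1c91cf_gt.Bd.B03

/-! Bundle of small proof modules (one section per former module). -/

section

/-!
# Variation formula for the volume of a cycle
-/

set_option autoImplicit false

open Matrix MeasureTheory

namespace Pool.Agent.Work.MP_1c91cf_gt

/-- Derivative of the determinant along a curve of matrices. -/
theorem det_hasDerivAt {N : ℕ} {A : ℝ → Fin N → Fin N → ℝ} {A' : Fin N → Fin N → ℝ} {t : ℝ}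
    (hA : HasDerivAt A A' t) :
    HasDerivAt (fun s => (Matrix.of (A s)).det)
      (∑ k, (Matrix.of (Function.update (A t) k (A' k))).det) t := by
  let f : ContinuousMultilinearMap ℝ (fun _ : Fin N => Fin N → ℝ) ℝ :=
    { toMultilinearMap := (Matrix.detRowAlternating (n := Fin N) (R := ℝ)).toMultilinearMap
      cont := by
        change Continuous fun M : Fin N → Fin N → ℝ => Matrix.det (Matrix.of M)
        exact Continuous.matrix_det continuous_id }
  have h1 := (f.hasFDerivAt (A t)).comp_hasDerivAt t hA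
  have h2 : (fun s => (Matrix.of (A s)).det) = f ∘ A := rfl
  rw [h2]
  refine h1.congr_deriv ?_
  rw [ContinuousMultilinearMap.linearDeriv_apply]
  rfl

lemma sum_det_update_smul {N : ℕ} (Y : Fin N → Fin N → ℝ) (w : Fin N → ℝ) :
    ∑ k, (Matrix.of (Function.update Y k w)).det • Y k = (Matrix.of Y).det • w := by
  have h := Matrix.mulVec_cramer (Matrix.of Y)ᵀ w
  rw [Matrix.det_transpose] at h
  rw [← h]
  ext j
  simp only [Matrix.mulVec, dotProduct, Matrix.transpose_apply, Matrix.of_apply,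
    Matrix.cramer_transpose_apply, Finset.sum_apply, Pi.smul_apply, smul_eq_mul]
  refine Finset.sum_congr rfl fun k _ => ?_
  rw [mul_comm]
  rfl

lemma J2_comm {N : ℕ} (Q : Matrix (Fin N) (Fin N) ℝ) (a b : Fin N) : J2 Q a b = J2 Q b a := by
  unfold J2
  simp only [mul_comm (_ : ℝ) _]

theorem SS_hasDerivAt {N : ℕ} (Y Y' : Fin (N + 1) → Fin (N + 1) → ℝ)
    (hneg : ∀ a b, lor (Y a) (Y b) < 0) :
    HasDerivAt (fun t : ℝ => SS (Y + t • Y'))
      (-∑ k, ∑ i : Fin N, (Matrix.of (Function.update Y k (Y' (k.succAbove i)))).det *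
        J1 (Qm (fun a => Y (k.succAbove a))) i) 0 := by
  have hY : HasDerivAt (fun t : ℝ => Y + t • Y') Y' 0 := by
    have h1 : HasDerivAt (fun t : ℝ => t • Y') ((1 : ℝ) • Y') 0 :=
      (hasDerivAt_id (0 : ℝ)).smul_const Y'
    rw [one_smul] at h1
    exact h1.const_add Y
  have hd := det_hasDerivAt hY
  simp only [zero_smul, add_zero] at hd
  have hQ0 : Qm (Y + (0 : ℝ) • Y') = Qm Y := by rw [zero_smul, add_zero]
  have hQ : ∀ i j, HasDerivAt (fun t : ℝ => Qm (Y + t • Y') i j)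
      (-(lor (Y' i) (Y j) + lor (Y i) (Y' j))) 0 := by
    intro i j
    have h1 : (fun t : ℝ => Qm (Y + t • Y') i j) = fun t : ℝ =>
        -(lor (Y i) (Y j) + t * (lor (Y' i) (Y j) + lor (Y i) (Y' j)) +
          t ^ 2 * lor (Y' i) (Y' j)) := by
      funext t
      simp only [Qm, Matrix.of_apply, Pi.add_apply, Pi.smul_apply, lor_add_left, lor_add_right,
        lor_smul_left, lor_smul_right]
      ring
    rw [h1]
    have h2 : HasDerivAt (fun t : ℝ => t) 1 0 := hasDerivAt_id 0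
    have h3 := (((h2.mul_const (lor (Y' i) (Y j) + lor (Y i) (Y' j))).const_add
      (lor (Y i) (Y j))).add ((h2.pow 2).mul_const (lor (Y' i) (Y' j)))).neg
    refine h3.congr_deriv ?_
    simp
  have hJ := J_hasDerivAt (Q := fun t : ℝ => Qm (Y + t • Y'))
    (Q' := Matrix.of fun i j => -(lor (Y' i) (Y j) + lor (Y i) (Y' j))) (t := 0)
    (by
      intro i j
      rw [hQ0]
      simpa [Qm] using hneg i j) hQ
  have hSS := hd.mul hJ
  have hfun : (fun t : ℝ => SS (Y + t • Y')) = (fun t : ℝ => (Matrix.of (Y + t • Y')).det) *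
      fun t : ℝ => J (Qm (Y + t • Y')) := rfl
  rw [hfun]
  refine hSS.congr_deriv ?_
  simp only [hQ0]
  have hdY : (Matrix.of (Y + (0 : ℝ) • Y')).det = (Matrix.of Y).det := by
    rw [zero_smul, add_zero]
  rw [hdY]
  -- symmetrise
  have hsym : -(1 / 2) * ∑ i, ∑ j, (Matrix.of fun i j => -(lor (Y' i) (Y j) + lor (Y i) (Y' j)))
        i j * J2 (Qm Y) i j = ∑ i, ∑ j, lor (Y' i) (Y j) * J2 (Qm Y) i j := by
    have h1 : ∑ i, ∑ j, lor (Y i) (Y' j) * J2 (Qm Y) i j =
        ∑ i, ∑ j, lor (Y' i) (Y j) * J2 (Qm Y) i j := by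
      rw [Finset.sum_comm]
      refine Finset.sum_congr rfl fun i _ => Finset.sum_congr rfl fun j _ => ?_
      rw [lor_comm, J2_comm]
    have h2 : ∑ i, ∑ j, (Matrix.of fun i j => -(lor (Y' i) (Y j) + lor (Y i) (Y' j)))
        i j * J2 (Qm Y) i j = -(∑ i, ∑ j, lor (Y' i) (Y j) * J2 (Qm Y) i j +
          ∑ i, ∑ j, lor (Y i) (Y' j) * J2 (Qm Y) i j) := by
      rw [← Finset.sum_add_distrib, ← Finset.sum_neg_distrib]
      refine Finset.sum_congr rfl fun i _ => ?_
      rw [← Finset.sum_add_distrib, ← Finset.sum_neg_distrib]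
      refine Finset.sum_congr rfl fun j _ => ?_
      rw [Matrix.of_apply]
      ring
    rw [h2, h1]
    ring
  rw [hsym]
  have hpos : ∀ i j, 0 < Qm Y i j := by
    intro i j
    simpa [Qm] using hneg i j
  have hsymm : (Qm Y).IsSymm := by
    ext i j
    simp only [Matrix.transpose_apply, Qm, Matrix.of_apply]
    rw [lor_comm]
  have hcr : ∀ i l : Fin (N + 1), -((Matrix.of Y).det * lor (Y' i) (Y l)) =
      ∑ k, (Matrix.of (Function.update Y k (Y' i))).det * Qm Y k l := by
    intro i l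
    have h1 := congrArg (fun z => lor z (Y l)) (sum_det_update_smul Y (Y' i))
    simp only [lor_sum_left, lor_smul_left] at h1
    rw [← h1, ← Finset.sum_neg_distrib]
    refine Finset.sum_congr rfl fun k _ => ?_
    simp only [Qm, Matrix.of_apply]
    ring
  have hmain : -((Matrix.of Y).det * ∑ i, ∑ j, lor (Y' i) (Y j) * J2 (Qm Y) i j) =
      ∑ k, ∑ i, (Matrix.of (Function.update Y k (Y' i))).det * ∑ l, Qm Y k l * J2 (Qm Y) i l := by
    rw [Finset.mul_sum, ← Finset.sum_neg_distrib, Finset.sum_comm]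
    refine Finset.sum_congr rfl fun i _ => ?_
    have hR : ∑ k, (Matrix.of (Function.update Y k (Y' i))).det *
        ∑ l, Qm Y k l * J2 (Qm Y) i l =
        ∑ l, ∑ k, (Matrix.of (Function.update Y k (Y' i))).det *
          (Qm Y k l * J2 (Qm Y) i l) := by
      simp only [Finset.mul_sum]
      rw [Finset.sum_comm]
    rw [hR, Finset.mul_sum, ← Finset.sum_neg_distrib]
    refine Finset.sum_congr rfl fun l _ => ?_
    have h1 := hcr i l
    calc -((Matrix.of Y).det * (lor (Y' i) (Y l) * J2 (Qm Y) i l))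
        = -((Matrix.of Y).det * lor (Y' i) (Y l)) * J2 (Qm Y) i l := by ring
      _ = _ := by
        rw [h1, Finset.sum_mul]
        refine Finset.sum_congr rfl fun k _ => ?_
        ring
  have hsplit : ∀ k : Fin (N + 1),
      ∑ i, (Matrix.of (Function.update Y k (Y' i))).det * ∑ l, Qm Y k l * J2 (Qm Y) i l =
      (Matrix.of (Function.update Y k (Y' k))).det * J (Qm Y) +
        ∑ i : Fin N, (Matrix.of (Function.update Y k (Y' (k.succAbove i)))).det *
          J1 (Qm (fun a => Y (k.succAbove a))) i := by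
    intro k
    rw [Fin.sum_univ_succAbove _ k, J_stokes1_same (Qm Y) hpos hsymm k]
    congr 1
    refine Finset.sum_congr rfl fun i _ => ?_
    rw [J_stokes1_ne (Qm Y) hpos hsymm k i]
    rfl
  simp only [hsplit, Finset.sum_add_distrib] at hmain
  rw [← Finset.sum_mul] at hmain
  linear_combination -hmain

/-- An alternating cycle pairs to zero with functions of a proper face. -/
lemma sum_alt_cyc {q m : ℕ} (C : (Fin (q + 1) → Fin m) → ℤ)
    (alt : ∀ (G : Fin (q + 1) → Fin m) (π : Equiv.Perm (Fin (q + 1))),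
      C (G ∘ π) = ((Equiv.Perm.sign π : ℤˣ) : ℤ) * C G)
    (cyc : ∀ F : Fin q → Fin m, ∑ x, C (Fin.cons x F) = 0) (k : Fin (q + 1))
    (φ : (Fin q → Fin m) → ℝ) :
    ∑ G : Fin (q + 1) → Fin m, (C G : ℝ) * φ (fun a => G (k.succAbove a)) = 0 := by
  rw [sum_insertNth k]
  refine Finset.sum_eq_zero fun E _ => ?_
  have h4 : ∀ x : Fin m, (C (k.insertNth x E) : ℝ) = (-1) ^ (k : ℕ) * (C (Fin.cons x E) : ℝ) := by
    intro x
    have h5 := alt (Fin.cons x E) k.cycleRange
    rw [Fin.cons_comp_cycleRange, Fin.sign_cycleRange] at h5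
    rw [h5]
    push_cast
    rfl
  simp only [h4, Fin.insertNth_apply_succAbove]
  rw [← Finset.sum_mul, ← Finset.mul_sum]
  have h7 : ∑ x, (C (Fin.cons x E) : ℝ) = 0 := by exact_mod_cast cyc E
  rw [h7, mul_zero, zero_mul]

lemma lor_e0_left {N : ℕ} (y : Fin (N + 1) → ℝ) : lor e0 y = -(y 0) := by
  rw [lor_real]
  simp [e0]

theorem VV_hasDerivAt {q m : ℕ} (C : (Fin (q + 1 + 1) → Fin m) → ℤ)
    (alt : ∀ (G : Fin (q + 1 + 1) → Fin m) (π : Equiv.Perm (Fin (q + 1 + 1))),
      C (G ∘ π) = ((Equiv.Perm.sign π : ℤˣ) : ℤ) * C G)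
    (cyc : ∀ F : Fin (q + 1) → Fin m, ∑ x, C (Fin.cons x F) = 0)
    (y y' : Fin m → Fin (q + 1 + 2) → ℝ)
    (hneg : ∀ v w, lor (y v) (y w) < 0) (hy0 : ∀ v, 0 < y v 0) :
    HasDerivAt (fun t : ℝ => VV C (y + t • y'))
      (-∑ G : Fin (q + 1 + 1) → Fin m, (C G : ℝ) *
        ∑ i, dt (y' (G i)) (y ∘ G) * J1 (Qm (y ∘ G)) i) 0 := by
  have hnegG : ∀ (G : Fin (q + 1 + 1) → Fin m) (a b : Fin (q + 1 + 1 + 1)),
      lor ((Fin.cons e0 (y ∘ G) : Fin (q + 1 + 1 + 1) → Fin (q + 1 + 1 + 1) → ℝ) a)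
        ((Fin.cons e0 (y ∘ G) : Fin (q + 1 + 1 + 1) → Fin (q + 1 + 1 + 1) → ℝ) b) < 0 := by
    intro G a b
    refine Fin.cases ?_ (fun a' => ?_) a
    · refine Fin.cases ?_ (fun b' => ?_) b
      · rw [Fin.cons_zero, lor_e0_left]
        simp [e0]
      · rw [Fin.cons_zero, Fin.cons_succ, lor_e0_left]
        have := hy0 (G b')
        simp only [Function.comp_apply]
        linarith
    · refine Fin.cases ?_ (fun b' => ?_) b
      · rw [Fin.cons_zero, Fin.cons_succ, lor_comm, lor_e0_left]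
        have := hy0 (G a')
        simp only [Function.comp_apply]
        linarith
      · rw [Fin.cons_succ, Fin.cons_succ]
        exact hneg _ _
  have hG : ∀ G : Fin (q + 1 + 1) → Fin m, HasDerivAt (fun t : ℝ => (C G : ℝ) *
      SS (Fin.cons e0 ((y + t • y') ∘ G) : Fin (q + 1 + 1 + 1) → Fin (q + 1 + 1 + 1) → ℝ))
      ((C G : ℝ) * (-∑ k, ∑ i : Fin (q + 1 + 1), (Matrix.of (Function.update
        (Fin.cons e0 (y ∘ G) : Fin (q + 1 + 1 + 1) → Fin (q + 1 + 1 + 1) → ℝ) k
        ((Fin.cons 0 (y' ∘ G) : Fin (q + 1 + 1 + 1) → Fin (q + 1 + 1 + 1) → ℝ)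
          (k.succAbove i)))).det *
        J1 (Qm (fun a => (Fin.cons e0 (y ∘ G) : Fin (q + 1 + 1 + 1) → Fin (q + 1 + 1 + 1) → ℝ)
          (k.succAbove a))) i)) 0 := by
    intro G
    have h1 := (SS_hasDerivAt (Fin.cons e0 (y ∘ G)) (Fin.cons 0 (y' ∘ G)) (hnegG G)).const_mul
      (C G : ℝ)
    have h2 : (fun t : ℝ => (C G : ℝ) *
      SS (Fin.cons e0 ((y + t • y') ∘ G) : Fin (q + 1 + 1 + 1) → Fin (q + 1 + 1 + 1) → ℝ)) =
      fun t : ℝ => (C G : ℝ) * SS ((Fin.cons e0 (y ∘ G) :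
        Fin (q + 1 + 1 + 1) → Fin (q + 1 + 1 + 1) → ℝ) + t • (Fin.cons 0 (y' ∘ G) :
        Fin (q + 1 + 1 + 1) → Fin (q + 1 + 1 + 1) → ℝ)) := by
      funext t
      congr 2
      funext a
      refine Fin.cases ?_ (fun a' => ?_) a
      · simp
      · simp
    rw [h2]
    exact h1
  have hsum := HasDerivAt.fun_sum (u := Finset.univ) (fun G _ => hG G)
  refine hsum.congr_deriv ?_
  -- the terms
  have h0 : ∀ G : Fin (q + 1 + 1) → Fin m,
      ∑ i : Fin (q + 1 + 1), (Matrix.of (Function.update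
        (Fin.cons e0 (y ∘ G) : Fin (q + 1 + 1 + 1) → Fin (q + 1 + 1 + 1) → ℝ) 0
        ((Fin.cons 0 (y' ∘ G) : Fin (q + 1 + 1 + 1) → Fin (q + 1 + 1 + 1) → ℝ)
          ((0 : Fin (q + 1 + 1 + 1)).succAbove i)))).det *
        J1 (Qm (fun a => (Fin.cons e0 (y ∘ G) : Fin (q + 1 + 1 + 1) → Fin (q + 1 + 1 + 1) → ℝ)
          ((0 : Fin (q + 1 + 1 + 1)).succAbove a))) i =
      ∑ i, dt (y' (G i)) (y ∘ G) * J1 (Qm (y ∘ G)) i := by
    intro G
    refine Finset.sum_congr rfl fun i _ => ?_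
    simp only [Fin.zero_succAbove, Fin.cons_succ]
    rw [Fin.update_cons_zero]
    rfl
  have hk : ∀ k : Fin (q + 1 + 1), ∑ G : Fin (q + 1 + 1) → Fin m, (C G : ℝ) *
      ∑ i : Fin (q + 1 + 1), (Matrix.of (Function.update
        (Fin.cons e0 (y ∘ G) : Fin (q + 1 + 1 + 1) → Fin (q + 1 + 1 + 1) → ℝ) k.succ
        ((Fin.cons 0 (y' ∘ G) : Fin (q + 1 + 1 + 1) → Fin (q + 1 + 1 + 1) → ℝ)
          (k.succ.succAbove i)))).det *
        J1 (Qm (fun a => (Fin.cons e0 (y ∘ G) : Fin (q + 1 + 1 + 1) → Fin (q + 1 + 1 + 1) → ℝ)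
          (k.succ.succAbove a))) i = 0 := by
    intro k
    set φ : (Fin (q + 1) → Fin m) → ℝ := fun E =>
      ∑ i : Fin (q + 1), (Matrix.of (Fin.cons e0 (k.insertNth (y' (E i)) (y ∘ E)) :
        Fin (q + 1 + 1 + 1) → Fin (q + 1 + 1 + 1) → ℝ)).det *
        J1 (Qm (Fin.cons e0 (y ∘ E) : Fin (q + 1 + 1) → Fin (q + 1 + 1 + 1) → ℝ)) i.succ with hφ
    have h1 := sum_alt_cyc C alt cyc k φ
    rw [← h1]
    refine Finset.sum_congr rfl fun G _ => ?_
    congr 1
    rw [Fin.sum_univ_succ]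
    have h2 : (Matrix.of (Function.update
        (Fin.cons e0 (y ∘ G) : Fin (q + 1 + 1 + 1) → Fin (q + 1 + 1 + 1) → ℝ) k.succ
        ((Fin.cons 0 (y' ∘ G) : Fin (q + 1 + 1 + 1) → Fin (q + 1 + 1 + 1) → ℝ)
          (k.succ.succAbove 0)))).det = 0 := by
      refine Matrix.det_eq_zero_of_row_eq_zero k.succ fun j => ?_
      simp
    rw [h2, zero_mul, zero_add]
    refine Finset.sum_congr rfl fun i _ => ?_
    rw [Fin.succ_succAbove_succ, Fin.cons_succ]
    have h3 : (fun a => (Fin.cons e0 (y ∘ G) : Fin (q + 1 + 1 + 1) → Fin (q + 1 + 1 + 1) → ℝ)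
          (k.succ.succAbove a)) = (Fin.cons e0 (y ∘ fun a => G (k.succAbove a)) :
            Fin (q + 1 + 1) → Fin (q + 1 + 1 + 1) → ℝ) := by
      funext a
      refine Fin.cases ?_ (fun a' => ?_) a
      · rw [Fin.succ_succAbove_zero, Fin.cons_zero, Fin.cons_zero]
      · rw [Fin.succ_succAbove_succ, Fin.cons_succ, Fin.cons_succ]
        rfl
    rw [h3]
    congr 2
    congr 1
    rw [← Fin.cons_update]
    congr 1
    funext b
    refine Fin.succAboveCases k ?_ (fun b' => ?_) b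
    · simp
    · simp
  simp only [mul_neg, Finset.sum_neg_distrib, neg_inj]
  have hexp : ∀ G : Fin (q + 1 + 1) → Fin m, (C G : ℝ) *
      ∑ k, ∑ i : Fin (q + 1 + 1), (Matrix.of (Function.update
        (Fin.cons e0 (y ∘ G) : Fin (q + 1 + 1 + 1) → Fin (q + 1 + 1 + 1) → ℝ) k
        ((Fin.cons 0 (y' ∘ G) : Fin (q + 1 + 1 + 1) → Fin (q + 1 + 1 + 1) → ℝ)
          (k.succAbove i)))).det *
        J1 (Qm (fun a => (Fin.cons e0 (y ∘ G) : Fin (q + 1 + 1 + 1) → Fin (q + 1 + 1 + 1) → ℝ)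
          (k.succAbove a))) i =
      (C G : ℝ) * ∑ i, dt (y' (G i)) (y ∘ G) * J1 (Qm (y ∘ G)) i +
      ∑ k : Fin (q + 1 + 1), (C G : ℝ) *
      ∑ i : Fin (q + 1 + 1), (Matrix.of (Function.update
        (Fin.cons e0 (y ∘ G) : Fin (q + 1 + 1 + 1) → Fin (q + 1 + 1 + 1) → ℝ) k.succ
        ((Fin.cons 0 (y' ∘ G) : Fin (q + 1 + 1 + 1) → Fin (q + 1 + 1 + 1) → ℝ)
          (k.succ.succAbove i)))).det *
        J1 (Qm (fun a => (Fin.cons e0 (y ∘ G) : Fin (q + 1 + 1 + 1) → Fin (q + 1 + 1 + 1) → ℝ)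
          (k.succ.succAbove a))) i := by
    intro G
    rw [Fin.sum_univ_succ, mul_add, h0 G]
    congr 1
    rw [Finset.mul_sum]
  rw [Finset.sum_congr rfl fun G _ => hexp G, Finset.sum_add_distrib, Finset.sum_comm
    (f := fun (G : Fin (q + 1 + 1) → Fin m) (k : Fin (q + 1 + 1)) => (C G : ℝ) *
      ∑ i : Fin (q + 1 + 1), (Matrix.of (Function.update
        (Fin.cons e0 (y ∘ G) : Fin (q + 1 + 1 + 1) → Fin (q + 1 + 1 + 1) → ℝ) k.succ
        ((Fin.cons 0 (y' ∘ G) : Fin (q + 1 + 1 + 1) → Fin (q + 1 + 1 + 1) → ℝ)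
          (k.succ.succAbove i)))).det *
        J1 (Qm (fun a => (Fin.cons e0 (y ∘ G) : Fin (q + 1 + 1 + 1) → Fin (q + 1 + 1 + 1) → ℝ)
          (k.succ.succAbove a))) i), Finset.sum_eq_zero (fun k _ => hk k), add_zero]

end Pool.Agent.Work.MP_1c91cf_gt

end

section

/-!
# The total sum over all edges
-/

set_option autoImplicit false
set_option linter.unusedSectionVars false

open Matrix

namespace Pool.Agent.Work.MP_1c91cf_gt

open Classical

variable {q m : ℕ} {c : RealConf q m} {L κ : Type*} [Field L] [Field κ] [Algebra ℂ L] [Algebra ℂ κ]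
  (P : Place L κ) (l : LConf c L)

variable {nu : (Fin (q + 1 + 1) → Fin m) → (Fin (q + 1 + 2) → L) → WithTop ℤ}

/-- weight of a codimension two face at position `j` -/
noncomputable def BB (nu : (Fin (q + 1 + 1) → Fin m) → (Fin (q + 1 + 2) → L) → WithTop ℤ)
    (F : Fin (q + 1) → Fin m) (j : ℤ) : ℤ :=
  ∑ x, if j + 1 ≤ jj l nu x F then c.C (Fin.cons x F) else 0

lemma BB_eq_up (hv : Valid P l nu) {F : Fin (q + 1) → Fin m} (hs : c.sub F) (hn : c.nd F)
    (j : ℤ) : BB l nu F j =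
      ∑ x, if hside (l.ln P F j) (l.ln P F (j + 1)) (nu (Fin.cons x F)) then
        c.C (Fin.cons x F) else 0 := by
  refine Finset.sum_congr rfl fun x _ => ?_
  by_cases hx : c.C (Fin.cons x F) = 0
  · rw [hx]; split_ifs <;> rfl
  · rw [hv.eq_ln P l hx hn]
    have h : hside (l.ln P F j) (l.ln P F (j + 1)) (l.ln P F (jj l nu x F)) ↔
        j + 1 ≤ jj l nu x F := hside_line_up P (l.hp hs hn) j (jj l nu x F)
    by_cases h2 : j + 1 ≤ jj l nu x F
    · rw [if_pos h2, if_pos (h.2 h2)]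
    · rw [if_neg h2, if_neg (fun h3 => h2 (h.1 h3))]

lemma BB_eq_down (hv : Valid P l nu) {F : Fin (q + 1) → Fin m} (hs : c.sub F) (hn : c.nd F)
    (j : ℤ) : BB l nu F (j - 1) =
      -∑ x, if hside (l.ln P F j) (l.ln P F (j - 1)) (nu (Fin.cons x F)) then
        c.C (Fin.cons x F) else 0 := by
  have h0 : ∑ x, c.C (Fin.cons x F) = 0 := c.cyc F
  have h1 : BB l nu F (j - 1) + ∑ x, (if hside (l.ln P F j) (l.ln P F (j - 1))
      (nu (Fin.cons x F)) then c.C (Fin.cons x F) else 0) = ∑ x, c.C (Fin.cons x F) := by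
    rw [BB, ← Finset.sum_add_distrib]
    refine Finset.sum_congr rfl fun x _ => ?_
    by_cases hx : c.C (Fin.cons x F) = 0
    · rw [hx]; split_ifs <;> rfl
    · rw [hv.eq_ln P l hx hn]
      have h : hside (l.ln P F j) (l.ln P F (j - 1)) (l.ln P F (jj l nu x F)) ↔
        ¬ j ≤ jj l nu x F := hside_line_down P (l.hp hs hn) j (jj l nu x F)
      rw [sub_add_cancel]
      by_cases h2 : j ≤ jj l nu x F
      · rw [if_pos h2, if_neg (fun h3 => h.1 h3 h2), add_zero]
      · rw [if_neg h2, if_pos (h.2 h2), zero_add]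
  rw [h0] at h1
  linarith

/-- the unordered edge -/
noncomputable def edg (F : Fin (q + 1) → Fin m) (j : ℤ) :
    Sym2 ((Fin (q + 1 + 2) → L) → WithTop ℤ) := s(l.ln P F j, l.ln P F (j + 1))

lemma inMM_ln (F : Fin (q + 1) → Fin m) (hs : c.sub F) (hn : c.nd F) (j j' : ℤ) (a : Fin (q + 1)) :
    inMM l (l.ln P F j) (l.ln P F j') (F a) :=
  ⟨nrm_F P (l.hp hs hn) (l.rt hs hn) j a, nrm_F P (l.hp hs hn) (l.rt hs hn) j' a⟩

/-- contribution of a face to an edge -/
lemma face_contrib (hv : Valid P l nu) {F0 : Fin (q + 1) → Fin m} (hs0 : c.sub F0)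
    (hn0 : c.nd F0) (i : ℤ) {F : Fin (q + 1) → Fin m} (hs : c.sub F) (hn : c.nd F)
    (S : Finset ℤ) (hS : ∀ j, j ∉ S → BB l nu F j = 0) :
    (rl (∑ j ∈ S, if edg P l F j = edg P l F0 i then c.D F * c.jf F * (BB l nu F j : ℝ) else 0) : κ)
        * rl (c.D F0) =
      -((ZZ l nu (l.ln P F0 i) (l.ln P F0 (i + 1)) F : κ) * rl (c.jf F) *
        (Matrix.of fun a b => P.red (lor (l.y (F a)) (l.y (F0 b)))).det) := by
  by_cases hM : ∀ a, inMM l (l.ln P F0 i) (l.ln P F0 (i + 1)) (F a)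
  swap
  · have h1 : ZZ l nu (l.ln P F0 i) (l.ln P F0 (i + 1)) F = 0 := by
      rw [ZZ, if_neg hM]
    have h2 : ∀ j ∈ S, (if edg P l F j = edg P l F0 i then c.D F * c.jf F * (BB l nu F j : ℝ)
        else 0) = 0 := by
      intro j _
      rw [if_neg]
      intro he
      apply hM
      rw [edg, edg, Sym2.eq_iff] at he
      intro a
      rcases he with ⟨e1, e2⟩ | ⟨e1, e2⟩
      · rw [← e1, ← e2]; exact inMM_ln P l F hs hn _ _ a
      · rw [← e1, ← e2]; exact inMM_ln P l F hs hn _ _ a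
    rw [Finset.sum_eq_zero h2, h1]
    simp
  have hZ : ZZ l nu (l.ln P F0 i) (l.ln P F0 (i + 1)) F = ∑ x,
      if hside (l.ln P F0 i) (l.ln P F0 (i + 1)) (nu (Fin.cons x F)) then c.C (Fin.cons x F)
      else 0 := by
    rw [ZZ, if_pos hM]
  have hp0 := l.hp hs0 hn0
  have hp := l.hp hs hn
  obtain ⟨k, hk, hk' | hk'⟩ := edge_on_line P hp0 (l.rt hs0 hn0) hp (l.rt hs hn) (i := i)
    (fun a => (hM a).1) (fun a => (hM a).2)
  · -- positive direction
    have h1 : l.ln P F0 i = l.ln P F k := hk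
    have h2 : l.ln P F0 (i + 1) = l.ln P F (k + 1) := hk'
    have hdet := red_det_edge_pos P hp0 (l.rt hs0 hn0) LConf.ii_sq hp (l.rt hs hn) (i := i) (k := k)
      (by rw [hk]; exact nrm_ep P hp k) (by rw [hk']; exact nrm_ep P hp (k + 1))
      (fun a => (hM a).1)
    have hdet' : (Matrix.of fun a b => P.red (lor (l.y (F a)) (l.y (F0 b)))).det
      = (rl (-(c.D F * c.D F0)) : κ) := hdet
    have hsum : (∑ j ∈ S, if edg P l F j = edg P l F0 i then c.D F * c.jf F * (BB l nu F j : ℝ)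
        else 0) = c.D F * c.jf F * (BB l nu F k : ℝ) := by
      have he : ∀ j, edg P l F j = edg P l F0 i ↔ j = k := by
        intro j
        rw [edg, edg, Sym2.eq_iff, h1, h2]
        constructor
        · rintro (⟨e1, -⟩ | ⟨e1, e2⟩)
          · exact nrm_inj P hp e1
          · have := nrm_inj P hp e1
            have := nrm_inj P hp e2
            omega
        · rintro rfl
          left; exact ⟨rfl, rfl⟩
      simp only [he]
      rw [Finset.sum_ite_eq']
      split_ifs with hkS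
      · rfl
      · rw [hS k hkS]; simp
    rw [hsum, hZ, hdet', h1, h2, ← BB_eq_up P l hv hs hn k]
    simp only [map_mul, map_neg, map_intCast]
    ring
  · have h1 : l.ln P F0 i = l.ln P F k := hk
    have h2 : l.ln P F0 (i + 1) = l.ln P F (k - 1) := hk'
    have hdet := red_det_edge_neg P hp0 (l.rt hs0 hn0) LConf.ii_sq hp (l.rt hs hn) (i := i)
      (k := -k)
      (by rw [hk]; exact nrm_em P hp k) (by
        rw [hk', nrm_em P hp (k - 1)]
        congr 1; ring)
      (fun a => (hM a).1)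
    have hdet' : (Matrix.of fun a b => P.red (lor (l.y (F a)) (l.y (F0 b)))).det
      = (rl (c.D F * c.D F0) : κ) := hdet
    have hsum : (∑ j ∈ S, if edg P l F j = edg P l F0 i then c.D F * c.jf F * (BB l nu F j : ℝ)
        else 0) = c.D F * c.jf F * (BB l nu F (k - 1) : ℝ) := by
      have he : ∀ j, edg P l F j = edg P l F0 i ↔ j = k - 1 := by
        intro j
        rw [edg, edg, Sym2.eq_iff, h1, h2]
        constructor
        · rintro (⟨e1, e2⟩ | ⟨e1, e2⟩)
          · have := nrm_inj P hp e1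
            have := nrm_inj P hp e2
            omega
          · exact nrm_inj P hp e1
        · rintro rfl
          right
          refine ⟨rfl, ?_⟩
          rw [sub_add_cancel]
      simp only [he]
      rw [Finset.sum_ite_eq']
      split_ifs with hkS
      · rfl
      · rw [hS _ hkS]; simp
    have hB := BB_eq_down P l hv hs hn k
    rw [hsum, hZ, hdet', h1, h2, hB]
    simp only [map_mul, map_neg, map_intCast, Int.cast_neg]
    ring

/-- The contribution of one edge vanishes. -/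
theorem edge_sum (hq : 1 ≤ q) (hv : Valid P l nu) {F0 : Fin (q + 1) → Fin m} (hs0 : c.sub F0)
    (hn0 : c.nd F0) (i : ℤ) (S : Finset ℤ)
    (hS : ∀ F : Fin (q + 1) → Fin m, c.nd F → ∀ j, j ∉ S → BB l nu F j = 0) :
    ∑ F : Fin (q + 1) → Fin m, ∑ j ∈ S,
      (if (c.sub F ∧ c.nd F) ∧ edg P l F j = edg P l F0 i then
        c.D F * c.jf F * (BB l nu F j : ℝ) else 0) = 0 := by
  have hp0 := l.hp hs0 hn0
  have hrt0 := l.rt hs0 hn0
  -- the residue lemma
  have hres := residue_sum (κ := κ) hq c.y0 c.fut ((c.Γ F0)⁻¹.map rl) ?_ ?_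
    (fun v b => P.red (lor (l.y v) (l.y (F0 b)))) (ZZ l nu (l.ln P F0 i) (l.ln P F0 (i + 1)))
    (ZZ_perm P l hv _ _) (fun E hE => ZZ_cyc P l hv hs0 hn0 i hq hE) ?_
  · have hinj : Function.Injective (rl : ℝ →+* κ) := RingHom.injective _
    have hD0 : (rl (c.D F0) : κ) ≠ 0 := by
      rw [map_ne_zero_iff _ hinj]; exact (c.D_pos F0 hn0).ne'
    apply hinj
    rw [map_zero]
    apply mul_right_cancel₀ hD0
    rw [zero_mul, map_sum, Finset.sum_mul]
    have hterm : ∀ F : Fin (q + 1) → Fin m,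
        (rl (∑ j ∈ S, (if (c.sub F ∧ c.nd F) ∧ edg P l F j = edg P l F0 i then
          c.D F * c.jf F * (BB l nu F j : ℝ) else 0)) : κ) * rl (c.D F0) =
        -((ZZ l nu (l.ln P F0 i) (l.ln P F0 (i + 1)) F : κ) *
          (rl (J (Matrix.of fun a b => -lor (c.y0 (F a)) (c.y0 (F b)))) : κ) *
          (Matrix.of fun a => (fun v b => P.red (lor (l.y v) (l.y (F0 b)))) (F a)).det) := by
      intro F
      by_cases hsn : c.sub F ∧ c.nd F
      · simp only [hsn, true_and]
        exact face_contrib P l hv hs0 hn0 i hsn.1 hsn.2 S (hS F hsn.2)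
      · simp only [hsn, false_and, if_false, Finset.sum_const_zero, map_zero, zero_mul]
        by_cases hs : c.sub F
        · have hn : ¬ c.nd F := fun hn => hsn ⟨hs, hn⟩
          by_cases hM : ∀ a, inMM l (l.ln P F0 i) (l.ln P F0 (i + 1)) (F a)
          swap
          · have h1 : ZZ l nu (l.ln P F0 i) (l.ln P F0 (i + 1)) F = 0 := by
              rw [ZZ, if_neg hM]
            rw [h1]; simp
          have hdet : (Matrix.of fun a b => P.red (lor (l.y (F a)) (l.y (F0 b)))).det = 0 := by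
            have hmul : (Matrix.of fun a b => P.red (lor (l.y (F a)) (l.y (F0 b)))) *
                ((c.Γ F0)⁻¹.map (rl : ℝ →+* κ)) *
                (Matrix.of fun a b => P.red (lor (l.y (F a)) (l.y (F0 b))))ᵀ =
                (c.Γ F).map rl := by
              ext a b
              simp only [Matrix.mul_apply, Matrix.of_apply, Matrix.map_apply,
                Matrix.transpose_apply]
              have h2 := red_lor P hp0 hrt0 (hM a).1 (hM a).2 (hM b).1 (hM b).2
              have h3 : lor (l.y (F a)) (l.y (F b)) = rl (c.Γ F a b) := by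
                have := congrFun (congrFun (l.gram_eq hs) a) b
                rwa [gram_apply, Matrix.map_apply] at this
              rw [h3, P.red_real] at h2
              rw [h2]
              simp only [Finset.sum_mul]
              rw [Finset.sum_comm]
              refine Finset.sum_congr rfl fun x _ => Finset.sum_congr rfl fun y _ => ?_
              simp only [Function.comp_apply]
              ring
            have h4 := congrArg Matrix.det hmul
            have h5 : ((c.Γ F).map (rl : ℝ →+* κ)).det = 0 := by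
              have h6 : ((c.Γ F).map (rl : ℝ →+* κ)).det = rl (c.Γ F).det := by
                rw [RingHom.map_det]; rfl
              rw [h6]
              have h7 : (c.Γ F).det = 0 := by
                by_contra h8; exact hn h8
              rw [h7, map_zero]
            have h9 : ((c.Γ F0)⁻¹.map (rl : ℝ →+* κ)).det ≠ 0 := by
              have h2 : ((c.Γ F0)⁻¹.map (rl : ℝ →+* κ)).det = rl ((c.Γ F0)⁻¹).det := by
                rw [RingHom.map_det]; rfl
              rw [h2, map_ne_zero_iff _ (RingHom.injective _), Matrix.det_nonsing_inv]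
              have h3 : (c.Γ F0).det ≠ 0 := hn0
              simpa using h3
            rw [Matrix.det_mul, Matrix.det_mul, Matrix.det_transpose, h5] at h4
            by_contra hne
            exact (mul_ne_zero (mul_ne_zero hne h9) hne) h4
          have hdet' : (Matrix.of fun a => (fun v b => P.red (lor (l.y v) (l.y (F0 b)))) (F a)).det
            = 0 := hdet
          rw [hdet']; simp
        · have h1 : ZZ l nu (l.ln P F0 i) (l.ln P F0 (i + 1)) F = 0 := by
            rw [ZZ]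
            split_ifs with hM
            · apply Finset.sum_eq_zero
              intro x _
              have : c.C (Fin.cons x F) = 0 := by
                by_contra hne
                exact hs (c.sub_of_cons hne)
              rw [this]; split_ifs <;> rfl
            · rfl
          rw [h1]; simp
    rw [Finset.sum_congr rfl fun F _ => hterm F, Finset.sum_neg_distrib, hres, neg_zero]
  · have h2 : ((c.Γ F0)⁻¹.map (rl : ℝ →+* κ)).det = rl ((c.Γ F0)⁻¹).det := by
      rw [RingHom.map_det]; rfl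
    rw [h2, map_ne_zero_iff _ (RingHom.injective _), Matrix.det_nonsing_inv]
    have h3 : (c.Γ F0).det ≠ 0 := hn0
    simpa using h3
  · have h1 : (c.Γ F0).IsSymm := gram_isSymm _
    have h2 : ((c.Γ F0)⁻¹).IsSymm := by
      rw [Matrix.IsSymm, Matrix.transpose_nonsing_inv, h1.eq]
    ext a b
    rw [Matrix.transpose_apply, Matrix.map_apply, Matrix.map_apply]
    congr 1
    exact h2.apply a b
  · intro F hZ a b
    have hM : ∀ a, inMM l (l.ln P F0 i) (l.ln P F0 (i + 1)) (F a) := by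
      by_contra hM
      rw [ZZ, if_neg hM] at hZ
      exact hZ rfl
    have hs : c.sub F := by
      by_contra hs
      apply hZ
      rw [ZZ, if_pos hM]
      apply Finset.sum_eq_zero
      intro x _
      have : c.C (Fin.cons x F) = 0 := by
        by_contra hne
        exact hs (c.sub_of_cons hne)
      rw [this]; split_ifs <;> rfl
    have h2 := red_lor P hp0 hrt0 (hM a).1 (hM a).2 (hM b).1 (hM b).2
    have h3 : lor (l.y (F a)) (l.y (F b)) = rl (c.Γ F a b) := by
      have := congrFun (congrFun (l.gram_eq hs) a) b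
      rwa [gram_apply, Matrix.map_apply] at this
    rw [h3, P.red_real] at h2
    have h4 : c.Γ F a b = lor (c.y0 (F a)) (c.y0 (F b)) := rfl
    rw [h4] at h2
    rw [h2]
    simp only [dotProduct, Matrix.mulVec, Finset.mul_sum, Matrix.map_apply]
    refine Finset.sum_congr rfl fun x _ => Finset.sum_congr rfl fun y _ => ?_
    simp only [Function.comp_apply]
    ring

/-- integer telescoping -/
lemma int_count (N : ℕ) (t : ℤ) (h1 : -(N : ℤ) ≤ t) (h2 : t ≤ N) :
    t = -(N : ℤ) + ∑ j ∈ Finset.Ico (-(N : ℤ)) N, if j + 1 ≤ t then (1 : ℤ) else 0 := by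
  have h3 : ∑ j ∈ Finset.Ico (-(N : ℤ)) N, (if j + 1 ≤ t then (1 : ℤ) else 0) =
      ((Finset.Ico (-(N : ℤ)) t).card : ℤ) := by
    rw [← Finset.sum_filter, Finset.sum_const, nsmul_eq_mul, mul_one]
    congr 2
    ext j
    simp only [Finset.mem_filter, Finset.mem_Ico]
    omega
  rw [h3, Int.card_Ico]
  have : ((t - -(N : ℤ)).toNat : ℤ) = t - -(N : ℤ) := Int.toNat_of_nonneg (by omega)
  rw [this]
  ring

lemma exists_bound {α β : Type*} [Fintype α] [Fintype β] (f : α → β → ℤ) :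
    ∃ N : ℕ, ∀ a b, (f a b).natAbs ≤ N := by
  refine ⟨∑ a, ∑ b, (f a b).natAbs, fun a b => ?_⟩
  calc (f a b).natAbs ≤ ∑ b, (f a b).natAbs :=
        Finset.single_le_sum (f := fun b => (f a b).natAbs) (fun _ _ => Nat.zero_le _)
          (Finset.mem_univ b)
    _ ≤ _ := Finset.single_le_sum (f := fun a => ∑ b, (f a b).natAbs)
          (fun _ _ => Nat.zero_le _) (Finset.mem_univ a)

lemma BB_out {N : ℕ} {F : Fin (q + 1) → Fin m} (hbd : ∀ x, (jj l nu x F).natAbs ≤ N) (j : ℤ)
    (hj : j ∉ Finset.Ico (-(N : ℤ)) N) : BB l nu F j = 0 := by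
  rw [Finset.mem_Ico] at hj
  rw [BB]
  by_cases h1 : j < -(N : ℤ)
  · have h2 : ∀ x, j + 1 ≤ jj l nu x F := fun x => by
      have := hbd x
      omega
    simp only [h2, if_true]
    exact c.cyc F
  · have h2 : ∀ x, ¬ j + 1 ≤ jj l nu x F := fun x => by
      have := hbd x
      omega
    simp only [h2, if_false, Finset.sum_const_zero]

lemma sum_jj_eq {N : ℕ} {F : Fin (q + 1) → Fin m} (hbd : ∀ x, (jj l nu x F).natAbs ≤ N) :
    ∑ x, (c.C (Fin.cons x F) : ℝ) * (jj l nu x F : ℝ) =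
      ∑ j ∈ Finset.Ico (-(N : ℤ)) N, (BB l nu F j : ℝ) := by
  have h1 : ∑ x, c.C (Fin.cons x F) * jj l nu x F =
      ∑ j ∈ Finset.Ico (-(N : ℤ)) N, BB l nu F j := by
    have h2 : ∀ x, c.C (Fin.cons x F) * jj l nu x F = -(N : ℤ) * c.C (Fin.cons x F) +
        ∑ j ∈ Finset.Ico (-(N : ℤ)) N,
          if j + 1 ≤ jj l nu x F then c.C (Fin.cons x F) else 0 := by
      intro x
      have h3 := hbd x
      have h4 := int_count N (jj l nu x F) (by omega) (by omega)
      conv_lhs => rw [h4]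
      rw [mul_add, Finset.mul_sum]
      congr 1
      · ring
      · refine Finset.sum_congr rfl fun j _ => ?_
        split_ifs <;> ring
    simp only [h2, Finset.sum_add_distrib, BB]
    rw [← Finset.mul_sum, c.cyc F, mul_zero, zero_add, Finset.sum_comm]
  exact_mod_cast h1

/-- grouping a sum by the values of a map -/
lemma sum_eq_zero_of_fibers {α β : Type*} (T : Finset α) (g : α → β) (f : α → ℝ)
    (h : ∀ s ∈ T, ∑ t ∈ T, (if g t = g s then f t else 0) = 0) : ∑ s ∈ T, f s = 0 := by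
  rw [← Finset.sum_fiberwise_of_maps_to (s := T) (t := T.image g)
    (g := g) (fun s hs => Finset.mem_image_of_mem _ hs) f]
  apply Finset.sum_eq_zero
  intro e he
  obtain ⟨s, hs, rfl⟩ := Finset.mem_image.1 he
  refine Eq.trans ?_ (h s hs)
  rw [Finset.sum_filter]

/-- The total sum vanishes for every valid choice of norms. -/
theorem total_zero (hq : 1 ≤ q) (hv : Valid P l nu) :
    ∑ F : Fin (q + 1) → Fin m, (if c.nd F then
      c.D F * c.jf F * ∑ x, (c.C (Fin.cons x F) : ℝ) * (jj l nu x F : ℝ) else 0) = 0 := by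
  -- bound
  obtain ⟨N, hbd⟩ := exists_bound (fun (F : Fin (q + 1) → Fin m) x => jj l nu x F)
  -- rewrite as a sum over faces and positions
  have hrew : ∑ F : Fin (q + 1) → Fin m, (if c.nd F then
      c.D F * c.jf F * ∑ x, (c.C (Fin.cons x F) : ℝ) * (jj l nu x F : ℝ) else 0) =
      ∑ s ∈ (Finset.univ.filter fun F : Fin (q + 1) → Fin m => c.sub F ∧ c.nd F) ×ˢ
        Finset.Ico (-(N : ℤ)) N,
        c.D s.1 * c.jf s.1 * (BB l nu s.1 s.2 : ℝ) := by
    rw [Finset.sum_product, Finset.sum_filter]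
    refine Finset.sum_congr rfl fun F _ => ?_
    by_cases hn : c.nd F
    · by_cases hs : c.sub F
      · rw [if_pos hn, if_pos ⟨hs, hn⟩, sum_jj_eq l (hbd F), Finset.mul_sum]
      · rw [if_pos hn, if_neg (fun h => hs h.1)]
        have : ∀ x, c.C (Fin.cons x F) = 0 := fun x => by
          by_contra hne
          exact hs (c.sub_of_cons hne)
        simp [this]
    · rw [if_neg hn, if_neg (fun h => hn h.2)]
  rw [hrew]
  apply sum_eq_zero_of_fibers _ (fun s => edg P l s.1 s.2)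
  rintro ⟨F0, i⟩ hs0
  rw [Finset.mem_product, Finset.mem_filter] at hs0
  obtain ⟨⟨-, hs0, hn0⟩, -⟩ := hs0
  have h1 := edge_sum P l hq hv hs0 hn0 i (Finset.Ico (-(N : ℤ)) N)
    (fun F _ => BB_out l (hbd F))
  refine Eq.trans ?_ h1
  rw [Finset.sum_product, Finset.sum_filter]
  refine Finset.sum_congr rfl fun F _ => ?_
  by_cases hsn : c.sub F ∧ c.nd F
  · rw [if_pos hsn]
    simp only [hsn, true_and]
  · rw [if_neg hsn]
    simp only [hsn, false_and, if_false, Finset.sum_const_zero]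

end Pool.Agent.Work.MP_1c91cf_gt

end

section

/-!
# The heart: the order relation
-/

set_option autoImplicit false
set_option linter.unusedSectionVars false

open Matrix

namespace Pool.Agent.Work.MP_1c91cf_gt

open Classical

section refl

variable {L κ : Type*} [Field L] [Field κ] [Algebra ℂ L] [Algebra ℂ κ] {P : Place L κ} {n : ℕ}

/-- norms composed with isometric involutions -/
lemma SDN.comp {μ : (Fin (n + 1) → L) → WithTop ℤ} (hμ : SDN P μ)
    (σ : (Fin (n + 1) → L) → (Fin (n + 1) → L)) (hadd : ∀ z w, σ (z + w) = σ z + σ w)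
    (hsmul : ∀ (c : L) z, σ (c • z) = c • σ z) (hinv : ∀ z, σ (σ z) = z)
    (hiso : ∀ z w, lor (σ z) (σ w) = lor z w) : SDN P (fun z => μ (σ z)) where
  add z w := by rw [hadd]; exact hμ.add _ _
  smul a z := by rw [hsmul]; exact hμ.smul _ _
  top z hz := by
    have h1 := hμ.top _ hz
    rw [← hinv z, h1]
    have := hsmul 0 0
    simpa using this
  pair z w := by rw [← hiso]; exact hμ.pair _ _
  dual z hz := by
    have h1 : σ z ≠ 0 := by
      intro h0
      apply hz
      rw [← hinv z, h0]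
      have := hsmul 0 0
      simpa using this
    obtain ⟨w, hw0, hw⟩ := hμ.dual (σ z) h1
    refine ⟨σ w, ?_, ?_⟩
    · intro h0
      apply hw0
      rw [← hinv w, h0]
      have := hsmul 0 0
      simpa using this
    · rw [hinv, ← hiso, hinv]; exact hw

/-- reflection fixing `F` and `p = perp F z0` -/
noncomputable def refl {k : ℕ} (F : Fin k → Fin (n + 1) → L) (p z : Fin (n + 1) → L) :
    Fin (n + 1) → L := (2 : L) • (prj F z + (lor z p / lor p p) • p) - z

variable {k : ℕ} {F : Fin k → Fin (n + 1) → L} {p : Fin (n + 1) → L}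

lemma refl_add (z w : Fin (n + 1) → L) : refl F p (z + w) = refl F p z + refl F p w := by
  simp only [refl, prj_add, lor_add_left, add_div, add_smul]
  module

lemma refl_smul (a : L) (z : Fin (n + 1) → L) : refl F p (a • z) = a • refl F p z := by
  simp only [refl, prj_smul, lor_smul_left, mul_div_assoc]
  module

lemma lor_prj_left (hF : (gram F F).det ≠ 0) (z w : Fin (n + 1) → L) :
    lor (prj F z) w = lor (prj F z) (prj F w) := by
  have h3 := lor_perp_prj F hF w z
  rw [perp, lor_sub_left, lor_comm w, lor_comm (prj F w)] at h3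
  exact sub_eq_zero.1 h3

lemma lor_prj_perp (hF : (gram F F).det ≠ 0) (hp : ∀ a, lor p (F a) = 0) (z : Fin (n + 1) → L) :
    lor (prj F z) p = 0 := by
  rw [prj, lor_sum_left]
  refine Finset.sum_eq_zero fun a _ => ?_
  rw [lor_smul_left, lor_comm, hp, mul_zero]

lemma refl_iso (hF : (gram F F).det ≠ 0) (hp : ∀ a, lor p (F a) = 0) (hpp : lor p p ≠ 0)
    (z w : Fin (n + 1) → L) : lor (refl F p z) (refl F p w) = lor z w := by
  have h1 := lor_prj_left hF z w
  have h2 := lor_prj_left hF w z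
  have h3 := lor_prj_perp hF hp z
  have h4 := lor_prj_perp hF hp w
  simp only [refl, lor_sub_left, lor_sub_right, lor_smul_left, lor_smul_right, lor_add_left,
    lor_add_right]
  rw [h1, lor_comm z (prj F w), h2, h3, lor_comm p (prj F w), h4, lor_comm (prj F w) (prj F z),
    lor_comm p w]
  field_simp
  ring

lemma prj_of_orth (hp : ∀ a, lor p (F a) = 0) : prj F p = 0 := by
  have : (fun b => lor p (F b)) = 0 := by ext b; exact hp b
  simp [prj, this]

lemma prj_prj (hF : (gram F F).det ≠ 0) (z : Fin (n + 1) → L) : prj F (prj F z) = prj F z := by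
  have h1 := mem_span_perp F hF (prj F z) (prj_mem_span F z)
  rw [perp] at h1
  exact (sub_eq_zero.1 h1).symm

lemma prj_sub (z w : Fin (n + 1) → L) : prj F (z - w) = prj F z - prj F w := by
  rw [sub_eq_add_neg, prj_add, ← neg_one_smul L w, prj_smul, neg_one_smul, ← sub_eq_add_neg]

lemma refl_refl (hF : (gram F F).det ≠ 0) (hp : ∀ a, lor p (F a) = 0) (hpp : lor p p ≠ 0)
    (z : Fin (n + 1) → L) : refl F p (refl F p z) = z := by
  have h1 : prj F (refl F p z) = prj F z := by
    simp only [refl, prj_sub, prj_smul, prj_add, prj_prj hF, prj_of_orth hp]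
    module
  have h2 : lor (refl F p z) p = lor z p := by
    simp only [refl, lor_sub_left, lor_smul_left, lor_add_left, lor_prj_perp hF hp]
    field_simp
    ring
  rw [refl, h1, h2, refl]
  module

lemma refl_of_mem (hF : (gram F F).det ≠ 0) (hp : ∀ a, lor p (F a) = 0)
    {z : Fin (n + 1) → L} (hz : z ∈ Submodule.span L (Set.range F)) : refl F p z = z := by
  have h1 : prj F z = z := by
    have := mem_span_perp F hF z hz
    rw [perp] at this
    exact (sub_eq_zero.1 this).symm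
  have h2 : lor z p = 0 := by
    rw [← h1]; exact lor_prj_perp hF hp z
  rw [refl, h1, h2]
  simp only [zero_div, zero_smul, add_zero]
  module

lemma refl_self (hp : ∀ a, lor p (F a) = 0) (hpp : lor p p ≠ 0) : refl F p p = p := by
  rw [refl, prj_of_orth hp, div_self hpp]
  module

lemma refl_of_orth {z : Fin (n + 1) → L} (hz : ∀ a, lor z (F a) = 0) (hzp : lor z p = 0) :
    refl F p z = -z := by
  rw [refl, prj_of_orth hz, hzp]
  simp

end refl

end Pool.Agent.Work.MP_1c91cf_gt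

end

section

/-!
# The heart: the order relation, part 2
-/

set_option autoImplicit false
set_option linter.unusedSectionVars false

open Matrix

namespace Pool.Agent.Work.MP_1c91cf_gt

open Classical

lemma lor_perp_self {K : Type*} [Field K] {n k : ℕ} (F : Fin k → Fin (n + 1) → K)
    (hF : (gram F F).det ≠ 0) (z : Fin (n + 1) → K) :
    lor (perp F z) (perp F z) = lor z z - lor (prj F z) (prj F z) := by
  have h3 := lor_perp_prj F hF z z
  rw [lor_perp_perp F hF]
  rw [perp, lor_sub_left] at h3 ⊢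
  rw [lor_comm (prj F z) z]
  linear_combination -h3

variable {q m : ℕ} {c : RealConf q m} {L κ : Type*} [Field L] [Field κ] [Algebra ℂ L] [Algebra ℂ κ]
  (P : Place L κ) (l : LConf c L)

lemma lor_y {x : Fin m} {F : Fin (q + 1) → Fin m}
    (hC : c.C (Fin.cons x F) ≠ 0) (a : Fin (q + 1)) :
    lor (l.y x) (l.y (F a)) = rl (lor (c.y0 x) (c.y0 (F a))) := by
  have := l.gr _ hC 0 a.succ
  simpa only [Fin.cons_zero, Fin.cons_succ] using this

lemma lor_yy {x : Fin m} {F : Fin (q + 1) → Fin m} (hC : c.C (Fin.cons x F) ≠ 0) :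
    lor (l.y x) (l.y x) = rl (lor (c.y0 x) (c.y0 x)) := by
  have := l.gr _ hC 0 0
  simpa only [Fin.cons_zero] using this

lemma prod_real {x : Fin m} {F : Fin (q + 1) → Fin m}
    (hC : c.C (Fin.cons x F) ≠ 0) (hn : c.nd F) :
    lor (l.y x) (l.em F) * lor (l.y x) (l.ep F) =
      rl (lor (perp (c.y0 ∘ F) (c.y0 x)) (perp (c.y0 ∘ F) (c.y0 x))) := by
  have hs := c.sub_of_cons hC
  have hp := l.hp hs hn
  have hrt := l.rt hs hn
  have h1 := hp.lor_eq hrt.det_ne two_ne' (l.y x) (l.y x)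
  have h2 : lor (prj (l.y ∘ F) (l.y x)) (prj (l.y ∘ F) (l.y x)) =
      rl (lor (prj (c.y0 ∘ F) (c.y0 x)) (prj (c.y0 ∘ F) (c.y0 x))) := by
    rw [lor_prj_prj _ hrt.det_ne, lor_prj_prj _ hn, hrt.inv_eq]
    simp only [map_sum, map_mul, Function.comp_apply, lor_y l hC, Matrix.map_apply]
    rfl
  rw [lor_perp_self _ hn, map_sub, ← h2, ← lor_yy l hC]
  have h3 : (2 : L) ≠ 0 := two_ne'
  have h4 : (2 : L) * lor (l.y x) (l.y x) = 2 * lor (prj (l.y ∘ F) (l.y x)) (prj (l.y ∘ F) (l.y x))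
      + (lor (l.y x) (l.em F) * lor (l.y x) (l.ep F) + lor (l.y x) (l.ep F) * lor (l.y x) (l.em F)) := by
    conv_lhs => rw [h1]
    field_simp
  apply mul_left_cancel₀ h3
  linear_combination -h4

lemma nd_cons_iff {x : Fin m} {F : Fin (q + 1) → Fin m} (hn : c.nd F) :
    c.nd (Fin.cons x F : Fin (q + 1 + 1) → Fin m) ↔
      c.y0 x ∉ Submodule.span ℝ (Set.range (c.y0 ∘ F)) := by
  rw [c.nd_iff]
  have h1 : c.y0 ∘ (Fin.cons x F : Fin (q + 1 + 1) → Fin m) = Fin.cons (c.y0 x) (c.y0 ∘ F) := by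
    ext a
    refine Fin.cases ?_ (fun a' => ?_) a <;> rfl
  rw [h1, linearIndependent_finCons]
  exact ⟨fun h => h.2, fun h => ⟨(c.nd_iff F).1 hn, h⟩⟩

lemma orders_of_nd {x : Fin m} {F : Fin (q + 1) → Fin m}
    (hC : c.C (Fin.cons x F) ≠ 0) (hn : c.nd F)
    (hx : c.nd (Fin.cons x F : Fin (q + 1 + 1) → Fin m)) :
    ∃ t : ℤ, P.o (lor (l.y x) (l.ep F)) = t ∧
      P.o (lor (l.y x) (l.em F)) = ((-t : ℤ) : WithTop ℤ) := by
  have h1 := prod_real l hC hn
  have h2 := perp_pos (c.y0 ∘ F) (fun a => c.fut _) hn (c.y0 x) ((nd_cons_iff hn).1 hx)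
  have h3 : (rl (lor (perp (c.y0 ∘ F) (c.y0 x)) (perp (c.y0 ∘ F) (c.y0 x))) : L) ≠ 0 := by
    rw [map_ne_zero_iff _ (RingHom.injective _)]; exact h2.ne'
  have h4 : lor (l.y x) (l.ep F) ≠ 0 := fun h => h3 (by rw [← h1, h, mul_zero])
  have h5 : lor (l.y x) (l.em F) ≠ 0 := fun h => h3 (by rw [← h1, h, zero_mul])
  obtain ⟨t, ht⟩ := P.exists_int h4
  obtain ⟨s, hs⟩ := P.exists_int h5
  have h6 := congrArg P.o h1
  rw [P.o_mul, ht, hs, P.o_real _ h2.ne', ← WithTop.coe_add, WithTop.coe_inj] at h6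
  refine ⟨t, ht, ?_⟩
  rw [hs]
  congr 1
  omega

lemma exists_norm {x : Fin m} {F : Fin (q + 1) → Fin m}
    (hC : c.C (Fin.cons x F) ≠ 0) (hn : c.nd F) :
    ∃ j : ℤ, ∀ v ∈ Set.range (Fin.cons x F : Fin (q + 1 + 1) → Fin m),
      ((0 : ℤ) : WithTop ℤ) ≤ l.ln P F j (l.y v) := by
  have hs := c.sub_of_cons hC
  have hp := l.hp hs hn
  have hrt := l.rt hs hn
  have key : ∀ j : ℤ, ((0 : ℤ) : WithTop ℤ) ≤ l.ln P F j (l.y x) →
      ∀ v ∈ Set.range (Fin.cons x F : Fin (q + 1 + 1) → Fin m),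
      ((0 : ℤ) : WithTop ℤ) ≤ l.ln P F j (l.y v) := by
    rintro j hj v ⟨a, rfl⟩
    refine Fin.cases ?_ (fun a' => ?_) a
    · rwa [Fin.cons_zero]
    · rw [Fin.cons_succ]; exact nrm_F P hp hrt j a'
  by_cases hx : c.nd (Fin.cons x F : Fin (q + 1 + 1) → Fin m)
  · obtain ⟨t, ht1, ht2⟩ := orders_of_nd P l hC hn hx
    refine ⟨t, key t ?_⟩
    rw [LConf.ln, le_nrm]
    refine ⟨fun a => ?_, ?_, ?_⟩
    · rw [Function.comp_apply, lor_y l hC]; exact P.o_real_ge _
    · rw [ht1, WithTop.coe_le_coe]; omega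
    · rw [ht2, WithTop.coe_le_coe]; omega
  · refine ⟨0, key 0 ?_⟩
    rw [nd_cons_iff hn, not_not] at hx
    obtain ⟨w, hw⟩ := l.mem_span_of_deg (c.sub_of_C hC) hx
    rw [hw]
    have hsd := sdn_nrm P hp hrt 0
    refine hsd.ge_sum _ _ fun a _ => ?_
    have := hsd.ge_smul (P.o_real_ge (w a)) (nrm_F P hp hrt 0 a)
    rwa [add_zero] at this

/-- a chosen norm containing a set of vertices -/
noncomputable def nuS (S : Set (Fin m)) : (Fin (q + 1 + 2) → L) → WithTop ℤ :=
  if h : ∃ μ : (Fin (q + 1 + 2) → L) → WithTop ℤ, SDN P μ ∧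
    ∀ v ∈ S, ((0 : ℤ) : WithTop ℤ) ≤ μ (l.y v) then h.choose else fun _ => 0

/-- first choice -/
noncomputable def nu1 (G : Fin (q + 1 + 1) → Fin m) : (Fin (q + 1 + 2) → L) → WithTop ℤ :=
  nuS P l (Set.range G)

lemma nu1_valid : Valid P l (nu1 P l) where
  perm G π := by rw [nu1, nu1, π.surjective.range_comp]
  sdn x F hC hn := by
    have h : ∃ μ : (Fin (q + 1 + 2) → L) → WithTop ℤ, SDN P μ ∧
        ∀ v ∈ Set.range (Fin.cons x F : Fin (q + 1 + 1) → Fin m),
          ((0 : ℤ) : WithTop ℤ) ≤ μ (l.y v) := by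
      obtain ⟨j, hj⟩ := exists_norm P l hC hn
      exact ⟨_, sdn_nrm P (l.hp (c.sub_of_cons hC) hn) (l.rt (c.sub_of_cons hC) hn) j, hj⟩
    have h1 : nu1 P l (Fin.cons x F) = h.choose := by
      rw [nu1, nuS, dif_pos h]
    rw [h1]
    exact ⟨h.choose_spec.1, fun a => h.choose_spec.2 _ ⟨a, rfl⟩⟩

/-- the reflection attached to a set of vertices -/
noncomputable def sg (S : Set (Fin m)) : (Fin (q + 1 + 2) → L) → (Fin (q + 1 + 2) → L) :=
  if h : ∃ F : Fin (q + 1) → Fin m, c.sub F ∧ c.nd F ∧ ∀ a, F a ∈ S then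
    refl (l.y ∘ h.choose) (perp (l.y ∘ h.choose) l.z0) else id

/-- second choice -/
noncomputable def nu2 (G : Fin (q + 1 + 1) → Fin m) : (Fin (q + 1 + 2) → L) → WithTop ℤ :=
  if c.nd G then nu1 P l G else fun z => nu1 P l G (sg l (Set.range G) z)

/-- in a degenerate simplex, all vertices lie in the span of every nondegenerate face -/
lemma mem_span_deg {x : Fin m} {F F' : Fin (q + 1) → Fin m}
    (hC : c.C (Fin.cons x F) ≠ 0) (hn : c.nd F)
    (hx : ¬ c.nd (Fin.cons x F : Fin (q + 1 + 1) → Fin m)) (hn' : c.nd F')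
    (hF' : ∀ a, F' a ∈ Set.range (Fin.cons x F : Fin (q + 1 + 1) → Fin m)) {v : Fin m}
    (hv : v ∈ Set.range (Fin.cons x F : Fin (q + 1 + 1) → Fin m)) :
    l.y v ∈ Submodule.span L (Set.range (l.y ∘ F')) := by
  rw [nd_cons_iff hn, not_not] at hx
  have hW : ∀ u ∈ Set.range (Fin.cons x F : Fin (q + 1 + 1) → Fin m),
      c.y0 u ∈ Submodule.span ℝ (Set.range (c.y0 ∘ F)) := by
    rintro u ⟨a, rfl⟩
    refine Fin.cases ?_ (fun a' => ?_) a
    · rwa [Fin.cons_zero]
    · rw [Fin.cons_succ]; exact Submodule.subset_span ⟨a', rfl⟩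
  have hle : Submodule.span ℝ (Set.range (c.y0 ∘ F')) ≤ Submodule.span ℝ (Set.range (c.y0 ∘ F)) := by
    rw [Submodule.span_le]
    rintro _ ⟨a, rfl⟩
    exact hW _ (hF' a)
  have heq : Submodule.span ℝ (Set.range (c.y0 ∘ F')) = Submodule.span ℝ (Set.range (c.y0 ∘ F)) := by
    apply Submodule.eq_of_le_of_finrank_eq hle
    rw [finrank_span_eq_card ((c.nd_iff F').1 hn'), finrank_span_eq_card ((c.nd_iff F).1 hn)]
  have hv0 : c.y0 v ∈ Submodule.span ℝ (Set.range (c.y0 ∘ F')) := by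
    rw [heq]; exact hW v hv
  have hsub : c.sub (Fin.cons v F' : Fin (q + 1 + 1) → Fin m) := by
    refine ⟨_, hC, fun a => ?_⟩
    refine Fin.cases ?_ (fun a' => ?_) a
    · rw [Fin.cons_zero]; exact hv
    · rw [Fin.cons_succ]; exact hF' a'
  obtain ⟨w, hw⟩ := l.mem_span_of_deg hsub hv0
  rw [hw]
  exact Submodule.sum_mem _ fun a _ => Submodule.smul_mem _ _ (Submodule.subset_span ⟨a, rfl⟩)

lemma orth_span {K : Type*} [Field K] {n k : ℕ} {F : Fin k → Fin (n + 1) → K}
    {p : Fin (n + 1) → K} (hp : ∀ a, lor p (F a) = 0) {z : Fin (n + 1) → K}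
    (hz : z ∈ Submodule.span K (Set.range F)) : lor p z = 0 := by
  induction hz using Submodule.span_induction with
  | mem x hx => obtain ⟨i, rfl⟩ := hx; exact hp i
  | zero => exact lor_zero_right _
  | add x y _ _ hx hy => rw [lor_add_right, hx, hy, add_zero]
  | smul a x _ hx => rw [lor_smul_right, hx, mul_zero]

lemma perp_eq_of_span {K : Type*} [Field K] {n k : ℕ} {F F' : Fin k → Fin (n + 1) → K}
    (hF : (gram F F).det ≠ 0) (hF' : (gram F' F').det ≠ 0)
    (h1 : ∀ a, F' a ∈ Submodule.span K (Set.range F))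
    (h2 : ∀ a, F a ∈ Submodule.span K (Set.range F')) (z : Fin (n + 1) → K) :
    perp F z = perp F' z := by
  have h3 : z = perp F' z + prj F' z := by rw [perp]; abel
  have h4 : prj F' z ∈ Submodule.span K (Set.range F) := by
    rw [prj]
    exact Submodule.sum_mem _ fun a _ => Submodule.smul_mem _ _ (h1 a)
  conv_lhs => rw [h3]
  rw [perp_add, mem_span_perp F hF _ h4, add_zero]
  apply perp_of_orth
  intro a
  exact orth_span (lor_perp F' hF' z) (h2 a)

/-- data of the reflection of a degenerate simplex -/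
lemma sg_spec {x : Fin m} {F : Fin (q + 1) → Fin m}
    (hC : c.C (Fin.cons x F) ≠ 0) (hn : c.nd F)
    (hx : ¬ c.nd (Fin.cons x F : Fin (q + 1 + 1) → Fin m)) :
    ∃ F' : Fin (q + 1) → Fin m, c.sub F' ∧ c.nd F' ∧
      (∀ a, F' a ∈ Set.range (Fin.cons x F : Fin (q + 1 + 1) → Fin m)) ∧
      sg l (Set.range (Fin.cons x F : Fin (q + 1 + 1) → Fin m)) =
        refl (l.y ∘ F') (perp (l.y ∘ F') l.z0) := by
  have h : ∃ F' : Fin (q + 1) → Fin m, c.sub F' ∧ c.nd F' ∧
      ∀ a, F' a ∈ Set.range (Fin.cons x F : Fin (q + 1 + 1) → Fin m) :=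
    ⟨F, c.sub_of_cons hC, hn, fun a => ⟨a.succ, by simp⟩⟩
  refine ⟨h.choose, h.choose_spec.1, h.choose_spec.2.1, h.choose_spec.2.2, ?_⟩
  rw [sg, dif_pos h]

lemma nu2_valid : Valid P l (nu2 P l) where
  perm G π := by
    rw [nu2, nu2, (nu1_valid P l).perm, π.surjective.range_comp]
    simp only [c.nd_comp]
  sdn x F hC hn := by
    have h1 := (nu1_valid P l).sdn x F hC hn
    by_cases hx : c.nd (Fin.cons x F : Fin (q + 1 + 1) → Fin m)
    · have : nu2 P l (Fin.cons x F) = nu1 P l (Fin.cons x F) := by rw [nu2, if_pos hx]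
      rw [this]; exact h1
    · obtain ⟨F', hs', hn', hF', hsg⟩ := sg_spec l hC hn hx
      have : nu2 P l (Fin.cons x F) = fun z => nu1 P l (Fin.cons x F)
          (refl (l.y ∘ F') (perp (l.y ∘ F') l.z0) z) := by
        rw [nu2, if_neg hx, hsg]
      rw [this]
      have hrt := l.rt hs' hn'
      have hpF : ∀ a, lor (perp (l.y ∘ F') l.z0) ((l.y ∘ F') a) = 0 := lor_perp _ hrt.det_ne _
      refine ⟨h1.1.comp _ refl_add refl_smul (refl_refl hrt.det_ne hpF (l.hz0 F' hs' hn'))
        (refl_iso hrt.det_ne hpF (l.hz0 F' hs' hn')), fun a => ?_⟩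
      beta_reduce
      rw [refl_of_mem hrt.det_ne hpF (mem_span_deg l hC hn hx hn' hF' ⟨a, rfl⟩)]
      exact h1.2 a

/-- order of `lor (y x) (ε_+ F)` -/
noncomputable def tt (x : Fin m) (F : Fin (q + 1) → Fin m) : ℤ :=
  (P.o (lor (l.y x) (l.ep F))).untopD 0

/-- order of `lor (z0^⊥) (z0^⊥)` -/
noncomputable def hh (F : Fin (q + 1) → Fin m) : ℤ :=
  (P.o (lor (perp (l.y ∘ F) l.z0) (perp (l.y ∘ F) l.z0))).untopD 0

variable {nu : (Fin (q + 1 + 1) → Fin m) → (Fin (q + 1 + 2) → L) → WithTop ℤ}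

lemma jj_of_nd (hv : Valid P l nu) {x : Fin m} {F : Fin (q + 1) → Fin m}
    (hC : c.C (Fin.cons x F) ≠ 0) (hn : c.nd F)
    (hx : c.nd (Fin.cons x F : Fin (q + 1 + 1) → Fin m)) : jj l nu x F = tt P l x F := by
  obtain ⟨t, ht1, ht2⟩ := orders_of_nd P l hC hn hx
  have h1 := hv.eq_ln P l hC hn
  have h2 := (hv.sdn x F hC hn).2 0
  rw [Fin.cons_zero, h1, LConf.ln, le_nrm, ht1, ht2, WithTop.coe_le_coe, WithTop.coe_le_coe] at h2
  have h3 : tt P l x F = t := by rw [tt, ht1]; rfl
  rw [h3]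
  omega

lemma ep'_eq {F : Fin (q + 1) → Fin m} (hs : c.sub F) (hn : c.nd F) :
    l.ep' F = lor (perp (l.y ∘ F) l.z0) (perp (l.y ∘ F) l.z0) • l.em F := by
  rw [LConf.em, smul_smul, mul_inv_cancel₀ (l.hz0 F hs hn), one_smul]

lemma jj_deg {x : Fin m} {F : Fin (q + 1) → Fin m}
    (hC : c.C (Fin.cons x F) ≠ 0) (hn : c.nd F)
    (hx : ¬ c.nd (Fin.cons x F : Fin (q + 1 + 1) → Fin m)) :
    jj l (nu1 P l) x F + jj l (nu2 P l) x F = hh P l F := by
  obtain ⟨F', hs', hn', hF', hsg⟩ := sg_spec l hC hn hx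
  have hs := c.sub_of_cons hC
  have hrt := l.rt hs hn
  have hrt' := l.rt hs' hn'
  have hmem1 : ∀ a, (l.y ∘ F') a ∈ Submodule.span L (Set.range (l.y ∘ F)) := fun a =>
    mem_span_deg l hC hn hx hn (fun b => ⟨b.succ, by simp⟩) (hF' a)
  have hmem2 : ∀ a, (l.y ∘ F) a ∈ Submodule.span L (Set.range (l.y ∘ F')) := fun a =>
    mem_span_deg l hC hn hx hn' hF' ⟨a.succ, by simp⟩
  have hpp : perp (l.y ∘ F) l.z0 = perp (l.y ∘ F') l.z0 :=
    perp_eq_of_span hrt.det_ne hrt'.det_ne hmem1 hmem2 l.z0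
  have hpF : ∀ a, lor (perp (l.y ∘ F) l.z0) ((l.y ∘ F) a) = 0 := lor_perp _ hrt.det_ne _
  have hpF' : ∀ a, lor (perp (l.y ∘ F') l.z0) ((l.y ∘ F') a) = 0 := lor_perp _ hrt'.det_ne _
  -- the reflection exchanges the isotropic vectors
  have hcr : ∀ a, lor (crsL (l.y ∘ F) l.z0) ((l.y ∘ F) a) = 0 := fun a => by
    rw [lor_comm]; exact lor_F_crsL _ _ _
  have hcr' : ∀ a, lor (crsL (l.y ∘ F) l.z0) ((l.y ∘ F') a) = 0 := fun a =>
    orth_span hcr (hmem1 a)
  have hcp : lor (crsL (l.y ∘ F) l.z0) (perp (l.y ∘ F') l.z0) = 0 := by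
    rw [← hpp, lor_comm, lor_perp_left _ hrt.det_ne, perp_crsL, lor_self_crsL]
  have hrefl : refl (l.y ∘ F') (perp (l.y ∘ F') l.z0) (l.ep F) = l.ep' F := by
    have h1 : l.ep F = perp (l.y ∘ F') l.z0 + (LConf.ii L / rl (c.D F)) • crsL (l.y ∘ F) l.z0 := by
      rw [LConf.ep, iso, hpp]
    have h2 : l.ep' F = perp (l.y ∘ F') l.z0 +
        (-(LConf.ii L / rl (c.D F))) • crsL (l.y ∘ F) l.z0 := by
      rw [LConf.ep', iso, hpp]
    rw [h1, refl_add, refl_smul, refl_self hpF' (l.hz0 F' hs' hn'), refl_of_orth hcr' hcp, h2]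
    module
  have h1 := (nu1_valid P l).eq_ln P l hC hn
  have h2 : nu2 P l (Fin.cons x F) (l.ep F) = nu1 P l (Fin.cons x F) (l.ep' F) := by
    rw [nu2, if_neg hx]
    beta_reduce
    rw [hsg, hrefl]
  obtain ⟨t, ht⟩ := P.exists_int (l.hz0 F hs hn)
  have h3 : nu1 P l (Fin.cons x F) (l.ep' F) = ((t - jj l (nu1 P l) x F : ℤ) : WithTop ℤ) := by
    rw [ep'_eq l hs hn, h1, LConf.ln, (sdn_nrm P (l.hp hs hn) hrt _).smul, nrm_em P (l.hp hs hn), ht,
      ← WithTop.coe_add]
    congr 1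
  have h4 : jj l (nu2 P l) x F = t - jj l (nu1 P l) x F := by
    rw [jj, h2, h3]; rfl
  have h5 : hh P l F = t := by rw [hh, ht]; rfl
  rw [h4, h5]; ring

lemma hh_comp (F : Fin (q + 1) → Fin m) (hs : c.sub F) (hn : c.nd F)
    (π : Equiv.Perm (Fin (q + 1))) : hh P l (F ∘ π) = hh P l F := by
  have h1 : perp (l.y ∘ (F ∘ π)) l.z0 = perp (l.y ∘ F) l.z0 := by
    apply perp_eq_of_span
    · exact (l.rt (c.sub_comp hs π) ((c.nd_comp π).2 hn)).det_ne
    · exact (l.rt hs hn).det_ne
    · intro a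
      exact Submodule.subset_span ⟨π.symm a, by simp⟩
    · intro a
      exact Submodule.subset_span ⟨π a, rfl⟩
  rw [hh, hh, h1]

lemma jf_comp (F : Fin (q + 1) → Fin m) (π : Equiv.Perm (Fin (q + 1))) :
    c.jf (F ∘ π) = c.jf F := by
  rw [RealConf.jf, RealConf.jf, ← J_perm (Matrix.of fun a b => -lor (c.y0 (F a)) (c.y0 (F b))) π]
  rfl

/-- alternating sums over faces vanish -/
lemma sum_alt_zero (hq : 1 ≤ q) (g : (Fin (q + 1) → Fin m) → ℝ)
    (hg : ∀ (F : Fin (q + 1) → Fin m) (π : Equiv.Perm (Fin (q + 1))),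
      g (F ∘ π) = ((Equiv.Perm.sign π : ℤˣ) : ℤ) * g F) : ∑ F, g F = 0 := by
  obtain ⟨q', rfl⟩ : ∃ q', q = q' + 1 := ⟨q - 1, by omega⟩
  set π : Equiv.Perm (Fin (q' + 1 + 1)) := Equiv.swap 0 1 with hπ
  have h1 : ∑ F, g (F ∘ π) = ∑ F, g F :=
    Equiv.sum_comp (Equiv.arrowCongr π.symm (Equiv.refl (Fin m))) g
  have h2 : ∑ F, g (F ∘ π) = -∑ F, g F := by
    rw [← Finset.sum_neg_distrib]
    refine Finset.sum_congr rfl fun F _ => ?_
    rw [hg, hπ, Equiv.Perm.sign_swap (by exact Fin.zero_ne_one)]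
    simp
  linarith

/-- The heart: the order relation. -/
theorem heart (hq : 1 ≤ q) :
    ∑ F : Fin (q + 1) → Fin m, ∑ x : Fin m,
      (if c.nd (Fin.cons x F : Fin (q + 1 + 1) → Fin m) then
        (c.C (Fin.cons x F) : ℝ) * (c.D F * c.jf F) * (tt P l x F : ℝ) else 0) = 0 := by
  have T1 := total_zero P l hq (nu1_valid P l)
  have T2 := total_zero P l hq (nu2_valid P l)
  set g : (Fin (q + 1) → Fin m) → ℝ := fun F => if c.nd F then
    ∑ x : Fin m, (if c.nd (Fin.cons x F : Fin (q + 1 + 1) → Fin m) then 0 else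
      (c.C (Fin.cons x F) : ℝ) * (c.D F * c.jf F) * (hh P l F : ℝ)) else 0 with hg
  have hg0 : ∑ F, g F = 0 := by
    apply sum_alt_zero hq
    intro F π
    by_cases hs : c.sub F
    · simp only [hg, c.nd_comp, c.C_perm, c.D_comp, jf_comp]
      by_cases hn : c.nd F
      · rw [if_pos hn, if_pos hn, hh_comp P l F hs hn, Finset.mul_sum]
        refine Finset.sum_congr rfl fun x _ => ?_
        have h1 : c.nd (Fin.cons x (F ∘ π) : Fin (q + 1 + 1) → Fin m) ↔
            c.nd (Fin.cons x F : Fin (q + 1 + 1) → Fin m) := by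
          rw [← RealConf.cons_comp_extPerm, c.nd_comp]
        rw [if_congr h1 rfl rfl]
        split_ifs
        · simp
        · push_cast; ring
      · rw [if_neg hn, if_neg hn, mul_zero]
    · have h1 : ∀ x, c.C (Fin.cons x F) = 0 := fun x => by
        by_contra hne
        exact hs (c.sub_of_cons hne)
      simp [hg, c.nd_comp, c.C_perm, h1]
  have key : ∀ F : Fin (q + 1) → Fin m,
      (if c.nd F then c.D F * c.jf F * ∑ x, (c.C (Fin.cons x F) : ℝ) * (jj l (nu1 P l) x F : ℝ)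
        else 0) +
      (if c.nd F then c.D F * c.jf F * ∑ x, (c.C (Fin.cons x F) : ℝ) * (jj l (nu2 P l) x F : ℝ)
        else 0) =
      g F + 2 * ∑ x : Fin m, (if c.nd (Fin.cons x F : Fin (q + 1 + 1) → Fin m) then
        (c.C (Fin.cons x F) : ℝ) * (c.D F * c.jf F) * (tt P l x F : ℝ) else 0) := by
    intro F
    by_cases hn : c.nd F
    · simp only [hg, if_pos hn]
      rw [Finset.mul_sum, Finset.mul_sum, Finset.mul_sum, ← Finset.sum_add_distrib,
        ← Finset.sum_add_distrib]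
      refine Finset.sum_congr rfl fun x _ => ?_
      by_cases hC : c.C (Fin.cons x F) = 0
      · rw [hC]; simp
      by_cases hx : c.nd (Fin.cons x F : Fin (q + 1 + 1) → Fin m)
      · rw [if_pos hx, if_pos hx, jj_of_nd P l (nu1_valid P l) hC hn hx,
          jj_of_nd P l (nu2_valid P l) hC hn hx]
        ring
      · rw [if_neg hx, if_neg hx, ← jj_deg P l hC hn hx]
        push_cast
        ring
    · have h1 : ∀ x, ¬ c.nd (Fin.cons x F : Fin (q + 1 + 1) → Fin m) := fun x hx =>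
        hn (by have := c.nd_tail hx; rwa [Fin.tail_cons] at this)
      simp [hg, hn, h1]
  have hsum : ∑ F : Fin (q + 1) → Fin m, (g F + 2 * ∑ x : Fin m,
      (if c.nd (Fin.cons x F : Fin (q + 1 + 1) → Fin m) then
        (c.C (Fin.cons x F) : ℝ) * (c.D F * c.jf F) * (tt P l x F : ℝ) else 0)) = 0 := by
    rw [← Finset.sum_congr rfl fun F _ => key F, Finset.sum_add_distrib, T1, T2, add_zero]
  rw [Finset.sum_add_distrib, hg0, zero_add, ← Finset.mul_sum] at hsum
  linarith

end Pool.Agent.Work.MP_1c91cf_gt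

end

section

/-!
# The algebraic identities behind the variation formula
-/

set_option autoImplicit false
set_option linter.unusedSectionVars false

open Matrix

namespace Pool.Agent.Work.MP_1c91cf_gt

open Classical

section det

variable {R : Type*} [CommRing R] {N : ℕ}

lemma dt_comp (w : Fin (N + 1) → R) (G : Fin N → Fin (N + 1) → R) (π : Equiv.Perm (Fin N)) :
    dt w (G ∘ π) = ((Equiv.Perm.sign π : ℤˣ) : ℤ) * dt w G := by
  have h1 : (Matrix.of (Fin.cons w (G ∘ π) : Fin (N + 1) → Fin (N + 1) → R)) =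
      (Matrix.of (Fin.cons w G : Fin (N + 1) → Fin (N + 1) → R)).submatrix
        (RealConf.extPerm π) id := by
    rw [← RealConf.cons_comp_extPerm]
    rfl
  rw [dt, h1, Matrix.det_permute, RealConf.sign_extPerm]
  rfl

lemma cons_succAbove_eq {α : Type*} (Y : Fin (N + 1) → α) (k : Fin (N + 1)) :
    (Fin.cons (Y k) (fun a => Y (k.succAbove a)) : Fin (N + 1) → α) ∘ k.cycleRange = Y := by
  rw [Fin.cons_comp_cycleRange]
  ext i
  refine Fin.succAboveCases k ?_ (fun j => ?_) i
  · rw [Fin.insertNth_apply_same]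
  · rw [Fin.insertNth_apply_succAbove]

lemma dt_cons_succAbove (w : Fin (N + 2) → R) (Y : Fin (N + 1) → Fin (N + 2) → R)
    (k : Fin (N + 1)) :
    dt w (Fin.cons (Y k) (fun a => Y (k.succAbove a)) : Fin (N + 1) → Fin (N + 2) → R) =
      (-1) ^ (k : ℕ) * dt w Y := by
  have h1 := dt_comp w (Fin.cons (Y k) (fun a => Y (k.succAbove a)) :
    Fin (N + 1) → Fin (N + 2) → R) k.cycleRange
  rw [cons_succAbove_eq, Fin.sign_cycleRange] at h1
  rw [h1]
  push_cast
  rw [← mul_assoc, ← mul_pow]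
  norm_num

end det

section steps

variable {N : ℕ}

lemma dt_sum {ι : Type*} (s : Finset ι) (f : ι → Fin (N + 1) → ℝ) (G : Fin N → Fin (N + 1) → ℝ) :
    dt (∑ i ∈ s, f i) G = ∑ i ∈ s, dt (f i) G := by
  have : ∀ z, dt z G = dtL G z := fun _ => rfl
  simp only [this, map_sum]

/-- nondegenerate simplices -/
lemma step1 (Y Y' : Fin (N + 1) → Fin (N + 2) → ℝ) (hneg : ∀ a b, lor (Y a) (Y b) < 0)
    (hY : (gram Y Y).det ≠ 0)
    (hk : ∀ k : Fin (N + 1), (gram (fun a => Y (k.succAbove a)) (fun a => Y (k.succAbove a))).det ≠ 0)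
    (hh : ∀ k : Fin (N + 1), lor (perp (fun a => Y (k.succAbove a)) (Y k))
      (perp (fun a => Y (k.succAbove a)) (Y k)) ≠ 0) :
    ∑ k : Fin (N + 1), (-1 : ℝ) ^ (k : ℕ) * (J (Qm (fun a => Y (k.succAbove a))) *
      cn (Y k) (Y' k) (fun a => Y (k.succAbove a)) (fun a => Y' (k.succAbove a))) =
    -∑ i, dt (Y' i) Y * J1 (Qm Y) i := by
  set cc : (k : Fin (N + 1)) → Fin N → ℝ := fun k =>
    (gram (fun a => Y (k.succAbove a)) (fun a => Y (k.succAbove a)))⁻¹ *ᵥ
      fun b => lor (Y k) (Y (k.succAbove b)) with hcc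
  set g : Fin (N + 1) → ℝ := fun k => J (Qm (fun a => Y (k.succAbove a))) /
    lor (perp (fun a => Y (k.succAbove a)) (Y k)) (perp (fun a => Y (k.succAbove a)) (Y k)) with hg
  -- the coefficient vector
  set w : Fin (N + 1) → ℝ := fun i =>
    ∑ k, g k * (k.insertNth (1 : ℝ) (fun a => -cc k a) : Fin (N + 1) → ℝ) i + J1 (Qm Y) i with hw
  have hsum : ∀ (Z : Fin (N + 1) → Fin (N + 2) → ℝ) (k : Fin (N + 1)),
      ∑ i, (k.insertNth (1 : ℝ) (fun a => -cc k a) : Fin (N + 1) → ℝ) i • Z i =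
        Z k - ∑ a, cc k a • Z (k.succAbove a) := by
    intro Z k
    rw [Fin.sum_univ_succAbove _ k]
    simp only [Fin.insertNth_apply_same, Fin.insertNth_apply_succAbove, one_smul, neg_smul,
      Finset.sum_neg_distrib]
    rw [sub_eq_add_neg]
  have hexp : ∀ (Z : Fin (N + 1) → Fin (N + 2) → ℝ), ∑ i, w i • Z i =
      ∑ k, g k • (Z k - ∑ a, cc k a • Z (k.succAbove a)) + ∑ i, J1 (Qm Y) i • Z i := by
    intro Z
    simp only [hw, add_smul, Finset.sum_add_distrib, Finset.sum_smul]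
    congr 1
    rw [Finset.sum_comm]
    refine Finset.sum_congr rfl fun k _ => ?_
    rw [← hsum Z k, Finset.smul_sum]
    refine Finset.sum_congr rfl fun i _ => ?_
    rw [smul_smul]
  have hpk : ∀ k, Y k - ∑ a, cc k a • Y (k.succAbove a) =
      perp (fun a => Y (k.succAbove a)) (Y k) := fun k => rfl
  have hortho : ∀ j, lor (∑ i, w i • Y i) (Y j) = 0 := by
    intro j
    rw [hexp, lor_add_left, lor_sum_left, lor_sum_left]
    have e1 : ∑ k, lor (g k • (Y k - ∑ a, cc k a • Y (k.succAbove a))) (Y j) =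
        J (Qm (fun a => Y (j.succAbove a))) := by
      rw [Finset.sum_eq_single j]
      · rw [hpk, lor_smul_left]
        have h1 : lor (perp (fun a => Y (j.succAbove a)) (Y j)) (Y j) =
            lor (perp (fun a => Y (j.succAbove a)) (Y j))
              (perp (fun a => Y (j.succAbove a)) (Y j)) :=
          (lor_perp_perp _ (hk j) _ _).symm
        rw [h1, hg]
        exact div_mul_cancel₀ _ (hh j)
      · intro k _ hkj
        obtain ⟨b, hb⟩ := Fin.exists_succAbove_eq hkj.symm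
        rw [hpk, lor_smul_left, ← hb, lor_perp _ (hk k), mul_zero]
      · intro h; exact absurd (Finset.mem_univ _) h
    have e2 := J_stokes0 (Qm Y) (fun a b => neg_pos.2 (hneg a b)) (by
      ext a b
      simp only [Qm, Matrix.transpose_apply, Matrix.of_apply]
      rw [lor_comm]) j
    have e3 : (Qm Y).submatrix j.succAbove j.succAbove = Qm (fun a => Y (j.succAbove a)) := rfl
    rw [e3] at e2
    rw [e1, ← e2, ← Finset.sum_add_distrib]
    apply Finset.sum_eq_zero
    intro i _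
    rw [lor_smul_left, Qm, Matrix.of_apply, lor_comm (Y j)]
    ring
  have hw0 : w = 0 := by
    by_contra hne
    apply hY
    apply Matrix.exists_vecMul_eq_zero_iff.1
    refine ⟨w, hne, ?_⟩
    ext j
    have := hortho j
    rw [lor_sum_left] at this
    simpa only [Matrix.vecMul, dotProduct, gram_apply, Pi.zero_apply, lor_smul_left] using this
  have hfin : ∑ k, g k • (Y' k - ∑ a, cc k a • Y' (k.succAbove a)) =
      -∑ i, J1 (Qm Y) i • Y' i := by
    have := hexp Y'
    rw [hw0] at this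
    simp only [Pi.zero_apply, zero_smul, Finset.sum_const_zero] at this
    exact eq_neg_of_add_eq_zero_left this.symm
  have hterm : ∀ k : Fin (N + 1), (-1 : ℝ) ^ (k : ℕ) * (J (Qm (fun a => Y (k.succAbove a))) *
      cn (Y k) (Y' k) (fun a => Y (k.succAbove a)) (fun a => Y' (k.succAbove a))) =
      dt (g k • (Y' k - ∑ a, cc k a • Y' (k.succAbove a))) Y := by
    intro k
    rw [cn, dt_cons_succAbove, dt_smul]
    simp only [hg, hcc]
    have h1 : ((-1 : ℝ) ^ (k : ℕ)) * (-1) ^ (k : ℕ) = 1 := by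
      rw [← mul_pow]; norm_num
    have h2 := hh k
    field_simp
    linear_combination (J (Qm fun a => Y (k.succAbove a)) * dt (Y' k - ∑ a,
      ((gram (fun a => Y (k.succAbove a)) (fun a => Y (k.succAbove a)))⁻¹ *ᵥ
      fun b => lor (Y k) (Y (k.succAbove b))) a • Y' (k.succAbove a)) Y) * h1
  rw [Finset.sum_congr rfl fun k _ => hterm k, ← dt_sum, hfin]
  have : -∑ i, J1 (Qm Y) i • Y' i = ∑ i, (-J1 (Qm Y) i) • Y' i := by
    rw [← Finset.sum_neg_distrib]
    exact Finset.sum_congr rfl fun i _ => (neg_smul _ _).symm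
  rw [this, dt_sum, ← Finset.sum_neg_distrib]
  refine Finset.sum_congr rfl fun i _ => ?_
  rw [dt_smul]
  ring

/-- degenerate simplices -/
lemma step2 (Y Y' : Fin (N + 1) → Fin (N + 2) → ℝ) (hneg : ∀ a b, lor (Y a) (Y b) < 0)
    (hY : ¬ LinearIndependent ℝ Y)
    (hrel : ∀ w : Fin (N + 1) → ℝ, ∑ i, w i • Y i = 0 → ∑ i, w i • Y' i = 0)
    (z0 : Fin (N + 2) → ℝ) :
    ∑ k : Fin (N + 1), (-1 : ℝ) ^ (k : ℕ) *
      (if (gram (fun a => Y (k.succAbove a)) (fun a => Y (k.succAbove a))).det ≠ 0 then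
        J (Qm (fun a => Y (k.succAbove a))) *
        cn z0 0 (fun a => Y (k.succAbove a)) (fun a => Y' (k.succAbove a)) else 0) = 0 := by
  by_cases hex : ∃ k : Fin (N + 1),
      (gram (fun a => Y (k.succAbove a)) (fun a => Y (k.succAbove a))).det ≠ 0
  swap
  · push Not at hex
    apply Finset.sum_eq_zero
    intro k _
    rw [if_neg (not_not.2 (hex k)), mul_zero]
  obtain ⟨k0, hk0⟩ := hex
  set Fk : Fin (N + 1) → Fin N → Fin (N + 2) → ℝ := fun k a => Y (k.succAbove a) with hFk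
  set Fk' : Fin (N + 1) → Fin N → Fin (N + 2) → ℝ := fun k a => Y' (k.succAbove a) with hFk'
  -- spans
  have hYspan : ∀ k, (gram (Fk k) (Fk k)).det ≠ 0 → ∀ i,
      Y i ∈ Submodule.span ℝ (Set.range (Fk k)) := by
    intro k hk i
    have hli := linearIndependent_of_det_gram (Fk k) hk
    have hdep : ¬ LinearIndependent ℝ (Fin.cons (Y k) (Fk k) : Fin (N + 1) → Fin (N + 2) → ℝ) := by
      intro h
      apply hY
      rw [← cons_succAbove_eq Y k]
      exact h.comp _ k.cycleRange.injective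
    rw [linearIndependent_finCons, not_and, not_not] at hdep
    have h1 := hdep hli
    refine Fin.succAboveCases k ?_ (fun j => ?_) i
    · exact h1
    · exact Submodule.subset_span ⟨j, rfl⟩
  have hperp : ∀ k, (gram (Fk k) (Fk k)).det ≠ 0 → perp (Fk k) z0 = perp (Fk k0) z0 := by
    intro k hk
    exact perp_eq_of_span hk hk0 (fun a => hYspan k hk _) (fun a => hYspan k0 hk0 _) z0
  set v : Fin (N + 2) → ℝ := ∑ a, ((gram (Fk k0) (Fk k0))⁻¹ *ᵥ fun b => lor z0 (Fk k0 b)) a •
    Fk' k0 a with hv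
  have hvk : ∀ k, (gram (Fk k) (Fk k)).det ≠ 0 →
      ∑ a, ((gram (Fk k) (Fk k))⁻¹ *ᵥ fun b => lor z0 (Fk k b)) a • Fk' k a = v := by
    intro k hk
    have hins : ∀ (k : Fin (N + 1)) (d : Fin N → ℝ) (Z : Fin (N + 1) → Fin (N + 2) → ℝ),
        ∑ i, (k.insertNth (0 : ℝ) d : Fin (N + 1) → ℝ) i • Z i =
          ∑ a, d a • Z (k.succAbove a) := by
      intro k d Z
      rw [Fin.sum_univ_succAbove _ k]
      simp only [Fin.insertNth_apply_same, Fin.insertNth_apply_succAbove, zero_smul, zero_add]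
    set dk := (gram (Fk k) (Fk k))⁻¹ *ᵥ fun b => lor z0 (Fk k b) with hdk
    set d0 := (gram (Fk k0) (Fk k0))⁻¹ *ᵥ fun b => lor z0 (Fk k0 b) with hd0
    have h1 : ∑ a, dk a • Y (k.succAbove a) = ∑ a, d0 a • Y (k0.succAbove a) := by
      have e1 : ∑ a, dk a • Y (k.succAbove a) = prj (Fk k) z0 := rfl
      have e2 : ∑ a, d0 a • Y (k0.succAbove a) = prj (Fk k0) z0 := rfl
      have e3 := hperp k hk
      rw [perp, perp] at e3
      rw [e1, e2]
      exact sub_right_injective e3
    have h2 := hrel (fun i => (k.insertNth (0 : ℝ) dk : Fin (N + 1) → ℝ) i -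
      (k0.insertNth (0 : ℝ) d0 : Fin (N + 1) → ℝ) i) (by
        simp only [sub_smul, Finset.sum_sub_distrib, hins]
        rw [h1, sub_self])
    simp only [sub_smul, Finset.sum_sub_distrib, hins] at h2
    exact sub_eq_zero.1 h2
  -- the relation
  set D : Fin (N + 1) → ℝ := fun k => (-1 : ℝ) ^ (k : ℕ) *
    dt (0 - v) (Fin.cons z0 (Fk k) : Fin (N + 1) → Fin (N + 2) → ℝ) with hD
  have hdep0 : ∀ u : Fin (N + 2) → ℝ, dt u Y = 0 := by
    intro u
    by_contra hne
    apply hY
    have h1 : LinearIndependent ℝ (Fin.cons u Y : Fin (N + 2) → Fin (N + 2) → ℝ) :=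
      Matrix.linearIndependent_rows_iff_isUnit.2
        ((Matrix.isUnit_iff_isUnit_det _).2 (isUnit_iff_ne_zero.2 hne))
    exact h1.comp Fin.succ (Fin.succ_injective _)
  have hDrel : ∑ k, D k • Y k = 0 := by
    ext d
    have h1 := laplace_relation (q := N + 1) (Fin.cons (0 - v) (Fin.cons z0 Y :
      Fin (N + 2) → Fin (N + 2) → ℝ) : Fin (N + 1 + 2) → Fin (N + 2) → ℝ) d
    rw [Fin.sum_univ_succ, Fin.sum_univ_succ] at h1
    have e0 : (Matrix.of fun a => (Fin.cons (0 - v) (Fin.cons z0 Y :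
        Fin (N + 2) → Fin (N + 2) → ℝ) : Fin (N + 1 + 2) → Fin (N + 2) → ℝ)
        ((0 : Fin (N + 1 + 2)).succAbove a)).det = 0 := by
      have h2 := hdep0 z0
      rw [dt] at h2
      rw [← h2]
      congr 1
    have e1 : (Matrix.of fun a => (Fin.cons (0 - v) (Fin.cons z0 Y :
        Fin (N + 2) → Fin (N + 2) → ℝ) : Fin (N + 1 + 2) → Fin (N + 2) → ℝ)
        ((Fin.succ (0 : Fin (N + 1 + 1))).succAbove a)).det = 0 := by
      have h2 := hdep0 (0 - v)
      rw [dt] at h2
      rw [← h2]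
      congr 1
      ext a b
      simp only [Matrix.of_apply]
      refine Fin.cases ?_ (fun a' => ?_) a
      · rw [Fin.succ_succAbove_zero, Fin.cons_zero, Fin.cons_zero]
      · rw [Fin.succ_succAbove_succ, Fin.cons_succ, Fin.cons_succ, Fin.zero_succAbove,
          Fin.cons_succ]
    rw [e0, e1] at h1
    simp only [mul_zero, zero_mul, zero_add] at h1
    rw [Finset.sum_apply]
    refine Eq.trans ?_ h1
    refine Finset.sum_congr rfl fun k _ => ?_
    have e2 : (Matrix.of fun a => (Fin.cons (0 - v) (Fin.cons z0 Y :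
        Fin (N + 2) → Fin (N + 2) → ℝ) : Fin (N + 1 + 2) → Fin (N + 2) → ℝ)
        ((Fin.succ (Fin.succ k)).succAbove a)).det =
        dt (0 - v) (Fin.cons z0 (Fk k) : Fin (N + 1) → Fin (N + 2) → ℝ) := by
      rw [dt]
      congr 1
      ext a b
      simp only [Matrix.of_apply]
      refine Fin.cases ?_ (fun a' => ?_) a
      · rw [Fin.succ_succAbove_zero, Fin.cons_zero, Fin.cons_zero]
      · rw [Fin.succ_succAbove_succ, Fin.cons_succ, Fin.cons_succ]
        refine Fin.cases ?_ (fun a'' => ?_) a'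
        · rw [Fin.succ_succAbove_zero, Fin.cons_zero, Fin.cons_zero]
        · rw [Fin.succ_succAbove_succ, Fin.cons_succ, Fin.cons_succ]
    rw [e2]
    simp only [hD, Pi.smul_apply, smul_eq_mul, Fin.cons_succ, Fin.val_succ, pow_succ]
    ring
  have hcone : ∑ k : Fin (N + 1), D k * J (Qm (Fk k)) = 0 := by
    cases N with
    | zero =>
      -- a single vector with `lor < 0` is independent
      exfalso
      apply hY
      apply linearIndependent_of_det_gram
      rw [Matrix.det_fin_one]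
      exact (hneg 0 0).ne
    | succ N =>
      exact cone_identity Y D hDrel hneg
  -- conclusion
  have hterm : ∀ k : Fin (N + 1), (-1 : ℝ) ^ (k : ℕ) *
      (if (gram (Fk k) (Fk k)).det ≠ 0 then J (Qm (Fk k)) * cn z0 0 (Fk k) (Fk' k) else 0) =
      (D k * J (Qm (Fk k))) * (lor (perp (Fk k0) z0) (perp (Fk k0) z0))⁻¹ := by
    intro k
    by_cases hk : (gram (Fk k) (Fk k)).det ≠ 0
    · rw [if_pos hk, cn, hvk k hk, hperp k hk]
      simp only [hD]
      rw [div_eq_mul_inv]
      ring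
    · rw [if_neg hk, mul_zero]
      have h1 : dt (0 - v) (Fin.cons z0 (Fk k) : Fin (N + 1) → Fin (N + 2) → ℝ) = 0 := by
        by_contra hne
        apply hk
        have h1 : LinearIndependent ℝ (Fin.cons (0 - v) (Fin.cons z0 (Fk k) :
            Fin (N + 1) → Fin (N + 2) → ℝ) : Fin (N + 2) → Fin (N + 2) → ℝ) :=
          Matrix.linearIndependent_rows_iff_isUnit.2
            ((Matrix.isUnit_iff_isUnit_det _).2 (isUnit_iff_ne_zero.2 hne))
        have h2 : LinearIndependent ℝ (Fk k) := by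
          have := h1.comp (fun a : Fin N => a.succ.succ)
            (fun a b hab => Fin.succ_injective _ (Fin.succ_injective _ hab))
          exact this
        -- a set of independent vectors with negative products containing a timelike vector
        intro hdet
        obtain ⟨w, hw, hwG⟩ := Matrix.exists_vecMul_eq_zero_iff.2 hdet
        cases N with
        | zero => exact hw (Subsingleton.elim _ _)
        | succ N =>
          have h3 : ∑ a, w a • Fk k a = 0 := by
            refine relation_of_kernel (Fk k) (t := Fk k 0) (hneg _ _)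
              (Submodule.subset_span ⟨0, rfl⟩) ?_
            intro b
            have := congrFun hwG b
            simpa only [Matrix.vecMul, dotProduct, gram_apply, Pi.zero_apply] using this
          exact hw (funext (Fintype.linearIndependent_iff.1 h2 w h3))
      simp only [hD]
      rw [h1]
      ring
  rw [Finset.sum_congr rfl fun k _ => hterm k, ← Finset.sum_mul, hcone, zero_mul]

end steps

end Pool.Agent.Work.MP_1c91cf_gt

end
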