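import Pool.Agent.Work.MP_1c91cf_gt.Bd.B05
import Pool.Agent.Work.MP_1c91cf_gt.Bd.B02
import Pool.Agent.Work.MP_1c91cf_gt.Bd.B04
import Pool.Agent.Work.MP_1c91cf_gt.Bd.B03

/-! Bundle of small proof modules (one section per former module). -/

section

/-!
# The algebraic identity behind criticality
-/

set_option autoImplicit false
set_option linter.unusedSectionVars false

open Matrix

namespace Pool.Agent.Work.MP_1c91cf_gt

open Classical

variable {q m : ℕ} (c : RealConf q m)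

/-- configurations with the prescribed edge lengths -/
def InX (y : Fin m → Fin (q + 1 + 2) → ℝ) : Prop :=
  (∀ v, Fut (y v)) ∧ ∀ G, c.C G ≠ 0 → ∀ a b,
    lor (y (G a)) (y (G b)) = lor (c.y0 (G a)) (c.y0 (G b))

/-- configurations satisfying the linear relations of the degenerate simplices -/
def InLin (y : Fin m → Fin (q + 1 + 2) → ℝ) : Prop :=
  ∀ G, c.C G ≠ 0 → ∀ w : Fin (q + 1 + 1) → ℝ, ∑ i, w i • c.y0 (G i) = 0 → ∑ i, w i • y (G i) = 0

lemma pos_sum (φ : Fin m → (Fin (q + 1) → Fin m) → ℝ) :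
    ∑ G : Fin (q + 1 + 1) → Fin m, (c.C G : ℝ) * ∑ k : Fin (q + 1 + 1),
      (-1 : ℝ) ^ (k : ℕ) * φ (G k) (fun a => G (k.succAbove a)) =
    ((q : ℝ) + 2) * ∑ F : Fin (q + 1) → Fin m, ∑ x, (c.C (Fin.cons x F) : ℝ) * φ x F := by
  have h1 : ∀ k : Fin (q + 1 + 1), ∑ G : Fin (q + 1 + 1) → Fin m, (c.C G : ℝ) *
      ((-1 : ℝ) ^ (k : ℕ) * φ (G k) (fun a => G (k.succAbove a))) =
      ∑ F : Fin (q + 1) → Fin m, ∑ x, (c.C (Fin.cons x F) : ℝ) * φ x F := by
    intro k
    rw [sum_insertNth k]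
    refine Finset.sum_congr rfl fun F _ => Finset.sum_congr rfl fun x _ => ?_
    have h2 : c.C (k.insertNth x F) = (-1) ^ (k : ℕ) * c.C (Fin.cons x F) := by
      have h5 := c.alt (Fin.cons x F) k.cycleRange
      rw [Fin.cons_comp_cycleRange, Fin.sign_cycleRange] at h5
      rw [h5]
      push_cast
      rfl
    rw [h2]
    simp only [Fin.insertNth_apply_same, Fin.insertNth_apply_succAbove]
    push_cast
    have h6 : ((-1 : ℝ) ^ (k : ℕ)) * (-1) ^ (k : ℕ) = 1 := by
      rw [← mul_pow]; norm_num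
    linear_combination ((c.C (Fin.cons x F) : ℝ) * φ x F) * h6
  simp only [Finset.mul_sum]
  rw [Finset.sum_comm]
  simp only [h1]
  rw [Finset.sum_const, Finset.card_univ, Fintype.card_fin, nsmul_eq_mul, Finset.mul_sum]
  push_cast
  simp only [Finset.mul_sum]
  refine Finset.sum_congr rfl fun F _ => Finset.sum_congr rfl fun x _ => ?_
  ring

variable {c}

lemma InX.gram_eq {y : Fin m → Fin (q + 1 + 2) → ℝ} (hX : InX c y) {k : ℕ} {F : Fin k → Fin m}
    (hs : c.sub F) : gram (y ∘ F) (y ∘ F) = c.Γ F := by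
  obtain ⟨G, h1, h2⟩ := hs
  ext a b
  obtain ⟨i, hi⟩ := h2 a
  obtain ⟨j, hj⟩ := h2 b
  rw [gram_apply, RealConf.Γ, gram_apply, Function.comp_apply,
    Function.comp_apply, Function.comp_apply, Function.comp_apply, ← hi, ← hj, hX.2 G h1]

lemma InX.Qm_eq {y : Fin m → Fin (q + 1 + 2) → ℝ} (hX : InX c y) {k : ℕ} {F : Fin k → Fin m}
    (hs : c.sub F) : J (Qm (y ∘ F)) = c.jf F := by
  rw [RealConf.jf]
  congr 1
  ext a b
  have := congrFun (congrFun (hX.gram_eq hs) a) b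
  rw [gram_apply, RealConf.Γ, gram_apply] at this
  simp only [Qm, Matrix.of_apply]
  rw [this]
  rfl

lemma nd_facet {G : Fin (q + 1 + 1) → Fin m} (h : c.nd G) (k : Fin (q + 1 + 1)) :
    c.nd (fun a => G (k.succAbove a)) := by
  rw [c.nd_iff] at h ⊢
  exact h.comp _ Fin.succAbove_right_injective

lemma nd_cons_succAbove (G : Fin (q + 1 + 1) → Fin m) (k : Fin (q + 1 + 1)) :
    c.nd (Fin.cons (G k) (fun a => G (k.succAbove a)) : Fin (q + 1 + 1) → Fin m) ↔ c.nd G := by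
  rw [← c.nd_comp k.cycleRange, cons_succAbove_eq]

/-- relations hold for every configuration -/
lemma InX.rel {y : Fin m → Fin (q + 1 + 2) → ℝ} (hX : InX c y) {y' : Fin m → Fin (q + 1 + 2) → ℝ}
    (hL : InLin c y') {G : Fin (q + 1 + 1) → Fin m} (hG : c.C G ≠ 0)
    (w : Fin (q + 1 + 1) → ℝ) (hw : ∑ i, w i • y (G i) = 0) : ∑ i, w i • y' (G i) = 0 := by
  apply hL G hG
  refine relation_of_kernel (c.y0 ∘ G) (t := c.y0 (G 0))
    (by rw [(c.fut _).1]; norm_num) (Submodule.subset_span ⟨0, rfl⟩) ?_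
  intro b
  have h1 := congrArg (fun v => lor v (y (G b))) hw
  simp only [lor_zero_left, lor_sum_left, lor_smul_left] at h1
  rw [← h1]
  refine Finset.sum_congr rfl fun i _ => ?_
  rw [hX.2 G hG i b]
  rfl

lemma InX.inLin {y : Fin m → Fin (q + 1 + 2) → ℝ} (hX : InX c y) : InLin c y := by
  intro G hG w hw
  refine relation_of_kernel (y ∘ G) (t := y (G 0))
    (by rw [(hX.1 _).1]; norm_num) (Submodule.subset_span ⟨0, rfl⟩) ?_
  intro b
  have h1 := congrArg (fun v => lor v (c.y0 (G b))) hw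
  simp only [lor_zero_left, lor_sum_left, lor_smul_left] at h1
  rw [← h1]
  refine Finset.sum_congr rfl fun i _ => ?_
  rw [Function.comp_apply, Function.comp_apply, hX.2 G hG i b]

/-- The algebraic identity. -/
theorem crit_identity {y y' : Fin m → Fin (q + 1 + 2) → ℝ} (hX : InX c y) (hL : InLin c y')
    (z0 : Fin (q + 1 + 2) → ℝ) :
    -∑ G : Fin (q + 1 + 1) → Fin m, (c.C G : ℝ) *
        ∑ i, dt (y' (G i)) (y ∘ G) * J1 (Qm (y ∘ G)) i =
    ((q : ℝ) + 2) * ∑ F : Fin (q + 1) → Fin m, ∑ x,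
      (if c.nd (Fin.cons x F : Fin (q + 1 + 1) → Fin m) then
        (c.C (Fin.cons x F) : ℝ) * (c.jf F *
          (cn (y x) (y' x) (y ∘ F) (y' ∘ F) - cn z0 0 (y ∘ F) (y' ∘ F))) else 0) := by
  have hneg : ∀ v w, lor (y v) (y w) < 0 := fun v w => (hX.1 v).lor_neg (hX.1 w)
  -- the main terms
  set φ1 : Fin m → (Fin (q + 1) → Fin m) → ℝ := fun x F =>
    if c.nd (Fin.cons x F : Fin (q + 1 + 1) → Fin m) then
      c.jf F * cn (y x) (y' x) (y ∘ F) (y' ∘ F) else 0 with hφ1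
  have hmain : ∀ G : Fin (q + 1 + 1) → Fin m, (c.C G : ℝ) *
      ∑ k : Fin (q + 1 + 1), (-1 : ℝ) ^ (k : ℕ) * φ1 (G k) (fun a => G (k.succAbove a)) =
      -((c.C G : ℝ) * ∑ i, dt (y' (G i)) (y ∘ G) * J1 (Qm (y ∘ G)) i) := by
    intro G
    by_cases hG : c.C G = 0
    · rw [hG]; simp
    have hsG := c.sub_of_C hG
    by_cases hn : c.nd G
    · have hgram : (gram (y ∘ G) (y ∘ G)).det ≠ 0 := by
        rw [hX.gram_eq hsG]; exact hn
      have hli : LinearIndependent ℝ (y ∘ G) := linearIndependent_of_det_gram _ hgram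
      have hfk : ∀ k : Fin (q + 1 + 1), (gram (fun a => (y ∘ G) (k.succAbove a))
          (fun a => (y ∘ G) (k.succAbove a))).det ≠ 0 := fun k =>
        (det_gram_ne_iff (fun a => (y ∘ G) (k.succAbove a)) (fun a => hX.1 _)).2
          (hli.comp _ Fin.succAbove_right_injective)
      have h1 := step1 (y ∘ G) (y' ∘ G) (fun a b => hneg _ _) hgram hfk (fun k => by
        have h2 : LinearIndependent ℝ (Fin.cons ((y ∘ G) k) (fun a => (y ∘ G) (k.succAbove a)) :
            Fin (q + 1 + 1) → Fin (q + 1 + 2) → ℝ) := by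
          have h3 := cons_succAbove_eq (y ∘ G) k
          have h4 := hli.comp k.cycleRange.symm k.cycleRange.symm.injective
          rw [← h3] at h4
          have h5 : ((Fin.cons ((y ∘ G) k) (fun a => (y ∘ G) (k.succAbove a)) :
            Fin (q + 1 + 1) → Fin (q + 1 + 2) → ℝ) ∘ k.cycleRange) ∘ k.cycleRange.symm =
            Fin.cons ((y ∘ G) k) (fun a => (y ∘ G) (k.succAbove a)) := by
            ext i; simp
          rwa [h5] at h4
        rw [linearIndependent_finCons] at h2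
        exact (perp_pos _ (fun a => hX.1 _) (hfk k) _ h2.2).ne')
      rw [← mul_neg]
      congr 1
      simp only [Function.comp_apply] at h1
      rw [← h1]
      refine Finset.sum_congr rfl fun k _ => ?_
      congr 1
      simp only [hφ1]
      rw [if_pos ((nd_cons_succAbove G k).2 hn)]
      have hsk : c.sub (fun a => G (k.succAbove a)) := c.sub_comp hsG k.succAbove
      rw [← hX.Qm_eq hsk]
      rfl
    · have h1 : ∀ k : Fin (q + 1 + 1), φ1 (G k) (fun a => G (k.succAbove a)) = 0 := by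
        intro k
        simp only [hφ1]
        rw [if_neg (fun h => hn ((nd_cons_succAbove G k).1 h))]
      have h2 : ∀ u, dt u (y ∘ G) = 0 := by
        intro u
        by_contra hne
        apply hn
        have h3 : LinearIndependent ℝ (Fin.cons u (y ∘ G) : Fin (q + 1 + 1 + 1) →
            Fin (q + 1 + 2) → ℝ) :=
          Matrix.linearIndependent_rows_iff_isUnit.2
            ((Matrix.isUnit_iff_isUnit_det _).2 (isUnit_iff_ne_zero.2 hne))
        have h4 : LinearIndependent ℝ (y ∘ G) := h3.comp Fin.succ (Fin.succ_injective _)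
        have h5 := (det_gram_ne_iff (y ∘ G) (fun a => hX.1 _)).2 h4
        rw [hX.gram_eq hsG] at h5
        exact h5
      simp [h1, h2]
  have hsum1 := pos_sum c φ1
  rw [Finset.sum_congr rfl fun G _ => hmain G, Finset.sum_neg_distrib] at hsum1
  rw [hsum1]
  congr 1
  -- the leftover
  set φ2 : Fin m → (Fin (q + 1) → Fin m) → ℝ := fun x F =>
    if ¬ c.nd (Fin.cons x F : Fin (q + 1 + 1) → Fin m) ∧ c.nd F then
      c.jf F * cn z0 0 (y ∘ F) (y' ∘ F) else 0 with hφ2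
  have hleft : ∀ G : Fin (q + 1 + 1) → Fin m, (c.C G : ℝ) *
      ∑ k : Fin (q + 1 + 1), (-1 : ℝ) ^ (k : ℕ) * φ2 (G k) (fun a => G (k.succAbove a)) = 0 := by
    intro G
    by_cases hG : c.C G = 0
    · rw [hG]; simp
    have hsG := c.sub_of_C hG
    by_cases hn : c.nd G
    · have h1 : ∀ k : Fin (q + 1 + 1), φ2 (G k) (fun a => G (k.succAbove a)) = 0 := by
        intro k
        simp only [hφ2]
        rw [if_neg (fun h => h.1 ((nd_cons_succAbove G k).2 hn))]
      simp [h1]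
    · have hdep : ¬ LinearIndependent ℝ (y ∘ G) := by
        intro h4
        have h5 := (det_gram_ne_iff (y ∘ G) (fun a => hX.1 _)).2 h4
        rw [hX.gram_eq hsG] at h5
        exact hn h5
      have h1 := step2 (y ∘ G) (y' ∘ G) (fun a b => hneg _ _) hdep
        (fun w hw => hX.rel hL hG w hw) z0
      apply mul_eq_zero_of_right
      refine Eq.trans ?_ h1
      refine Finset.sum_congr rfl fun k _ => ?_
      congr 1
      simp only [hφ2]
      have hsk : c.sub (fun a => G (k.succAbove a)) := c.sub_comp hsG k.succAbove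
      have h2 : (¬ c.nd (Fin.cons (G k) (fun a => G (k.succAbove a)) : Fin (q + 1 + 1) → Fin m) ∧
          c.nd (fun a => G (k.succAbove a))) ↔
          (gram (fun a => (y ∘ G) (k.succAbove a)) (fun a => (y ∘ G) (k.succAbove a))).det ≠ 0 := by
        have h3 := hX.gram_eq hsk
        have h4 : (gram (fun a => (y ∘ G) (k.succAbove a)) (fun a => (y ∘ G) (k.succAbove a))) =
            c.Γ (fun a => G (k.succAbove a)) := h3
        rw [h4]
        constructor
        · exact fun h => h.2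
        · exact fun h => ⟨fun h' => hn ((nd_cons_succAbove G k).1 h'), h⟩
      rw [if_congr h2 rfl rfl, ← hX.Qm_eq hsk]
      rfl
  have hsum2 := pos_sum c φ2
  rw [Finset.sum_eq_zero fun G _ => hleft G] at hsum2
  have hq2 : ((q : ℝ) + 2) ≠ 0 := by positivity
  have hsum2' := (mul_eq_zero.1 hsum2.symm).resolve_left hq2
  -- combine
  have hFterm : ∀ F : Fin (q + 1) → Fin m,
      ∑ x, (if c.nd (Fin.cons x F : Fin (q + 1 + 1) → Fin m) then
        (c.C (Fin.cons x F) : ℝ) * (c.jf F * cn z0 0 (y ∘ F) (y' ∘ F)) else 0) =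
      -∑ x, (c.C (Fin.cons x F) : ℝ) * φ2 x F := by
    intro F
    by_cases hn : c.nd F
    · rw [eq_neg_iff_add_eq_zero, ← Finset.sum_add_distrib]
      have h1 : ∀ x, (if c.nd (Fin.cons x F : Fin (q + 1 + 1) → Fin m) then
          (c.C (Fin.cons x F) : ℝ) * (c.jf F * cn z0 0 (y ∘ F) (y' ∘ F)) else 0) +
          (c.C (Fin.cons x F) : ℝ) * φ2 x F =
          (c.C (Fin.cons x F) : ℝ) * (c.jf F * cn z0 0 (y ∘ F) (y' ∘ F)) := by
        intro x
        simp only [hφ2]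
        by_cases hx : c.nd (Fin.cons x F : Fin (q + 1 + 1) → Fin m)
        · rw [if_pos hx, if_neg (fun h => h.1 hx)]; ring
        · rw [if_neg hx, if_pos ⟨hx, hn⟩]; ring
      simp only [h1]
      rw [← Finset.sum_mul]
      have h2 : ∑ x, (c.C (Fin.cons x F) : ℝ) = 0 := by exact_mod_cast c.cyc F
      rw [h2, zero_mul]
    · have h1 : ∀ x, ¬ c.nd (Fin.cons x F : Fin (q + 1 + 1) → Fin m) := fun x hx =>
        hn (by have := c.nd_tail hx; rwa [Fin.tail_cons] at this)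
      simp [hφ2, hn, h1]
  have hL0 : ∑ F : Fin (q + 1) → Fin m, ∑ x,
      (if c.nd (Fin.cons x F : Fin (q + 1 + 1) → Fin m) then
        (c.C (Fin.cons x F) : ℝ) * (c.jf F * cn z0 0 (y ∘ F) (y' ∘ F)) else 0) = 0 := by
    rw [Finset.sum_congr rfl fun F _ => hFterm F, Finset.sum_neg_distrib, hsum2', neg_zero]
  have hsplit : ∑ F : Fin (q + 1) → Fin m, ∑ x,
      (if c.nd (Fin.cons x F : Fin (q + 1 + 1) → Fin m) then
        (c.C (Fin.cons x F) : ℝ) * (c.jf F *
          (cn (y x) (y' x) (y ∘ F) (y' ∘ F) - cn z0 0 (y ∘ F) (y' ∘ F))) else 0) =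
      ∑ F : Fin (q + 1) → Fin m, ∑ x, (c.C (Fin.cons x F) : ℝ) * φ1 x F -
      ∑ F : Fin (q + 1) → Fin m, ∑ x,
      (if c.nd (Fin.cons x F : Fin (q + 1 + 1) → Fin m) then
        (c.C (Fin.cons x F) : ℝ) * (c.jf F * cn z0 0 (y ∘ F) (y' ∘ F)) else 0) := by
    rw [← Finset.sum_sub_distrib]
    refine Finset.sum_congr rfl fun F _ => ?_
    rw [← Finset.sum_sub_distrib]
    refine Finset.sum_congr rfl fun x _ => ?_
    simp only [hφ1]
    split_ifs <;> ring
  rw [hsplit, hL0, sub_zero]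

end Pool.Agent.Work.MP_1c91cf_gt

end

section

/-!
# Countability of the argument sums
-/

set_option autoImplicit false
set_option linter.unusedSectionVars false

open Matrix

namespace Pool.Agent.Work.MP_1c91cf_gt

open Classical

section generic

variable {R S : Type*} [CommRing R] [CommRing S] [Algebra ℂ R] [Algebra ℂ S] (φ : R →ₐ[ℂ] S)
  {n k : ℕ}

lemma map_rl (r : ℝ) : φ (rl r) = rl r := by
  rw [rl_apply, rl_apply, AlgHom.commutes]

lemma lor_map (z w : Fin (n + 1) → R) :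
    φ (lor z w) = lor (fun i => φ (z i)) (fun i => φ (w i)) := by
  simp only [lor, map_sum, map_mul]
  refine Finset.sum_congr rfl fun i _ => ?_
  congr 2
  refine Fin.cases ?_ (fun j => ?_) i <;> simp [eta]

lemma dt_map (z : Fin (n + 1) → R) (G : Fin n → Fin (n + 1) → R) :
    φ (dt z G) = dt (fun i => φ (z i)) (fun a i => φ (G a i)) := by
  unfold dt
  rw [AlgHom.map_det]
  congr 1
  ext i j
  refine Fin.cases ?_ (fun i' => ?_) i <;> simp

/-- the form on the orthogonal complement, with a constant inverse Gram matrix -/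
noncomputable def hR (Γi : Matrix (Fin k) (Fin k) ℝ) (F : Fin k → Fin (n + 1) → R)
    (z w : Fin (n + 1) → R) : R :=
  lor z w - ∑ a, ∑ b, rl (Γi a b) * lor z (F a) * lor w (F b)

lemma hR_map (Γi : Matrix (Fin k) (Fin k) ℝ) (F : Fin k → Fin (n + 1) → R)
    (z w : Fin (n + 1) → R) : φ (hR Γi F z w) =
      hR Γi (fun a i => φ (F a i)) (fun i => φ (z i)) (fun i => φ (w i)) := by
  simp only [hR, map_sub, map_sum, map_mul, lor_map, map_rl]

/-- polynomial version of `aF` -/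
noncomputable def paR (Γi : Matrix (Fin k) (Fin k) ℝ) (cst : ℂ) (F : Fin k → Fin (k + 2) → R)
    (x z0 : Fin (k + 2) → R) : R :=
  hR Γi F x z0 + algebraMap ℂ R cst *
    dt x (Fin.cons z0 F : Fin (k + 1) → Fin (k + 2) → R)

lemma paR_map (Γi : Matrix (Fin k) (Fin k) ℝ) (cst : ℂ) (F : Fin k → Fin (k + 2) → R)
    (x z0 : Fin (k + 2) → R) : φ (paR Γi cst F x z0) =
      paR Γi cst (fun a i => φ (F a i)) (fun i => φ (x i)) (fun i => φ (z0 i)) := by
  simp only [paR, map_add, map_mul, hR_map, dt_map, AlgHom.commutes]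
  congr 3
  ext a i
  refine Fin.cases ?_ (fun a' => ?_) a <;> simp

end generic

section field

variable {L : Type*} [Field L] [Algebra ℂ L] {k n : ℕ}

lemma hR_eq {F : Fin k → Fin (n + 1) → L} {Γ : Matrix (Fin k) (Fin k) ℝ} (hF : RealTuple F Γ)
    (z w : Fin (n + 1) → L) : hR Γ⁻¹ F z w = lor (perp F z) (perp F w) := by
  have h1 := lor_prj_prj F hF.det_ne z w
  have h2 : lor (perp F z) (perp F w) = lor z w - lor (prj F z) (prj F w) := by
    rw [lor_perp_perp F hF.det_ne, perp, lor_sub_left, lor_prj_left hF.det_ne]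
  rw [h2, h1, hR, hF.inv_eq]
  rfl

lemma paR_eq {F : Fin k → Fin (k + 2) → L} {Γ : Matrix (Fin k) (Fin k) ℝ} (hF : RealTuple F Γ)
    (cst : ℂ) (x z0 : Fin (k + 2) → L) :
    paR Γ⁻¹ cst F x z0 = lor x (iso F (algebraMap ℂ L cst) z0) := by
  rw [paR, hR_eq hF, iso, lor_add_right, lor_smul_right, crsL_apply, lor_crs,
    lor_perp_left F hF.det_ne, perp_of_orth F _ (lor_perp F hF.det_ne z0)]

end field

variable {q m : ℕ} {c : RealConf q m}

/-- complexification of a real vector -/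
noncomputable def cx {n : ℕ} (z : Fin n → ℝ) : Fin n → ℂ := fun i => (z i : ℂ)

lemma lor_cx {n : ℕ} (z w : Fin (n + 1) → ℝ) : lor (cx z) (cx w) = ((lor z w : ℝ) : ℂ) := by
  simp only [lor, cx, Complex.ofReal_sum, Complex.ofReal_mul]
  refine Finset.sum_congr rfl fun i _ => ?_
  congr 2
  refine Fin.cases ?_ (fun j => ?_) i <;> simp [eta]

lemma dt_cx {n : ℕ} (z : Fin (n + 1) → ℝ) (G : Fin n → Fin (n + 1) → ℝ) :
    dt (cx z) (fun a => cx (G a)) = ((dt z G : ℝ) : ℂ) := by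
  unfold dt
  have h1 : (((Matrix.of (Fin.cons z G : Fin (n + 1) → Fin (n + 1) → ℝ)).det : ℝ) : ℂ) =
      Complex.ofRealHom (Matrix.of (Fin.cons z G : Fin (n + 1) → Fin (n + 1) → ℝ)).det := rfl
  rw [h1, RingHom.map_det]
  congr 1
  ext i j
  refine Fin.cases ?_ (fun i' => ?_) i <;> simp [cx]

lemma rl_complex (r : ℝ) : (rl r : ℂ) = (r : ℂ) := rfl

lemma lor_prj_left_gen {K : Type*} [Field K] {n k : ℕ} {F : Fin k → Fin (n + 1) → K}
    (hF : (gram F F).det ≠ 0) (z w : Fin (n + 1) → K) :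
    lor (prj F z) w = lor (prj F z) (prj F w) := by
  have h3 := lor_perp_prj F hF w z
  rw [perp, lor_sub_left, lor_comm w, lor_comm (prj F w)] at h3
  exact sub_eq_zero.1 h3

/-- value of the polynomial at a real configuration -/
lemma paR_cx {y : Fin m → Fin (q + 1 + 2) → ℝ} (hX : InX c y) {F : Fin (q + 1) → Fin m}
    (hs : c.sub F) (hn : c.nd F) (x z0 : Fin (q + 1 + 2) → ℝ) :
    paR (c.Γ F)⁻¹ (Complex.I / (c.D F : ℂ)) (fun a => cx (y (F a))) (cx x) (cx z0) =
      aF z0 x (y ∘ F) := by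
  have hg := hX.gram_eq hs
  have hn' : (gram (y ∘ F) (y ∘ F)).det ≠ 0 := by rw [hg]; exact hn
  have h1 : hR (c.Γ F)⁻¹ (fun a => cx (y (F a))) (cx x) (cx z0) =
      ((lor x (perp (y ∘ F) z0) : ℝ) : ℂ) := by
    have h2 : lor x (perp (y ∘ F) z0) = lor x z0 - lor (prj (y ∘ F) x) (prj (y ∘ F) z0) := by
      rw [← lor_perp_left _ hn', perp, lor_sub_left, lor_prj_left_gen hn']
    rw [h2, lor_prj_prj _ hn', hg, hR]
    simp only [lor_cx, rl_complex]
    push_cast
    rfl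
  have h2 : dt (cx x) (Fin.cons (cx z0) (fun a => cx (y (F a))) :
      Fin (q + 1 + 1) → Fin (q + 1 + 2) → ℂ) = ((lor x (crsL (y ∘ F) z0) : ℝ) : ℂ) := by
    have h3 : (Fin.cons (cx z0) (fun a => cx (y (F a))) : Fin (q + 1 + 1) → Fin (q + 1 + 2) → ℂ) =
        fun a => cx ((Fin.cons z0 (y ∘ F) : Fin (q + 1 + 1) → Fin (q + 1 + 2) → ℝ) a) := by
      ext a i
      refine Fin.cases ?_ (fun a' => ?_) a <;> simp
    rw [h3, dt_cx, crsL_apply, lor_crs]
  rw [paR, h1, h2, aF, hg]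
  simp only [Algebra.algebraMap_self, RingHom.id_apply]
  have h3 : c.D F = Real.sqrt (-(c.Γ F).det) := rfl
  rw [← h3]
  push_cast
  ring

/-- the coordinate vectors -/
noncomputable def YY (v : Fin m) (j : Fin (q + 1 + 2)) :
    MvPolynomial (Fin m × Fin (q + 1 + 2)) ℂ := MvPolynomial.X (v, j)

/-- constant vector -/
noncomputable def ZZ0 (z0 : Fin (q + 1 + 2) → ℝ) (j : Fin (q + 1 + 2)) :
    MvPolynomial (Fin m × Fin (q + 1 + 2)) ℂ := MvPolynomial.C (z0 j : ℂ)

variable (c) in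
/-- generators of the ideal of the configuration space -/
def gens : Set (MvPolynomial (Fin m × Fin (q + 1 + 2)) ℂ) :=
  {f | (∃ G, c.C G ≠ 0 ∧ ∃ a b, f = lor (YY (G a)) (YY (G b)) -
      rl (lor (c.y0 (G a)) (c.y0 (G b)))) ∨
    (∃ G, c.C G ≠ 0 ∧ ∃ w : Fin (q + 1 + 1) → ℝ, ∑ i, w i • c.y0 (G i) = 0 ∧ ∃ j,
      f = ∑ i, rl (w i) * YY (G i) j)}

variable (c) in
/-- pairs `(x, F)` -/
def IA : Type := {p : Fin m × (Fin (q + 1) → Fin m) //
  c.C (Fin.cons p.1 p.2) ≠ 0 ∧ c.nd (Fin.cons p.1 p.2 : Fin (q + 1 + 1) → Fin m)}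

variable (c) in
/-- faces `F` -/
def IF : Type := {F : Fin (q + 1) → Fin m // c.sub F ∧ c.nd F}

noncomputable instance instIA : Fintype (IA c) := by unfold IA; infer_instance
noncomputable instance instIF : Fintype (IF c) := by unfold IF; infer_instance

lemma IA.nd_snd (i : IA c) : c.nd i.1.2 := by
  have := c.nd_tail i.2.2
  rwa [Fin.tail_cons] at this

/-- the weights -/
noncomputable def wt (i : IA c) : ℝ :=
  (c.C (Fin.cons i.1.1 i.1.2) : ℝ) * (c.D i.1.2 * c.jf i.1.2)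

lemma sum_IA (f : Fin m → (Fin (q + 1) → Fin m) → ℝ) :
    ∑ i : IA c, f i.1.1 i.1.2 * (c.C (Fin.cons i.1.1 i.1.2) : ℝ) =
      ∑ F : Fin (q + 1) → Fin m, ∑ x, (if c.nd (Fin.cons x F : Fin (q + 1 + 1) → Fin m) then
        f x F * (c.C (Fin.cons x F) : ℝ) else 0) := by
  have h1 : ∑ i : IA c, f i.1.1 i.1.2 * (c.C (Fin.cons i.1.1 i.1.2) : ℝ) =
      ∑ p ∈ Finset.univ.filter (fun p : Fin m × (Fin (q + 1) → Fin m) =>
        c.C (Fin.cons p.1 p.2) ≠ 0 ∧ c.nd (Fin.cons p.1 p.2 : Fin (q + 1 + 1) → Fin m)),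
        f p.1 p.2 * (c.C (Fin.cons p.1 p.2) : ℝ) := by
    rw [Finset.sum_subtype (p := fun p : Fin m × (Fin (q + 1) → Fin m) =>
        c.C (Fin.cons p.1 p.2) ≠ 0 ∧ c.nd (Fin.cons p.1 p.2 : Fin (q + 1 + 1) → Fin m))
      (F := instIA (c := c)) _ (fun p => by simp)]
    rfl
  rw [h1, Finset.sum_filter, Fintype.sum_prod_type, Finset.sum_comm]
  refine Finset.sum_congr rfl fun F _ => Finset.sum_congr rfl fun x _ => ?_
  by_cases hC : c.C (Fin.cons x F) = 0
  · simp [hC]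
  · by_cases hn : c.nd (Fin.cons x F : Fin (q + 1 + 1) → Fin m)
    · rw [if_pos ⟨hC, hn⟩, if_pos hn]
    · rw [if_neg (fun h => hn h.2), if_neg hn]

end Pool.Agent.Work.MP_1c91cf_gt

end

section

/-!
# Countability of the argument sums, conclusion
-/

set_option autoImplicit false
set_option linter.unusedSectionVars false

open Matrix

namespace Pool.Agent.Work.MP_1c91cf_gt

open Classical

variable {q m : ℕ} {c : RealConf q m}

lemma hR_cx {y : Fin m → Fin (q + 1 + 2) → ℝ} (hX : InX c y) {F : Fin (q + 1) → Fin m}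
    (hs : c.sub F) (hn : c.nd F) (x z0 : Fin (q + 1 + 2) → ℝ) :
    hR (c.Γ F)⁻¹ (fun a => cx (y (F a))) (cx x) (cx z0) =
      ((lor (perp (y ∘ F) x) (perp (y ∘ F) z0) : ℝ) : ℂ) := by
  have hg := hX.gram_eq hs
  have hn' : (gram (y ∘ F) (y ∘ F)).det ≠ 0 := by rw [hg]; exact hn
  have h2 : lor (perp (y ∘ F) x) (perp (y ∘ F) z0) =
      lor x z0 - lor (prj (y ∘ F) x) (prj (y ∘ F) z0) := by
    rw [lor_perp_perp _ hn', perp, lor_sub_left, lor_prj_left_gen hn']
  rw [h2, lor_prj_prj _ hn', hg, hR]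
  simp only [lor_cx, rl_complex]
  push_cast
  rfl

/-- the Gram relation for a family of vectors over `L` -/
lemma realTuple_of_gr {L : Type*} [Field L] [Algebra ℂ L] {y : Fin m → Fin (q + 1 + 2) → L}
    (gr : ∀ G, c.C G ≠ 0 → ∀ a b,
      lor (y (G a)) (y (G b)) = (rl (lor (c.y0 (G a)) (c.y0 (G b))) : L))
    {k : ℕ} {F : Fin k → Fin m} (hs : c.sub F) (hn : c.nd F) :
    RealTuple (fun a => y (F a)) (c.Γ F) := by
  refine ⟨?_, hn⟩
  obtain ⟨G, h1, h2⟩ := hs
  ext a b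
  obtain ⟨i, hi⟩ := h2 a
  obtain ⟨j, hj⟩ := h2 b
  rw [gram_apply, Matrix.map_apply, RealConf.Γ, gram_apply, Function.comp_apply,
    Function.comp_apply, ← hi, ← hj, gr G h1]

/-- the complex configuration attached to a real one -/
noncomputable def realLConf {y : Fin m → Fin (q + 1 + 2) → ℝ} (hX : InX c y)
    (z0 : Fin (q + 1 + 2) → ℝ)
    (hz : ∀ F : Fin (q + 1) → Fin m, c.sub F → c.nd F →
      lor (perp (y ∘ F) z0) (perp (y ∘ F) z0) ≠ 0) : LConf c ℂ where
  y v := cx (y v)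
  gr G hG a b := by rw [lor_cx, hX.2 G hG, rl_complex]
  lin G hG w hw := by
    have h1 := hX.inLin G hG w hw
    ext j
    have h2 := congrFun h1 j
    simp only [Finset.sum_apply, Pi.smul_apply, smul_eq_mul, Pi.zero_apply, rl_complex, cx] at h2 ⊢
    exact_mod_cast h2
  z0 := cx z0
  hz0 F hs hn := by
    have hgr : ∀ G, c.C G ≠ 0 → ∀ a b, lor (cx (y (G a))) (cx (y (G b))) =
        (rl (lor (c.y0 (G a)) (c.y0 (G b))) : ℂ) := fun G hG a b => by
      rw [lor_cx, hX.2 G hG, rl_complex]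
    have hrt := realTuple_of_gr (y := fun v => cx (y v)) hgr hs hn
    have h1 := hR_eq hrt (cx z0) (cx z0)
    have h2 : ((fun v => cx (y v)) ∘ F) = fun a => cx (y (F a)) := rfl
    rw [h2, ← h1, hR_cx hX hs hn]
    exact_mod_cast hz F hs hn

lemma aF_eq_ep {y : Fin m → Fin (q + 1 + 2) → ℝ} (hX : InX c y)
    (z0 : Fin (q + 1 + 2) → ℝ)
    (hz : ∀ F : Fin (q + 1) → Fin m, c.sub F → c.nd F →
      lor (perp (y ∘ F) z0) (perp (y ∘ F) z0) ≠ 0) {F : Fin (q + 1) → Fin m}
    (hs : c.sub F) (hn : c.nd F) (x : Fin m) :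
    aF z0 (y x) (y ∘ F) = lor ((realLConf hX z0 hz).y x) ((realLConf hX z0 hz).ep F) := by
  rw [← paR_cx hX hs hn]
  have hrt := (realLConf hX z0 hz).rt hs hn
  have h1 := paR_eq hrt (Complex.I / (c.D F : ℂ)) (cx (y x)) (cx z0)
  exact h1

lemma aF_ne_zero {y : Fin m → Fin (q + 1 + 2) → ℝ} (hX : InX c y)
    (z0 : Fin (q + 1 + 2) → ℝ)
    (hz : ∀ F : Fin (q + 1) → Fin m, c.sub F → c.nd F →
      lor (perp (y ∘ F) z0) (perp (y ∘ F) z0) ≠ 0) {F : Fin (q + 1) → Fin m} {x : Fin m}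
    (hC : c.C (Fin.cons x F) ≠ 0) (hn : c.nd F)
    (hx : c.nd (Fin.cons x F : Fin (q + 1 + 1) → Fin m)) :
    aF z0 (y x) (y ∘ F) ≠ 0 := by
  rw [aF_eq_ep hX z0 hz (c.sub_of_cons hC) hn]
  intro h0
  have h1 := prod_real (realLConf hX z0 hz) hC hn
  rw [h0, mul_zero] at h1
  have h2 := perp_pos (c.y0 ∘ F) (fun a => c.fut _) hn (c.y0 x) ((nd_cons_iff hn).1 hx)
  have h3 : (rl (lor (perp (c.y0 ∘ F) (c.y0 x)) (perp (c.y0 ∘ F) (c.y0 x))) : ℂ) ≠ 0 := by
    rw [map_ne_zero_iff _ (RingHom.injective _)]; exact h2.ne'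
  exact h3 h1.symm

variable (c) in
/-- the polynomials -/
noncomputable def pols (z0 : Fin (q + 1 + 2) → ℝ) (u : IA c → ℂ) :
    IA c ⊕ IF c → MvPolynomial (Fin m × Fin (q + 1 + 2)) ℂ
  | Sum.inl i => algebraMap ℂ _ (u i)⁻¹ *
      paR (c.Γ i.1.2)⁻¹ (Complex.I / (c.D i.1.2 : ℂ)) (fun a => YY (i.1.2 a)) (YY i.1.1) (ZZ0 z0)
  | Sum.inr F => hR (c.Γ F.1)⁻¹ (fun a => YY (F.1 a)) (ZZ0 z0) (ZZ0 z0)

/-- Countability of the argument sums. -/
theorem countable_angles (hq : 1 ≤ q) (z0 : Fin (q + 1 + 2) → ℝ) (u : IA c → ℂ)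
    (hu : ∀ i, u i ≠ 0) (X : Set (Fin m → Fin (q + 1 + 2) → ℝ))
    (hX : ∀ y ∈ X, InX c y ∧ ∀ F : Fin (q + 1) → Fin m, c.sub F → c.nd F →
      lor (perp (y ∘ F) z0) (perp (y ∘ F) z0) ≠ 0) :
    ((fun y => ∑ i : IA c, wt i * Complex.arg (aF z0 (y i.1.1) (y ∘ i.1.2) / u i)) '' X).Countable := by
  -- evaluation
  have hevY : ∀ (y : Fin m → Fin (q + 1 + 2) → ℝ) (v : Fin m),
      (fun j => MvPolynomial.aeval (fun p : Fin m × Fin (q + 1 + 2) => (y p.1 p.2 : ℂ))
        (YY v j)) = cx (y v) := by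
    intro y v
    ext j
    rw [YY, MvPolynomial.aeval_X]
    rfl
  have hevZ : ∀ (y : Fin m → Fin (q + 1 + 2) → ℝ),
      (fun j => MvPolynomial.aeval (fun p : Fin m × Fin (q + 1 + 2) => (y p.1 p.2 : ℂ))
        (ZZ0 z0 j)) = cx z0 := by
    intro y
    ext j
    rw [ZZ0, MvPolynomial.aeval_C]
    rfl
  have hevF : ∀ (y : Fin m → Fin (q + 1 + 2) → ℝ) (F : Fin (q + 1) → Fin m),
      (fun a j => MvPolynomial.aeval (fun p : Fin m × Fin (q + 1 + 2) => (y p.1 p.2 : ℂ))
        (YY (F a) j)) = fun a => cx (y (F a)) := by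
    intro y F
    funext a
    exact hevY y (F a)
  have hae : ∀ (x : Fin m × Fin (q + 1 + 2) → ℂ) (p : MvPolynomial (Fin m × Fin (q + 1 + 2)) ℂ),
      MvPolynomial.aeval x p = MvPolynomial.eval x p := fun x p => by
    rw [← MvPolynomial.coe_aeval_eq_eval]; rfl
  have hevl : ∀ (y : Fin m → Fin (q + 1 + 2) → ℝ), InX c y → ∀ i : IA c,
      MvPolynomial.aeval (fun p : Fin m × Fin (q + 1 + 2) => (y p.1 p.2 : ℂ))
        (pols c z0 u (Sum.inl i)) = aF z0 (y i.1.1) (y ∘ i.1.2) / u i := by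
    intro y hy i
    have hn := IA.nd_snd i
    have hs := c.sub_of_cons i.2.1
    simp only [pols, map_mul, paR_map]
    rw [hevF, hevY, hevZ, paR_cx hy hs hn, div_eq_inv_mul]
    simp
  have hevr : ∀ (y : Fin m → Fin (q + 1 + 2) → ℝ), InX c y → ∀ F : IF c,
      MvPolynomial.aeval (fun p : Fin m × Fin (q + 1 + 2) => (y p.1 p.2 : ℂ))
        (pols c z0 u (Sum.inr F)) =
        ((lor (perp (y ∘ F.1) z0) (perp (y ∘ F.1) z0) : ℝ) : ℂ) := by
    intro y hy F
    simp only [pols, hR_map]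
    rw [hevF, hevZ, hR_cx hy F.2.1 F.2.2]
  have main := countable_arg (σ := Fin m × Fin (q + 1 + 2)) (A := IA c ⊕ IF c)
    (Ideal.span (gens c)) (pols c z0 u) (Sum.elim (fun i => wt i) (fun _ => 0))
    ?_ ((fun y => fun p : Fin m × Fin (q + 1 + 2) => (y p.1 p.2 : ℂ)) '' X) ?_ ?_
  · refine main.mono ?_
    rintro _ ⟨y, hy, rfl⟩
    refine ⟨_, ⟨y, hy, rfl⟩, ?_⟩
    simp only [Fintype.sum_sum_type, Sum.elim_inl, Sum.elim_inr, zero_mul, Finset.sum_const_zero,
      add_zero]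
    refine Finset.sum_congr rfl fun i _ => ?_
    have h1 := hevl y (hX y hy).1 i
    rw [hae] at h1
    rw [← h1]
  · -- the order relation
    intro L κ _ _ _ _ P φ hI ha k hk
    have gr : ∀ G, c.C G ≠ 0 → ∀ a b,
        lor (fun j => φ (YY (G a) j)) (fun j => φ (YY (G b) j)) =
          (rl (lor (c.y0 (G a)) (c.y0 (G b))) : L) := by
      intro G hG a b
      have h1 := hI _ (Ideal.subset_span (Or.inl ⟨G, hG, a, b, rfl⟩))
      rw [map_sub, lor_map, map_rl, sub_eq_zero] at h1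
      exact h1
    have lin : ∀ G, c.C G ≠ 0 → ∀ w : Fin (q + 1 + 1) → ℝ, ∑ i, w i • c.y0 (G i) = 0 →
        ∑ i, (rl (w i) : L) • (fun j => φ (YY (G i) j)) = 0 := by
      intro G hG w hw
      ext j
      have h1 := hI _ (Ideal.subset_span (Or.inr ⟨G, hG, w, hw, j, rfl⟩))
      simp only [map_sum, map_mul, map_rl] at h1
      simp only [Finset.sum_apply, Pi.smul_apply, smul_eq_mul, Pi.zero_apply]
      exact h1
    let l : LConf c L :=
      { y := fun v j => φ (YY v j)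
        gr := gr
        lin := lin
        z0 := fun j => φ (ZZ0 z0 j)
        hz0 := by
          intro F hs hn
          have h1 := ha (Sum.inr ⟨F, hs, hn⟩)
          simp only [pols, hR_map] at h1
          have hrt := realTuple_of_gr (y := fun v j => φ (YY v j)) gr hs hn
          rw [hR_eq hrt] at h1
          exact h1 }
    have htt : ∀ i : IA c, tt P l i.1.1 i.1.2 = k (Sum.inl i) := by
      intro i
      have hn := IA.nd_snd i
      have hs := c.sub_of_cons i.2.1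
      have h1 := hk (Sum.inl i)
      have h2 : φ (pols c z0 u (Sum.inl i)) = algebraMap ℂ L (u i)⁻¹ *
          lor (l.y i.1.1) (l.ep i.1.2) := by
        simp only [pols, map_mul, paR_map, AlgHom.commutes]
        congr 1
        have hrt := l.rt hs hn
        have h3 := paR_eq hrt (Complex.I / (c.D i.1.2 : ℂ)) (l.y i.1.1) l.z0
        refine h3.trans ?_
        rw [LConf.ep, map_div₀]
        rfl
      rw [h2, P.o_mul, P.o_const _ (inv_ne_zero (hu i)), zero_add] at h1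
      rw [tt, h1]
      rfl
    have hheart := heart P l hq
    have h1 := sum_IA (c := c) (fun x F => c.D F * c.jf F * (tt P l x F : ℝ))
    have h2 : ∑ F : Fin (q + 1) → Fin m, ∑ x,
        (if c.nd (Fin.cons x F : Fin (q + 1 + 1) → Fin m) then
        c.D F * c.jf F * (tt P l x F : ℝ) * (c.C (Fin.cons x F) : ℝ) else 0) = 0 := by
      refine Eq.trans ?_ hheart
      refine Finset.sum_congr rfl fun F _ => Finset.sum_congr rfl fun x _ => ?_
      split_ifs <;> ring
    rw [h2] at h1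
    simp only [Fintype.sum_sum_type, Sum.elim_inl, Sum.elim_inr, zero_mul, Finset.sum_const_zero,
      add_zero]
    refine Eq.trans ?_ h1
    refine Finset.sum_congr rfl fun i _ => ?_
    rw [wt, htt i]
    ring
  · rintro _ ⟨y, hy, rfl⟩ f hf
    have hle : Ideal.span (gens c) ≤ RingHom.ker
        (MvPolynomial.eval (fun p : Fin m × Fin (q + 1 + 2) => (y p.1 p.2 : ℂ))) := by
      rw [Ideal.span_le]
      rintro f (⟨G, hG, a, b, rfl⟩ | ⟨G, hG, w, hw, j, rfl⟩)
      · rw [SetLike.mem_coe, RingHom.mem_ker, ← hae]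
        have h1 := lor_map (MvPolynomial.aeval
          (fun p : Fin m × Fin (q + 1 + 2) => (y p.1 p.2 : ℂ))) (YY (G a)) (YY (G b))
        have h2 := map_rl (MvPolynomial.aeval
          (fun p : Fin m × Fin (q + 1 + 2) => (y p.1 p.2 : ℂ))) (lor (c.y0 (G a)) (c.y0 (G b)))
        rw [hevY, hevY, lor_cx, (hX y hy).1.2 G hG] at h1
        rw [map_sub]
        refine (congrArg₂ (· - ·) h1 h2).trans ?_
        rw [rl_complex, sub_self]
      · rw [SetLike.mem_coe, RingHom.mem_ker, ← hae]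
        have h1 := congrFun ((hX y hy).1.inLin G hG w hw) j
        simp only [Finset.sum_apply, Pi.smul_apply, smul_eq_mul, Pi.zero_apply] at h1
        have h2 : (MvPolynomial.aeval (fun p : Fin m × Fin (q + 1 + 2) => (y p.1 p.2 : ℂ)))
            (∑ i, (rl (w i) : MvPolynomial (Fin m × Fin (q + 1 + 2)) ℂ) * YY (G i) j) =
            ∑ i, (w i : ℂ) * (y (G i) j : ℂ) := by
          rw [map_sum]
          refine Finset.sum_congr rfl fun i _ => ?_
          rw [map_mul, map_rl, rl_complex, YY, MvPolynomial.aeval_X]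
        refine h2.trans ?_
        exact_mod_cast h1
    exact hle hf
  · rintro _ ⟨y, hy, rfl⟩ i
    obtain ⟨hyX, hyz⟩ := hX y hy
    rcases i with i | F
    · have h1 := hevl y hyX i
      rw [hae] at h1
      beta_reduce
      intro h0
      have h2 : aF z0 (y i.1.1) (y ∘ i.1.2) / u i = 0 := h1.symm.trans h0
      exact div_ne_zero (aF_ne_zero hyX z0 hyz i.2.1 (IA.nd_snd i) i.2.2) (hu i) h2
    · have h1 := hevr y hyX F
      rw [hae] at h1
      beta_reduce
      intro h0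
      have h2 := h1.symm.trans h0
      exact hyz F.1 F.2.1 F.2.2 (by exact_mod_cast h2)

end Pool.Agent.Work.MP_1c91cf_gt

end

section

/-!
# The set of volumes is a null set
-/

set_option autoImplicit false
set_option linter.unusedSectionVars false

open Matrix MeasureTheory Set Filter
open scoped ContDiff Topology

namespace Pool.Agent.Work.MP_1c91cf_gt

open Classical

variable {q m : ℕ} (c : RealConf q m)

/-- The linear space of configurations satisfying the linear relations. -/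
def LinS : Submodule ℝ (Fin m → Fin (q + 1 + 2) → ℝ) where
  carrier := {y | InLin c y}
  add_mem' := by
    intro a b ha hb G hG w hw
    simp only [Pi.add_apply, smul_add, Finset.sum_add_distrib, ha G hG w hw, hb G hG w hw, add_zero]
  zero_mem' := by
    intro G hG w hw
    simp
  smul_mem' := by
    intro r a ha G hG w hw
    have h1 : ∑ i, w i • (r • a) (G i) = r • ∑ i, w i • a (G i) := by
      rw [Finset.smul_sum]
      refine Finset.sum_congr rfl fun i _ => ?_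
      rw [Pi.smul_apply, smul_comm]
    rw [h1, ha G hG w hw, smul_zero]

variable {c}

lemma exists_z0 (y : Fin m → Fin (q + 1 + 2) → ℝ) : ∃ z0 : Fin (q + 1 + 2) → ℝ,
    ∀ F : Fin (q + 1) → Fin m, z0 ∉ Submodule.span ℝ (Set.range (y ∘ F)) := by
  by_contra hcon
  push Not at hcon
  have h1 : ⋃ F : Fin (q + 1) → Fin m,
      (Submodule.span ℝ (Set.range (y ∘ F)) : Set (Fin (q + 1 + 2) → ℝ)) = Set.univ := by
    ext z
    simp only [Set.mem_iUnion, Set.mem_univ, iff_true]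
    obtain ⟨F, hF⟩ := hcon z
    exact ⟨F, hF⟩
  obtain ⟨F, hF⟩ := Subspace.exists_eq_top_of_iUnion_eq_univ h1
  have h2 := finrank_range_le_card (R := ℝ) (y ∘ F)
  rw [Set.finrank, hF, finrank_top, Module.finrank_fin_fun, Fintype.card_fin] at h2
  omega

lemma exists_pair_of_nd_mem {y : Fin m → Fin (q + 1 + 2) → ℝ} (hX : InX c y)
    {z0 : Fin (q + 1 + 2) → ℝ}
    (hz0 : ∀ F : Fin (q + 1) → Fin m, z0 ∉ Submodule.span ℝ (Set.range (y ∘ F)))
    (F : Fin (q + 1) → Fin m) (hs : c.sub F) (hn : c.nd F) :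
    lor (perp (y ∘ F) z0) (perp (y ∘ F) z0) ≠ 0 :=
  (perp_pos (y ∘ F) (fun a => hX.1 _) (by rw [hX.gram_eq hs]; exact hn) z0 (hz0 F)).ne'

/-- The good open set. -/
def Good0 (z0 : Fin (q + 1 + 2) → ℝ) (u : IA c → ℂ) : Set (LinS c) :=
  {e | (∀ v w, lor (e.1 v) (e.1 w) < 0) ∧ (∀ v, 0 < e.1 v 0) ∧
    (∀ F : IF c, (gram (e.1 ∘ F.1) (e.1 ∘ F.1)).det < 0) ∧
    (∀ F : IF c, lor (perp (e.1 ∘ F.1) z0) (perp (e.1 ∘ F.1) z0) ≠ 0) ∧
    (∀ i : IA c, aF z0 (e.1 i.1.1) (e.1 ∘ i.1.2) / u i ∈ Complex.slitPlane)}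

lemma cs_val (e : LinS c) (v : Fin m) : CS e (fun e : LinS c => e.1 v) := by
  intro j
  have h1 : (fun e : LinS c => e.1 v j) =
      (((ContinuousLinearMap.proj (R := ℝ) j).comp
        (ContinuousLinearMap.proj (R := ℝ) (φ := fun _ : Fin m => Fin (q + 1 + 2) → ℝ) v)).comp
        (LinS c).subtypeL) := rfl
  rw [h1]
  exact ContinuousLinearMap.contDiff _ |>.contDiffAt

/-- the face of a pair -/
def IA.face (i : IA c) : IF c := ⟨i.1.2, c.sub_of_cons i.2.1, IA.nd_snd i⟩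

lemma isOpen_good (z0 : Fin (q + 1 + 2) → ℝ) (u : IA c → ℂ) : IsOpen (Good0 z0 u) := by
  rw [isOpen_iff_eventually]
  rintro e ⟨h1, h2, h3, h4, h5⟩
  refine Filter.Eventually.and ?_ (Filter.Eventually.and ?_ (Filter.Eventually.and ?_
    (Filter.Eventually.and ?_ ?_)))
  · rw [eventually_all]
    intro v
    rw [eventually_all]
    intro w
    exact (cs_lor (cs_val e v) (cs_val e w)).continuousAt.eventually_lt continuousAt_const (h1 v w)
  · rw [eventually_all]
    intro v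
    exact continuousAt_const.eventually_lt (cs_val e v 0).continuousAt (h2 v)
  · rw [eventually_all]
    intro F
    exact (contDiffAt_det (cs_gram (F := fun e : LinS c => e.1 ∘ F.1)
      fun a => cs_val e (F.1 a))).continuousAt.eventually_lt continuousAt_const (h3 F)
  · rw [eventually_all]
    intro F
    have h6 := cs_perp (F := fun e : LinS c => e.1 ∘ F.1) (fun a => cs_val e (F.1 a))
      (cs_const z0) (h3 F).ne
    exact (cs_lor h6 h6).continuousAt.eventually_ne (h4 F)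
  · rw [eventually_all]
    intro i
    have h6 := contDiffAt_aF (F := fun e : LinS c => e.1 ∘ i.1.2) z0
      (fun a => cs_val e (i.1.2 a)) (cs_val e i.1.1) (h3 i.face)
    exact (h6.continuousAt.div_const (u i)).eventually_mem
      (Complex.isOpen_slitPlane.mem_nhds (h5 i))

/-- The auxiliary function. -/
noncomputable def HH (z0 : Fin (q + 1 + 2) → ℝ) (u : IA c → ℂ) (e : LinS c) : ℝ :=
  VV c.C e.1 - ((q : ℝ) + 2) *
    ∑ i : IA c, wt i * Complex.arg (aF z0 (e.1 i.1.1) (e.1 ∘ i.1.2) / u i)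

lemma contDiffAt_arg {E : Type*} [NormedAddCommGroup E] [NormedSpace ℝ E] {g : E → ℂ} {x : E}
    (hg : ContDiffAt ℝ ∞ g x) (hx : g x ∈ Complex.slitPlane) :
    ContDiffAt ℝ ∞ (fun e => Complex.arg (g e)) x := by
  have h1 : (fun e => Complex.arg (g e)) = fun e => Complex.imCLM (Complex.log (g e)) := by
    funext e
    simp [Complex.log_im]
  rw [h1]
  have h2 : ContDiffAt ℝ ∞ Complex.log (g x) :=
    (Complex.contDiffAt_log hx).restrict_scalars ℝ
  exact Complex.imCLM.contDiff.contDiffAt.comp x (h2.comp x hg)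

lemma contDiffAt_HH (z0 : Fin (q + 1 + 2) → ℝ) (u : IA c → ℂ) {e : LinS c}
    (he : e ∈ Good0 z0 u) : ContDiffAt ℝ ∞ (HH z0 u) e := by
  obtain ⟨h1, h2, h3, h4, h5⟩ := he
  unfold HH
  refine ContDiffAt.sub ?_ (contDiffAt_const.mul (ContDiffAt.sum fun i _ =>
    contDiffAt_const.mul ?_))
  · exact contDiffAt_VV c.C (Y := fun e : LinS c => e.1) (fun v => cs_val e v) h1 h2
  · have h6 := contDiffAt_aF (F := fun e : LinS c => e.1 ∘ i.1.2) z0
      (fun a => cs_val e (i.1.2 a)) (cs_val e i.1.1) (h3 i.face)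
    exact contDiffAt_arg (h6.div_const (u i)) (h5 i)

lemma HH_lineDeriv (z0 : Fin (q + 1 + 2) → ℝ) (u : IA c → ℂ) (hu : ∀ i, u i ≠ 0) {e : LinS c}
    (he : e ∈ Good0 z0 u) (hX : InX c e.1) (e' : LinS c) :
    HasDerivAt (fun t : ℝ => HH z0 u (e + t • e')) 0 0 := by
  obtain ⟨h1, h2, h3, h4, h5⟩ := he
  have hV := VV_hasDerivAt c.C c.alt c.cyc e.1 e'.1 h1 h2
  rw [crit_identity hX e'.2 z0] at hV
  -- angles
  have hang : ∀ i : IA c, ∃ r : ℝ,
      HasDerivAt (fun t : ℝ => Complex.arg (aF z0 ((e + t • e').1 i.1.1)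
        ((e + t • e').1 ∘ i.1.2) / u i)) r 0 ∧
      c.D i.1.2 * r = cn (e.1 i.1.1) (e'.1 i.1.1) (e.1 ∘ i.1.2) (e'.1 ∘ i.1.2) -
        cn z0 0 (e.1 ∘ i.1.2) (e'.1 ∘ i.1.2) := by
    intro i
    have hs := c.sub_of_cons i.2.1
    have hn := IA.nd_snd i
    have hg := hX.gram_eq hs
    have hd : (gram (e.1 ∘ i.1.2) (e.1 ∘ i.1.2)).det < 0 := h3 i.face
    have hx : lor (perp (e.1 ∘ i.1.2) (e.1 i.1.1)) (perp (e.1 ∘ i.1.2) (e.1 i.1.1)) ≠ 0 := by
      refine (perp_pos _ (fun a => hX.1 _) hd.ne _ ?_).ne'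
      have h6 := (c.nd_iff _).1 i.2.2
      have h7 : (gram (e.1 ∘ (Fin.cons i.1.1 i.1.2 : Fin (q + 1 + 1) → Fin m))
          (e.1 ∘ (Fin.cons i.1.1 i.1.2 : Fin (q + 1 + 1) → Fin m))).det ≠ 0 := by
        rw [hX.gram_eq (c.sub_of_C i.2.1)]; exact i.2.2
      have h8 := linearIndependent_of_det_gram _ h7
      have h9 : e.1 ∘ (Fin.cons i.1.1 i.1.2 : Fin (q + 1 + 1) → Fin m) =
          Fin.cons (e.1 i.1.1) (e.1 ∘ i.1.2) := by
        ext a
        refine Fin.cases ?_ (fun a' => ?_) a <;> rfl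
      rw [h9, linearIndependent_finCons] at h8
      exact h8.2
    obtain ⟨a', ha', hD⟩ := angle_hasDerivAt z0 (e.1 i.1.1) (e'.1 i.1.1) (e.1 ∘ i.1.2)
      (e'.1 ∘ i.1.2) hd hx (h4 i.face)
    refine ⟨(a' / aF z0 (e.1 i.1.1) (e.1 ∘ i.1.2)).im, ?_, ?_⟩
    · have h6 : (fun t : ℝ => Complex.arg (aF z0 ((e + t • e').1 i.1.1)
          ((e + t • e').1 ∘ i.1.2) / u i)) = fun t : ℝ => Complex.imCLM (Complex.log
          (aF z0 (e.1 i.1.1 + t • e'.1 i.1.1) (e.1 ∘ i.1.2 + t • (e'.1 ∘ i.1.2)) / u i)) := by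
        funext t
        rw [Complex.imCLM_apply, Complex.log_im]
        rfl
      rw [h6]
      have h7 := ha'.div_const (u i)
      have h8 : aF z0 (e.1 i.1.1 + (0 : ℝ) • e'.1 i.1.1) (e.1 ∘ i.1.2 + (0 : ℝ) • (e'.1 ∘ i.1.2)) / u i
          = aF z0 (e.1 i.1.1) (e.1 ∘ i.1.2) / u i := by
        rw [zero_smul, zero_smul, add_zero, add_zero]
      have h9 := h7.clog_real (by rw [h8]; exact h5 i)
      have h10 := Complex.imCLM.hasFDerivAt.comp_hasDerivAt (0 : ℝ) h9
      refine h10.congr_deriv ?_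
      rw [h8, Complex.imCLM_apply]
      congr 1
      have h11 := hu i
      field_simp
    · rw [← hD]
      congr 1
      rw [RealConf.D, hg]
  choose r hr1 hr2 using hang
  have hS : HasDerivAt (fun t : ℝ => ∑ i : IA c, wt i * Complex.arg (aF z0 ((e + t • e').1 i.1.1)
        ((e + t • e').1 ∘ i.1.2) / u i)) (∑ i : IA c, wt i * r i) 0 :=
    HasDerivAt.fun_sum fun i _ => (hr1 i).const_mul (wt i)
  have hfin := hV.sub (hS.const_mul ((q : ℝ) + 2))
  have heq : ∑ i : IA c, wt i * r i = ∑ F : Fin (q + 1) → Fin m, ∑ x,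
      (if c.nd (Fin.cons x F : Fin (q + 1 + 1) → Fin m) then
        (c.C (Fin.cons x F) : ℝ) * (c.jf F *
          (cn (e.1 x) (e'.1 x) (e.1 ∘ F) (e'.1 ∘ F) - cn z0 0 (e.1 ∘ F) (e'.1 ∘ F))) else 0) := by
    have h6 := sum_IA (c := c) (fun x F => c.jf F *
          (cn (e.1 x) (e'.1 x) (e.1 ∘ F) (e'.1 ∘ F) - cn z0 0 (e.1 ∘ F) (e'.1 ∘ F)))
    have h7 : ∑ i : IA c, wt i * r i = ∑ i : IA c, (c.jf i.1.2 *
          (cn (e.1 i.1.1) (e'.1 i.1.1) (e.1 ∘ i.1.2) (e'.1 ∘ i.1.2) -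
          cn z0 0 (e.1 ∘ i.1.2) (e'.1 ∘ i.1.2))) * (c.C (Fin.cons i.1.1 i.1.2) : ℝ) := by
      refine Finset.sum_congr rfl fun i _ => ?_
      rw [wt, ← hr2 i]
      ring
    rw [h7, h6]
    refine Finset.sum_congr rfl fun F _ => Finset.sum_congr rfl fun x _ => ?_
    split_ifs <;> ring
  rw [heq, sub_self] at hfin
  exact hfin

lemma HH_crit (z0 : Fin (q + 1 + 2) → ℝ) (u : IA c → ℂ) (hu : ∀ i, u i ≠ 0) {e : LinS c}
    (he : e ∈ Good0 z0 u) (hX : InX c e.1) : fderiv ℝ (HH z0 u) e = 0 := by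
  have hd : DifferentiableAt ℝ (HH z0 u) e :=
    (contDiffAt_HH z0 u he).differentiableAt (by norm_num)
  ext e'
  have h1 : HasDerivAt (fun t : ℝ => HH z0 u (e + t • e')) (fderiv ℝ (HH z0 u) e e') 0 :=
    hd.hasFDerivAt.hasLineDerivAt e'
  have h2 := h1.unique (HH_lineDeriv z0 u hu he hX e')
  simpa using h2

/-- the volume takes only a null set of values near a point -/
theorem local_null (hq : 1 ≤ q) {e : LinS c} (hX : InX c e.1) :
    ∃ O ∈ 𝓝 e, volume ((fun e : LinS c => VV c.C e.1) '' ({e | InX c e.1} ∩ O)) = 0 := by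
  obtain ⟨z0, hz0⟩ := exists_z0 e.1
  have hz := exists_pair_of_nd_mem hX hz0
  set u : IA c → ℂ := fun i => aF z0 (e.1 i.1.1) (e.1 ∘ i.1.2) with hu
  have hu0 : ∀ i, u i ≠ 0 := fun i => aF_ne_zero hX z0 hz i.2.1 (IA.nd_snd i) i.2.2
  have heG : e ∈ Good0 z0 u := by
    refine ⟨fun v w => (hX.1 v).lor_neg (hX.1 w), fun v => (hX.1 v).2, fun F => ?_, fun F => ?_,
      fun i => ?_⟩
    · exact det_gram_neg _ (fun a => hX.1 _) (by rw [hX.gram_eq F.2.1]; exact F.2.2)
    · exact hz F.1 F.2.1 F.2.2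
    · rw [hu]
      beta_reduce
      rw [div_self (hu0 i)]
      exact Complex.one_mem_slitPlane
  refine ⟨Good0 z0 u, (isOpen_good z0 u).mem_nhds heG, ?_⟩
  -- Sard
  have hsard := sard_real (isOpen_good z0 u) (f := HH z0 u)
    (fun e he => (contDiffAt_HH z0 u he).contDiffWithinAt)
  have hnull : volume (HH z0 u '' ({e | InX c e.1} ∩ Good0 z0 u)) = 0 := by
    refine measure_mono_null ?_ hsard
    rintro _ ⟨e, ⟨he1, he2⟩, rfl⟩
    exact ⟨e, ⟨he2, HH_crit z0 u hu0 he2 he1⟩, rfl⟩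
  -- countability
  have hcount := countable_angles hq z0 u hu0
    ((fun e : LinS c => e.1) '' ({e | InX c e.1} ∩ Good0 z0 u)) (by
      rintro _ ⟨e, ⟨he1, he2⟩, rfl⟩
      exact ⟨he1, fun F hs hn => he2.2.2.2.1 ⟨F, hs, hn⟩⟩)
  set K := ((fun y : Fin m → Fin (q + 1 + 2) → ℝ => ∑ i : IA c, wt i *
    Complex.arg (aF z0 (y i.1.1) (y ∘ i.1.2) / u i)) ''
    ((fun e : LinS c => e.1) '' ({e | InX c e.1} ∩ Good0 z0 u))) with hK
  have hsub : (fun e : LinS c => VV c.C e.1) '' ({e | InX c e.1} ∩ Good0 z0 u) ⊆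
      ⋃ s ∈ K, (fun x => x + ((q : ℝ) + 2) * s) '' (HH z0 u '' ({e | InX c e.1} ∩ Good0 z0 u)) := by
    rintro _ ⟨e, he, rfl⟩
    refine Set.mem_iUnion₂.2 ⟨_, ⟨e.1, ⟨e, he, rfl⟩, rfl⟩, ⟨HH z0 u e, ⟨e, he, rfl⟩, ?_⟩⟩
    simp only [HH]
    ring
  refine measure_mono_null hsub ?_
  rw [measure_biUnion_null_iff hcount]
  intro s _
  rw [Set.image_add_right, measure_preimage_add_right]
  exact hnull

/-- The set of volumes is a null set. -/
theorem volume_values_null (hq : 1 ≤ q) :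
    volume ((fun e : LinS c => VV c.C e.1) '' {e | InX c e.1}) = 0 :=
  volume_image_eq_zero_of_locally fun _ he => local_null hq he

/-- A continuous path of configurations has constant volume. -/
theorem path_const (hq : 1 ≤ q) {y : ℝ → Fin m → Fin (q + 1 + 2) → ℝ} (hy : Continuous y)
    (hX : ∀ t, InX c (y t)) (s t : ℝ) : VV c.C (y s) = VV c.C (y t) := by
  have hcont : Continuous fun t => VV c.C (y t) := by
    rw [continuous_iff_continuousAt]
    intro t
    have h1 : ContDiffAt ℝ ∞ (fun e : Fin m → Fin (q + 1 + 2) → ℝ => VV c.C e) (y t) := by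
      refine contDiffAt_VV c.C (Y := fun e => e) (fun v j => ?_)
        (fun v w => ((hX t).1 v).lor_neg ((hX t).1 w)) (fun v => ((hX t).1 v).2)
      exact (contDiff_apply_apply ℝ ℝ v j).contDiffAt
    exact h1.continuousAt.comp hy.continuousAt
  have hsub : Set.range (fun t => VV c.C (y t)) ⊆
      (fun e : LinS c => VV c.C e.1) '' {e | InX c e.1} := by
    rintro _ ⟨t, rfl⟩
    exact ⟨⟨y t, (hX t).inLin⟩, hX t, rfl⟩
  have hnull : volume (Set.range (fun t => VV c.C (y t))) = 0 :=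
    measure_mono_null hsub (volume_values_null hq)
  have hpre : IsPreconnected (Set.range (fun t => VV c.C (y t))) := isPreconnected_range hcont
  by_contra hne
  wlog hlt : VV c.C (y s) < VV c.C (y t) generalizing s t
  · exact this t s (Ne.symm hne) (lt_of_le_of_ne (not_lt.1 hlt) (Ne.symm hne))
  have h1 : Set.Icc (VV c.C (y s)) (VV c.C (y t)) ⊆ Set.range (fun t => VV c.C (y t)) :=
    hpre.ordConnected.out ⟨s, rfl⟩ ⟨t, rfl⟩
  have h2 := measure_mono_null h1 hnull
  rw [Real.volume_Icc, ENNReal.ofReal_eq_zero] at h2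
  linarith

end Pool.Agent.Work.MP_1c91cf_gt

end
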